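import Mathlib

/-!
# MP_1c8600_lc: iterated Laver forcing as a monoid of maps — basic definitions

`Λ` is a well-ordered type (the coordinates), `Om Λ = Λ → ℕ → ℕ` the space of points.
-/

set_option autoImplicit false

open Set

namespace Pool.LV

/-- Points. -/
abbrev Om (Λ : Type) := Λ → ℕ → ℕ

/-- The first `n` entries of a sequence. -/
def pre {α : Type} (y : ℕ → α) (n : ℕ) : List α := (List.range n).map y

section lists

variable {α : Type}

@[simp] lemma length_pre (y : ℕ → α) (n : ℕ) : (pre y n).length = n := by simp [pre]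

@[simp] lemma pre_zero (y : ℕ → α) : pre y 0 = [] := rfl

lemma pre_succ (y : ℕ → α) (n : ℕ) : pre y (n + 1) = pre y n ++ [y n] := by
  simp [pre, List.range_succ]

@[simp] lemma getElem_pre (y : ℕ → α) (n i : ℕ) (h : i < (pre y n).length) :
    (pre y n)[i] = y i := by simp [pre]

lemma pre_eq_iff {y z : ℕ → α} {n : ℕ} : pre y n = pre z n ↔ ∀ i < n, y i = z i := by
  constructor
  · intro h i hi
    have h1 : (pre y n)[i]'(by simpa using hi) = (pre z n)[i]'(by simpa using hi) := by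
      simp only [h]
    simpa using h1
  · intro h
    apply List.ext_getElem
    · simp
    · intro i h1 h2
      simp only [getElem_pre]
      exact h i (by simpa using h1)

lemma pre_inj {y z : ℕ → α} {n m : ℕ} (h : pre y n = pre z m) : n = m ∧ ∀ i < n, y i = z i := by
  have h1 : n = m := by simpa using congrArg List.length h
  subst h1
  exact ⟨rfl, pre_eq_iff.1 h⟩

lemma take_pre (y : ℕ → α) {n m : ℕ} (h : m ≤ n) : (pre y n).take m = pre y m := by
  apply List.ext_getElem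
  · simp [h]
  · intro i h1 h2
    simp

lemma pre_prefix (y : ℕ → α) {n m : ℕ} (h : m ≤ n) : pre y m <+: pre y n := by
  rw [← take_pre y h]
  exact List.take_prefix _ _

end lists

variable {Λ : Type} [LinearOrder Λ]

/-- `v` agrees with `u` up to the length function `ℓ`. -/
def Ag (ℓ : Λ →₀ ℕ) (u v : Om Λ) : Prop := ∀ γ, ∀ i < ℓ γ, v γ i = u γ i

/-- `f` is continuous (with discrete values) and is decided by coordinates in `A`. -/
def Cts (A : Set Λ) {α : Type} (f : Om Λ → α) : Prop :=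
  ∀ u, ∃ ℓ : Λ →₀ ℕ, (∀ γ, ℓ γ ≠ 0 → γ ∈ A) ∧ ∀ v, Ag ℓ u v → f v = f u

/-- `v` agrees with `u` at all coordinates below `γ`. -/
def Bel (γ : Λ) (u v : Om Λ) : Prop := ∀ ξ < γ, v ξ = u ξ

/-- The length of the common initial segment of `h v γ` for all `v` agreeing with `u` below `γ`. -/
noncomputable def stem (h : Om Λ → Om Λ) (γ : Λ) (u : Om Λ) : ℕ :=
  sInf {i | ∃ v, Bel γ u v ∧ h v γ i ≠ h u γ i}

/-- `h` is a Laver map with countable support `A`. -/
structure IsL (A : Set Λ) (h : Om Λ → Om Λ) : Prop where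
  cnt : A.Countable
  off : ∀ γ, γ ∉ A → ∀ u, h u γ = u γ
  cts : ∀ γ ∈ A, ∀ n, Cts (A ∩ Iic γ) (fun u => h u γ n)
  ctc : ∀ γ ∈ A, Cts (A ∩ Iio γ) (stem h γ)
  pre : ∀ γ u v l, Bel γ u v → (∀ i < l, v γ i = u γ i) → ∀ i < stem h γ u + l, h v γ i = h u γ i
  mono : ∀ γ u v l, Bel γ u v → (∀ i < l, v γ i = u γ i) → u γ l < v γ l →
    h u γ (stem h γ u + l) < h v γ (stem h γ u + l)

/-- Laver maps with support inside `I`. -/
def Lav (I : Set Λ) (h : Om Λ → Om Λ) : Prop := ∃ A ⊆ I, IsL A h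

/-- The stem is empty at the coordinates in `F`. -/
def Pure (F : Set Λ) (h : Om Λ → Om Λ) : Prop := ∀ γ ∈ F, ∀ u, stem h γ u = 0

/-- Insert the initial part of `u` of length `ℓ` in front. -/
def ins (u : Om Λ) (ℓ : Λ →₀ ℕ) (v : Om Λ) : Om Λ :=
  fun γ i => if i < ℓ γ then u γ i else v γ (i - ℓ γ)

/-- Remove the initial part of length `ℓ`. -/
def strip (ℓ : Λ →₀ ℕ) (v : Om Λ) : Om Λ := fun γ i => v γ (i + ℓ γ)

/-- `h` below `β`, the identity elsewhere. -/
def res (β : Λ) (h : Om Λ → Om Λ) (u : Om Λ) : Om Λ := fun γ => if γ < β then h u γ else u γ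

/-- `G` is a right ideal for the Laver maps with support inside `I`. -/
def RI (I : Set Λ) (G : Set (Om Λ → Om Λ)) : Prop := ∀ g ∈ G, ∀ e, Lav I e → g ∘ e ∈ G

/-- `h` is barred by `G`. -/
def Barred (I : Set Λ) (G : Set (Om Λ → Om Λ)) (h : Om Λ → Om Λ) : Prop :=
  ∃ A ⊆ I, A.Countable ∧ ∀ u, ∃ ℓ : Λ →₀ ℕ, (∀ γ, ℓ γ ≠ 0 → γ ∈ A) ∧ h ∘ ins u ℓ ∈ G

/-- Pure decision for a right ideal. -/
def PB (I : Set Λ) : Prop := ∀ (F : Finset Λ), (↑F : Set Λ) ⊆ I → ∀ G, RI I G →
  (∃ k, Lav I k ∧ Pure ↑F k ∧ Barred I G k) ∨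
    (∃ k, Lav I k ∧ Pure ↑F k ∧ ∀ e, Lav I e → k ∘ e ∉ G)

/-- `D` is a dense right ideal for the Laver maps with support inside `I`. -/
def Dense' (I : Set Λ) (D : Set (Om Λ → Om Λ)) : Prop :=
  RI I D ∧ ∀ h, Lav I h → ∃ e, Lav I e ∧ h ∘ e ∈ D

/-- Pure decision for countably many dense sets. -/
def TT (I : Set Λ) : Prop := ∀ (F : Finset Λ), (↑F : Set Λ) ⊆ I →
  ∀ D : ℕ → Set (Om Λ → Om Λ), (∀ n, Dense' I (D n)) →
    ∃ k, Lav I k ∧ Pure ↑F k ∧ ∀ n, Barred I (D n) k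

/-- Local names of reals with (countable) support inside `I`. -/
def CC (I : Set Λ) (φ : Om Λ → ℕ → Bool) : Prop :=
  ∃ A ⊆ I, A.Countable ∧ ∀ n, Cts A (fun u => φ u n)

/-- No restriction of the local name `φ` has its support below `δ`. -/
def NC (δ : Λ) (φ : Om Λ → ℕ → Bool) : Prop := ¬ ∃ q, Lav univ q ∧ CC (Iio δ) (φ ∘ q)

/-! ### The decoder -/

/-- The code `c` (a set of triples `(m, S, w)`) decodes `z` from `v`. -/
def GR (c v z : ℕ → Bool) : Prop :=
  (∀ (m : ℕ) (S : List (List Bool)) (w : List Bool),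
      c (Encodable.encode (m, S, w)) = true → pre v m ∉ S → w = pre z w.length) ∧
    ∀ L : ℕ, ∃ (m : ℕ) (S : List (List Bool)) (w : List Bool),
      c (Encodable.encode (m, S, w)) = true ∧ pre v m ∉ S ∧ L ≤ w.length

/-- The `G_δ` set coded by `c`. -/
def Gd (c v : ℕ → Bool) : Prop :=
  ∀ n : ℕ, ∃ s : List Bool, c (Encodable.encode (n, s)) = true ∧ s = pre v s.length

end Pool.LV
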