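import Pool.Agent.Lib.MP_1c8600_lv.Dec

/-!
# Lemma CD: convergence and deviation
-/

set_option autoImplicit false
set_option linter.unusedSectionVars false

open Set

namespace Pool.LV

variable {Λ : Type} [LinearOrder Λ] [WellFoundedLT Λ]

/-- The state at stage `n`. -/
structure CS (δ : Λ) (F : Finset Λ) where
  π : Prot Λ
  f : Om Λ → Om Λ
  n : ℕ
  hF : F ⊆ π.F
  hπ : ∀ γ ∈ π.F, δ ≤ γ → γ ∈ F ∧ π.r γ = Finsupp.single [] n
  hf : Lav univ f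

/-- The cells with empty position at all coordinates of `F` above `δ`. -/
def CW (δ : Λ) (π : Prot Λ) : Set (Om Λ) := {u | ∀ γ ∈ π.F, δ ≤ γ → π.pos γ u = []}

/-- One stage. -/
def CStep {δ : Λ} {F : Finset Λ} (φ : Om Λ → ℕ → Bool) (σ : CS δ F) (b : Om Λ → Om Λ)
    (A : Set Λ) (σ' : CS δ F) : Prop :=
  IsL A b ∧ δ ∈ A ∧ σ.π.Pres b ∧ (∀ u ξ, δ ≤ ξ → u δ 0 < σ.n → b u ξ = u ξ) ∧
    (∀ u₀ ∈ CW δ σ.π, ∃ a, ∀ v, pre (φ (σ.f (b (σ.π.J u₀ v)))) σ.n = a) ∧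
    Prot.LE σ.π σ'.π ∧ σ'.f = σ.f ∘ b ∧ σ'.n = σ.n + 1

/-- The decision at one stage. -/
theorem CD_b {φ : Om Λ → ℕ → Bool} (hφ : CC univ φ) {δ : Λ} {F : Finset Λ} (hδ : δ ∈ F)
    (σ : CS δ F) : ∃ b A, IsL A b ∧ δ ∈ A ∧ σ.π.Pres b ∧
      (∀ u ξ, δ ≤ ξ → u δ 0 < σ.n → b u ξ = u ξ) ∧
      ∀ u₀ ∈ CW δ σ.π, ∃ a, ∀ v, pre (φ (σ.f (b (σ.π.J u₀ v)))) σ.n = a := by
  obtain ⟨b, ⟨A, -, hb⟩, hp, hQ, hid⟩ := Prot.allcells (π := σ.π) (I := univ) (subset_univ _) σ.f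
    (CW δ σ.π) (fun _ g => ∃ a, ∀ v, pre (φ (g v)) σ.n = a)
    (fun u u₀ hc hu γ hγ hδγ => by rw [hc γ hγ]; exact hu γ hγ hδγ)
    (fun _ _ _ _ h => h)
    (fun _ g e ⟨a, ha⟩ _ _ => ⟨a, fun v => ha (e v)⟩)
    (fun b hb hp u₀ _ => by
      have hg : Lav univ (σ.f ∘ b ∘ σ.π.J u₀) :=
        σ.hf.comp (hb.comp (σ.π.lav_J (subset_univ _) u₀))
      obtain ⟨k, hk, hpk, a, ha⟩ := pure_decide_pre (hφ.comp hg) σ.π.F σ.n
      exact ⟨k, hk, hpk, a, fun v => ha v⟩)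
  refine ⟨b, insert δ A, hb.mono_supp (subset_insert _ _) (hb.cnt.insert δ),
    mem_insert _ _, hp, fun u ξ hξ hlt => hid u ξ fun u₀ hu₀ => ?_, fun u₀ hu₀ => hQ u₀ hu₀⟩
  have hδF : δ ∈ σ.π.F := σ.hF hδ
  refine ⟨δ, hδF, hξ, fun heq => ?_⟩
  rw [hu₀ δ hδF le_rfl] at heq
  have h1 : plen (σ.π.r δ) (u δ) = 0 := by
    have := σ.π.length_pos δ u
    rw [heq] at this
    simpa [Prot.len] using this.symm
  have h2 := plen_spec (σ.π.r δ) (u δ)
  rw [h1, (σ.hπ δ hδF le_rfl).2] at h2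
  simp only [pre_zero, Finsupp.single_eq_same] at h2
  omega

/-- Raise the number of protected first entries above `δ`. -/
noncomputable def bump (δ : Λ) (n : ℕ) (π : Prot Λ) : Prot Λ where
  F := π.F
  r := fun ξ => if δ ≤ ξ then Finsupp.single [] n else π.r ξ
  hr := by
    intro ξ t ht
    by_cases hξ : δ ≤ ξ
    · simp only [hξ, if_true] at ht ⊢
      have h1 : t = [] := by
        by_contra hne
        exact ht (Finsupp.single_eq_of_ne hne)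
      subst h1
      intro i hi
      simp at hi
    · simp only [hξ, if_false] at ht ⊢
      exact π.hr ξ t ht

lemma bump_r_low {δ : Λ} {n : ℕ} {π : Prot Λ} {ξ : Λ} (h : ξ < δ) :
    (bump δ n π).r ξ = π.r ξ := by
  simp [bump, not_le.2 h]

lemma bump_r_up {δ : Λ} {n : ℕ} {π : Prot Λ} {ξ : Λ} (h : δ ≤ ξ) :
    (bump δ n π).r ξ = Finsupp.single [] n := by
  simp [bump, h]

lemma le_bump {δ : Λ} {F : Finset Λ} (σ : CS δ F) {π' : Prot Λ} (h : Prot.LE σ.π π') :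
    Prot.LE σ.π (bump δ (σ.n + 1) π') := by
  refine ⟨h.1, fun ξ hξ t => ?_⟩
  rcases lt_or_ge ξ δ with h1 | h1
  · rw [bump_r_low h1]
    exact h.2 ξ hξ t
  · rw [bump_r_up h1, (σ.hπ ξ hξ h1).2]
    by_cases ht : t = []
    · subst ht
      simp
    · rw [Finsupp.single_eq_of_ne ht, Finsupp.single_eq_of_ne ht]

theorem CD_stage {φ : Om Λ → ℕ → Bool} (hφ : CC univ φ) {δ : Λ} {F : Finset Λ} (hδ : δ ∈ F)
    (σ : CS δ F) (γ : Λ) (hγ : γ < δ) (t : List ℕ) :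
    ∃ b A σ', CStep φ σ b A σ' ∧ Prot.Served σ.π σ'.π γ t := by
  obtain ⟨b, A, hb, hA, hp, hid, hdec⟩ := CD_b hφ hδ σ
  have hle := Prot.le_add σ.π γ t
  refine ⟨b, A, ⟨bump δ (σ.n + 1) (σ.π.add γ t), σ.f ∘ b, σ.n + 1, σ.hF.trans hle.1, ?_,
    σ.hf.comp ⟨A, subset_univ _, hb⟩⟩, ⟨hb, hA, hp, hid, hdec, le_bump σ hle, rfl, rfl⟩, ?_⟩
  · intro ξ hξ hδξ
    refine ⟨?_, bump_r_up hδξ⟩
    have hne : ξ ≠ γ := (hγ.trans_le hδξ).ne'
    have hξ' : ξ ∈ (σ.π.add γ t).F := hξ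
    have h2 : ξ ∈ σ.π.F := by
      by_cases hγF : γ ∈ σ.π.F
      · rwa [Prot.add_F_old hγF] at hξ'
      · rw [Prot.add_F_new hγF, Finset.mem_insert] at hξ'
        exact hξ'.resolve_left hne
    exact (σ.hπ ξ h2 hδξ).1
  · have h := Prot.served_add σ.π γ t
    refine ⟨h.1, fun h1 h2 => ?_⟩
    show _ ≤ (bump δ (σ.n + 1) (σ.π.add γ t)).r γ t
    rw [bump_r_low hγ]
    exact h.2 h1 h2

theorem CD_stage0 {φ : Om Λ → ℕ → Bool} (hφ : CC univ φ) {δ : Λ} {F : Finset Λ} (hδ : δ ∈ F)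
    (σ : CS δ F) : ∃ b A σ', CStep φ σ b A σ' := by
  obtain ⟨b, A, hb, hA, hp, hid, hdec⟩ := CD_b hφ hδ σ
  refine ⟨b, A, ⟨bump δ (σ.n + 1) σ.π, σ.f ∘ b, σ.n + 1, σ.hF, ?_,
    σ.hf.comp ⟨A, subset_univ _, hb⟩⟩,
    ⟨hb, hA, hp, hid, hdec, le_bump σ (Prot.LE.refl _), rfl, rfl⟩⟩
  intro ξ hξ hδξ
  exact ⟨(σ.hπ ξ hξ hδξ).1, bump_r_up hδξ⟩

/-- The stem is empty if `h` is the identity at `γ` near `u`. -/
lemma stem_eq_zero {h : Om Λ → Om Λ} {γ : Λ} {u : Om Λ} (hh : ∀ v, Bel γ u v → h v γ = v γ) :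
    stem h γ u = 0 := by
  classical
  unfold stem
  rw [Nat.sInf_eq_zero]
  left
  refine ⟨Function.update u γ (fun _ => u γ 0 + 1), ?_, ?_⟩
  · intro ξ hξ
    exact Function.update_of_ne hξ.ne _ _
  · rw [hh _ (fun ξ hξ => Function.update_of_ne hξ.ne _ _), hh u (fun _ _ => rfl)]
    simp

/-- The stage function. -/
noncomputable def mm (δ : Λ) (A : ℕ → Set Λ) (π : ℕ → Prot Λ) (γ : Λ) (l : ℕ) (u : Om Λ) : ℕ := by
  classical
  exact
    if γ < δ then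
      (if γ ∈ ⋃ i, A i then sInf {n | γ ∈ (π n).F ∧ Nd ((π n).r γ) (pre (u γ) l)} else 0)
    else if γ = δ ∧ l = 0 then 0 else u δ 0 + 1

section
variable {δ : Λ} {A : ℕ → Set Λ} {π : ℕ → Prot Λ} {γ : Λ} {l : ℕ} {u : Om Λ}

lemma mm_lt (h : γ < δ) (hA : γ ∈ ⋃ i, A i) : mm δ A π γ l u =
    sInf {n | γ ∈ (π n).F ∧ Nd ((π n).r γ) (pre (u γ) l)} := by
  unfold mm
  rw [if_pos h, if_pos hA]

lemma mm_off (h : γ < δ) (hA : γ ∉ ⋃ i, A i) : mm δ A π γ l u = 0 := by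
  unfold mm
  rw [if_pos h, if_neg hA]

lemma mm_eq : mm δ A π δ 0 u = 0 := by
  unfold mm
  rw [if_neg (lt_irrefl δ), if_pos ⟨rfl, rfl⟩]

lemma mm_ge (h : ¬ γ < δ) (h' : ¬ (γ = δ ∧ l = 0)) : mm δ A π γ l u = u δ 0 + 1 := by
  unfold mm
  rw [if_neg h, if_neg h']

end

/-- The limit of a run. -/
theorem CD_limit {φ : Om Λ → ℕ → Bool} {δ : Λ} {F : Finset Λ} (hδ : δ ∈ F)
    (σ : ℕ → CS δ F) (b : ℕ → Om Λ → Om Λ) (A : ℕ → Set Λ) (h0 : (σ 0).n = 0)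
    (hf0 : (σ 0).f = id)
    (hS : ∀ n, CStep φ (σ n) (b n) (A n) (σ (n + 1)))
    (hE : ∀ γ ∈ Iio δ, ((∃ n, γ ∈ A n) ∨ ∃ n, γ ∈ ((σ n).π).F) → ∀ t : List ℕ,
        ∃ n, γ ∈ ((σ n).π).F ∧ Nd (((σ n).π).r γ) t) :
    ∃ k : ℕ → Om Λ → Om Λ, (∀ n, Lav univ (k n)) ∧ (∀ n, (σ n).π.Pres (k n)) ∧
      ∀ n, k n = b n ∘ k (n + 1) := by
  classical
  have hb : ∀ n, IsL (A n) (b n) := fun n => (hS n).1
  have hδA : ∀ n, δ ∈ A n := fun n => (hS n).2.1
  have hP : ∀ n, (σ n).π.Pres (b n) := fun n => (hS n).2.2.1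
  have hid : ∀ n u ξ, δ ≤ ξ → u δ 0 < (σ n).n → b n u ξ = u ξ := fun n => (hS n).2.2.2.1
  have hLE1 : ∀ n, Prot.LE (σ n).π (σ (n + 1)).π := fun n => (hS n).2.2.2.2.2.1
  have hn1 : ∀ n, (σ (n + 1)).n = (σ n).n + 1 := fun n => (hS n).2.2.2.2.2.2.2
  have hn : ∀ n, (σ n).n = n := by
    intro n
    induction n with
    | zero => exact h0
    | succ n ih => rw [hn1, ih]
  have hLE : ∀ n m, n ≤ m → Prot.LE (σ n).π (σ m).π := by
    intro n m hm
    induction m, hm using Nat.le_induction with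
    | base => exact Prot.LE.refl _
    | succ m _ ih => exact ih.trans (hLE1 m)
  have hδU : δ ∈ ⋃ i, A i := mem_iUnion.2 ⟨0, hδA 0⟩
  -- the set of good stages
  have hgood : ∀ γ < δ, γ ∈ (⋃ i, A i) → ∀ t : List ℕ,
      ∃ n, γ ∈ ((σ n).π).F ∧ Nd (((σ n).π).r γ) t := by
    intro γ hγ hA t
    obtain ⟨i, hi⟩ := mem_iUnion.1 hA
    exact hE γ hγ (Or.inl ⟨i, hi⟩) t
  have hspec : ∀ γ < δ, γ ∈ (⋃ i, A i) → ∀ l u M, mm δ A (fun n => (σ n).π) γ l u ≤ M →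
      γ ∈ ((σ M).π).F ∧ Nd (((σ M).π).r γ) (pre (u γ) l) := by
    intro γ hγ hA l u M hM
    rw [mm_lt hγ hA] at hM
    have h1 : sInf {n | γ ∈ ((σ n).π).F ∧ Nd (((σ n).π).r γ) (pre (u γ) l)} ∈
        {n | γ ∈ ((σ n).π).F ∧ Nd (((σ n).π).r γ) (pre (u γ) l)} :=
      Nat.sInf_mem (hgood γ hγ hA _)
    have h2 := hLE _ _ hM
    exact ⟨h2.1 h1.1, nd_mono (h2.2 γ h1.1) h1.2⟩
  have hfix : ∀ u M ξ, δ ≤ ξ → u δ 0 + 1 ≤ M → b M u ξ = u ξ := by
    intro u M ξ hξ hM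
    exact hid M u ξ hξ (by rw [hn]; omega)
  have h1 : ∀ γ l u M, mm δ A (fun n => (σ n).π) γ l u ≤ M → ∀ i < l, b M u γ i = u γ i := by
    intro γ l u M hM i hi
    by_cases hγ : γ < δ
    · by_cases hA : γ ∈ ⋃ i, A i
      · obtain ⟨h2, h3⟩ := hspec γ hγ hA l u M hM
        have h4 : l ≤ (σ M).π.len γ u := nd_pre_iff.1 h3
        exact (hP M γ h2).2 u i (hi.trans_le h4)
      · have hA' : γ ∉ A M := fun h => hA (mem_iUnion.2 ⟨M, h⟩)
        rw [(hb M).off γ hA' u]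
    · have hl : ¬ (γ = δ ∧ l = 0) := fun h => by omega
      rw [mm_ge hγ hl] at hM
      rw [hfix u M γ (not_lt.1 hγ) hM]
  have h2 : ∀ γ l u M, mm δ A (fun n => (σ n).π) γ l u ≤ M →
      mm δ A (fun n => (σ n).π) γ l (b M u) = mm δ A (fun n => (σ n).π) γ l u := by
    intro γ l u M hM
    by_cases hγ : γ < δ
    · by_cases hA : γ ∈ ⋃ i, A i
      · have h3 : pre (b M u γ) l = pre (u γ) l := pre_eq_iff.2 (h1 γ l u M hM)
        rw [mm_lt hγ hA, mm_lt hγ hA, h3]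
      · rw [mm_off hγ hA, mm_off hγ hA]
    · by_cases hl : γ = δ ∧ l = 0
      · obtain ⟨rfl, rfl⟩ := hl
        rw [mm_eq, mm_eq]
      · rw [mm_ge hγ hl] at hM
        rw [mm_ge hγ hl, mm_ge hγ hl, hfix u M δ le_rfl hM]
  have h3 : ∀ γ u M, mm δ A (fun n => (σ n).π) γ 0 u ≤ M → stem (b M) γ u = 0 := by
    intro γ u M hM
    by_cases hγ : γ < δ
    · by_cases hA : γ ∈ ⋃ i, A i
      · exact (hP M γ (hspec γ hγ hA 0 u M hM).1).1 u
      · exact (hb M).stem_off (fun h => hA (mem_iUnion.2 ⟨M, h⟩)) u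
    · by_cases hγδ : γ = δ
      · subst hγδ
        exact (hP M γ ((σ M).hF hδ)).1 u
      · have hlt : δ < γ := lt_of_le_of_ne (not_lt.1 hγ) (Ne.symm hγδ)
        rw [mm_ge hγ (fun h => hγδ h.1)] at hM
        refine stem_eq_zero fun v hv => hfix v M γ hlt.le ?_
        rw [hv δ hlt]
        exact hM
  have hm : ∀ γ l, Cts ((⋃ i, A i) ∩ Iic γ) (mm δ A (fun n => (σ n).π) γ l) := by
    intro γ l
    by_cases hγ : γ < δ
    · by_cases hA : γ ∈ ⋃ i, A i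
      · have e : mm δ A (fun n => (σ n).π) γ l = fun u =>
            sInf {n | γ ∈ ((σ n).π).F ∧ Nd (((σ n).π).r γ) (pre (u γ) l)} := by
          funext u
          exact mm_lt hγ hA
        rw [e]
        have hpre : Cts ((⋃ i, A i) ∩ Iic γ) (fun u : Om Λ => pre (u γ) l) :=
          Cts.pre (fun u => u γ) l fun i _ => Cts.coord
            (show γ ∈ (⋃ i, A i) ∩ Iic γ from ⟨hA, le_rfl⟩) i
        exact hpre.map (fun s => sInf {n | γ ∈ ((σ n).π).F ∧ Nd (((σ n).π).r γ) s})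
      · have e : mm δ A (fun n => (σ n).π) γ l = fun _ => 0 := by
          funext u
          exact mm_off hγ hA
        rw [e]
        exact Cts.const _ _
    · by_cases hl : γ = δ ∧ l = 0
      · obtain ⟨rfl, rfl⟩ := hl
        have e : mm γ A (fun n => (σ n).π) γ 0 = fun _ => 0 := by
          funext u
          exact mm_eq
        rw [e]
        exact Cts.const _ _
      · have e : mm δ A (fun n => (σ n).π) γ l = fun u => u δ 0 + 1 := by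
          funext u
          exact mm_ge hγ hl
        rw [e]
        exact (Cts.coord (A := (⋃ i, A i) ∩ Iic γ) ⟨hδU, not_lt.1 hγ⟩ 0).map (fun a => a + 1)
  have hm0 : ∀ γ, Cts ((⋃ i, A i) ∩ Iio γ) (mm δ A (fun n => (σ n).π) γ 0) := by
    intro γ
    by_cases hγ : γ < δ
    · by_cases hA : γ ∈ ⋃ i, A i
      · have e : mm δ A (fun n => (σ n).π) γ 0 = fun _ =>
            sInf {n | γ ∈ ((σ n).π).F ∧ Nd (((σ n).π).r γ) []} := by
          funext u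
          rw [mm_lt hγ hA, pre_zero]
        rw [e]
        exact Cts.const _ _
      · have e : mm δ A (fun n => (σ n).π) γ 0 = fun _ => 0 := by
          funext u
          exact mm_off hγ hA
        rw [e]
        exact Cts.const _ _
    · by_cases hγδ : γ = δ
      · subst hγδ
        have e : mm γ A (fun n => (σ n).π) γ 0 = fun _ => 0 := by
          funext u
          exact mm_eq
        rw [e]
        exact Cts.const _ _
      · have hlt : δ < γ := lt_of_le_of_ne (not_lt.1 hγ) (Ne.symm hγδ)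
        have e : mm δ A (fun n => (σ n).π) γ 0 = fun u => u δ 0 + 1 := by
          funext u
          exact mm_ge hγ (fun h => hγδ h.1)
        rw [e]
        exact (Cts.coord (A := (⋃ i, A i) ∩ Iio γ) ⟨hδU, hlt⟩ 0).map (fun a => a + 1)
  obtain ⟨k, hk1, hk2, hk3, hk4⟩ := fusion_limit hb (mm δ A (fun n => (σ n).π)) hm hm0 h1 h2 h3
  have hcomps : ∀ n j, (σ n).π.Pres (comps b n j) := by
    intro n j
    induction j with
    | zero => exact Prot.Pres.id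
    | succ j ih =>
      have hl1 : Lav univ (comps b n j) := ⟨_, subset_univ _, isL_comps hb n j⟩
      have hl2 : Lav univ (b (n + j)) := ⟨_, subset_univ _, hb (n + j)⟩
      exact Prot.Pres.comp hl1 hl2 ih ((hP (n + j)).anti (hLE n (n + j) (Nat.le_add_right _ _)))
  refine ⟨k, fun n => ⟨_, subset_univ _, hk1 n⟩, fun n γ hγ => ⟨fun u => ?_, fun u i hi => ?_⟩, hk2⟩
  · obtain ⟨M, hM⟩ := (hk4 n γ u).exists
    rw [← hM]
    exact (hcomps n M γ hγ).1 u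
  · obtain ⟨M, hM⟩ := (hk3 n u γ i).exists
    rw [← hM]
    exact (hcomps n M γ hγ).2 u i hi


/-- The position is empty at a coordinate with `n` protected children of the root if the first
entry is at least `n`. -/
private lemma E3_pos {π : Prot Λ} {γ : Λ} {n : ℕ} (h : π.r γ = Finsupp.single [] n) {u : Om Λ}
    (hu : n ≤ u γ 0) : π.pos γ u = [] := by
  have h1 : plen (π.r γ) (u γ) = 0 := by
    unfold plen
    refine Nat.sInf_eq_zero.2 (Or.inl ?_)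
    show π.r γ (pre (u γ) 0) ≤ u γ 0
    rw [h, pre_zero, Finsupp.single_eq_same]
    exact hu
  unfold Prot.pos
  rw [h1, pre_zero]

/-- The point which agrees with `u` below `δ` and is constant elsewhere. -/
private noncomputable def E3_tr (δ : Λ) (m : ℕ) (u : Om Λ) : Om Λ :=
  fun γ => if γ < δ then u γ else fun _ => m

/-- The convergence part. -/
theorem CD_conv {φ : Om Λ → ℕ → Bool} (hφ : CC univ φ) {δ : Λ} {F : Finset Λ} (hδ : δ ∈ F) :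
    ∃ k Y, Lav univ k ∧ Pure ↑F k ∧ CC (Iio δ) Y ∧
      ∀ u N, (∀ γ ∈ F, δ ≤ γ → N ≤ u γ 0) → ∀ i < N, φ (k u) i = Y u i := by
  let σ₀ : CS δ F :=
    { π := Prot.bare F
      f := id
      n := 0
      hF := Finset.Subset.refl F
      hπ := fun γ hγ _ => ⟨hγ, (Finsupp.single_zero _).symm⟩
      hf := Lav.id univ }
  obtain ⟨σ, b, A, h0, hS, hE⟩ := bookkeeping (St := CS δ F) (fun σ => σ.π) (Iio δ) (CStep φ)
    (fun σ b A σ' h => ⟨h.1.cnt, h.2.2.2.2.2.1⟩)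
    (fun σ γ hγ t => CD_stage hφ hδ σ γ hγ t) (fun σ => CD_stage0 hφ hδ σ) σ₀
  obtain ⟨k, hk1, hk2, hk3⟩ := CD_limit (φ := φ) hδ σ b A (by rw [h0]) (by rw [h0]) hS hE
  have hn : ∀ n, (σ n).n = n := by
    intro n
    induction n with
    | zero => rw [h0]
    | succ n ih => rw [(hS n).2.2.2.2.2.2.2, ih]
  have hf : ∀ n, k 0 = (σ n).f ∘ k n := by
    intro n
    induction n with
    | zero =>
      rw [h0]
      rfl
    | succ n ih =>
      rw [(hS n).2.2.2.2.2.2.1, Function.comp_assoc, ← hk3 n]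
      exact ih
  refine ⟨k 0, fun u i => φ (k 0 (E3_tr δ (i + 1) u)) i, hk1 0,
    fun γ hγ => (hk2 0 γ ((σ 0).hF hγ)).1, ?_, ?_⟩
  · obtain ⟨B, -, hBc, hB⟩ := hφ.comp (hk1 0)
    refine ⟨B ∩ Iio δ, inter_subset_right, hBc.mono inter_subset_left, fun i => ?_⟩
    refine Cts.comp (f := fun u => φ (k 0 u) i) (h := E3_tr δ (i + 1)) (hB i) ?_
    intro β hβ n
    by_cases h : β < δ
    · simp only [E3_tr, if_pos h]
      exact Cts.coord (show β ∈ B ∩ Iio δ from ⟨hβ, h⟩) n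
    · simp only [E3_tr, if_neg h]
      exact Cts.const _ _
  · intro u N hN i hi
    -- the two points
    set u' := E3_tr δ (i + 1) u with hu'
    have hlt : ∀ γ, γ < δ → u' γ = u γ := fun γ h => by
      rw [hu']
      simp only [E3_tr, if_pos h]
    have hge : ∀ γ, δ ≤ γ → u' γ 0 = i + 1 := fun γ h => by
      rw [hu']
      simp only [E3_tr, if_neg (not_lt.2 h)]
    let n := i + 1
    have hr : ∀ γ ∈ (σ n).π.F, δ ≤ γ → γ ∈ F ∧ (σ n).π.r γ = Finsupp.single [] n := by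
      intro γ hγ h
      have h1 := (σ n).hπ γ hγ h
      rw [hn n] at h1
      exact h1
    have hp : ∀ γ ∈ (σ n).π.F, δ ≤ γ → (σ n).π.pos γ u = [] := by
      intro γ hγ h
      obtain ⟨h1, h2⟩ := hr γ hγ h
      exact E3_pos h2 ((Nat.succ_le_of_lt hi).trans (hN γ h1 h))
    have hp' : ∀ γ ∈ (σ n).π.F, δ ≤ γ → (σ n).π.pos γ u' = [] := by
      intro γ hγ h
      obtain ⟨h1, h2⟩ := hr γ hγ h
      exact E3_pos h2 (hge γ h).ge
    have hcell : (σ n).π.Cell u' u := by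
      intro γ hγ
      rcases lt_or_ge γ δ with h | h
      · unfold Prot.pos
        rw [hlt γ h]
      · rw [hp γ hγ h, hp' γ hγ h]
    have hpres : (σ n).π.Pres (k (n + 1)) := (hk2 (n + 1)).anti (hS n).2.2.2.2.2.1
    have hw : (σ n).π.Cell (k (n + 1) u) u := hpres.cell (hk1 (n + 1)) u
    have hw' : (σ n).π.Cell (k (n + 1) u') u := (hpres.cell (hk1 (n + 1)) u').trans hcell
    obtain ⟨a, ha⟩ := (hS n).2.2.2.2.1 u hp
    have e : ∀ v, k 0 v = (σ n).f (b n (k (n + 1) v)) := by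
      intro v
      rw [hf n]
      show (σ n).f (k n v) = _
      rw [hk3 n]
      rfl
    have h1 := ha ((σ n).π.unJ (k (n + 1) u))
    have h2 := ha ((σ n).π.unJ (k (n + 1) u'))
    rw [Prot.J_unJ _ hw, ← e, hn n] at h1
    rw [Prot.J_unJ _ hw', ← e, hn n] at h2
    exact pre_eq_iff.1 (h1.trans h2.symm) i (Nat.lt_succ_self i)

/-- LEMMA CD -/
theorem CD {φ : Om Λ → ℕ → Bool} (hφ : CC univ φ) {δ : Λ} (hNC : NC δ φ) {F : Finset Λ}
    (hδ : δ ∈ F) :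
    ∃ e Y, Lav univ e ∧ Pure ↑F e ∧ CC (Iio δ) Y ∧
      (∀ u N, (∀ γ ∈ F, δ ≤ γ → N ≤ u γ 0) → ∀ i < N, φ (e u) i = Y u i) ∧
      ∀ u, φ (e u) ≠ Y u := by
  obtain ⟨k, Y, hk, hkF, hY, hconv⟩ := CD_conv hφ hδ
  -- the dense right ideal
  set G : Set (Om Λ → Om Λ) :=
    {q | ∃ N, ∀ u, Pool.LV.pre (φ (k (q u))) N ≠ Pool.LV.pre (Y (q u)) N} with hG
  have hD : Dense' univ G := by
    refine ⟨?_, fun h hh => ?_⟩
    · rintro g ⟨N, hN⟩ e _
      exact ⟨N, fun u => hN (e u)⟩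
    · by_cases hall : ∀ u, φ (k (h u)) = Y (h u)
      · refine absurd ⟨k ∘ h, hk.comp hh, ?_⟩ hNC
        have h1 : CC (Iio δ) (Y ∘ h) := hY.comp_lt hh
        have h2 : φ ∘ (k ∘ h) = Y ∘ h := by
          funext u
          exact hall u
        rw [h2]
        exact h1
      · obtain ⟨u, hu⟩ := not_forall.1 hall
        obtain ⟨i, hi⟩ := Function.ne_iff.1 hu
        obtain ⟨A, -, -, hA⟩ := hφ.comp (hk.comp hh)
        obtain ⟨B, -, -, hB⟩ := hY.comp_lt hh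
        have h1 : Cts (A ∪ B) (fun u => (φ ∘ (k ∘ h)) u i) := (hA i).mono subset_union_left
        have h2 : Cts (A ∪ B) (fun u => (Y ∘ h) u i) := (hB i).mono subset_union_right
        obtain ⟨ℓ, -, hℓ⟩ := Cts.map₂ h1 h2 (fun a b => (a, b)) u
        refine ⟨Pool.LV.ins u ℓ, Lav.ins u fun γ _ => mem_univ γ, i + 1, fun v hv => hi ?_⟩
        have h3 := hℓ (Pool.LV.ins u ℓ v) (ag_ins u v ℓ)
        have h4 : φ (k (h (Pool.LV.ins u ℓ v))) i = φ (k (h u)) i := congrArg Prod.fst h3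
        have h5 : Y (h (Pool.LV.ins u ℓ v)) i = Y (h u) i := congrArg Prod.snd h3
        have h6 : φ (k (h (Pool.LV.ins u ℓ v))) i = Y (h (Pool.LV.ins u ℓ v)) i :=
          pre_eq_iff.1 hv i (Nat.lt_succ_self i)
        rw [← h4, ← h5]
        exact h6
  obtain ⟨k', hk', hk'F, hbar⟩ := tt univ F (subset_univ _) (fun _ => G) fun _ => hD
  refine ⟨k ∘ k', Y ∘ k', hk.comp hk', hkF.comp hk hk' hk'F, hY.comp_lt hk', ?_, ?_⟩
  · intro u N hN i hi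
    refine hconv (k' u) N (fun γ hγ hδγ => ?_) i hi
    have h1 := hk'.le_entry γ u 0
    rw [hk'F γ hγ u] at h1
    exact (hN γ hγ hδγ).trans h1
  · refine (hbar 0).forall (P := fun u => φ ((k ∘ k') u) ≠ (Y ∘ k') u) ?_
    rintro u ℓ ⟨N, hN⟩ v hv
    refine hN v ?_
    show Pool.LV.pre (φ (k (k' (Pool.LV.ins u ℓ v)))) N = Pool.LV.pre (Y (k' (Pool.LV.ins u ℓ v))) N
    have h1 : φ (k (k' (Pool.LV.ins u ℓ v))) = Y (k' (Pool.LV.ins u ℓ v)) := hv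
    rw [h1]

end Pool.LV
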