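import Pool.Agent.Lib.MP_1c8600_lv.Glue

/-!
# Protections, positions, cells, amalgamation
-/

set_option autoImplicit false
set_option linter.unusedSectionVars false

open Set

namespace Pool.LV

variable {Λ : Type} [LinearOrder Λ] [WellFoundedLT Λ]

/-- `t` is a protected node for the child counts `r`. -/
def Nd (r : List ℕ →₀ ℕ) (t : List ℕ) : Prop := ∀ i (h : i < t.length), t[i] < r (t.take i)

/-- A protection: finitely many coordinates, and for each of them a finite tree given by the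
numbers of children. -/
structure Prot (Λ : Type) where
  F : Finset Λ
  r : Λ → List ℕ →₀ ℕ
  hr : ∀ γ t, r γ t ≠ 0 → Nd (r γ) t

/-- The length of the longest protected node on `y`. -/
noncomputable def plen (r : List ℕ →₀ ℕ) (y : ℕ → ℕ) : ℕ := sInf {p | r (pre y p) ≤ y p}

lemma plen_exists (r : List ℕ →₀ ℕ) (y : ℕ → ℕ) : ∃ p, r (pre y p) ≤ y p := by
  by_contra h
  push Not at h
  have hinj : Function.Injective (fun p => pre y p) := fun p q hpq => by
    simpa using congrArg List.length hpq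
  have hfin : (range (fun p => pre y p)).Finite := r.support.finite_toSet.subset (by
    rintro _ ⟨p, rfl⟩
    simp only [Finset.mem_coe, Finsupp.mem_support_iff]
    exact (lt_of_le_of_lt (Nat.zero_le _) (h p)).ne')
  exact Set.infinite_range_of_injective hinj hfin

lemma plen_spec (r : List ℕ →₀ ℕ) (y : ℕ → ℕ) : r (pre y (plen r y)) ≤ y (plen r y) :=
  Nat.sInf_mem (s := {p | r (pre y p) ≤ y p}) (plen_exists r y)

lemma lt_of_lt_plen {r : List ℕ →₀ ℕ} {y : ℕ → ℕ} {i : ℕ} (h : i < plen r y) :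
    y i < r (pre y i) := by
  have h1 : i ∉ {p | r (pre y p) ≤ y p} := Nat.notMem_of_lt_sInf h
  exact not_le.1 h1

lemma nd_pre_iff {r : List ℕ →₀ ℕ} {y : ℕ → ℕ} {l : ℕ} : Nd r (pre y l) ↔ l ≤ plen r y := by
  constructor
  · intro h
    by_contra hl
    rw [not_le] at hl
    have h1 := h (plen r y) (by simpa using hl)
    rw [getElem_pre, take_pre y hl.le] at h1
    exact absurd (plen_spec r y) (not_le.2 h1)
  · intro h i hi
    have hi' : i < l := by simpa using hi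
    rw [getElem_pre, take_pre y hi'.le]
    exact lt_of_lt_plen (hi'.trans_le h)

lemma plen_eq {r : List ℕ →₀ ℕ} {y z : ℕ → ℕ} (h : ∀ i < plen r y, z i = y i)
    (h' : r (pre y (plen r y)) ≤ z (plen r y)) : plen r z = plen r y := by
  have hp : ∀ i ≤ plen r y, pre z i = pre y i := fun i hi =>
    pre_eq_iff.2 fun j hj => h j (hj.trans_le hi)
  apply le_antisymm
  · apply Nat.sInf_le
    change r (pre z (plen r y)) ≤ z (plen r y)
    rw [hp _ le_rfl]
    exact h'
  · by_contra hlt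
    rw [not_le] at hlt
    have h1 := plen_spec r z
    rw [hp _ hlt.le, h _ hlt] at h1
    exact absurd h1 (not_le.2 (lt_of_lt_plen hlt))

lemma plen_mono {r r' : List ℕ →₀ ℕ} (h : ∀ t, r t ≤ r' t) (y : ℕ → ℕ) :
    plen r y ≤ plen r' y := by
  apply Nat.sInf_le
  exact (h _).trans (plen_spec r' y)

namespace Prot

variable (π : Prot Λ)

/-- The position of `u` at `γ`. -/
noncomputable def pos (γ : Λ) (u : Om Λ) : List ℕ := pre (u γ) (plen (π.r γ) (u γ))

/-- The length of the position. -/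
noncomputable def len (γ : Λ) (u : Om Λ) : ℕ := plen (π.r γ) (u γ)

lemma length_pos (γ : Λ) (u : Om Λ) : (π.pos γ u).length = π.len γ u := by
  simp [pos, len]

lemma pos_eq_iff {γ : Λ} {u v : Om Λ} :
    π.pos γ u = π.pos γ v ↔ π.len γ u = π.len γ v ∧ ∀ i < π.len γ u, u γ i = v γ i :=
  ⟨fun h => pre_inj h, fun h => by
    have h1 : plen (π.r γ) (u γ) = plen (π.r γ) (v γ) := h.1
    unfold pos
    rw [← h1]
    exact pre_eq_iff.2 h.2⟩

lemma nd_pos (γ : Λ) (u : Om Λ) : Nd (π.r γ) (π.pos γ u) := nd_pre_iff.2 le_rfl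

/-- Same cell. -/
def Cell (u u₀ : Om Λ) : Prop := ∀ γ ∈ π.F, π.pos γ u = π.pos γ u₀

lemma Cell.refl (u : Om Λ) : π.Cell u u := fun _ _ => rfl

variable {π} in
lemma Cell.symm {u v : Om Λ} (h : π.Cell u v) : π.Cell v u := fun γ hγ => (h γ hγ).symm

variable {π} in
lemma Cell.trans {u v w : Om Λ} (h : π.Cell u v) (h' : π.Cell v w) : π.Cell u w :=
  fun γ hγ => (h γ hγ).trans (h' γ hγ)

/-- The canonical map onto the cell of `u₀`. -/
noncomputable def J (u₀ v : Om Λ) : Om Λ := fun γ i =>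
  if γ ∈ π.F then
    (if i < π.len γ u₀ then u₀ γ i
      else if i = π.len γ u₀ then v γ 0 + π.r γ (π.pos γ u₀)
      else v γ (i - π.len γ u₀))
  else v γ i

/-- The inverse of the canonical map onto the cell. -/
noncomputable def unJ (u : Om Λ) : Om Λ := fun γ i =>
  if γ ∈ π.F then
    (if i = 0 then u γ (π.len γ u) - π.r γ (π.pos γ u) else u γ (π.len γ u + i))
  else u γ i

lemma C1_finite_nd (r : List ℕ →₀ ℕ) : {t | Nd r t}.Finite := by
  have h1 : {t | Nd r t} ⊆ {[]} ∪ ⋃ t ∈ r.support, (fun a => t ++ [a]) '' Iio (r t) := by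
    intro t ht
    rcases List.eq_nil_or_concat t with rfl | ⟨t', a, rfl⟩
    · exact Or.inl rfl
    · right
      rw [List.concat_eq_append] at ht ⊢
      have h2 := ht t'.length (by simp)
      have h3 : (t' ++ [a]).take t'.length = t' := by simp
      have h4 : (t' ++ [a])[t'.length]'(by simp) = a := by simp
      rw [h3, h4] at h2
      simp only [mem_iUnion]
      exact ⟨t', Finsupp.mem_support_iff.2 (by omega), a, h2, rfl⟩
  refine Finite.subset (Finite.union (finite_singleton _) ?_) h1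
  exact Finite.biUnion r.support.finite_toSet fun t _ => (finite_Iio _).image _

lemma r_le (γ : Λ) (u : Om Λ) : π.r γ (π.pos γ u) ≤ u γ (π.len γ u) := plen_spec _ _

lemma pos_of {γ : Λ} {u v : Om Λ} (h : ∀ i < π.len γ u, v γ i = u γ i)
    (h' : π.r γ (π.pos γ u) ≤ v γ (π.len γ u)) : π.pos γ v = π.pos γ u := by
  have h1 : plen (π.r γ) (v γ) = plen (π.r γ) (u γ) := plen_eq h h'
  unfold pos
  rw [h1]
  exact pre_eq_iff.2 h

lemma J_cell (u₀ v : Om Λ) : π.Cell (π.J u₀ v) u₀ := by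
  intro γ hγ
  apply π.pos_of
  · intro i hi
    simp [J, hγ, hi]
  · simp [J, hγ]

lemma J_unJ {u u₀ : Om Λ} (h : π.Cell u u₀) : π.J u₀ (π.unJ u) = u := by
  funext γ i
  by_cases hγ : γ ∈ π.F
  · have hp := h γ hγ
    obtain ⟨h1, h2⟩ := π.pos_eq_iff.1 hp
    have h3 := π.r_le γ u
    rcases lt_trichotomy i (π.len γ u₀) with hi | hi | hi
    · simp only [J, hγ, if_true, hi]
      exact (h2 i (h1 ▸ hi)).symm
    · subst hi
      simp only [J, unJ, hγ, if_true, lt_irrefl, if_false]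
      rw [← hp, ← h1]
      exact Nat.sub_add_cancel h3
    · have hi1 : ¬ i < π.len γ u₀ := not_lt.2 hi.le
      have hi2 : i ≠ π.len γ u₀ := hi.ne'
      have hi3 : i - π.len γ u₀ ≠ 0 := (Nat.sub_pos_of_lt hi).ne'
      simp only [J, unJ, hγ, if_true, hi1, hi2, hi3, if_false]
      rw [h1, Nat.add_sub_cancel' hi.le]
  · simp [J, unJ, hγ]

lemma unJ_J (u₀ v : Om Λ) : π.unJ (π.J u₀ v) = v := by
  funext γ i
  by_cases hγ : γ ∈ π.F
  · have hp := π.J_cell u₀ v γ hγ
    obtain ⟨h1, h2⟩ := π.pos_eq_iff.1 hp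
    by_cases hi : i = 0
    · subst hi
      simp only [unJ, hγ, if_true]
      rw [hp, h1]
      simp [J, hγ]
    · simp only [unJ, hγ, if_true, hi, if_false]
      rw [h1]
      have hi1 : ¬ π.len γ u₀ + i < π.len γ u₀ := by omega
      have hi2 : π.len γ u₀ + i ≠ π.len γ u₀ := by omega
      simp only [J, hγ, if_true, hi1, hi2, if_false]
      congr 1
      omega
  · simp [J, unJ, hγ]

lemma J_congr {u u₀ : Om Λ} (h : π.Cell u u₀) : π.J u = π.J u₀ := by
  funext v γ i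
  by_cases hγ : γ ∈ π.F
  · have hp := h γ hγ
    obtain ⟨h1, h2⟩ := π.pos_eq_iff.1 hp
    simp only [J, hγ, if_true]
    rw [hp, h1]
    by_cases hi : i < π.len γ u₀
    · simp only [hi, if_true]
      exact h2 i (h1 ▸ hi)
    · simp only [hi, if_false]
  · simp [J, hγ]

lemma isL_J_aux (u₀ : Om Λ) : IsL (↑π.F : Set Λ) (π.J u₀) ∧
    ∀ γ v, stem (π.J u₀) γ v = if γ ∈ π.F then π.len γ u₀ else 0 := by
  refine isL_of (fun γ _ => if γ ∈ π.F then π.len γ u₀ else 0) π.F.countable_toSet ?_ ?_ ?_ ?_ ?_ ?_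
  · intro γ hγ u
    have hγ' : γ ∉ π.F := hγ
    funext i
    simp [J, hγ']
  · intro γ hγ u
    have hγ' : γ ∉ π.F := hγ
    simp [hγ']
  · intro γ hγ n
    have hγ' : γ ∈ π.F := hγ
    have hA : γ ∈ (↑π.F : Set Λ) ∩ Iic γ := ⟨hγ, le_rfl⟩
    rcases lt_trichotomy n (π.len γ u₀) with hn | hn | hn
    · simp only [J, hγ', hn, if_true]
      exact Cts.const _ _
    · subst hn
      simp only [J, hγ', lt_irrefl, if_true, if_false]
      exact (Cts.coord hA 0).map (fun x => x + π.r γ (π.pos γ u₀))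
    · have hn1 : ¬ n < π.len γ u₀ := not_lt.2 hn.le
      have hn2 : n ≠ π.len γ u₀ := hn.ne'
      simp only [J, hγ', hn1, hn2, if_true, if_false]
      exact Cts.coord hA _
  · intro γ hγ
    exact Cts.const _ _
  · intro γ u v l _ hl i hi
    by_cases hγ : γ ∈ π.F
    · simp only [hγ, if_true] at hi
      simp only [J, hγ, if_true]
      by_cases hi1 : i < π.len γ u₀
      · simp only [hi1, if_true]
      · by_cases hi2 : i = π.len γ u₀
        · simp only [hi2, lt_irrefl, if_true, if_false]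
          rw [hl 0 (by omega)]
        · simp only [hi1, hi2, if_false]
          exact hl _ (by omega)
    · simp only [hγ, if_false] at hi
      simp only [J, hγ, if_false]
      exact hl i (by omega)
  · intro γ u v l _ _ hlt
    by_cases hγ : γ ∈ π.F
    · simp only [J, hγ, if_true]
      have hi1 : ¬ π.len γ u₀ + l < π.len γ u₀ := by omega
      by_cases hl : l = 0
      · subst hl
        simp only [Nat.add_zero, lt_irrefl, if_true, if_false]
        omega
      · have hi2 : π.len γ u₀ + l ≠ π.len γ u₀ := by omega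
        simp only [hi1, hi2, if_false]
        rw [Nat.add_sub_cancel_left]
        exact hlt
    · simp only [J, hγ, if_false, Nat.zero_add]
      exact hlt

lemma stem_J (u₀ : Om Λ) (γ : Λ) (v : Om Λ) :
    stem (π.J u₀) γ v = if γ ∈ π.F then π.len γ u₀ else 0 := (π.isL_J_aux u₀).2 γ v

lemma lav_J {I : Set Λ} (hI : (↑π.F : Set Λ) ⊆ I) (u₀ : Om Λ) : Lav I (π.J u₀) :=
  ⟨_, hI, (π.isL_J_aux u₀).1⟩

/-- There are finitely many cells. -/
lemma finite_cells : ∃ s : Finset (Om Λ), ∀ u, ∃ u₀ ∈ s, π.Cell u u₀ := by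
  classical
  let Φ : Om Λ → (↥π.F → List ℕ) := fun u γ => π.pos γ u
  have h1 : (range Φ).Finite := by
    refine (Set.Finite.pi (t := fun γ : ↥π.F => {t | Nd (π.r γ) t}) fun γ =>
      C1_finite_nd _).subset ?_
    rintro _ ⟨u, rfl⟩ γ _
    exact π.nd_pos γ u
  have h2 : ∀ w : range Φ, ∃ u, Φ u = w := fun w => w.2
  choose g hg using h2
  have h3 : Finite (range Φ) := h1.to_subtype
  have := Fintype.ofFinite (range Φ)
  refine ⟨Finset.univ.image g, fun u => ⟨g ⟨Φ u, u, rfl⟩, ?_, fun γ hγ => ?_⟩⟩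
  · exact Finset.mem_image_of_mem _ (Finset.mem_univ _)
  · have h4 := hg ⟨Φ u, u, rfl⟩
    exact (congrFun h4 ⟨γ, hγ⟩).symm

/-- The cell of a point is decided by finite information with support in `F`. -/
lemma cell_info (u : Om Λ) : ∃ ℓ : Λ →₀ ℕ, (∀ γ, ℓ γ ≠ 0 → γ ∈ π.F) ∧
    ∀ v, Ag ℓ u v → π.Cell v u := by
  classical
  refine ⟨lev π.F (fun γ => π.len γ u + 1), fun γ hγ => ?_, fun v hv γ hγ => ?_⟩
  · by_contra h
    rw [lev_apply, if_neg h] at hγ
    exact hγ rfl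
  · have h1 : ∀ i < π.len γ u + 1, v γ i = u γ i := fun i hi => hv γ i (by
      rw [lev_apply, if_pos hγ]
      exact hi)
    apply π.pos_of
    · intro i hi
      exact h1 i (by omega)
    · rw [h1 _ (Nat.lt_succ_self _)]
      exact π.r_le γ u

lemma cts_pos {A : Set Λ} {γ : Λ} (hγ : γ ∈ A) : Cts A (π.pos γ) := by
  classical
  intro u
  refine ⟨lev {γ} (fun _ => π.len γ u + 1), fun ξ hξ => ?_, fun v hv => ?_⟩
  · rw [lev_apply] at hξ
    by_cases h : ξ ∈ ({γ} : Finset Λ)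
    · rw [Finset.mem_singleton.1 h]
      exact hγ
    · rw [if_neg h] at hξ
      exact absurd rfl hξ
  · have h1 : ∀ i < π.len γ u + 1, v γ i = u γ i := fun i hi => hv γ i (by
      rw [lev_apply, if_pos (Finset.mem_singleton_self γ)]
      exact hi)
    apply π.pos_of
    · intro i hi
      exact h1 i (by omega)
    · rw [h1 _ (Nat.lt_succ_self _)]
      exact π.r_le γ u

/-- (E5) for cells. -/
lemma E5J {I : Set Λ} {h : Om Λ → Om Λ} (hh : Lav I h) (hI : (↑π.F : Set Λ) ⊆ I) {u₀ : Om Λ}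
    (hc : ∀ v, π.Cell (h v) u₀) :
    ∃ q, Lav I q ∧ h = π.J u₀ ∘ q ∧
      ∀ γ v, stem h γ v = stem q γ v + if γ ∈ π.F then π.len γ u₀ else 0 := by
  classical
  obtain ⟨A, hA, hh⟩ := hh
  have hB : (A ∪ ↑π.F : Set Λ).Countable := hh.cnt.union π.F.countable_toSet
  have hh' : IsL (A ∪ ↑π.F : Set Λ) h := hh.mono_supp subset_union_left hB
  have hag : ∀ v, Ag (lev π.F (fun γ => π.len γ u₀)) u₀ (h v) := by
    intro v γ i hi
    rw [lev_apply] at hi
    by_cases hγ : γ ∈ π.F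
    · rw [if_pos hγ] at hi
      obtain ⟨h1, h2⟩ := π.pos_eq_iff.1 (hc v γ hγ)
      exact h2 i (h1 ▸ hi)
    · rw [if_neg hγ] at hi
      omega
  obtain ⟨hg, hfac, hst⟩ := isL_strip hh' (u := u₀) (ℓ := lev π.F (fun γ => π.len γ u₀))
    (fun γ hγ => by
      by_contra h1
      have h2 : γ ∉ π.F := fun h3 => h1 (Or.inr h3)
      rw [lev_apply, if_neg h2] at hγ
      exact hγ rfl) hag
  set g : Om Λ → Om Λ := strip (lev π.F (fun γ => π.len γ u₀)) ∘ h with hgdef
  have hgin : ∀ γ ∈ π.F, ∀ v i, g v γ i = h v γ (i + π.len γ u₀) := by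
    intro γ hγ v i
    change h v γ (i + lev π.F (fun γ => π.len γ u₀) γ) = _
    rw [lev_apply, if_pos hγ]
  have hgout : ∀ γ, γ ∉ π.F → ∀ v i, g v γ i = h v γ i := by
    intro γ hγ v i
    change h v γ (i + lev π.F (fun γ => π.len γ u₀) γ) = _
    rw [lev_apply, if_neg hγ, Nat.add_zero]
  have hr : ∀ γ ∈ π.F, ∀ v, π.r γ (π.pos γ u₀) ≤ g v γ 0 := by
    intro γ hγ v
    rw [hgin γ hγ, Nat.zero_add, ← hc v γ hγ, ← (π.pos_eq_iff.1 (hc v γ hγ)).1]
    exact π.r_le γ (h v)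
  have hq0 : ∀ γ ∈ π.F, ∀ v, π.unJ (h v) γ 0 = g v γ 0 - π.r γ (π.pos γ u₀) := by
    intro γ hγ v
    simp only [unJ, hγ, if_true]
    rw [hgin γ hγ, Nat.zero_add, hc v γ hγ, (π.pos_eq_iff.1 (hc v γ hγ)).1]
  have hq1 : ∀ γ ∈ π.F, ∀ v i, i ≠ 0 → π.unJ (h v) γ i = g v γ i := by
    intro γ hγ v i hi
    simp only [unJ, hγ, if_true, hi, if_false]
    rw [hgin γ hγ, (π.pos_eq_iff.1 (hc v γ hγ)).1, Nat.add_comm]
  have hq2 : ∀ γ, γ ∉ π.F → ∀ v i, π.unJ (h v) γ i = g v γ i := by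
    intro γ hγ v i
    simp only [unJ, hγ, if_false]
    rw [hgout γ hγ]
  have key : IsL (A ∪ ↑π.F : Set Λ) (π.unJ ∘ h) ∧ ∀ γ u, stem (π.unJ ∘ h) γ u = stem g γ u := by
    refine isL_of (stem g) hB ?_ (fun γ hγ u => hg.stem_off hγ u) ?_ hg.ctc ?_ ?_
    · intro γ hγ u
      have hγ' : γ ∉ π.F := fun h3 => hγ (Or.inr h3)
      funext i
      rw [← congrFun (hg.off γ hγ u) i]
      exact hq2 γ hγ' u i
    · intro γ hγ n
      by_cases hF : γ ∈ π.F
      · by_cases hn : n = 0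
        · subst hn
          have h1 : (fun u => (π.unJ ∘ h) u γ 0) = fun u => g u γ 0 - π.r γ (π.pos γ u₀) := by
            funext u
            exact hq0 γ hF u
          rw [h1]
          exact (hg.cts γ hγ 0).map (fun x => x - π.r γ (π.pos γ u₀))
        · have h1 : (fun u => (π.unJ ∘ h) u γ n) = fun u => g u γ n := by
            funext u
            exact hq1 γ hF u n hn
          rw [h1]
          exact hg.cts γ hγ n
      · have h1 : (fun u => (π.unJ ∘ h) u γ n) = fun u => g u γ n := by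
          funext u
          exact hq2 γ hF u n
        rw [h1]
        exact hg.cts γ hγ n
    · intro γ u v l hb hl i hi
      have h1 := hg.pre γ u v l hb hl i hi
      change π.unJ (h v) γ i = π.unJ (h u) γ i
      by_cases hF : γ ∈ π.F
      · by_cases hn : i = 0
        · subst hn
          rw [hq0 γ hF, hq0 γ hF, h1]
        · rw [hq1 γ hF v i hn, hq1 γ hF u i hn, h1]
      · rw [hq2 γ hF, hq2 γ hF, h1]
    · intro γ u v l hb hl hlt
      have h1 := hg.mono γ u v l hb hl hlt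
      change π.unJ (h u) γ _ < π.unJ (h v) γ _
      by_cases hF : γ ∈ π.F
      · by_cases hn : stem g γ u + l = 0
        · rw [hn] at h1 ⊢
          rw [hq0 γ hF, hq0 γ hF]
          have h2 := hr γ hF u
          omega
        · rw [hq1 γ hF v _ hn, hq1 γ hF u _ hn]
          exact h1
      · rw [hq2 γ hF, hq2 γ hF]
        exact h1
  refine ⟨π.unJ ∘ h, ⟨_, union_subset hA hI, key.1⟩, ?_, ?_⟩
  · funext v
    exact (π.J_unJ (hc v)).symm
  · intro γ v
    rw [key.2, hst, lev_apply]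

/-- `b` preserves the protected nodes. -/
def Pres (b : Om Λ → Om Λ) : Prop :=
  ∀ γ ∈ π.F, (∀ u, stem b γ u = 0) ∧ ∀ u, ∀ i < π.len γ u, b u γ i = u γ i

variable {π}

lemma Pres.pure {b : Om Λ → Om Λ} (hb : π.Pres b) : Pure (↑π.F : Set Λ) b :=
  fun γ hγ => (hb γ hγ).1

lemma Pres.pos {I : Set Λ} {b : Om Λ → Om Λ} (hb : Lav I b) (hp : π.Pres b) {γ : Λ}
    (hγ : γ ∈ π.F) (u : Om Λ) : π.pos γ (b u) = π.pos γ u := by
  apply π.pos_of ((hp γ hγ).2 u)
  have h1 := hb.le_entry γ u (π.len γ u)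
  rw [(hp γ hγ).1 u, Nat.zero_add] at h1
  exact (π.r_le γ u).trans h1

lemma Pres.cell {I : Set Λ} {b : Om Λ → Om Λ} (hb : Lav I b) (hp : π.Pres b) (u : Om Λ) :
    π.Cell (b u) u := fun _ hγ => hp.pos hb hγ u

lemma Pres.id : π.Pres (id : Om Λ → Om Λ) := fun γ _ => ⟨fun u => stem_id γ u, fun _ _ _ => rfl⟩

lemma Pres.comp {I J : Set Λ} {b b' : Om Λ → Om Λ} (hb : Lav I b) (hb' : Lav J b')
    (hp : π.Pres b) (hp' : π.Pres b') : π.Pres (b ∘ b') := by
  intro γ hγ
  refine ⟨fun u => ?_, fun u i hi => ?_⟩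
  · rw [hb.stem_comp hb', (hp γ hγ).1, (hp' γ hγ).1]
  · have h1 := Pres.pos hb' hp' hγ u
    have h2 := (π.pos_eq_iff.1 h1).1
    change b (b' u) γ i = u γ i
    rw [(hp γ hγ).2 (b' u) i (h2 ▸ hi), (hp' γ hγ).2 u i hi]

/-- A preserving map acts inside each cell. -/
lemma Pres.local {I : Set Λ} {b : Om Λ → Om Λ} (hb : Lav I b) (hI : (↑π.F : Set Λ) ⊆ I)
    (hp : π.Pres b) (u₀ : Om Λ) :
    ∃ e, Lav I e ∧ Pure (↑π.F : Set Λ) e ∧ b ∘ π.J u₀ = π.J u₀ ∘ e := by
  have hJ : Lav I (π.J u₀) := π.lav_J hI u₀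
  obtain ⟨q, hq, hfac, hst⟩ := π.E5J (u₀ := u₀) (hb.comp hJ) hI
    (fun v => (hp.cell hb (π.J u₀ v)).trans (π.J_cell u₀ v))
  refine ⟨q, hq, fun γ hγ u => ?_, hfac⟩
  have h1 := hst γ u
  have hγ' : γ ∈ π.F := hγ
  rw [hb.stem_comp hJ, (hp γ hγ').1, π.stem_J, if_pos hγ'] at h1
  omega

/-- The order of protections. -/
def LE (π π' : Prot Λ) : Prop := π.F ⊆ π'.F ∧ ∀ γ ∈ π.F, ∀ t, π.r γ t ≤ π'.r γ t

lemma LE.refl (π : Prot Λ) : LE π π := ⟨Finset.Subset.refl _, fun _ _ _ => le_rfl⟩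

lemma LE.trans {π π' π'' : Prot Λ} (h : LE π π') (h' : LE π' π'') : LE π π'' :=
  ⟨h.1.trans h'.1, fun γ hγ t => (h.2 γ hγ t).trans (h'.2 γ (h.1 hγ) t)⟩

lemma Pres.anti {π' : Prot Λ} {b : Om Λ → Om Λ} (hp : π'.Pres b) (h : LE π π') : π.Pres b := by
  intro γ hγ
  obtain ⟨h1, h2⟩ := hp γ (h.1 hγ)
  exact ⟨h1, fun u i hi => h2 u i (hi.trans_le (plen_mono (h.2 γ hγ) (u γ)))⟩

/-- Row C4: membership in the cell at one coordinate. -/
lemma c4_same_iff {γ : Λ} {u u₀ : Om Λ} : π.pos γ u = π.pos γ u₀ ↔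
    (∀ i < π.len γ u₀, u γ i = u₀ γ i) ∧ π.r γ (π.pos γ u₀) ≤ u γ (π.len γ u₀) := by
  constructor
  · intro h
    obtain ⟨h1, h2⟩ := π.pos_eq_iff.1 h
    refine ⟨fun i hi => h2 i (by rw [h1]; exact hi), ?_⟩
    rw [← h, ← h1]
    exact plen_spec (π.r γ) (u γ)
  · rintro ⟨h1, h2⟩
    have h3 : plen (π.r γ) (u γ) = plen (π.r γ) (u₀ γ) := plen_eq h1 h2
    refine π.pos_eq_iff.2 ⟨h3, fun i hi => h1 i ?_⟩
    unfold len at hi ⊢
    rw [← h3]
    exact hi

/-- Row C4: all positions up to `ξ` are those of `u₀`. -/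
def c4Act (π : Prot Λ) (u₀ : Om Λ) (ξ : Λ) (u : Om Λ) : Prop :=
  ∀ γ ∈ π.F, γ ≤ ξ → π.pos γ u = π.pos γ u₀

/-- Row C4: all positions below `ξ` are those of `u₀`. -/
def c4Alt (π : Prot Λ) (u₀ : Om Λ) (ξ : Λ) (u : Om Λ) : Prop :=
  ∀ γ ∈ π.F, γ < ξ → π.pos γ u = π.pos γ u₀

lemma c4_pos_congr {γ : Λ} {u v : Om Λ} (h : v γ = u γ) : π.pos γ v = π.pos γ u := by
  unfold pos
  rw [h]

lemma c4_alt_congr {u₀ : Om Λ} {ξ : Λ} {u v : Om Λ} (h : Bel ξ u v) :
    c4Alt π u₀ ξ v ↔ c4Alt π u₀ ξ u := by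
  unfold c4Alt
  refine forall_congr' fun γ => forall_congr' fun _ => forall_congr' fun hlt => ?_
  rw [c4_pos_congr (h γ hlt)]

lemma c4_act_iff_new {u₀ : Om Λ} {ξ : Λ} (hξ : ξ ∉ π.F) {u : Om Λ} :
    c4Act π u₀ ξ u ↔ c4Alt π u₀ ξ u := by
  constructor
  · intro h γ hγ hlt
    exact h γ hγ hlt.le
  · intro h γ hγ hle
    exact h γ hγ (lt_of_le_of_ne hle (fun hn => hξ (hn ▸ hγ)))

lemma c4_act_iff_old {u₀ : Om Λ} {ξ : Λ} (hξ : ξ ∈ π.F) {u : Om Λ} :
    c4Act π u₀ ξ u ↔ c4Alt π u₀ ξ u ∧ π.pos ξ u = π.pos ξ u₀ := by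
  constructor
  · intro h
    exact ⟨fun γ hγ hlt => h γ hγ hlt.le, h ξ hξ le_rfl⟩
  · rintro ⟨h, h'⟩ γ hγ hle
    rcases lt_or_eq_of_le hle with hlt | rfl
    · exact h γ hγ hlt
    · exact h'

open Classical in
/-- Row C4: the amalgamated map. -/
noncomputable def c4B (π : Prot Λ) (u₀ : Om Λ) (e : Om Λ → Om Λ) (u : Om Λ) : Om Λ := fun ξ =>
  if c4Act π u₀ ξ u then π.J u₀ (e (π.unJ u)) ξ else u ξ

open Classical in
/-- Row C4: the stems of the amalgamated map. -/
noncomputable def c4C (π : Prot Λ) (u₀ : Om Λ) (e : Om Λ → Om Λ) (ξ : Λ) (u : Om Λ) : ℕ :=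
  if ξ ∈ π.F then 0 else if c4Alt π u₀ ξ u then stem e ξ (π.unJ u) else 0

lemma c4_unJ_new {γ : Λ} (hγ : γ ∉ π.F) (u : Om Λ) : π.unJ u γ = u γ := by
  funext i
  simp [unJ, hγ]

lemma c4_J_new {γ : Λ} (hγ : γ ∉ π.F) (u₀ v : Om Λ) : π.J u₀ v γ = v γ := by
  funext i
  simp [J, hγ]

lemma c4_J_lt {γ : Λ} (hγ : γ ∈ π.F) (u₀ v : Om Λ) {i : ℕ} (hi : i < π.len γ u₀) :
    π.J u₀ v γ i = u₀ γ i := by
  simp [J, hγ, hi]

lemma c4_J_eq {γ : Λ} (hγ : γ ∈ π.F) (u₀ v : Om Λ) :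
    π.J u₀ v γ (π.len γ u₀) = v γ 0 + π.r γ (π.pos γ u₀) := by
  simp [J, hγ]

lemma c4_J_gt {γ : Λ} (hγ : γ ∈ π.F) (u₀ v : Om Λ) {i : ℕ} (hi : π.len γ u₀ < i) :
    π.J u₀ v γ i = v γ (i - π.len γ u₀) := by
  simp [J, hγ, not_lt.2 hi.le, hi.ne']

lemma c4_unJ_zero {γ : Λ} (hγ : γ ∈ π.F) {u u₀ : Om Λ} (h : π.pos γ u = π.pos γ u₀) :
    π.unJ u γ 0 = u γ (π.len γ u₀) - π.r γ (π.pos γ u₀) := by
  have h1 : π.len γ u = π.len γ u₀ := (π.pos_eq_iff.1 h).1
  simp [unJ, hγ, h, h1]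

lemma c4_unJ_pos {γ : Λ} (hγ : γ ∈ π.F) {u u₀ : Om Λ} (h : π.pos γ u = π.pos γ u₀) {i : ℕ}
    (hi : 0 < i) : π.unJ u γ i = u γ (π.len γ u₀ + i) := by
  have h1 : π.len γ u = π.len γ u₀ := (π.pos_eq_iff.1 h).1
  simp [unJ, hγ, h1, hi.ne']

lemma c4_bel_unJ {ξ : Λ} {u v : Om Λ} (h : Bel ξ u v) : Bel ξ (π.unJ u) (π.unJ v) := by
  intro γ hγ
  have h1 := h γ hγ
  have h2 : π.pos γ v = π.pos γ u := c4_pos_congr h1
  have h3 : π.len γ v = π.len γ u := (π.pos_eq_iff.1 h2).1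
  funext i
  by_cases hF : γ ∈ π.F
  · simp only [unJ, hF, if_true, h1, h2, h3]
  · simp only [unJ, hF, if_false, h1]

/-- Row C4: continuity of the inverse of the canonical map. -/
lemma c4_cts_unJ {A : Set Λ} {β : Λ} (hβ : β ∈ A) (n : ℕ) : Cts A (fun u => π.unJ u β n) := by
  by_cases hF : β ∈ π.F
  · have hp : Cts A (π.pos β) := π.cts_pos hβ
    by_cases hn : n = 0
    · subst hn
      have h := hp.bind (g := fun p u => u β p.length - π.r β p)
        (fun p => (Cts.coord hβ p.length).map (fun x => x - π.r β p))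
      have e : (fun u => π.unJ u β 0) = fun u : Om Λ => u β (π.pos β u).length -
          π.r β (π.pos β u) := by
        funext u
        rw [π.length_pos]
        simp [unJ, hF]
      rw [e]
      exact h
    · have h := hp.bind (g := fun p u => u β (p.length + n))
        (fun p => Cts.coord hβ (p.length + n))
      have e : (fun u => π.unJ u β n) = fun u : Om Λ => u β ((π.pos β u).length + n) := by
        funext u
        rw [π.length_pos]
        simp [unJ, hF, hn]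
      rw [e]
      exact h
  · have e : (fun u => π.unJ u β n) = fun u : Om Λ => u β n := by
      funext u
      rw [c4_unJ_new hF]
    rw [e]
    exact Cts.coord hβ n

/-- Row C4: each entry of `J` is a function of one entry of the argument. -/
lemma c4_J_entry (π : Prot Λ) (u₀ : Om Λ) (γ : Λ) (i : ℕ) :
    ∃ (j : ℕ) (g : ℕ → ℕ), ∀ v, π.J u₀ v γ i = g (v γ j) := by
  by_cases hF : γ ∈ π.F
  · rcases lt_trichotomy i (π.len γ u₀) with h | h | h
    · exact ⟨0, fun _ => u₀ γ i, fun v => c4_J_lt hF u₀ v h⟩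
    · subst h
      exact ⟨0, fun x => x + π.r γ (π.pos γ u₀), fun v => c4_J_eq hF u₀ v⟩
    · exact ⟨i - π.len γ u₀, id, fun v => c4_J_gt hF u₀ v h⟩
  · exact ⟨i, id, fun v => by rw [c4_J_new hF]; rfl⟩

lemma c4_cts_act {A : Set Λ} (hF : (↑π.F : Set Λ) ⊆ A) (u₀ : Om Λ) (ξ : Λ) :
    Cts (A ∩ Iic ξ) (c4Act π u₀ ξ) := by
  classical
  have h := Cts.forall_finset (A := A ∩ Iic ξ) (π.F.filter (fun γ => γ ≤ ξ))
    (fun γ u => π.pos γ u = π.pos γ u₀) (by
      intro γ hγ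
      obtain ⟨h1, h2⟩ := Finset.mem_filter.1 hγ
      exact (π.cts_pos (A := A ∩ Iic ξ) ⟨hF h1, h2⟩).map (fun p => p = π.pos γ u₀))
  have e : c4Act π u₀ ξ = fun u => ∀ γ ∈ π.F.filter (fun γ => γ ≤ ξ),
      π.pos γ u = π.pos γ u₀ := by
    funext u
    refine propext ⟨fun h γ hγ => ?_, fun h γ hγ hle => ?_⟩
    · obtain ⟨h1, h2⟩ := Finset.mem_filter.1 hγ
      exact h γ h1 h2
    · exact h γ (Finset.mem_filter.2 ⟨hγ, hle⟩)
  rw [e]
  exact h

lemma c4_cts_alt {A : Set Λ} (hF : (↑π.F : Set Λ) ⊆ A) (u₀ : Om Λ) (ξ : Λ) :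
    Cts (A ∩ Iio ξ) (c4Alt π u₀ ξ) := by
  classical
  have h := Cts.forall_finset (A := A ∩ Iio ξ) (π.F.filter (fun γ => γ < ξ))
    (fun γ u => π.pos γ u = π.pos γ u₀) (by
      intro γ hγ
      obtain ⟨h1, h2⟩ := Finset.mem_filter.1 hγ
      exact (π.cts_pos (A := A ∩ Iio ξ) ⟨hF h1, h2⟩).map (fun p => p = π.pos γ u₀))
  have e : c4Alt π u₀ ξ = fun u => ∀ γ ∈ π.F.filter (fun γ => γ < ξ),
      π.pos γ u = π.pos γ u₀ := by
    funext u
    refine propext ⟨fun h γ hγ => ?_, fun h γ hγ hle => ?_⟩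
    · obtain ⟨h1, h2⟩ := Finset.mem_filter.1 hγ
      exact h γ h1 h2
    · exact h γ (Finset.mem_filter.2 ⟨hγ, hle⟩)
  rw [e]
  exact h

/-- Row C4: the value of the amalgamated map before the end of the position. -/
lemma c4B_lt {u₀ : Om Λ} {e : Om Λ → Om Λ} {γ : Λ} (hγ : γ ∈ π.F) (u : Om Λ) {i : ℕ}
    (hi : i < π.len γ u₀) : c4B π u₀ e u γ i = u γ i := by
  unfold c4B
  by_cases h : c4Act π u₀ γ u
  · rw [if_pos h, c4_J_lt hγ u₀ _ hi]
    exact ((c4_same_iff.1 (h γ hγ le_rfl)).1 i hi).symm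
  · rw [if_neg h]

/-- Row C4: the stem of the amalgamated map. -/
lemma c4_pre {A : Set Λ} {e : Om Λ → Om Λ} (he : IsL A e) (hp : Pure (↑π.F : Set Λ) e)
    (u₀ : Om Λ) (γ : Λ) (u v : Om Λ) (l : ℕ) (hb : Bel γ u v) (hl : ∀ i < l, v γ i = u γ i) :
    ∀ i < c4C π u₀ e γ u + l, c4B π u₀ e v γ i = c4B π u₀ e u γ i := by
  intro i hi
  have hbJ : Bel γ (π.unJ u) (π.unJ v) := c4_bel_unJ hb
  by_cases hF : γ ∈ π.F
  · unfold c4C at hi
    rw [if_pos hF, zero_add] at hi
    by_cases hiL : i < π.len γ u₀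
    · rw [c4B_lt hF v hiL, c4B_lt hF u hiL, hl i hi]
    · have hLl : π.len γ u₀ < l := lt_of_le_of_lt (not_lt.1 hiL) hi
      have hsame : π.pos γ v = π.pos γ u₀ ↔ π.pos γ u = π.pos γ u₀ := by
        rw [c4_same_iff, c4_same_iff, hl _ hLl]
        refine and_congr_left fun _ => forall_congr' fun j => forall_congr' fun hj => ?_
        rw [hl j (hj.trans hLl)]
      have hact : c4Act π u₀ γ v ↔ c4Act π u₀ γ u := by
        rw [c4_act_iff_old hF, c4_act_iff_old hF, c4_alt_congr hb, hsame]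
      unfold c4B
      by_cases h : c4Act π u₀ γ u
      · rw [if_pos h, if_pos (hact.2 h)]
        have hu : π.pos γ u = π.pos γ u₀ := h γ hF le_rfl
        have hv : π.pos γ v = π.pos γ u₀ := hsame.2 hu
        have hag : ∀ j < l - π.len γ u₀, π.unJ v γ j = π.unJ u γ j := by
          intro j hj
          rcases Nat.eq_zero_or_pos j with rfl | hj0
          · rw [c4_unJ_zero hF hv, c4_unJ_zero hF hu, hl _ hLl]
          · rw [c4_unJ_pos hF hv hj0, c4_unJ_pos hF hu hj0, hl _ (by omega)]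
        have hst : stem e γ (π.unJ u) = 0 := hp γ hF _
        have hpr := he.pre γ (π.unJ u) (π.unJ v) (l - π.len γ u₀) hbJ hag
        rw [hst, zero_add] at hpr
        rcases lt_or_eq_of_le (not_lt.1 hiL) with hgt | heq
        · rw [c4_J_gt hF u₀ _ hgt, c4_J_gt hF u₀ _ hgt, hpr _ (by omega)]
        · rw [← heq, c4_J_eq hF, c4_J_eq hF, hpr _ (by omega)]
      · rw [if_neg h, if_neg (fun h' => h (hact.1 h')), hl i hi]
  · have hact : c4Act π u₀ γ v ↔ c4Act π u₀ γ u := by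
      rw [c4_act_iff_new hF, c4_act_iff_new hF, c4_alt_congr hb]
    unfold c4C at hi
    rw [if_neg hF] at hi
    unfold c4B
    by_cases h : c4Act π u₀ γ u
    · rw [if_pos h, if_pos (hact.2 h), c4_J_new hF, c4_J_new hF]
      rw [if_pos ((c4_act_iff_new hF).1 h)] at hi
      refine he.pre γ (π.unJ u) (π.unJ v) l hbJ (fun j hj => ?_) i hi
      rw [c4_unJ_new hF, c4_unJ_new hF, hl j hj]
    · rw [if_neg (fun h' => h ((c4_act_iff_new hF).2 h')), zero_add] at hi
      rw [if_neg h, if_neg (fun h' => h (hact.1 h')), hl i hi]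

lemma c4_mono {A : Set Λ} {e : Om Λ → Om Λ} (he : IsL A e) (hp : Pure (↑π.F : Set Λ) e)
    (u₀ : Om Λ) (γ : Λ) (u v : Om Λ) (l : ℕ) (hb : Bel γ u v) (hl : ∀ i < l, v γ i = u γ i)
    (hlt : u γ l < v γ l) :
    c4B π u₀ e u γ (c4C π u₀ e γ u + l) < c4B π u₀ e v γ (c4C π u₀ e γ u + l) := by
  have hbJ : Bel γ (π.unJ u) (π.unJ v) := c4_bel_unJ hb
  by_cases hF : γ ∈ π.F
  · have hC : c4C π u₀ e γ u = 0 := by
      unfold c4C
      rw [if_pos hF]
    rw [hC, zero_add]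
    have hst : stem e γ (π.unJ u) = 0 := hp γ hF _
    rcases lt_trichotomy l (π.len γ u₀) with hL | hL | hL
    · rw [c4B_lt hF v hL, c4B_lt hF u hL]
      exact hlt
    · subst hL
      by_cases hav : c4Act π u₀ γ v
      · have hv : π.pos γ v = π.pos γ u₀ := hav γ hF le_rfl
        have hv' := c4_same_iff.1 hv
        by_cases hau : c4Act π u₀ γ u
        · have hu : π.pos γ u = π.pos γ u₀ := hau γ hF le_rfl
          have hu' := c4_same_iff.1 hu
          unfold c4B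
          rw [if_pos hau, if_pos hav, c4_J_eq hF, c4_J_eq hF]
          have hm := he.mono γ (π.unJ u) (π.unJ v) 0 hbJ (fun j hj => absurd hj (Nat.not_lt_zero j))
            (by
              rw [c4_unJ_zero hF hv, c4_unJ_zero hF hu]
              have := hu'.2
              omega)
          rw [hst, zero_add] at hm
          omega
        · have hlow : u γ (π.len γ u₀) < π.r γ (π.pos γ u₀) := by
            by_contra hge
            refine hau ((c4_act_iff_old hF).2 ⟨(c4_alt_congr hb).1 ((c4_act_iff_old hF).1 hav).1,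
              c4_same_iff.2 ⟨fun i hi => ?_, not_lt.1 hge⟩⟩)
            rw [← hl i hi]
            exact hv'.1 i hi
          unfold c4B
          rw [if_neg hau, if_pos hav, c4_J_eq hF]
          omega
      · have hau : ¬ c4Act π u₀ γ u := by
          intro hau
          have hu' := c4_same_iff.1 (hau γ hF le_rfl)
          refine hav ((c4_act_iff_old hF).2 ⟨(c4_alt_congr hb).2 ((c4_act_iff_old hF).1 hau).1,
              c4_same_iff.2 ⟨fun i hi => ?_, hu'.2.trans hlt.le⟩⟩)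
          rw [hl i hi]
          exact hu'.1 i hi
        unfold c4B
        rw [if_neg hau, if_neg hav]
        exact hlt
    · have hsame : π.pos γ v = π.pos γ u₀ ↔ π.pos γ u = π.pos γ u₀ := by
        rw [c4_same_iff, c4_same_iff, hl _ hL]
        refine and_congr_left fun _ => forall_congr' fun j => forall_congr' fun hj => ?_
        rw [hl j (hj.trans hL)]
      have hact : c4Act π u₀ γ v ↔ c4Act π u₀ γ u := by
        rw [c4_act_iff_old hF, c4_act_iff_old hF, c4_alt_congr hb, hsame]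
      unfold c4B
      by_cases h : c4Act π u₀ γ u
      · rw [if_pos h, if_pos (hact.2 h)]
        have hu : π.pos γ u = π.pos γ u₀ := h γ hF le_rfl
        have hv : π.pos γ v = π.pos γ u₀ := hsame.2 hu
        have hl0 : 0 < l - π.len γ u₀ := by omega
        have hadd : π.len γ u₀ + (l - π.len γ u₀) = l := by omega
        have hm := he.mono γ (π.unJ u) (π.unJ v) (l - π.len γ u₀) hbJ (by
          intro j hj
          rcases Nat.eq_zero_or_pos j with rfl | hj0
          · rw [c4_unJ_zero hF hv, c4_unJ_zero hF hu, hl _ hL]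
          · rw [c4_unJ_pos hF hv hj0, c4_unJ_pos hF hu hj0, hl _ (by omega)])
          (by
            rw [c4_unJ_pos hF hv hl0, c4_unJ_pos hF hu hl0, hadd]
            exact hlt)
        rw [hst, zero_add] at hm
        rw [c4_J_gt hF u₀ _ hL, c4_J_gt hF u₀ _ hL]
        exact hm
      · rw [if_neg h, if_neg (fun h' => h (hact.1 h'))]
        exact hlt
  · have hact : c4Act π u₀ γ v ↔ c4Act π u₀ γ u := by
      rw [c4_act_iff_new hF, c4_act_iff_new hF, c4_alt_congr hb]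
    by_cases h : c4Act π u₀ γ u
    · have hC : c4C π u₀ e γ u = stem e γ (π.unJ u) := by
        unfold c4C
        rw [if_neg hF, if_pos ((c4_act_iff_new hF).1 h)]
      rw [hC]
      unfold c4B
      rw [if_pos h, if_pos (hact.2 h), c4_J_new hF, c4_J_new hF]
      refine he.mono γ (π.unJ u) (π.unJ v) l hbJ (fun j hj => ?_) ?_
      · rw [c4_unJ_new hF, c4_unJ_new hF, hl j hj]
      · rw [c4_unJ_new hF, c4_unJ_new hF]
        exact hlt
    · have hC : c4C π u₀ e γ u = 0 := by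
        unfold c4C
        rw [if_neg hF, if_neg (fun h' => h ((c4_act_iff_new hF).2 h'))]
      rw [hC, zero_add]
      unfold c4B
      rw [if_neg h, if_neg (fun h' => h (hact.1 h'))]
      exact hlt

/-- AMALGAM -/
theorem amalgam {I : Set Λ} (hI : (↑π.F : Set Λ) ⊆ I) {e : Om Λ → Om Λ} (he : Lav I e)
    (hp : Pure (↑π.F : Set Λ) e) (u₀ : Om Λ) :
    ∃ b, Lav I b ∧ π.Pres b ∧ b ∘ π.J u₀ = π.J u₀ ∘ e ∧
      ∀ u ξ, (∃ γ ∈ π.F, γ ≤ ξ ∧ π.pos γ u ≠ π.pos γ u₀) → b u ξ = u ξ := by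
  classical
  obtain ⟨A₀, hA₀, he⟩ := he
  have hFA : (↑π.F : Set Λ) ⊆ A₀ ∪ ↑π.F := subset_union_right
  have key := isL_of (A := A₀ ∪ ↑π.F) (h := c4B π u₀ e) (c4C π u₀ e)
    (he.cnt.union π.F.countable_toSet)
    (by
      intro γ hγ u
      have h1 : γ ∉ A₀ := fun h => hγ (Or.inl h)
      have h2 : γ ∉ π.F := fun h => hγ (Or.inr h)
      unfold c4B
      by_cases h : c4Act π u₀ γ u
      · rw [if_pos h, c4_J_new h2, he.off γ h1, c4_unJ_new h2]
      · rw [if_neg h])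
    (by
      intro γ hγ u
      have h1 : γ ∉ A₀ := fun h => hγ (Or.inl h)
      have h2 : γ ∉ π.F := fun h => hγ (Or.inr h)
      unfold c4C
      rw [if_neg h2, he.stem_off h1, ite_self])
    (by
      intro γ hγ n
      obtain ⟨j, g, hg⟩ := c4_J_entry π u₀ γ n
      have h1 : Cts ((A₀ ∪ ↑π.F) ∩ Iic γ) (fun u => e (π.unJ u) γ j) :=
        Cts.comp (he.cts' γ j) (fun β hβ m => c4_cts_unJ
          (show β ∈ (A₀ ∪ ↑π.F) ∩ Iic γ from by
            rcases hβ.1 with rfl | h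
            · exact ⟨hγ, hβ.2⟩
            · exact ⟨Or.inl h, hβ.2⟩) m)
      have h2 := (c4_cts_act hFA u₀ γ).bind (g := fun (a : Prop) (u : Om Λ) =>
        if a then g (e (π.unJ u) γ j) else u γ n) (fun a => by
          by_cases ha : a
          · simp only [ha, if_true]
            exact h1.map g
          · simp only [ha, if_false]
            exact Cts.coord (show γ ∈ (A₀ ∪ ↑π.F) ∩ Iic γ from ⟨hγ, mem_Iic.2 le_rfl⟩) n)
      have e1 : (fun u => c4B π u₀ e u γ n) = fun u : Om Λ =>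
          if c4Act π u₀ γ u then g (e (π.unJ u) γ j) else u γ n := by
        funext u
        unfold c4B
        by_cases h : c4Act π u₀ γ u
        · rw [if_pos h, if_pos h, hg]
        · rw [if_neg h, if_neg h]
      rw [e1]
      exact h2)
    (by
      intro γ hγ
      by_cases hF : γ ∈ π.F
      · have e1 : c4C π u₀ e γ = fun _ => 0 := by
          funext u
          unfold c4C
          rw [if_pos hF]
        rw [e1]
        exact Cts.const _ _
      · have h1 : Cts ((A₀ ∪ ↑π.F) ∩ Iio γ) (fun u => stem e γ (π.unJ u)) :=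
          Cts.comp (he.ctc' γ) (fun β hβ m => c4_cts_unJ
            (show β ∈ (A₀ ∪ ↑π.F) ∩ Iio γ from ⟨Or.inl hβ.1, hβ.2⟩) m)
        have h2 := (c4_cts_alt hFA u₀ γ).bind (g := fun (a : Prop) (u : Om Λ) =>
          if a then stem e γ (π.unJ u) else 0) (fun a => by
            by_cases ha : a
            · simp only [ha, if_true]
              exact h1
            · simp only [ha, if_false]
              exact Cts.const _ _)
        have e1 : c4C π u₀ e γ = fun u : Om Λ =>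
            if c4Alt π u₀ γ u then stem e γ (π.unJ u) else 0 := by
          funext u
          unfold c4C
          rw [if_neg hF]
        rw [e1]
        exact h2)
    (fun γ u v l hb hl => c4_pre he hp u₀ γ u v l hb hl)
    (fun γ u v l hb hl hlt => c4_mono he hp u₀ γ u v l hb hl hlt)
  refine ⟨c4B π u₀ e, ⟨_, union_subset hA₀ hI, key.1⟩, ?_, ?_, ?_⟩
  · intro γ hγ
    refine ⟨fun u => ?_, fun u i hi => ?_⟩
    · rw [key.2]
      unfold c4C
      rw [if_pos hγ]
    · by_cases h : c4Act π u₀ γ u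
      · have h1 : π.len γ u = π.len γ u₀ := (π.pos_eq_iff.1 (h γ hγ le_rfl)).1
        exact c4B_lt hγ u (by rw [← h1]; exact hi)
      · unfold c4B
        rw [if_neg h]
  · funext w ξ
    have h1 : c4Act π u₀ ξ (π.J u₀ w) := fun γ hγ _ => π.J_cell u₀ w γ hγ
    show c4B π u₀ e (π.J u₀ w) ξ = π.J u₀ (e w) ξ
    unfold c4B
    rw [if_pos h1, π.unJ_J]
  · rintro u ξ ⟨γ, hγ, hle, hne⟩
    unfold c4B
    rw [if_neg (fun h => hne (h γ hγ hle))]

/-- ALLCELLS -/
theorem allcells {I : Set Λ} (hI : (↑π.F : Set Λ) ⊆ I) (f : Om Λ → Om Λ) (W : Set (Om Λ))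
    (Q : Om Λ → (Om Λ → Om Λ) → Prop)
    (hW : ∀ u u₀, π.Cell u u₀ → u₀ ∈ W → u ∈ W)
    (hQc : ∀ u u₀ g, π.Cell u u₀ → Q u₀ g → Q u g)
    (hQ : ∀ u₀ g e, Q u₀ g → Lav I e → Pure (↑π.F : Set Λ) e → Q u₀ (g ∘ e))
    (H : ∀ b, Lav I b → π.Pres b → ∀ u₀ ∈ W,
      ∃ e, Lav I e ∧ Pure (↑π.F : Set Λ) e ∧ Q u₀ (f ∘ b ∘ π.J u₀ ∘ e)) :
    ∃ b, Lav I b ∧ π.Pres b ∧ (∀ u₀ ∈ W, Q u₀ (f ∘ b ∘ π.J u₀)) ∧
      ∀ u ξ, (∀ u₀ ∈ W, ∃ γ ∈ π.F, γ ≤ ξ ∧ π.pos γ u ≠ π.pos γ u₀) → b u ξ = u ξ := by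
  classical
  have key : ∀ t : Finset (Om Λ), ∃ b, Lav I b ∧ π.Pres b ∧
      (∀ u₀ ∈ t, u₀ ∈ W → Q u₀ (f ∘ b ∘ π.J u₀)) ∧
      ∀ u ξ, (∀ u₀ ∈ W, ∃ γ ∈ π.F, γ ≤ ξ ∧ π.pos γ u ≠ π.pos γ u₀) → b u ξ = u ξ := by
    intro t
    induction t using Finset.induction_on with
    | empty =>
      exact ⟨_, Lav.id I, Pres.id, fun u₀ h => absurd h (Finset.notMem_empty u₀), fun u ξ _ => rfl⟩
    | insert u₁ t hu₁ ih =>
      obtain ⟨b, hb, hpb, hQb, hout⟩ := ih
      by_cases hW₁ : u₁ ∈ W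
      · obtain ⟨e, he, hpe, hQe⟩ := H b hb hpb u₁ hW₁
        obtain ⟨b', hb', hpb', hbJ, hout'⟩ := amalgam hI he hpe u₁
        refine ⟨b ∘ b', hb.comp hb', hpb.comp hb hb' hpb', ?_, ?_⟩
        · intro u₀ hu₀ hW₀
          rcases Finset.mem_insert.1 hu₀ with rfl | hu₀
          · have e1 : f ∘ (b ∘ b') ∘ π.J u₀ = f ∘ b ∘ π.J u₀ ∘ e := by
              rw [Function.comp_assoc, hbJ]
            rw [e1]
            exact hQe
          · obtain ⟨e', he', hpe', hloc⟩ := hpb'.local hb' hI u₀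
            have e1 : f ∘ (b ∘ b') ∘ π.J u₀ = (f ∘ b ∘ π.J u₀) ∘ e' := by
              rw [Function.comp_assoc, hloc]
              rfl
            rw [e1]
            exact hQ u₀ _ e' (hQb u₀ hu₀ hW₀) he' hpe'
        · intro u ξ hu
          have h1 : b (b' u) ξ = b' u ξ := by
            refine hout (b' u) ξ fun u₀ hW₀ => ?_
            obtain ⟨γ, hγ, hle, hne⟩ := hu u₀ hW₀
            exact ⟨γ, hγ, hle, by rw [hpb'.pos hb' hγ]; exact hne⟩
          exact h1.trans (hout' u ξ (hu u₁ hW₁))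
      · refine ⟨b, hb, hpb, ?_, hout⟩
        intro u₀ hu₀ hW₀
        rcases Finset.mem_insert.1 hu₀ with rfl | hu₀
        · exact absurd hW₀ hW₁
        · exact hQb u₀ hu₀ hW₀
  obtain ⟨s, hs⟩ := π.finite_cells
  obtain ⟨b, hb, hpb, hQb, hout⟩ := key s
  refine ⟨b, hb, hpb, ?_, hout⟩
  intro u₀ hW₀
  obtain ⟨u₁, hu₁, hc⟩ := hs u₀
  have h1 := hQb u₁ hu₁ (hW u₁ u₀ hc.symm hW₀)
  rw [π.J_congr hc]
  exact hQc u₀ u₁ _ hc h1

/-- (B3) -/
theorem barred_of_cells {I : Set Λ} (hI : (↑π.F : Set Λ) ⊆ I) {G : Set (Om Λ → Om Λ)}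
    (hG : RI I G) {f : Om Λ → Om Λ} (h : ∀ u₀, Barred I G (f ∘ π.J u₀)) : Barred I G f := by
  classical
  obtain ⟨s, hs⟩ := π.finite_cells
  choose A hAI hAc hA using h
  refine ⟨(⋃ u₀ ∈ s, A u₀) ∪ ↑π.F, ?_, ?_, ?_⟩
  · exact union_subset (iUnion₂_subset fun u₀ _ => hAI u₀) hI
  · exact (s.countable_toSet.biUnion fun u₀ _ => hAc u₀).union π.F.countable_toSet
  · intro u
    obtain ⟨u₀, hu₀, hc⟩ := hs u
    have hAs : A u₀ ⊆ ⋃ u₀ ∈ s, A u₀ := fun x hx => mem_iUnion₂.2 ⟨u₀, hu₀, hx⟩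
    obtain ⟨ℓ₀, hℓ₀, hG₀⟩ := hA u₀ (π.unJ u)
    obtain ⟨ℓ₁, hℓ₁, hcell⟩ := π.cell_info u
    have hl0 : ∀ γ, (ℓ₁ + ℓ₀ + lev π.F (fun γ => π.len γ u₀ + 1)) γ =
        ℓ₁ γ + ℓ₀ γ + if γ ∈ π.F then π.len γ u₀ + 1 else 0 := by
      intro γ
      rw [Finsupp.add_apply, Finsupp.add_apply, lev_apply]
    have hℓ : ∀ γ, (ℓ₁ + ℓ₀ + lev π.F (fun γ => π.len γ u₀ + 1)) γ ≠ 0 →
        γ ∈ A u₀ ∪ (↑π.F : Set Λ) := by
      intro γ hγ
      by_cases h1 : ℓ₁ γ ≠ 0
      · exact Or.inr (hℓ₁ γ h1)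
      by_cases h2 : ℓ₀ γ ≠ 0
      · exact Or.inl (hℓ₀ γ h2)
      by_cases h3 : γ ∈ π.F
      · exact Or.inr h3
      · exfalso
        apply hγ
        rw [hl0, if_neg h3, not_not.1 h1, not_not.1 h2]
    refine ⟨ℓ₁ + ℓ₀ + lev π.F (fun γ => π.len γ u₀ + 1), fun γ hγ => ?_, ?_⟩
    · rcases hℓ γ hγ with h1 | h1
      · exact Or.inl (hAs h1)
      · exact Or.inr h1
    · have hLav : Lav I (ins u (ℓ₁ + ℓ₀ + lev π.F (fun γ => π.len γ u₀ + 1))) := by
        refine Lav.ins u fun γ hγ => ?_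
        rcases hℓ γ hγ with h1 | h1
        · exact hAI u₀ h1
        · exact hI h1
      have hcu : ∀ v, π.Cell (ins u (ℓ₁ + ℓ₀ + lev π.F (fun γ => π.len γ u₀ + 1)) v) u := by
        intro v
        refine hcell _ ((ag_ins u v _).mono fun γ => ?_)
        rw [hl0]
        omega
      obtain ⟨q, hq, hqe, -⟩ := π.E5J hLav hI (u₀ := u₀) fun v => (hcu v).trans hc
      have hqv : ∀ v, q v = π.unJ (ins u (ℓ₁ + ℓ₀ + lev π.F (fun γ => π.len γ u₀ + 1)) v) := by
        intro v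
        have h1 : ins u (ℓ₁ + ℓ₀ + lev π.F (fun γ => π.len γ u₀ + 1)) v = π.J u₀ (q v) :=
          congrFun hqe v
        rw [h1, π.unJ_J]
      have hag : ∀ v, Ag ℓ₀ (π.unJ u) (q v) := by
        intro v γ i hi
        rw [hqv]
        have hv : ∀ j < ℓ₁ γ + ℓ₀ γ + (if γ ∈ π.F then π.len γ u₀ + 1 else 0),
            ins u (ℓ₁ + ℓ₀ + lev π.F (fun γ => π.len γ u₀ + 1)) v γ j = u γ j := by
          intro j hj
          exact ag_ins u v _ γ j (by rw [hl0]; exact hj)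
        by_cases hF : γ ∈ π.F
        · rw [if_pos hF] at hv
          have h2 := hcu v γ hF
          have h3 := (π.pos_eq_iff.1 h2).1
          have h4 : π.len γ u = π.len γ u₀ := (π.pos_eq_iff.1 (hc γ hF)).1
          simp only [unJ, hF, if_true, h2, h3]
          split_ifs with h0
          · rw [hv _ (by omega)]
          · rw [hv _ (by omega)]
        · simp only [unJ, hF, if_false]
          exact hv i (by omega)
      obtain ⟨q', hq', hqe', -⟩ := Lav.E5 hq (fun γ hγ => hAI u₀ (hℓ₀ γ hγ)) hag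
      have e1 : f ∘ ins u (ℓ₁ + ℓ₀ + lev π.F (fun γ => π.len γ u₀ + 1)) =
          ((f ∘ π.J u₀) ∘ ins (π.unJ u) ℓ₀) ∘ q' := by
        rw [hqe, hqe']
        rfl
      rw [e1]
      exact hG _ hG₀ q' hq'

/-- The protection with the coordinates `F` and no protected entries. -/
def bare (F : Finset Λ) : Prot Λ := ⟨F, fun _ => 0, fun _ _ h => absurd rfl h⟩

lemma pres_bare {F : Finset Λ} {b : Om Λ → Om Λ} : (bare F).Pres b ↔ Pure (↑F : Set Λ) b := by
  constructor
  · intro h γ hγ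
    exact (h γ hγ).1
  · intro h γ hγ
    refine ⟨h γ hγ, fun u i hi => ?_⟩
    have h1 : (bare F).len γ u = 0 := by
      apply Nat.eq_zero_of_le_zero
      apply Nat.sInf_le
      change (0 : List ℕ →₀ ℕ) _ ≤ _
      simp
    omega

lemma Nd.mono' {r r' : List ℕ →₀ ℕ} (h : ∀ t, r t ≤ r' t) {t : List ℕ} (ht : Nd r t) : Nd r' t :=
  fun i hi => (ht i hi).trans_le (h _)

lemma add_hr_node (π : Prot Λ) (γ : Λ) {t : List ℕ} (h : Nd (π.r γ) t) (ξ : Λ) (t' : List ℕ)
    (h' : Function.update π.r γ (π.r γ + Finsupp.single t 1) ξ t' ≠ 0) :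
    Nd (Function.update π.r γ (π.r γ + Finsupp.single t 1) ξ) t' := by
  by_cases hξ : ξ = γ
  · subst hξ
    rw [Function.update_self] at h' ⊢
    have hle : ∀ s, π.r ξ s ≤ (π.r ξ + Finsupp.single t 1 : List ℕ →₀ ℕ) s := fun s => by simp
    by_cases ht : t' = t
    · subst ht
      exact Nd.mono' hle h
    · apply Nd.mono' hle
      apply π.hr
      simpa [Finsupp.single_apply, Ne.symm ht] using h'
  · rw [Function.update_of_ne hξ] at h' ⊢
    exact π.hr ξ t' h'

lemma add_hr_new (π : Prot Λ) (γ : Λ) (ξ : Λ) (t' : List ℕ)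
    (h' : Function.update π.r γ 0 ξ t' ≠ 0) :
    Nd (Function.update π.r γ 0 ξ) t' := by
  by_cases hξ : ξ = γ
  · subst hξ
    rw [Function.update_self] at h'
    exact absurd rfl h'
  · rw [Function.update_of_ne hξ] at h' ⊢
    exact π.hr ξ t' h'

/-- Add the coordinate `γ`, or the next child of the node `t` at the coordinate `γ`. -/
noncomputable def add (π : Prot Λ) (γ : Λ) (t : List ℕ) : Prot Λ := by
  classical
  exact
    if γ ∈ π.F then
      (if h : Nd (π.r γ) t then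
        ⟨π.F, Function.update π.r γ (π.r γ + Finsupp.single t 1), by
          exact add_hr_node π γ h⟩
      else π)
    else ⟨insert γ π.F, Function.update π.r γ 0, by exact add_hr_new π γ⟩

/-- The request `(γ, t)` is served when passing from `π` to `π'`. -/
def Served (π π' : Prot Λ) (γ : Λ) (t : List ℕ) : Prop :=
  γ ∈ π'.F ∧ (γ ∈ π.F → Nd (π.r γ) t → π.r γ t + 1 ≤ π'.r γ t)

lemma add_F_new {γ : Λ} (h : γ ∉ π.F) (t : List ℕ) : (π.add γ t).F = insert γ π.F := by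
  unfold add
  rw [if_neg h]

lemma add_F_old {γ : Λ} (h : γ ∈ π.F) (t : List ℕ) : (π.add γ t).F = π.F := by
  unfold add
  rw [if_pos h]
  split_ifs <;> rfl

lemma add_r_ne {γ ξ : Λ} (h : ξ ≠ γ) (t : List ℕ) : (π.add γ t).r ξ = π.r ξ := by
  unfold add
  split_ifs
  · exact Function.update_of_ne h _ _
  · rfl
  · exact Function.update_of_ne h _ _

lemma add_r_new {γ : Λ} (h : γ ∉ π.F) (t : List ℕ) : (π.add γ t).r γ = 0 := by
  unfold add
  rw [if_neg h]
  exact Function.update_self _ _ _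

lemma add_r_bad {γ : Λ} (h : γ ∈ π.F) {t : List ℕ} (ht : ¬ Nd (π.r γ) t) : π.add γ t = π := by
  unfold add
  rw [if_pos h, dif_neg ht]

lemma add_r_node {γ : Λ} (h : γ ∈ π.F) {t : List ℕ} (ht : Nd (π.r γ) t) :
    (π.add γ t).r γ = π.r γ + Finsupp.single t 1 := by
  unfold add
  rw [if_pos h, dif_pos ht]
  exact Function.update_self _ _ _

lemma le_add (π : Prot Λ) (γ : Λ) (t : List ℕ) : LE π (π.add γ t) := by
  by_cases h : γ ∈ π.F
  · by_cases ht : Nd (π.r γ) t
    · refine ⟨(add_F_old h t).ge, fun ξ hξ s => ?_⟩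
      by_cases hx : ξ = γ
      · subst hx
        rw [add_r_node h ht]
        simp
      · rw [add_r_ne hx]
    · rw [add_r_bad h ht]
      exact LE.refl π
  · refine ⟨by rw [add_F_new h]; exact Finset.subset_insert _ _, fun ξ hξ s => ?_⟩
    have hx : ξ ≠ γ := fun hx => h (hx ▸ hξ)
    rw [add_r_ne hx]

lemma served_add (π : Prot Λ) (γ : Λ) (t : List ℕ) : Served π (π.add γ t) γ t := by
  by_cases h : γ ∈ π.F
  · refine ⟨by rw [add_F_old h]; exact h, fun _ ht => ?_⟩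
    rw [add_r_node h ht]
    simp
  · exact ⟨by rw [add_F_new h]; exact Finset.mem_insert_self _ _, fun h' => absurd h' h⟩

/-- Characterisation of `plen`. -/
lemma plen_eq_of {r : List ℕ →₀ ℕ} {y : ℕ → ℕ} {p : ℕ} (h : ∀ i < p, y i < r (pre y i))
    (hp : r (pre y p) ≤ y p) : plen r y = p := by
  apply le_antisymm
  · exact Nat.sInf_le hp
  · by_contra hlt
    exact absurd (plen_spec r y) (not_le.2 (h _ (not_le.1 hlt)))

/-- The positions after adding a node: `u` moves iff it goes through the new node. -/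
lemma pos_add_node {γ : Λ} (h : γ ∈ π.F) {t : List ℕ} (ht : Nd (π.r γ) t) (u : Om Λ) :
    (π.add γ t).pos γ u = if π.pos γ u = t ∧ u γ t.length = π.r γ t then t ++ [π.r γ t]
      else π.pos γ u := by
  have hge : ∀ i < plen (π.r γ) (u γ),
      u γ i < (π.r γ + Finsupp.single t 1 : List ℕ →₀ ℕ) (pre (u γ) i) := by
    intro i hi
    exact (lt_of_lt_plen hi).trans_le (by simp)
  have hsp := plen_spec (π.r γ) (u γ)
  unfold pos
  rw [add_r_node h ht]
  set y := u γ with hy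
  set r := π.r γ with hr
  set p := plen r y with hp
  by_cases h1 : pre y p = t
  · have hlen : t.length = p := by rw [← h1]; simp
    by_cases h2 : y p = r t
    · rw [if_pos ⟨h1, by rw [hlen]; exact h2⟩]
      have h3 : plen (r + Finsupp.single t 1) y = p + 1 := by
        apply plen_eq_of
        · intro i hi
          rcases Nat.lt_succ_iff_lt_or_eq.1 hi with hi | rfl
          · exact hge i hi
          · rw [h1, h2]
            simp
        · rw [pre_succ, h1, h2]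
          have h4 : r (t ++ [r t]) = 0 := by
            by_contra hne
            have h5 := π.hr γ _ hne t.length (by simp)
            simp [← hr] at h5
          have h6 : Finsupp.single t 1 (t ++ [r t]) = 0 := by
            rw [Finsupp.single_apply, if_neg]
            intro h7
            have := congrArg List.length h7
            simp at this
          simp only [Finsupp.add_apply, h4, h6]
          omega
      rw [h3, pre_succ, h1, h2]
    · rw [if_neg (by rintro ⟨-, h3⟩; rw [hlen] at h3; exact h2 h3)]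
      have h3 : plen (r + Finsupp.single t 1) y = p := by
        apply plen_eq_of hge
        rw [h1] at hsp ⊢
        have : r t < y p := lt_of_le_of_ne hsp (Ne.symm h2)
        simpa using this
      rw [h3]
  · rw [if_neg (by rintro ⟨h3, -⟩; exact h1 h3)]
    have h3 : plen (r + Finsupp.single t 1) y = p := by
      apply plen_eq_of hge
      have : Finsupp.single t 1 (pre y p) = 0 := by
        rw [Finsupp.single_apply, if_neg (Ne.symm h1)]
      simp only [Finsupp.add_apply, this, add_zero]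
      exact hsp
    rw [h3]

lemma pos_add_ne {γ ξ : Λ} (h : ξ ≠ γ) (t : List ℕ) (u : Om Λ) :
    (π.add γ t).pos ξ u = π.pos ξ u := by
  unfold pos
  rw [add_r_ne h]

lemma pos_add_new {γ : Λ} (h : γ ∉ π.F) (t : List ℕ) (u : Om Λ) :
    (π.add γ t).pos γ u = [] := by
  unfold pos
  rw [add_r_new h]
  have : plen 0 (u γ) = 0 := plen_eq_of (by simp) (by simp)
  rw [this]
  rfl

end Prot

end Pool.LV
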