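import Pool.Agent.Lib.MP_1c8600_lv.PB

/-!
# Consequences of pure decision; domination; auxiliary maps
-/

set_option autoImplicit false
set_option linter.unusedSectionVars false

open Set

namespace Pool.LV

variable {Λ : Type} [LinearOrder Λ] [WellFoundedLT Λ]

lemma pure_decide_aux {I : Set Λ} (F : Finset Λ) (hF : (↑F : Set Λ) ⊆ I) {α : Type}
    (f : Om Λ → α) (s : Finset α) :
    (∃ k, Lav I k ∧ Pure ↑F k ∧ ∃ a, ∀ u, f (k u) = a) ∨
      ∃ k, Lav I k ∧ Pure ↑F k ∧ ∀ a ∈ s, ∀ e, Lav I e → ¬ ∀ u, f (k (e u)) = a := by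
  classical
  induction s using Finset.induction_on with
  | empty => exact Or.inr ⟨id, Lav.id I, Pure.id _, fun a ha => by simp at ha⟩
  | insert a s ha ih =>
    rcases ih with h | ⟨k, hk, hp, hno⟩
    · exact Or.inl h
    · have hG : RI I {e | ∀ u, f (k (e u)) = a} := fun g hg e _ u => hg (e u)
      rcases pb I F hF _ hG with ⟨k', hk', hp', A, hA, hc, hu⟩ | ⟨k', hk', hp', hno'⟩
      · refine Or.inl ⟨k ∘ k', hk.comp hk', hp.comp hk hk' hp', a, fun u => ?_⟩
        obtain ⟨ℓ, -, h2⟩ := hu u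
        have h3 := h2 (strip ℓ u)
        simp only [Function.comp] at h3
        rwa [ins_strip (Ag.refl ℓ u)] at h3
      · refine Or.inr ⟨k ∘ k', hk.comp hk', hp.comp hk hk' hp', fun b hb e he hall => ?_⟩
        rcases Finset.mem_insert.1 hb with rfl | hb
        · exact hno' e he hall
        · exact hno b hb (k' ∘ e) (hk'.comp he) hall

/-- (5.3) -/
theorem pure_decide {I : Set Λ} (F : Finset Λ) (hF : (↑F : Set Λ) ⊆ I) {α : Type} (s : Finset α)
    (f : Om Λ → α) (hs : ∀ u, f u ∈ s) {A : Set Λ} (hA : A ⊆ I) (hc : A.Countable)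
    (hf : Cts A f) : ∃ k, Lav I k ∧ Pure ↑F k ∧ ∃ a, ∀ u, f (k u) = a := by
  rcases pure_decide_aux F hF f s with h | ⟨k, hk, hp, hno⟩
  · exact h
  · exfalso
    obtain ⟨B, hB, hkB⟩ := hk
    set u : Om Λ := fun _ _ => 0 with hu
    obtain ⟨ℓ, h1, h2⟩ := hf (k u)
    obtain ⟨ℓ', h3, -, q, -, h4⟩ := Lav.E6 (A := B) (B := B ∪ A) hkB subset_union_left
      (hkB.cnt.union hc) (u := u) (w := k u) (ℓ := ℓ) (m := 0)
      (fun γ hγ => Or.inr (h1 γ hγ)) (fun γ hγ => absurd rfl hγ) (Ag.refl ℓ (k u))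
    refine hno (f (k u)) (hs _) (ins u ℓ')
      (Lav.ins u fun γ hγ => (union_subset hB hA) (h3 γ hγ)) fun v => ?_
    have h5 := congrFun h4 v
    simp only [Function.comp] at h5
    rw [h5]
    exact h2 _ (ag_ins _ _ _)

/-- The first `n` values of a local name can be decided purely. -/
theorem pure_decide_pre {φ : Om Λ → ℕ → Bool} (hφ : CC univ φ) (F : Finset Λ) (n : ℕ) :
    ∃ k, Lav univ k ∧ Pure ↑F k ∧ ∃ a, ∀ u, pre (φ (k u)) n = a := by
  classical
  obtain ⟨A, hA, hc, h⟩ := hφ
  refine pure_decide (I := univ) F (subset_univ _)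
    (Finset.image (fun w : Fin n → Bool => List.ofFn w) Finset.univ)
    (fun u => pre (φ u) n) (fun u => ?_) hA hc (Cts.pre φ n fun i _ => h i)
  refine Finset.mem_image.2 ⟨fun i => φ u i, Finset.mem_univ _, ?_⟩
  apply List.ext_getElem
  · simp
  · intro i h1 h2
    simp

/-- The identity below `β`, `h` elsewhere. -/
def up (β : Λ) (h : Om Λ → Om Λ) (u : Om Λ) : Om Λ := fun γ => if γ < β then u γ else h u γ

lemma lav_up {I : Set Λ} {h : Om Λ → Om Λ} (hh : Lav I h) (β : Λ) : Lav I (up β h) ∧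
    ∀ γ u, stem (up β h) γ u = if γ < β then 0 else stem h γ u := by
  obtain ⟨A, hA, hL⟩ := hh
  have key := isL_of (A := A) (h := up β h) (fun γ u => if γ < β then 0 else stem h γ u) hL.cnt
    (by
      intro γ hγ u
      by_cases hb : γ < β
      · simp [up, hb]
      · simp [up, hb, hL.off γ hγ u])
    (by
      intro γ hγ u
      by_cases hb : γ < β
      · simp [hb]
      · simp [hb, hL.stem_off hγ u])
    (by
      intro γ hγ n
      by_cases hb : γ < β
      · have h1 : (fun u : Om Λ => up β h u γ n) = fun u => u γ n := by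
          funext u
          simp [up, hb]
        rw [h1]
        exact Cts.coord (show γ ∈ _ ∩ Iic γ from ⟨hγ, self_mem_Iic⟩) n
      · have h1 : (fun u : Om Λ => up β h u γ n) = fun u => h u γ n := by
          funext u
          simp [up, hb]
        rw [h1]
        exact hL.cts γ hγ n)
    (by
      intro γ hγ
      by_cases hb : γ < β
      · simp only [hb, if_true]
        exact Cts.const _ _
      · simp only [hb, if_false]
        exact hL.ctc γ hγ)
    (by
      intro γ u v l huv hl i hi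
      by_cases hb : γ < β
      · simp only [hb, if_true, Nat.zero_add] at hi
        simp only [up, hb, if_true]
        exact hl i hi
      · simp only [hb, if_false] at hi
        simp only [up, hb, if_false]
        exact hL.pre γ u v l huv hl i hi)
    (by
      intro γ u v l huv hl hlt
      by_cases hb : γ < β
      · simp only [hb, if_true, up, Nat.zero_add]
        exact hlt
      · simp only [hb, if_false, up]
        exact hL.mono γ u v l huv hl hlt)
  exact ⟨⟨A, hA, key.1⟩, key.2⟩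

lemma res_up {I : Set Λ} {h : Om Λ → Om Λ} (hh : Lav I h) (β : Λ) : h = res β h ∘ up β h := by
  funext u γ
  by_cases hb : γ < β
  · have h1 : Bel β u (up β h u) := fun ξ hξ => by simp [up, hξ]
    have h2 := hh.bel h1 γ hb
    simp only [Function.comp_apply, res, hb, if_true]
    exact h2.symm
  · simp [res, up, hb]

lemma res_comp {I J : Set Λ} {h e : Om Λ → Om Λ} (hh : Lav I h) (he : Lav J e) (β : Λ) :
    res β (h ∘ e) = res β h ∘ res β e := by
  funext u γ
  by_cases hb : γ < β
  · have h1 : Bel β (e u) (res β e u) := fun ξ hξ => by simp [res, hξ]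
    have h2 := hh.bel h1 γ hb
    simp only [Function.comp_apply, res, hb, if_true] at h2 ⊢
    exact h2.symm
  · simp [res, hb]

lemma res_eq_self {h : Om Λ → Om Λ} {β : Λ} (hh : Lav (Iio β) h) : res β h = h := by
  funext u γ
  by_cases hb : γ < β
  · simp [res, hb]
  · have h1 : γ ∉ Iio β := hb
    simp [res, hb, hh.off h1 u]

/-- A coordinatewise thinning at the coordinates `≥ δ`, depending on a real. -/
structure Thin (δ : Λ) (A : Set Λ) (ω : Λ → (ℕ → Bool) → (ℕ → ℕ) → ℕ → ℕ) : Prop where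
  cnt : A.Countable
  low : ∀ γ, (γ < δ ∨ γ ∉ A) → ∀ z y, ω γ z y = y
  pre : ∀ γ z y y' l, (∀ i < l, y' i = y i) → ∀ i < l, ω γ z y' i = ω γ z y i
  mono : ∀ γ z y y' l, (∀ i < l, y' i = y i) → y l < y' l → ω γ z y l < ω γ z y' l
  cont : ∀ γ z y l, ∃ N, ∀ z' : ℕ → Bool, (∀ i < N, z' i = z i) → ω γ z' y l = ω γ z y l

/-- A thinning applied with a name of a real below `δ` is a Laver map. -/
theorem thin_lav {δ : Λ} {A : Set Λ} {ω : Λ → (ℕ → Bool) → (ℕ → ℕ) → ℕ → ℕ}
    (hω : Thin δ A ω) {ρ : Om Λ → ℕ → Bool} (hρ : CC (Iio δ) ρ) :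
    Lav univ (fun u γ => ω γ (ρ u) (u γ)) ∧
      ∀ γ u, stem (fun u γ => ω γ (ρ u) (u γ)) γ u = 0 := by
  classical
  have hρeq : ∀ {u v : Om Λ}, Bel δ u v → ρ v = ρ u := fun huv => hρ.eq_of_bel huv
  obtain ⟨A₀, hA₀, hc₀, hρc⟩ := hρ
  have key := isL_of (A := A ∪ A₀) (h := fun u γ => ω γ (ρ u) (u γ)) (fun _ _ => 0)
    (hω.cnt.union hc₀)
    (by
      intro γ hγ u
      exact hω.low γ (Or.inr fun h => hγ (Or.inl h)) _ _)
    (fun _ _ _ => rfl)
    (by
      intro γ hγ n
      by_cases hb : γ < δ ∨ γ ∉ A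
      · have h1 : (fun u : Om Λ => ω γ (ρ u) (u γ) n) = fun u => u γ n := by
          funext u
          rw [hω.low γ hb]
        rw [h1]
        exact Cts.coord (show γ ∈ _ ∩ Iic γ from ⟨hγ, self_mem_Iic⟩) n
      · have hδγ : δ ≤ γ := not_lt.1 fun h => hb (Or.inl h)
        intro u
        obtain ⟨N, hN⟩ := hω.cont γ (ρ u) (u γ) n
        obtain ⟨ℓ, hℓ1, hℓ2⟩ := Cts.pre (A := A₀) ρ N (fun i _ => hρc i) u
        refine ⟨ℓ + Finsupp.single γ (n + 1), ?_, ?_⟩
        · intro ξ hξ
          by_cases hξγ : ξ = γ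
          · subst hξγ
            exact ⟨hγ, self_mem_Iic⟩
          · have h2 : ℓ ξ ≠ 0 := by
              intro h3
              apply hξ
              rw [Finsupp.add_apply, h3, Finsupp.single_apply, if_neg (Ne.symm hξγ), Nat.add_zero]
            have h3 := hℓ1 ξ h2
            exact ⟨Or.inr h3, mem_Iic.2 ((le_of_lt (hA₀ h3)).trans hδγ)⟩
        · intro v hv
          have h2 : pre (ρ v) N = pre (ρ u) N := hℓ2 v (hv.mono fun ξ => by
            rw [Finsupp.add_apply]
            exact Nat.le_add_right _ _)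
          have h3 : ∀ i < n + 1, v γ i = u γ i := by
            intro i hi
            apply hv γ i
            rw [Finsupp.add_apply, Finsupp.single_eq_same]
            omega
          have h4 : ω γ (ρ v) (v γ) n = ω γ (ρ v) (u γ) n :=
            hω.pre γ (ρ v) (u γ) (v γ) (n + 1) h3 n (Nat.lt_succ_self n)
          have h5 : ω γ (ρ v) (u γ) n = ω γ (ρ u) (u γ) n := hN (ρ v) (pre_eq_iff.1 h2)
          exact h4.trans h5)
    (fun _ _ => Cts.const _ _)
    (by
      intro γ u v l huv hl i hi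
      rw [Nat.zero_add] at hi
      by_cases hb : γ < δ ∨ γ ∉ A
      · simp only [hω.low γ hb]
        exact hl i hi
      · have hδγ : δ ≤ γ := not_lt.1 fun h => hb (Or.inl h)
        have h1 : ρ v = ρ u := hρeq (huv.mono hδγ)
        simp only [h1]
        exact hω.pre γ (ρ u) (u γ) (v γ) l hl i hi)
    (by
      intro γ u v l huv hl hlt
      simp only [Nat.zero_add]
      by_cases hb : γ < δ ∨ γ ∉ A
      · simp only [hω.low γ hb]
        exact hlt
      · have hδγ : δ ≤ γ := not_lt.1 fun h => hb (Or.inl h)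
        have h1 : ρ v = ρ u := hρeq (huv.mono hδγ)
        simp only [h1]
        exact hω.mono γ (ρ u) (u γ) (v γ) l hl hlt)
  exact ⟨⟨_, subset_univ _, key.1⟩, key.2⟩

/-- DOMINATION: the generic real at `δ` dominates all local names below `δ`. -/
theorem domination {h : Om Λ → Om Λ} (hh : Lav univ h) (δ : Λ) (θ : Om Λ → ℕ → ℕ)
    (hθ : ∃ A ⊆ Iio δ, A.Countable ∧ ∀ n, Cts A (fun u => θ u n)) :
    ∃ e, Lav univ e ∧ (∀ u, Bel δ u (e u)) ∧
      ∀ u, ∀ i, stem (h ∘ e) δ u ≤ i → θ u i ≤ h (e u) δ i := by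
  obtain ⟨A, hA, hAc, hθ⟩ := hθ
  obtain ⟨B, -, hB⟩ := hh
  have hθe : ∀ u v, Bel δ u v → ∀ n, θ v n = θ u n := fun u v huv n =>
    (hθ n).eq_of fun ξ hξ => huv ξ (hA hξ)
  let e : Om Λ → Om Λ := fun u γ i => if γ = δ then u γ i + θ u (i + stem h δ u) else u γ i
  have hed : ∀ u i, e u δ i = u δ i + θ u (i + stem h δ u) := fun u i => if_pos rfl
  have hene : ∀ u γ, γ ≠ δ → e u γ = u γ := fun u γ hγ => funext fun i => if_neg hγ
  obtain ⟨he, hst⟩ := isL_of (A := insert δ (A ∪ B)) (h := e) (fun _ _ => 0)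
    ((hAc.union hB.cnt).insert δ)
    (fun γ hγ u => hene u γ fun h => hγ (h ▸ mem_insert _ _))
    (fun _ _ _ => rfl)
    (by
      intro γ hγ n
      by_cases h : γ = δ
      · subst h
        have h1 : Cts (insert γ (A ∪ B) ∩ Iic γ) (fun u : Om Λ => u γ n) :=
          Cts.coord (show γ ∈ insert γ (A ∪ B) ∩ Iic γ from ⟨hγ, le_refl γ⟩) n
        have h2 : Cts (insert γ (A ∪ B) ∩ Iic γ) (fun u : Om Λ => θ u (n + stem h γ u)) := by
          refine Cts.bind (f := stem h γ) (g := fun a u => θ u (n + a)) ?_ fun a => ?_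
          · exact (hB.ctc' γ).mono fun ξ hξ => ⟨Or.inr (Or.inr hξ.1), le_of_lt hξ.2⟩
          · exact (hθ (n + a)).mono fun ξ hξ => ⟨Or.inr (Or.inl hξ), le_of_lt (hA hξ)⟩
        have h3 := h1.map₂ h2 (fun a b => a + b)
        have h4 : (fun u => e u γ n) = fun u => u γ n + θ u (n + stem h γ u) :=
          funext fun u => hed u n
        rw [h4]
        exact h3
      · have h4 : (fun u => e u γ n) = fun u => u γ n := funext fun u => congrFun (hene u γ h) n
        rw [h4]
        exact Cts.coord (show γ ∈ insert δ (A ∪ B) ∩ Iic γ from ⟨hγ, le_refl γ⟩) n)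
    (fun γ _ => Cts.const _ _)
    (by
      intro γ u v l huv hl i hi
      rw [zero_add] at hi
      by_cases h : γ = δ
      · subst h
        rw [hed, hed, hl i hi, hB.stem_congr huv, hθe u v huv]
      · rw [hene v γ h, hene u γ h]
        exact hl i hi)
    (by
      intro γ u v l huv hl hlt
      rw [zero_add]
      by_cases h : γ = δ
      · subst h
        rw [hed, hed, hB.stem_congr huv, hθe u v huv]
        omega
      · rw [hene v γ h, hene u γ h]
        exact hlt)
  refine ⟨e, ⟨_, subset_univ _, he⟩, fun u ξ hξ => hene u ξ hξ.ne, ?_⟩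
  intro u i hi
  have hbel : Bel δ u (e u) := fun ξ hξ => hene u ξ hξ.ne
  rw [hB.stem_comp he, hst, hB.stem_congr hbel, Nat.add_zero] at hi
  obtain ⟨j, rfl⟩ := Nat.exists_eq_add_of_le hi
  have h1 := hB.le_entry δ (e u) j
  rw [hB.stem_congr hbel, hed, Nat.add_comm j] at h1
  omega

end Pool.LV
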