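import Pool.Agent.Lib.MP_1c8600_lv.Cell

/-!
# Fusion
-/

set_option autoImplicit false
set_option linter.unusedSectionVars false

open Set Filter

namespace Pool.LV

variable {Λ : Type} [LinearOrder Λ] [WellFoundedLT Λ]

/-- `b n ∘ b (n+1) ∘ ⋯ ∘ b (n+j-1)`. -/
def comps (b : ℕ → Om Λ → Om Λ) (n : ℕ) : ℕ → Om Λ → Om Λ
  | 0 => id
  | j + 1 => comps b n j ∘ b (n + j)

lemma comps_succ' (b : ℕ → Om Λ → Om Λ) (n j : ℕ) :
    comps b n (j + 1) = b n ∘ comps b (n + 1) j := by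
  induction j with
  | zero => rfl
  | succ j ih =>
    have h1 : comps b n (j + 1 + 1) = comps b n (j + 1) ∘ b (n + (j + 1)) := rfl
    have h2 : comps b (n + 1) (j + 1) = comps b (n + 1) j ∘ b (n + 1 + j) := rfl
    rw [h1, ih, h2, show n + (j + 1) = n + 1 + j by omega]
    rfl

lemma comps_add (b : ℕ → Om Λ → Om Λ) (n i j : ℕ) :
    comps b n (i + j) = comps b n i ∘ comps b (n + i) j := by
  induction j with
  | zero => rfl
  | succ j ih =>
    have h1 : comps b n (i + (j + 1)) = comps b n (i + j) ∘ b (n + (i + j)) := rfl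
    have h2 : comps b (n + i) (j + 1) = comps b (n + i) j ∘ b (n + i + j) := rfl
    rw [h1, ih, h2, show n + (i + j) = n + i + j by omega]
    rfl

lemma isL_comps {b : ℕ → Om Λ → Om Λ} {A : ℕ → Set Λ} (hb : ∀ n, IsL (A n) (b n)) (n j : ℕ) :
    IsL (⋃ i, A i) (comps b n j) := by
  have hc : (⋃ i, A i).Countable := countable_iUnion fun i => (hb i).cnt
  induction j with
  | zero => exact isL_id_aux.1.mono_supp (empty_subset _) hc
  | succ j ih =>
    have h1 := ih.comp ((hb (n + j)).mono_supp (subset_iUnion A (n + j)) hc)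
    rw [union_self] at h1
    exact h1

/-- The eventual values of the entries. -/
private noncomputable def F1_K (b : ℕ → Om Λ → Om Λ) (n : ℕ) (u : Om Λ) : Om Λ := fun γ i =>
  sInf {x | ∀ᶠ M in atTop, comps b n M u γ i = x}

private lemma F1_K_eq {b : ℕ → Om Λ → Om Λ} {n : ℕ} {u : Om Λ} {γ : Λ} {i x : ℕ}
    (h : ∀ᶠ M in atTop, comps b n M u γ i = x) : F1_K b n u γ i = x := by
  have h1 : {x | ∀ᶠ M in atTop, comps b n M u γ i = x} = {x} := by
    ext y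
    constructor
    · intro hy
      have hy' : ∀ᶠ M in atTop, comps b n M u γ i = y := hy
      obtain ⟨M, hM1, hM2⟩ := (h.and hy').exists
      exact hM2.symm.trans hM1
    · rintro rfl
      exact h
  unfold F1_K
  rw [h1, csInf_singleton]

private lemma F1_ag {ℓ : Λ →₀ ℕ} {w : Om Λ} {v : ℕ → Om Λ}
    (h : ∀ ξ, ℓ ξ ≠ 0 → ∀ i, ∀ᶠ M in atTop, v M ξ i = w ξ i) :
    ∀ᶠ M in atTop, Ag ℓ w (v M) := by
  have h1 : ∀ᶠ M in atTop, ∀ ξ ∈ ℓ.support, ∀ i ∈ Finset.range (ℓ ξ), v M ξ i = w ξ i := by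
    rw [Filter.eventually_all_finset]
    intro ξ hξ
    rw [Filter.eventually_all_finset]
    intro i _
    exact h ξ (Finsupp.mem_support_iff.1 hξ) i
  filter_upwards [h1] with M hM ξ i hi
  exact hM ξ (Finsupp.mem_support_iff.2 (by omega)) i (Finset.mem_range.2 hi)

private lemma F1_cts {α : Type} {B : Set Λ} {f : Om Λ → α} (hf : Cts B f) {w : Om Λ}
    {v : ℕ → Om Λ} (h : ∀ ξ ∈ B, ∀ i, ∀ᶠ M in atTop, v M ξ i = w ξ i) :
    ∀ᶠ M in atTop, f (v M) = f w := by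
  obtain ⟨ℓ, h1, h2⟩ := hf w
  filter_upwards [F1_ag (fun ξ hξ => h ξ (h1 ξ hξ))] with M hM
  exact h2 _ hM

private lemma F1_shift {P : ℕ → Prop} (a : ℕ) (h : ∀ᶠ j in atTop, P (a + j)) :
    ∀ᶠ M in atTop, P M := by
  rw [Filter.eventually_atTop] at h ⊢
  obtain ⟨J, hJ⟩ := h
  refine ⟨a + J, fun M hM => ?_⟩
  have := hJ (M - a) (by omega)
  rwa [Nat.add_sub_cancel' (by omega)] at this

private lemma F1_fix {b : ℕ → Om Λ → Om Λ} {m : Λ → ℕ → Om Λ → ℕ}
    (h1 : ∀ γ l u M, m γ l u ≤ M → ∀ i < l, b M u γ i = u γ i)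
    (h2 : ∀ γ l u M, m γ l u ≤ M → m γ l (b M u) = m γ l u) (γ : Λ) (l N j : ℕ) :
    ∀ u, m γ l u ≤ N → ∀ i < l, comps b N j u γ i = u γ i := by
  induction j with
  | zero => exact fun u _ i _ => rfl
  | succ j ih =>
    intro u hu i hi
    have h3 : m γ l u ≤ N + j := by omega
    have h4 := ih (b (N + j) u) (by rw [h2 γ l u (N + j) h3]; exact hu) i hi
    exact h4.trans (h1 γ l u (N + j) h3 i hi)

private lemma F1_stem0 {b : ℕ → Om Λ → Om Λ} {A : ℕ → Set Λ} (hb : ∀ n, IsL (A n) (b n))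
    {m : Λ → ℕ → Om Λ → ℕ} (h2 : ∀ γ l u M, m γ l u ≤ M → m γ l (b M u) = m γ l u)
    (h3 : ∀ γ u M, m γ 0 u ≤ M → stem (b M) γ u = 0) (γ : Λ) (N j : ℕ) :
    ∀ u, m γ 0 u ≤ N → stem (comps b N j) γ u = 0 := by
  induction j with
  | zero => exact fun u _ => stem_id γ u
  | succ j ih =>
    intro u hu
    have h4 : m γ 0 u ≤ N + j := by omega
    have h5 := ih (b (N + j) u) (by rw [h2 γ 0 u (N + j) h4]; exact hu)
    have h6 : stem (comps b N j ∘ b (N + j)) γ u =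
        stem (comps b N j) γ (b (N + j) u) + stem (b (N + j)) γ u :=
      (isL_comps hb N j).stem_comp (hb (N + j)) γ u
    have h7 : comps b N (j + 1) = comps b N j ∘ b (N + j) := rfl
    rw [h7, h6, h5, h3 γ u (N + j) h4]

/-- The limit point below `γ`, `u` from `γ` on. -/
private noncomputable def F1_w (b : ℕ → Om Λ → Om Λ) (γ : Λ) (N : ℕ) (u : Om Λ) : Om Λ :=
  fun ξ => if ξ < γ then F1_K b N u ξ else u ξ

private lemma F1_w_lt {b : ℕ → Om Λ → Om Λ} {γ ξ : Λ} (h : ξ < γ) (N : ℕ) (u : Om Λ) :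
    F1_w b γ N u ξ = F1_K b N u ξ := if_pos h

private lemma F1_w_self {b : ℕ → Om Λ → Om Λ} {γ : Λ} (N : ℕ) (u : Om Λ) :
    F1_w b γ N u γ = u γ := if_neg (lt_irrefl γ)

private lemma F1_main {b : ℕ → Om Λ → Om Λ} {A : ℕ → Set Λ} (hb : ∀ n, IsL (A n) (b n))
    {m : Λ → ℕ → Om Λ → ℕ} (h1 : ∀ γ l u M, m γ l u ≤ M → ∀ i < l, b M u γ i = u γ i)
    (h2 : ∀ γ l u M, m γ l u ≤ M → m γ l (b M u) = m γ l u) {γ : Λ}
    (ih : ∀ ξ < γ, ∀ n u i, ∀ᶠ M in atTop, comps b n M u ξ i = F1_K b n u ξ i)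
    {n a l : ℕ} {u : Om Λ} (ha : m γ l u ≤ n + a) {p : ℕ} (hp : p < l) :
    ∀ᶠ M in atTop, comps b n M u γ p = comps b n a (F1_w b γ (n + a) u) γ p := by
  classical
  apply F1_shift a
  let v : ℕ → Om Λ := fun j => comps b (n + a) j u
  let v' : ℕ → Om Λ := fun j => Function.update (v j) γ (u γ)
  have hL := isL_comps hb n a
  have e1 : ∀ᶠ j in atTop, comps b n a (v' j) γ p = comps b n a (F1_w b γ (n + a) u) γ p := by
    refine F1_cts (hL.cts' γ p) ?_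
    rintro ξ ⟨-, hξ⟩ i
    rcases (show ξ ≤ γ from hξ).lt_or_eq with h | rfl
    · filter_upwards [ih ξ h (n + a) u i] with j hj
      have e : v' j ξ = v j ξ := Function.update_of_ne h.ne _ _
      rw [e, F1_w_lt h]
      exact hj
    · refine Filter.Eventually.of_forall fun j => ?_
      have e : v' j ξ = u ξ := Function.update_self _ _ _
      rw [e, F1_w_self]
  filter_upwards [e1] with j hj
  rw [comps_add, Function.comp_apply, ← hj]
  refine hL.pre γ (v' j) (v j) l ?_ ?_ p (by omega)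
  · intro ξ hξ
    exact (Function.update_of_ne hξ.ne _ _).symm
  · intro i hi
    have e : v' j γ = u γ := Function.update_self _ _ _
    rw [e]
    exact F1_fix h1 h2 γ l (n + a) j u ha i hi

private lemma F1_main_stem {b : ℕ → Om Λ → Om Λ} {A : ℕ → Set Λ} (hb : ∀ n, IsL (A n) (b n))
    {m : Λ → ℕ → Om Λ → ℕ}
    (h2 : ∀ γ l u M, m γ l u ≤ M → m γ l (b M u) = m γ l u)
    (h3 : ∀ γ u M, m γ 0 u ≤ M → stem (b M) γ u = 0) {γ : Λ}
    (ih : ∀ ξ < γ, ∀ n u i, ∀ᶠ M in atTop, comps b n M u ξ i = F1_K b n u ξ i)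
    {n a : ℕ} {u : Om Λ} (ha : m γ 0 u ≤ n + a) :
    ∀ᶠ M in atTop, stem (comps b n M) γ u = stem (comps b n a) γ (F1_w b γ (n + a) u) := by
  apply F1_shift a
  have hL := isL_comps hb n a
  have e1 : ∀ᶠ j in atTop, stem (comps b n a) γ (comps b (n + a) j u) =
      stem (comps b n a) γ (F1_w b γ (n + a) u) := by
    refine F1_cts (hL.ctc' γ) ?_
    rintro ξ ⟨-, hξ⟩ i
    have h : ξ < γ := hξ
    rw [F1_w_lt h]
    exact ih ξ h (n + a) u i
  filter_upwards [e1] with j hj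
  rw [comps_add, hL.stem_comp (isL_comps hb (n + a) j), hj,
    F1_stem0 hb h2 h3 γ (n + a) j u ha, add_zero]

/-- FUSION LIMIT.  `m γ l u` is the stage after which `u γ` is fixed up to `l`. -/
theorem fusion_limit {b : ℕ → Om Λ → Om Λ} {A : ℕ → Set Λ} (hb : ∀ n, IsL (A n) (b n))
    (m : Λ → ℕ → Om Λ → ℕ) (hm : ∀ γ l, Cts ((⋃ i, A i) ∩ Iic γ) (m γ l))
    (hm0 : ∀ γ, Cts ((⋃ i, A i) ∩ Iio γ) (m γ 0))
    (h1 : ∀ γ l u M, m γ l u ≤ M → ∀ i < l, b M u γ i = u γ i)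
    (h2 : ∀ γ l u M, m γ l u ≤ M → m γ l (b M u) = m γ l u)
    (h3 : ∀ γ u M, m γ 0 u ≤ M → stem (b M) γ u = 0) :
    ∃ k : ℕ → Om Λ → Om Λ, (∀ n, IsL (⋃ i, A i) (k n)) ∧ (∀ n, k n = b n ∘ k (n + 1)) ∧
      (∀ n u γ i, ∀ᶠ M in atTop, comps b n M u γ i = k n u γ i) ∧
      (∀ n γ u, ∀ᶠ M in atTop, stem (comps b n M) γ u = stem (k n) γ u) := by
  classical
  have hcnt : (⋃ i, A i).Countable := countable_iUnion fun i => (hb i).cnt
  -- the entries converge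
  have hG : ∀ γ, ∀ n u i, ∀ᶠ M in atTop, comps b n M u γ i = F1_K b n u γ i := by
    intro γ
    induction γ using WellFoundedLT.induction with
    | ind γ ih =>
      intro n u i
      have h4 := F1_main hb h1 h2 ih (n := n) (a := m γ (i + 1) u) (l := i + 1) (u := u)
        (by omega) (Nat.lt_succ_self i)
      rw [F1_K_eq h4]
      exact h4
  have hG' : ∀ γ, ∀ ξ < γ, ∀ n u i, ∀ᶠ M in atTop, comps b n M u ξ i = F1_K b n u ξ i :=
    fun γ ξ _ => hG ξ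
  have hoff : ∀ γ, γ ∉ (⋃ i, A i) → ∀ n u, F1_K b n u γ = u γ := by
    intro γ hγ n u
    funext i
    refine F1_K_eq (Filter.Eventually.of_forall fun M => ?_)
    rw [(isL_comps hb n M).off γ hγ u]
  -- the formula for the entries
  have hKf : ∀ γ n i u, F1_K b n u γ i =
      comps b n (m γ (i + 1) u) (F1_w b γ (n + m γ (i + 1) u) u) γ i := by
    intro γ n i u
    exact F1_K_eq (F1_main hb h1 h2 (hG' γ) (l := i + 1) (by omega) (Nat.lt_succ_self i))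
  have hcts : ∀ γ, γ ∈ (⋃ i, A i) → ∀ n i, Cts ((⋃ i, A i) ∩ Iic γ)
      (fun u => F1_K b n u γ i) := by
    intro γ
    induction γ using WellFoundedLT.induction with
    | ind γ ih =>
      intro hγ n i
      have e : (fun u => F1_K b n u γ i) = fun u =>
          (fun a u => comps b n a (F1_w b γ (n + a) u) γ i) (m γ (i + 1) u) u := by
        funext u
        exact hKf γ n i u
      rw [e]
      refine Cts.bind (g := fun a u => comps b n a (F1_w b γ (n + a) u) γ i) (hm γ (i + 1))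
        fun a => ?_
      refine Cts.comp (f := fun v => comps b n a v γ i) ((isL_comps hb n a).cts γ hγ i) ?_
      rintro β ⟨hβ, hβγ⟩ j
      rcases (show β ≤ γ from hβγ).lt_or_eq with h | rfl
      · simp only [F1_w_lt h]
        exact (ih β h hβ (n + a) j).mono fun ξ hξ => ⟨hξ.1, (show ξ ≤ β from hξ.2).trans h.le⟩
      · simp only [F1_w_self]
        have hmem : β ∈ (⋃ i, A i) ∩ Iic β := ⟨hβ, le_rfl⟩
        exact Cts.coord hmem j
  -- the stems
  let C : ℕ → Λ → Om Λ → ℕ := fun n γ u =>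
    stem (comps b n (m γ 0 u)) γ (F1_w b γ (n + m γ 0 u) u)
  have hC : ∀ n γ u, ∀ᶠ M in atTop, stem (comps b n M) γ u = C n γ u := by
    intro n γ u
    exact F1_main_stem hb h2 h3 (hG' γ) (by omega)
  have hctc : ∀ n γ, γ ∈ (⋃ i, A i) → Cts ((⋃ i, A i) ∩ Iio γ) (C n γ) := by
    intro n γ hγ
    refine Cts.bind (g := fun a u => stem (comps b n a) γ (F1_w b γ (n + a) u)) (hm0 γ)
      fun a => ?_
    refine Cts.comp (f := stem (comps b n a) γ) ((isL_comps hb n a).ctc γ hγ) ?_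
    rintro β ⟨hβ, hβγ⟩ j
    have h : β < γ := hβγ
    simp only [F1_w_lt h]
    exact (hcts β hβ (n + a) j).mono fun ξ hξ => ⟨hξ.1, (show ξ ≤ β from hξ.2).trans_lt h⟩
  have hkey : ∀ n, IsL (⋃ i, A i) (F1_K b n) ∧ ∀ γ u, stem (F1_K b n) γ u = C n γ u := by
    intro n
    refine isL_of (C n) hcnt (fun γ hγ u => hoff γ hγ n u) ?_ (fun γ hγ i => hcts γ hγ n i)
      (fun γ hγ => hctc n γ hγ) ?_ ?_
    · intro γ hγ u
      exact (isL_comps hb n _).stem_off hγ _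
    · intro γ u v l huv hl i hi
      obtain ⟨M, hM1, hM2, hM3⟩ := ((hG γ n u i).and ((hG γ n v i).and (hC n γ u))).exists
      rw [← hM1, ← hM2]
      exact (isL_comps hb n M).pre γ u v l huv hl i (by rw [hM3]; exact hi)
    · intro γ u v l huv hl hlt
      obtain ⟨M, hM1, hM2, hM3⟩ := ((hG γ n u (C n γ u + l)).and
        ((hG γ n v (C n γ u + l)).and (hC n γ u))).exists
      rw [← hM1, ← hM2, ← hM3]
      exact (isL_comps hb n M).mono γ u v l huv hl hlt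
  refine ⟨F1_K b, fun n => (hkey n).1, fun n => ?_, fun n u γ i => hG γ n u i,
    fun n γ u => ?_⟩
  · funext u γ i
    have e1 : ∀ᶠ M in atTop, comps b n (1 + M) u γ i = F1_K b n u γ i :=
      (tendsto_add_atTop_nat 1).eventually (hG γ n u i) |>.mono fun M hM => by
        rw [add_comm 1 M]
        exact hM
    have e2 : ∀ᶠ M in atTop, b n (comps b (n + 1) M u) γ i = b n (F1_K b (n + 1) u) γ i :=
      F1_cts ((hb n).cts' γ i) fun ξ _ j => hG ξ (n + 1) u j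
    obtain ⟨M, hM1, hM2⟩ := (e1.and e2).exists
    rw [← hM1, add_comm 1 M, comps_succ', Function.comp_apply, Function.comp_apply, hM2]
  · rw [(hkey n).2 γ u]
    exact hC n γ u

/-- Enumeration of a countable set. -/
lemma enum (C : Set Λ) : ∃ f : ℕ → Option Λ, C.Countable → ∀ γ ∈ C, ∃ j, f j = some γ := by
  classical
  by_cases h : C.Countable
  · haveI := h.toEncodable
    refine ⟨fun j => (Encodable.decode j : Option C).map Subtype.val, fun _ γ hγ => ?_⟩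
    refine ⟨Encodable.encode (⟨γ, hγ⟩ : C), ?_⟩
    simp [Encodable.encodek]
  · exact ⟨fun _ => none, fun h' => absurd h' h⟩

lemma nd_mono {r r' : List ℕ →₀ ℕ} (h : ∀ t, r t ≤ r' t) {t : List ℕ} (ht : Nd r t) : Nd r' t :=
  fun i hi => (ht i hi).trans_le (h _)

lemma nd_snoc {r : List ℕ →₀ ℕ} {t : List ℕ} {a : ℕ} (ht : Nd r t) (ha : a < r t) :
    Nd r (t ++ [a]) := by
  intro i hi
  have hi' : i < t.length + 1 := by simpa using hi
  rcases Nat.lt_succ_iff_lt_or_eq.1 hi' with h | h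
  · have e1 : (t ++ [a])[i] = t[i] := List.getElem_append_left h
    have e2 : (t ++ [a]).take i = t.take i := by
      rw [List.take_append_of_le_length h.le]
    rw [e1, e2]
    exact ht i h
  · subst h
    have e1 : (t ++ [a])[t.length] = a := by simp
    have e2 : (t ++ [a]).take t.length = t := by simp
    rw [e1, e2]
    exact ha

/-- BOOKKEEPING. -/
theorem bookkeeping {St : Type} (π : St → Prot Λ) (I' : Set Λ)
    (Step : St → (Om Λ → Om Λ) → Set Λ → St → Prop)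
    (hA : ∀ σ b A σ', Step σ b A σ' → A.Countable ∧ Prot.LE (π σ) (π σ'))
    (H : ∀ σ, ∀ γ ∈ I', ∀ t, ∃ b A σ', Step σ b A σ' ∧ Prot.Served (π σ) (π σ') γ t)
    (H0 : ∀ σ, ∃ b A σ', Step σ b A σ') (σ₀ : St) :
    ∃ (σ : ℕ → St) (b : ℕ → Om Λ → Om Λ) (A : ℕ → Set Λ), σ 0 = σ₀ ∧
      (∀ n, Step (σ n) (b n) (A n) (σ (n + 1))) ∧
      ∀ γ ∈ I', ((∃ n, γ ∈ A n) ∨ ∃ n, γ ∈ (π (σ n)).F) → ∀ t : List ℕ,
        ∃ n, γ ∈ (π (σ n)).F ∧ Nd ((π (σ n)).r γ) t := by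
  classical
  choose en hen using (enum (Λ := Λ))
  let dec : ℕ → ℕ × ℕ × List ℕ × ℕ := Denumerable.ofNat (ℕ × ℕ × List ℕ × ℕ)
  have hdec : ∀ (i j : ℕ) (t : List ℕ) (N : ℕ), ∃ n ≥ N, ∃ r, dec n = (i, j, t, r) := by
    intro i j t N
    have hinj : Function.Injective (fun r : ℕ => Encodable.encode (i, j, t, r)) := by
      intro r r' h
      have h1 := Encodable.encode_injective h
      simpa using h1
    obtain ⟨r, hr⟩ := hinj.nat_tendsto_atTop.eventually_ge_atTop N |>.exists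
    exact ⟨_, hr, r, Denumerable.ofNat_encode _⟩
  have key : ∀ (p : St × (ℕ → ℕ → Option Λ)) (n : ℕ), ∃ q : (Om Λ → Om Λ) × Set Λ × St,
      Step p.1 q.1 q.2.1 q.2.2 ∧ ∀ γ ∈ I', p.2 (dec n).1 (dec n).2.1 = some γ →
        Prot.Served (π p.1) (π q.2.2) γ (dec n).2.2.1 := by
    intro p n
    by_cases h : ∃ γ ∈ I', p.2 (dec n).1 (dec n).2.1 = some γ
    · obtain ⟨γ, hγ, e⟩ := h
      obtain ⟨b, A, σ', h1, h2⟩ := H p.1 γ hγ (dec n).2.2.1
      refine ⟨(b, A, σ'), h1, fun γ' _ e' => ?_⟩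
      have : γ = γ' := Option.some_injective _ (e.symm.trans e')
      subst this
      exact h2
    · obtain ⟨b, A, σ', h1⟩ := H0 p.1
      exact ⟨(b, A, σ'), h1, fun γ' hγ' e' => absurd ⟨γ', hγ', e'⟩ h⟩
  choose q hq1 hq2 using key
  let X : ℕ → St × (ℕ → ℕ → Option Λ) := fun n => Nat.rec (σ₀, fun _ => en (↑(π σ₀).F : Set Λ))
    (fun n p => ((q p n).2.2, Function.update p.2 (n + 1)
      (en ((q p n).2.1 ∪ (↑(π (q p n).2.2).F : Set Λ))))) n
  have hX0 : X 0 = (σ₀, fun _ => en (↑(π σ₀).F : Set Λ)) := rfl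
  have hX : ∀ n, X (n + 1) = ((q (X n) n).2.2, Function.update (X n).2 (n + 1)
      (en ((q (X n) n).2.1 ∪ (↑(π (q (X n) n).2.2).F : Set Λ)))) := fun n => rfl
  have hstep : ∀ n, Step (X n).1 (q (X n) n).1 (q (X n) n).2.1 (X (n + 1)).1 := by
    intro n
    rw [hX]
    exact hq1 (X n) n
  have hserved : ∀ n, ∀ γ ∈ I', (X n).2 (dec n).1 (dec n).2.1 = some γ →
      Prot.Served (π (X n).1) (π (X (n + 1)).1) γ (dec n).2.2.1 := by
    intro n γ hγ e
    rw [hX]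
    exact hq2 (X n) n γ hγ e
  have hpers : ∀ i n, i ≤ n → (X n).2 i = (X i).2 i := by
    intro i n hn
    induction n, hn using Nat.le_induction with
    | base => rfl
    | succ n hn ih =>
      rw [hX]
      simp only
      rw [Function.update_of_ne (by omega)]
      exact ih
  have hLE1 : ∀ n, Prot.LE (π (X n).1) (π (X (n + 1)).1) := fun n => (hA _ _ _ _ (hstep n)).2
  have hLE : ∀ n m, n ≤ m → Prot.LE (π (X n).1) (π (X m).1) := by
    intro n m hm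
    induction m, hm using Nat.le_induction with
    | base => exact Prot.LE.refl _
    | succ m _ ih => exact ih.trans (hLE1 m)
  refine ⟨fun n => (X n).1, fun n => (q (X n) n).1, fun n => (q (X n) n).2.1, rfl, hstep, ?_⟩
  intro γ hγ hex
  -- the index of `γ`
  have hidx : ∃ i j, ∀ n, i ≤ n → (X n).2 i j = some γ := by
    rcases hex with ⟨n, hn⟩ | ⟨n, hn⟩
    · have hc : ((q (X n) n).2.1 ∪ (↑(π (q (X n) n).2.2).F : Set Λ)).Countable :=
        (hA _ _ _ _ (hstep n)).1.union (Finset.countable_toSet _)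
      obtain ⟨j, hj⟩ := hen _ hc γ (Or.inl hn)
      refine ⟨n + 1, j, fun m hm => ?_⟩
      rw [hpers _ _ hm, hX]
      simp only [Function.update_self]
      exact hj
    · cases n with
      | zero =>
        obtain ⟨j, hj⟩ := hen _ (Finset.countable_toSet (π σ₀).F) γ hn
        refine ⟨0, j, fun m hm => ?_⟩
        rw [hpers _ _ hm, hX0]
        exact hj
      | succ n =>
        have hc : ((q (X n) n).2.1 ∪ (↑(π (q (X n) n).2.2).F : Set Λ)).Countable :=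
          (hA _ _ _ _ (hstep n)).1.union (Finset.countable_toSet _)
        have hn' : γ ∈ (π (q (X n) n).2.2).F := hn
        obtain ⟨j, hj⟩ := hen _ hc γ (Or.inr hn')
        refine ⟨n + 1, j, fun m hm => ?_⟩
        rw [hpers _ _ hm, hX]
        simp only [Function.update_self]
        exact hj
  obtain ⟨i, j, hij⟩ := hidx
  -- infinitely many stages serve each request
  have hinf : ∀ (t : List ℕ) (N : ℕ), ∃ n ≥ N,
      Prot.Served (π (X n).1) (π (X (n + 1)).1) γ t := by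
    intro t N
    obtain ⟨n, hn, r, e⟩ := hdec i j t (max N i)
    refine ⟨n, (le_max_left _ _).trans hn, ?_⟩
    have h1 := hserved n γ hγ
    rw [e] at h1
    exact h1 (hij n ((le_max_right _ _).trans hn))
  intro t
  induction t using List.reverseRecOn with
  | nil =>
    obtain ⟨n, _, hn⟩ := hinf [] 0
    exact ⟨n + 1, hn.1, fun i hi => absurd hi (by simp)⟩
  | append_singleton t a ih =>
    obtain ⟨n, hnF, hnt⟩ := ih
    have hgrow : ∀ k : ℕ, ∃ m ≥ n, k ≤ (π (X m).1).r γ t := by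
      intro k
      induction k with
      | zero => exact ⟨n, le_rfl, Nat.zero_le _⟩
      | succ k ihk =>
        obtain ⟨m, hm, hk⟩ := ihk
        obtain ⟨m', hm', hs⟩ := hinf t m
        have h1 := hLE n m' (hm.trans hm')
        have h2 := hLE m m' hm'
        have h3 := hLE n m hm
        have h4 : (π (X m').1).r γ t + 1 ≤ (π (X (m' + 1)).1).r γ t :=
          hs.2 (h1.1 hnF) (nd_mono (h1.2 γ hnF) hnt)
        have h5 := h2.2 γ (h3.1 hnF) t
        exact ⟨m' + 1, by omega, by omega⟩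
    obtain ⟨m, hm, hk⟩ := hgrow (a + 1)
    have h1 := hLE n m hm
    exact ⟨m, h1.1 hnF, nd_snoc (nd_mono (h1.2 γ hnF) hnt) hk⟩

lemma Nd.mono_le {r r' : List ℕ →₀ ℕ} (h : ∀ t, r t ≤ r' t) {t : List ℕ} (ht : Nd r t) :
    Nd r' t := fun i hi => (ht i hi).trans_le (h _)

/-- Compositions of preserving maps. -/
lemma pres_comps {I : Set Λ} {p : ℕ → Prot Λ} {b : ℕ → Om Λ → Om Λ}
    (hle : ∀ n j, Prot.LE (p n) (p (n + j))) (hb : ∀ n, Lav I (b n)) (hp : ∀ n, (p n).Pres (b n))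
    (n j : ℕ) : Lav I (comps b n j) ∧ (p n).Pres (comps b n j) := by
  induction j with
  | zero => exact ⟨Lav.id I, Prot.Pres.id⟩
  | succ j ih =>
    exact ⟨ih.1.comp (hb (n + j)),
      Prot.Pres.comp ih.1 (hb (n + j)) ih.2 ((hp (n + j)).anti (hle n j))⟩

/-- The stage after which `u γ` is fixed up to `l`. -/
lemma cts_stage {B : Set Λ} (p : ℕ → Prot Λ) {γ : Λ} (hγ : γ ∈ B) (l : ℕ)
    (he : ∀ t : List ℕ, ∃ n, γ ∈ (p n).F ∧ Nd ((p n).r γ) t) :
    Cts B (fun u : Om Λ => sInf {n | γ ∈ (p n).F ∧ Nd ((p n).r γ) (pre (u γ) l)}) := by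
  refine Cts.find (fun n u => γ ∈ (p n).F ∧ Nd ((p n).r γ) (pre (u γ) l)) (fun n => ?_)
    (fun u => he _)
  exact (Cts.pre (fun u : Om Λ => u γ) l fun i _ => Cts.coord hγ i).map
    (fun t => γ ∈ (p n).F ∧ Nd ((p n).r γ) t)

/-- STANDARD FUSION. -/
theorem fusion {I : Set Λ} {St : Type} (π : St → Prot Λ)
    (Step : St → (Om Λ → Om Λ) → St → Prop)
    (hF : ∀ σ, (↑(π σ).F : Set Λ) ⊆ I)
    (hS : ∀ σ b σ', Step σ b σ' → Lav I b ∧ (π σ).Pres b ∧ Prot.LE (π σ) (π σ'))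
    (H : ∀ σ, ∀ γ ∈ I, ∀ t, ∃ b σ', Step σ b σ' ∧ Prot.Served (π σ) (π σ') γ t)
    (H0 : ∀ σ, ∃ b σ', Step σ b σ') (σ₀ : St) :
    ∃ (σ : ℕ → St) (b k : ℕ → Om Λ → Om Λ), σ 0 = σ₀ ∧
      (∀ n, Step (σ n) (b n) (σ (n + 1))) ∧
      (∀ n, Lav I (k n) ∧ (π (σ n)).Pres (k n) ∧ k n = b n ∘ k (n + 1)) ∧
      ∀ γ, (∃ n, γ ∈ (π (σ n)).F) → ∀ t : List ℕ,
        ∃ n, γ ∈ (π (σ n)).F ∧ Nd ((π (σ n)).r γ) t := by
  classical
  obtain ⟨σ, b, A, hσ0, hstep, hserv⟩ := bookkeeping π I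
    (fun σ b A σ' => IsL A b ∧ A ⊆ I ∧ Step σ b σ')
    (fun σ b A σ' h => ⟨h.1.cnt, (hS _ _ _ h.2.2).2.2⟩)
    (fun σ γ hγ t => by
      obtain ⟨b, σ', h1, h2⟩ := H σ γ hγ t
      obtain ⟨A, hA, hb⟩ := (hS _ _ _ h1).1
      exact ⟨b, A, σ', ⟨hb, hA, h1⟩, h2⟩)
    (fun σ => by
      obtain ⟨b, σ', h1⟩ := H0 σ
      obtain ⟨A, hA, hb⟩ := (hS _ _ _ h1).1
      exact ⟨b, A, σ', hb, hA, h1⟩) σ₀
  have hAI : (⋃ i, A i) ⊆ I := iUnion_subset fun n => (hstep n).2.1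
  have hb : ∀ n, IsL (A n) (b n) := fun n => (hstep n).1
  have hbI : ∀ n, Lav I (b n) := fun n => ⟨A n, (hstep n).2.1, hb n⟩
  have hpres : ∀ n, (π (σ n)).Pres (b n) := fun n => (hS _ _ _ (hstep n).2.2).2.1
  have hle : ∀ n j, Prot.LE (π (σ n)) (π (σ (n + j))) := by
    intro n j
    induction j with
    | zero => exact Prot.LE.refl _
    | succ j ih => exact ih.trans (hS _ _ _ (hstep (n + j)).2.2).2.2
  have hcl : ∀ γ ∈ ⋃ i, A i, ∀ t : List ℕ, ∃ n, γ ∈ (π (σ n)).F ∧ Nd ((π (σ n)).r γ) t :=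
    fun γ hγ => hserv γ (hAI hγ) (Or.inl (mem_iUnion.1 hγ))
  -- the stage function
  let m : Λ → ℕ → Om Λ → ℕ := fun γ l u =>
    if γ ∈ ⋃ i, A i then sInf {n | γ ∈ (π (σ n)).F ∧ Nd ((π (σ n)).r γ) (pre (u γ) l)} else 0
  have hmpos : ∀ γ l u, γ ∈ (⋃ i, A i) →
      m γ l u = sInf {n | γ ∈ (π (σ n)).F ∧ Nd ((π (σ n)).r γ) (pre (u γ) l)} :=
    fun γ l u h => if_pos h
  have hmneg : ∀ γ l u, γ ∉ (⋃ i, A i) → m γ l u = 0 := fun γ l u h => if_neg h
  have hgood : ∀ γ l u M, γ ∈ (⋃ i, A i) → m γ l u ≤ M →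
      γ ∈ (π (σ M)).F ∧ l ≤ (π (σ M)).len γ u := by
    intro γ l u M hγ hM
    have h1 : m γ l u ∈ {n | γ ∈ (π (σ n)).F ∧ Nd ((π (σ n)).r γ) (pre (u γ) l)} := by
      rw [hmpos γ l u hγ]
      exact Nat.sInf_mem (hcl γ hγ _)
    obtain ⟨j, rfl⟩ := Nat.exists_eq_add_of_le hM
    have h2 := hle (m γ l u) j
    exact ⟨h2.1 h1.1, nd_pre_iff.1 (h1.2.mono_le fun t => h2.2 γ h1.1 t)⟩
  have hm : ∀ γ l, Cts ((⋃ i, A i) ∩ Iic γ) (m γ l) := by
    intro γ l
    by_cases hγ : γ ∈ ⋃ i, A i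
    · have h1 : m γ l = fun u => sInf {n | γ ∈ (π (σ n)).F ∧
          Nd ((π (σ n)).r γ) (pre (u γ) l)} := funext fun u => hmpos γ l u hγ
      rw [h1]
      exact cts_stage (B := (⋃ i, A i) ∩ Iic γ) (fun n => π (σ n)) ⟨hγ, mem_Iic.2 le_rfl⟩ l
        (hcl γ hγ)
    · have h1 : m γ l = fun _ => 0 := funext fun u => hmneg γ l u hγ
      rw [h1]
      exact Cts.const _ _
  have hm0 : ∀ γ, Cts ((⋃ i, A i) ∩ Iio γ) (m γ 0) := by
    intro γ
    by_cases hγ : γ ∈ ⋃ i, A i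
    · have h1 : m γ 0 = fun _ => sInf {n | γ ∈ (π (σ n)).F ∧ Nd ((π (σ n)).r γ) []} :=
        funext fun u => hmpos γ 0 u hγ
      rw [h1]
      exact Cts.const _ _
    · have h1 : m γ 0 = fun _ => 0 := funext fun u => hmneg γ 0 u hγ
      rw [h1]
      exact Cts.const _ _
  have h1 : ∀ γ l u M, m γ l u ≤ M → ∀ i < l, b M u γ i = u γ i := by
    intro γ l u M hM i hi
    by_cases hγ : γ ∈ ⋃ i, A i
    · obtain ⟨h2, h3⟩ := hgood γ l u M hγ hM
      exact (hpres M γ h2).2 u i (hi.trans_le h3)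
    · exact congrFun ((hb M).off γ (fun h => hγ (mem_iUnion.2 ⟨M, h⟩)) u) i
  have h2 : ∀ γ l u M, m γ l u ≤ M → m γ l (b M u) = m γ l u := by
    intro γ l u M hM
    by_cases hγ : γ ∈ ⋃ i, A i
    · rw [hmpos γ l _ hγ, hmpos γ l _ hγ, pre_eq_iff.2 (h1 γ l u M hM)]
    · rw [hmneg γ l _ hγ, hmneg γ l _ hγ]
  have h3 : ∀ γ u M, m γ 0 u ≤ M → stem (b M) γ u = 0 := by
    intro γ u M hM
    by_cases hγ : γ ∈ ⋃ i, A i
    · exact (hpres M γ (hgood γ 0 u M hγ hM).1).1 u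
    · exact (hb M).stem_off (fun h => hγ (mem_iUnion.2 ⟨M, h⟩)) u
  obtain ⟨k, hk1, hk2, hk3, hk4⟩ := fusion_limit hb m hm hm0 h1 h2 h3
  refine ⟨σ, b, k, hσ0, fun n => (hstep n).2.2, fun n => ⟨⟨_, hAI, hk1 n⟩, ?_, hk2 n⟩, ?_⟩
  · have hc := fun j => (pres_comps (p := fun n => π (σ n)) hle hbI hpres n j).2
    intro γ hγ
    refine ⟨fun u => ?_, fun u i hi => ?_⟩
    · obtain ⟨M, hM⟩ := (hk4 n γ u).exists
      rw [← hM]
      exact (hc M γ hγ).1 u
    · obtain ⟨M, hM⟩ := (hk3 n u γ i).exists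
      rw [← hM]
      exact (hc M γ hγ).2 u i hi
  · rintro γ ⟨n, hn⟩
    exact hserv γ (hF (σ n) hn) (Or.inr ⟨n, hn⟩)

/-- The composition of the first `n` maps. -/
lemma comps_zero_comp {b k : ℕ → Om Λ → Om Λ} (h : ∀ n, k n = b n ∘ k (n + 1)) (n : ℕ) :
    k 0 = comps b 0 n ∘ k n := by
  induction n with
  | zero => rfl
  | succ n ih =>
    rw [ih, h n]
    show comps b 0 n ∘ b n ∘ k (n + 1) = (comps b 0 n ∘ b (0 + n)) ∘ k (n + 1)
    rw [Nat.zero_add]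
    rfl

end Pool.LV
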