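import Pool.Agent.Lib.MP_1c8600_lv.L1

/-!
# Right ideals, bars, gluing
-/

set_option autoImplicit false
set_option linter.unusedSectionVars false

open Set

namespace Pool.LV

variable {Λ : Type} [LinearOrder Λ] [WellFoundedLT Λ]

variable {I : Set Λ} {G : Set (Om Λ → Om Λ)}

/-- There are only countably many finite informations with support in a countable set. -/
lemma countable_ins {A : Set Λ} (hc : A.Countable) :
    {j : Om Λ → Om Λ | ∃ (u : Om Λ) (ℓ : Λ →₀ ℕ), (∀ ξ, ℓ ξ ≠ 0 → ξ ∈ A) ∧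
      j = ins u ℓ}.Countable := by
  classical
  have hcA : Countable A := hc.to_subtype
  let R : (A →₀ ℕ) × ((Σ _ : A, ℕ) →₀ ℕ) → Om Λ → Om Λ := fun d v γ i =>
    if h : γ ∈ A then
      (if i < d.1 ⟨γ, h⟩ then d.2 ⟨⟨γ, h⟩, i⟩ else v γ (i - d.1 ⟨γ, h⟩)) else v γ i
  refine (countable_range R).mono ?_
  rintro _ ⟨u, ℓ, hℓ, rfl⟩
  let ℓ' : A →₀ ℕ := ℓ.subtypeDomain (· ∈ A)
  have hℓ' : ∀ a : A, ℓ' a = ℓ a := fun a => rfl
  let c : (Σ _ : A, ℕ) →₀ ℕ := Finsupp.onFinset (ℓ'.support.sigma fun a => Finset.range (ℓ' a))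
    (fun x => if x.2 < ℓ' x.1 then u x.1 x.2 else 0) (by
      rintro ⟨a, i⟩ h
      by_cases hi : i < ℓ' a
      · rw [Finset.mem_sigma, Finsupp.mem_support_iff, Finset.mem_range]
        exact ⟨by change ℓ' a ≠ 0; omega, hi⟩
      · exact absurd (if_neg hi) h)
  refine ⟨(ℓ', c), ?_⟩
  funext v γ i
  by_cases h : γ ∈ A
  · have h1 : R (ℓ', c) v γ i = if i < ℓ γ then c ⟨⟨γ, h⟩, i⟩ else v γ (i - ℓ γ) := dif_pos h
    rw [h1]
    unfold ins
    by_cases hi : i < ℓ γ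
    · rw [if_pos hi, if_pos hi]
      exact if_pos hi
    · rw [if_neg hi, if_neg hi]
  · have h1 : R (ℓ', c) v γ i = v γ i := dif_neg h
    have h2 : ℓ γ = 0 := by
      by_contra h2
      exact h (hℓ γ h2)
    rw [h1]
    simp [ins, h2]

/-- Members are barred. -/
lemma Barred.of_mem {h : Om Λ → Om Λ} (hh : h ∈ G) : Barred I G h :=
  ⟨∅, empty_subset _, countable_empty, fun u => ⟨0, fun γ hγ => absurd rfl hγ, by
    rw [ins_zero]; exact hh⟩⟩

lemma Barred.mono_set {G' : Set (Om Λ → Om Λ)} {h : Om Λ → Om Λ} (hh : Barred I G h)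
    (hG : G ⊆ G') : Barred I G' h := by
  obtain ⟨A, hA, hc, hu⟩ := hh
  exact ⟨A, hA, hc, fun u => by obtain ⟨ℓ, h1, h2⟩ := hu u; exact ⟨ℓ, h1, hG h2⟩⟩

/-- (B1) -/
lemma Barred.comp (hG : RI I G) {h q : Om Λ → Om Λ} (hh : Barred I G h) (hq : Lav I q) :
    Barred I G (h ∘ q) := by
  obtain ⟨A, hA, hc, hu⟩ := hh
  obtain ⟨B, hB, hq⟩ := hq
  refine ⟨A ∪ B, union_subset hA hB, hc.union hq.cnt, fun u => ?_⟩
  obtain ⟨ℓ, h1, h2⟩ := hu (q u)
  obtain ⟨ℓ', h3, -, q', h4, h5⟩ := Lav.E6 (m := 0) hq subset_union_right (hc.union hq.cnt)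
    (fun γ hγ => Or.inl (h1 γ hγ)) (fun γ hγ => absurd rfl hγ) (Ag.refl ℓ (q u))
  refine ⟨ℓ', h3, ?_⟩
  have h6 : (h ∘ q) ∘ ins u ℓ' = (h ∘ ins (q u) ℓ) ∘ q' := by
    rw [Function.comp_assoc, h5]
    rfl
  rw [h6]
  exact hG _ h2 _ ⟨A ∪ B, union_subset hA hB, h4⟩

private lemma G1_countable_ins {A : Set Λ} (hc : A.Countable) :
    {j : Om Λ → Om Λ | ∃ (u : Om Λ) (ℓ : Λ →₀ ℕ), (∀ ξ, ℓ ξ ≠ 0 → ξ ∈ A) ∧
      j = ins u ℓ}.Countable := by
  classical
  have : Countable A := hc.to_subtype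
  let F : (A →₀ ℕ) × ((A × ℕ) →₀ ℕ) → (Om Λ → Om Λ) := fun p v γ i =>
    if h : γ ∈ A then (if i < p.1 ⟨γ, h⟩ then p.2 (⟨γ, h⟩, i) else v γ (i - p.1 ⟨γ, h⟩)) else v γ i
  refine (Set.countable_range F).mono ?_
  rintro j ⟨u, ℓ, hℓ, rfl⟩
  let s : (A × ℕ) →₀ ℕ := Finsupp.onFinset
    ((ℓ.subtypeDomain (· ∈ A)).support ×ˢ Finset.range (ℓ.support.sup ℓ))
    (fun p => if p.2 < ℓ p.1 then u p.1 p.2 else 0) (by
      rintro ⟨γ, i⟩ hp
      by_cases hi : i < ℓ γ
      · have h1 : ℓ γ ≠ 0 := by omega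
        refine Finset.mem_product.2 ⟨?_, ?_⟩
        · rw [Finsupp.mem_support_iff]
          exact h1
        · rw [Finset.mem_range]
          exact hi.trans_le (Finset.le_sup (f := ℓ) (Finsupp.mem_support_iff.2 h1))
      · exact absurd (if_neg hi) hp)
  refine ⟨(ℓ.subtypeDomain (· ∈ A), s), ?_⟩
  funext v γ i
  by_cases h : γ ∈ A
  · simp only [F, h, dif_pos, ins, Finsupp.subtypeDomain_apply]
    by_cases hi : i < ℓ γ
    · simp [hi, s]
    · simp [hi]
  · have h0 : ℓ γ = 0 := by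
      by_contra h1
      exact h (hℓ γ h1)
    simp [F, h, ins, h0]

/-- (B2) -/
lemma Barred.trans {A : Set Λ} {h : Om Λ → Om Λ} (hA : A ⊆ I) (hc : A.Countable)
    (hG : RI I G)
    (hh : ∀ u, ∃ ℓ : Λ →₀ ℕ, (∀ γ, ℓ γ ≠ 0 → γ ∈ A) ∧ Barred I G (h ∘ ins u ℓ)) :
    Barred I G h := by
  classical
  let S : (Om Λ → Om Λ) → Set Λ := fun j => if hj : Barred I G (h ∘ j) then hj.choose else ∅
  have hSI : ∀ j, S j ⊆ I := by
    intro j
    by_cases hj : Barred I G (h ∘ j)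
    · simp only [S, hj, dif_pos]
      exact hj.choose_spec.1
    · simp only [S, hj, dif_neg, not_false_iff]
      exact empty_subset _
  have hSc : ∀ j, (S j).Countable := by
    intro j
    by_cases hj : Barred I G (h ∘ j)
    · simp only [S, hj, dif_pos]
      exact hj.choose_spec.2.1
    · simp only [S, hj, dif_neg, not_false_iff]
      exact countable_empty
  set M : Set (Om Λ → Om Λ) := {j | ∃ (u : Om Λ) (ℓ : Λ →₀ ℕ), (∀ ξ, ℓ ξ ≠ 0 → ξ ∈ A) ∧
      j = ins u ℓ} with hM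
  have hMc : M.Countable := G1_countable_ins hc
  refine ⟨A ∪ ⋃ j ∈ M, S j, union_subset hA (iUnion₂_subset fun j _ => hSI j),
    hc.union (hMc.biUnion fun j _ => hSc j), fun u => ?_⟩
  obtain ⟨ℓ₁, h1, h2⟩ := hh u
  have h3 := h2.choose_spec.2.2 (strip ℓ₁ u)
  obtain ⟨ℓ₂, h4, h5⟩ := h3
  refine ⟨ℓ₁ + ℓ₂, fun γ hγ => ?_, ?_⟩
  · by_cases h6 : ℓ₁ γ = 0
    · have h7 : ℓ₂ γ ≠ 0 := by
        intro h8
        exact hγ (by rw [Finsupp.add_apply, h6, h8])
      refine Or.inr (mem_iUnion₂.2 ⟨ins u ℓ₁, ⟨u, ℓ₁, h1, rfl⟩, ?_⟩)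
      simp only [S, h2, dif_pos]
      exact h4 γ h7
    · exact Or.inl (h1 γ h6)
  · have h6 : ins u (ℓ₁ + ℓ₂) = ins u ℓ₁ ∘ ins (strip ℓ₁ u) ℓ₂ := by
      funext w
      change _ = ins u ℓ₁ (ins (strip ℓ₁ u) ℓ₂ w)
      rw [ins_ins, ins_strip (Ag.refl ℓ₁ u)]
    rw [h6, ← Function.comp_assoc]
    exact h5

/-- A property which is inherited holds everywhere if it holds on a bar. -/
lemma Barred.forall {P : Om Λ → Prop} {h : Om Λ → Om Λ}
    (hh : Barred I G h) (hP : ∀ u ℓ, h ∘ ins u ℓ ∈ G → ∀ v, P (ins u ℓ v)) : ∀ u, P u := by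
  intro u
  obtain ⟨A, _, _, hu⟩ := hh
  obtain ⟨ℓ, _, h2⟩ := hu u
  have := hP u ℓ h2 (strip ℓ u)
  rwa [ins_strip (Ag.refl ℓ u)] at this

/-- A stem which vanishes on pieces below `γ` vanishes. -/
lemma stem_of_local {k : Om Λ → Om Λ} (hk : Lav I k) {γ : Λ} {u : Om Λ} {ℓ : Λ →₀ ℕ} {n : ℕ}
    (hℓ : ℓ γ = 0) (h : ∀ v, stem (k ∘ ins u ℓ) γ v = n) : stem k γ u = n := by
  have h1 := h (strip ℓ u)
  rw [hk.stem_comp (Lav.ins (I := univ) u fun _ _ => mem_univ _), stem_ins, hℓ, Nat.add_zero,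
    ins_strip (Ag.refl ℓ u)] at h1
  exact h1

lemma cts_ag {A : Set Λ} (w : Om Λ) {ℓ : Λ →₀ ℕ} (hℓ : ∀ ξ, ℓ ξ ≠ 0 → ξ ∈ A) :
    Cts A (fun u => Ag ℓ w u) := by
  intro u
  refine ⟨ℓ, hℓ, fun v hv => ?_⟩
  exact propext ⟨fun h => h.trans hv.symm, fun h => h.trans hv⟩

lemma strip_bel {ξ : Λ} {u v : Om Λ} (ℓ : Λ →₀ ℕ) (h : Bel ξ u v) :
    Bel ξ (strip ℓ u) (strip ℓ v) := by
  intro β hβ
  funext i
  change v β (i + ℓ β) = u β (i + ℓ β)
  rw [h β hβ]

/-- (GL1) Gluing along a bar with support below `γ`. -/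
theorem glue1 {γ : Λ} {A : Set Λ} (hA : A ⊆ I ∩ Iio γ) (hc : A.Countable)
    {k₀ : Om Λ → Om Λ} (hk₀ : Lav (I ∩ Iio γ) k₀)
    (Q : (Om Λ → Om Λ) → (Om Λ → Om Λ) → Prop)
    (hQ : ∀ j e, Lav I e → Q j e → ∀ (u : Om Λ) (ℓ : Λ →₀ ℕ), (∀ ξ, ℓ ξ ≠ 0 → ξ ∈ A) →
      Q (j ∘ ins u ℓ) (e ∘ ins u ℓ))
    (H : ∀ u, ∃ ℓ : Λ →₀ ℕ, (∀ ξ, ℓ ξ ≠ 0 → ξ ∈ A) ∧ ∃ e, Lav I e ∧
      (∀ v, Bel γ (k₀ (ins u ℓ v)) (e v)) ∧ Q (ins u ℓ) e) :
    ∃ k, Lav I k ∧ (∀ v, Bel γ (k₀ v) (k v)) ∧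
      ∀ u, ∃ ℓ : Λ →₀ ℕ, (∀ ξ, ℓ ξ ≠ 0 → ξ ∈ A) ∧ Q (ins u ℓ) (k ∘ ins u ℓ) := by
  classical
  choose L hL E hE hEk hEQ using H
  -- enumeration of the countably many informations
  have hS : (range fun u => ins u (L u)).Countable := by
    refine (countable_ins hc).mono ?_
    rintro _ ⟨u, rfl⟩
    exact ⟨u, L u, hL u, rfl⟩
  have hne : (range fun u => ins u (L u)).Nonempty := ⟨_, (fun _ _ => 0), rfl⟩
  obtain ⟨F, hF⟩ := hS.exists_eq_range hne
  have hw : ∀ n, ∃ u, ins u (L u) = F n := fun n => by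
    have : F n ∈ range fun u => ins u (L u) := by
      rw [hF]
      exact ⟨n, rfl⟩
    exact this
  choose w hw using hw
  have hex : ∀ u, ∃ n, Ag (L (w n)) (w n) u := by
    intro u
    have h1 : ins u (L u) ∈ range F := by
      rw [← hF]
      exact ⟨u, rfl⟩
    obtain ⟨n, hn⟩ := h1
    refine ⟨n, ?_⟩
    have h2 : ins (w n) (L (w n)) (strip (L u) u) = u := by
      rw [hw, hn]
      exact ins_strip (Ag.refl _ _)
    have h3 := ag_ins (w n) (strip (L u) u) (L (w n))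
    rwa [h2] at h3
  let idx : Om Λ → ℕ := fun u => sInf {n | Ag (L (w n)) (w n) u}
  have hidx : ∀ u, Ag (L (w (idx u))) (w (idx u)) u := fun u => Nat.sInf_mem (hex u)
  have hcidx : Cts A idx := Cts.find _ (fun n => cts_ag (w n) (hL (w n))) hex
  have hL0 : ∀ n, ∀ ξ, γ ≤ ξ → L (w n) ξ = 0 := by
    intro n ξ hξ
    by_contra h
    exact absurd (hA (hL (w n) ξ h)).2 (not_lt.2 hξ)
  have hidx_bel : ∀ u v, Bel γ u v → idx v = idx u := fun u v h =>
    hcidx.eq_of fun ξ hξ => h ξ (hA hξ).2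
  let k : Om Λ → Om Λ := fun u => E (w (idx u)) (strip (L (w (idx u))) u)
  have hk : ∀ u, k u = E (w (idx u)) (strip (L (w (idx u))) u) := fun u => rfl
  have hkk : ∀ v, Bel γ (k₀ v) (k v) := by
    intro v
    have h1 := hEk (w (idx v)) (strip (L (w (idx v))) v)
    rwa [ins_strip (hidx v)] at h1
  obtain ⟨A₀, hA₀, hkL⟩ := hk₀
  choose B hBI hB using fun n => hE (w n)
  -- the support
  set S : Set Λ := A ∪ A₀ ∪ ⋃ n, B n with hSdef
  have hSc : S.Countable := (hc.union hkL.cnt).union (countable_iUnion fun n => (hB n).cnt)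
  have hAS : A ⊆ S := fun ξ h => Or.inl (Or.inl h)
  have hA₀S : A₀ ⊆ S := fun ξ h => Or.inl (Or.inr h)
  have hBS : ∀ n, B n ⊆ S := fun n ξ h => Or.inr (mem_iUnion.2 ⟨n, h⟩)
  have hSI : S ⊆ I := by
    rintro ξ ((h | h) | h)
    · exact (hA h).1
    · exact (hA₀ h).1
    · obtain ⟨n, hn⟩ := mem_iUnion.1 h
      exact hBI n hn
  let c : Λ → Om Λ → ℕ := fun ξ u =>
    if ξ < γ then stem k₀ ξ u else stem (E (w (idx u))) ξ (strip (L (w (idx u))) u)
  have hc1 : ∀ ξ u, ξ < γ → c ξ u = stem k₀ ξ u := fun ξ u h => if_pos h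
  have hc2 : ∀ ξ u, ¬ ξ < γ → c ξ u = stem (E (w (idx u))) ξ (strip (L (w (idx u))) u) :=
    fun ξ u h => if_neg h
  have key : IsL S k ∧ ∀ ξ u, stem k ξ u = c ξ u := by
    refine isL_of c hSc ?_ ?_ ?_ ?_ ?_ ?_
    · intro ξ hξ u
      rw [hk, (hB _).off ξ (fun h => hξ (hBS _ h))]
      have h0 : L (w (idx u)) ξ = 0 := by
        by_contra h
        exact hξ (hAS (hL _ ξ h))
      funext i
      simp [strip, h0]
    · intro ξ hξ u
      by_cases h : ξ < γ
      · rw [hc1 ξ u h, hkL.stem_off fun h' => hξ (hA₀S h')]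
      · rw [hc2 ξ u h, (hB _).stem_off fun h' => hξ (hBS _ h')]
    · intro ξ hξ n
      by_cases h : ξ < γ
      · have h1 : (fun u => k u ξ n) = fun u => k₀ u ξ n := by
          funext u
          rw [hkk u ξ h]
        rw [h1]
        refine (hkL.cts' ξ n).mono (inter_subset_inter_left _ ?_)
        exact insert_subset hξ hA₀S
      · have h1 : Cts (S ∩ Iic ξ) idx := hcidx.mono fun β hβ =>
          ⟨hAS hβ, ((hA hβ).2.trans_le (not_lt.1 h)).le⟩
        refine h1.bind (g := fun a u => E (w a) (strip (L (w a)) u) ξ n) fun a => ?_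
        refine ((hB a).cts' ξ n).comp (h := strip (L (w a))) fun β hβ m => ?_
        refine Cts.coord ?_ _
        refine ⟨?_, hβ.2⟩
        rcases hβ.1 with h2 | h2
        · rw [h2]
          exact hξ
        · exact hBS a h2
    · intro ξ _
      by_cases h : ξ < γ
      · have h1 : c ξ = stem k₀ ξ := by
          funext u
          exact hc1 ξ u h
        rw [h1]
        exact (hkL.ctc' ξ).mono (inter_subset_inter_left _ hA₀S)
      · have h1 : Cts (S ∩ Iio ξ) idx := hcidx.mono fun β hβ =>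
          ⟨hAS hβ, (hA hβ).2.trans_le (not_lt.1 h)⟩
        have h2 : c ξ = fun u => stem (E (w (idx u))) ξ (strip (L (w (idx u))) u) := by
          funext u
          exact hc2 ξ u h
        rw [h2]
        refine h1.bind (g := fun a u => stem (E (w a)) ξ (strip (L (w a)) u)) fun a => ?_
        refine ((hB a).ctc' ξ).comp (h := strip (L (w a))) fun β hβ m => ?_
        refine Cts.coord ?_ _
        exact ⟨hBS a hβ.1, hβ.2⟩
    · intro ξ u v l huv hl i hi
      by_cases h : ξ < γ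
      · rw [hc1 ξ u h] at hi
        rw [hkk v ξ h, hkk u ξ h]
        exact hkL.pre ξ u v l huv hl i hi
      · rw [hc2 ξ u h] at hi
        rw [hk, hk, hidx_bel u v (huv.mono (not_lt.1 h))]
        refine (hB (idx u)).pre ξ _ _ l (strip_bel _ huv) (fun i hi => ?_) i hi
        simp only [strip, hL0 _ ξ (not_lt.1 h), Nat.add_zero]
        exact hl i hi
    · intro ξ u v l huv hl hlt
      by_cases h : ξ < γ
      · rw [hc1 ξ u h, hkk v ξ h, hkk u ξ h]
        exact hkL.mono ξ u v l huv hl hlt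
      · rw [hc2 ξ u h, hk, hk, hidx_bel u v (huv.mono (not_lt.1 h))]
        refine (hB (idx u)).mono ξ _ _ l (strip_bel _ huv) (fun i hi => ?_) ?_
        · simp only [strip, hL0 _ ξ (not_lt.1 h), Nat.add_zero]
          exact hl i hi
        · simp only [strip, hL0 _ ξ (not_lt.1 h), Nat.add_zero]
          exact hlt
  refine ⟨k, ⟨S, hSI, key.1⟩, hkk, fun u => ?_⟩
  obtain ⟨ℓ', h1, h2⟩ := hcidx u
  set a := idx u with ha
  have hle : ∀ ξ, L (w a) ξ ≤ (L (w a) + ℓ') ξ := fun ξ => by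
    rw [Finsupp.add_apply]
    exact Nat.le_add_right _ _
  refine ⟨L (w a) + ℓ', fun ξ hξ => ?_, ?_⟩
  · rw [Finsupp.add_apply] at hξ
    by_cases h3 : L (w a) ξ = 0
    · exact h1 ξ (by omega)
    · exact hL _ ξ h3
  · have hf := ins_factor (hidx u) hle
    have h3 : k ∘ ins u (L (w a) + ℓ') =
        E (w a) ∘ ins (strip (L (w a)) u) (L (w a) + ℓ' - L (w a)) := by
      funext v
      have h4 : idx (ins u (L (w a) + ℓ') v) = a := h2 _ ((ag_ins u v _).mono fun ξ => by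
        rw [Finsupp.add_apply]
        exact Nat.le_add_left _ _)
      change k (ins u (L (w a) + ℓ') v) = _
      rw [hk, h4, hf]
      change E (w a) (strip (L (w a)) (ins (w a) (L (w a)) _)) = _
      rw [strip_ins]
      rfl
    rw [h3, hf]
    refine hQ _ _ (hE (w a)) (hEQ (w a)) _ _ fun ξ hξ => ?_
    have h4 : (L (w a) + ℓ' - L (w a)) ξ = ℓ' ξ := by
      rw [Finsupp.tsub_apply, Finsupp.add_apply]
      omega
    exact h1 ξ (by rwa [h4] at hξ)

/-- (GL2) Gluing the successors of the stem at `γ`. -/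
theorem glue2 {γ : Λ} (hγ : γ ∈ I) {g₀ : Om Λ → Om Λ} (e : ℕ → Om Λ → Om Λ)
    (he : ∀ j, Lav I (e j)) (hg : ∀ j v, Bel γ (g₀ v) (e j v)) (hs : ∀ j v, stem (e j) γ v = 1)
    (hlt : ∀ j v, e j v γ 0 < e (j + 1) v γ 0) :
    ∃ k, Lav I k ∧ (∀ v, Bel γ (g₀ v) (k v)) ∧ (∀ v, stem k γ v = 0) ∧
      ∀ u, k ∘ ins u (Finsupp.single γ 1) = e (u γ 0) := by
  classical
  choose A hAI hA using he
  set S : Om Λ → Om Λ := strip (Finsupp.single γ 1) with hS
  have hSne : ∀ (u : Om Λ) ξ, ξ ≠ γ → S u ξ = u ξ := by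
    intro u ξ h
    funext i
    simp [hS, strip, h.symm]
  have hSeq : ∀ (u : Om Λ) i, S u γ i = u γ (i + 1) := by
    intro u i
    simp [hS, strip]
  have hSbel : ∀ u : Om Λ, Bel γ u (S u) := fun u ξ hξ => hSne u ξ hξ.ne
  have hSbel' : ∀ {ξ : Λ} {u v : Om Λ}, Bel ξ u v → Bel ξ (S u) (S v) := by
    intro ξ u v h η hη
    by_cases hηγ : η = γ
    · subst hηγ
      funext i
      rw [hSeq, hSeq, h η hη]
    · rw [hSne u η hηγ, hSne v η hηγ, h η hη]
  have hScts : ∀ (B : Set Λ) (ξ : Λ) n, ξ ∈ B → Cts B (fun u => S u ξ n) := by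
    intro B ξ n hξ
    by_cases h : ξ = γ
    · subst h
      simp only [hSeq]
      exact Cts.coord hξ (n + 1)
    · simp only [hSne _ ξ h]
      exact Cts.coord hξ n
  -- values below `γ`
  have hval : ∀ j (u : Om Λ) ξ, ξ < γ → e j (S u) ξ = e 0 u ξ := by
    intro j u ξ hξ
    have h1 := hg j (S u) ξ hξ
    have h2 := hg 0 (S u) ξ hξ
    have h3 := (hA 0).bel (hSbel u) ξ hξ
    rw [h1, ← h2, h3]
  have hstem : ∀ j (u : Om Λ) ξ, ξ < γ → stem (e j) ξ (S u) = stem (e 0) ξ u := by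
    intro j u ξ hξ
    rw [(hA j).stem_congr ((hSbel u).mono hξ.le)]
    unfold stem
    congr 1
    ext i
    constructor
    · rintro ⟨v, h1, h2⟩
      exact ⟨v, h1, by rwa [hg 0 v ξ hξ, hg 0 u ξ hξ, ← hg j v ξ hξ, ← hg j u ξ hξ]⟩
    · rintro ⟨v, h1, h2⟩
      exact ⟨v, h1, by rwa [hg j v ξ hξ, hg j u ξ hξ, ← hg 0 v ξ hξ, ← hg 0 u ξ hξ]⟩
  have hkoff : ∀ ξ, ξ ∉ insert γ (⋃ j, A j) → ∀ u : Om Λ, e (u γ 0) (S u) ξ = u ξ := by
    intro ξ hξ u
    have h1 : ξ ≠ γ := fun h => hξ (Or.inl h)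
    rw [(hA (u γ 0)).off ξ (fun h => hξ (Or.inr (mem_iUnion.2 ⟨_, h⟩))), hSne u ξ h1]
  have hsub : ∀ j, A j ⊆ insert γ (⋃ j, A j) := fun j x hx => Or.inr (mem_iUnion.2 ⟨j, hx⟩)
  obtain ⟨hk, hks⟩ := isL_of (A := insert γ (⋃ j, A j)) (h := fun u => e (u γ 0) (S u))
    (fun ξ u => if ξ = γ then 0 else stem (e (u γ 0)) ξ (S u))
    ((countable_iUnion fun j => (hA j).cnt).insert γ)
    (fun ξ hξ u => hkoff ξ hξ u)
    (by
      intro ξ hξ u
      have h1 : ξ ≠ γ := fun h => hξ (Or.inl h)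
      simp only [h1, if_false]
      exact (hA _).stem_off (fun h => hξ (hsub _ h)) _)
    (by
      intro ξ hξ n
      rcases lt_or_ge ξ γ with h | h
      · simp only [hval _ _ ξ h]
        refine ((hA 0).cts' ξ n).mono ?_
        rintro x ⟨hx | hx, hx'⟩
        · exact ⟨hx ▸ hξ, hx'⟩
        · exact ⟨hsub 0 hx, hx'⟩
      · refine Cts.bind (f := fun u : Om Λ => u γ 0) (g := fun j u => e j (S u) ξ n)
          (Cts.coord (A := insert γ (⋃ j, A j) ∩ Iic ξ) ⟨Or.inl rfl, h⟩ 0) fun j => ?_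
        refine Cts.comp ((hA j).cts' ξ n) fun β hβ m => ?_
        refine hScts _ β m ?_
        rcases hβ with ⟨hx | hx, hx'⟩
        · exact ⟨hx ▸ hξ, hx'⟩
        · exact ⟨hsub j hx, hx'⟩)
    (by
      intro ξ hξ
      rcases lt_trichotomy ξ γ with h | h | h
      · simp only [h.ne, if_false, hstem _ _ ξ h]
        exact ((hA 0).ctc' ξ).mono (inter_subset_inter_left _ (hsub 0))
      · simp only [h, if_true]
        exact Cts.const _ _
      · simp only [h.ne', if_false]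
        refine Cts.bind (f := fun u : Om Λ => u γ 0) (g := fun j u => stem (e j) ξ (S u))
          (Cts.coord (A := insert γ (⋃ j, A j) ∩ Iio ξ) ⟨Or.inl rfl, h⟩ 0) fun j => ?_
        refine Cts.comp ((hA j).ctc' ξ) fun β hβ m => ?_
        exact hScts _ β m ⟨hsub j hβ.1, hβ.2⟩)
    (by
      intro ξ u v l huv hl i hi
      rcases lt_trichotomy ξ γ with h | h | h
      · simp only [h.ne, if_false, hstem _ _ ξ h] at hi
        simp only [hval _ _ ξ h]
        exact (hA 0).pre ξ u v l huv hl i hi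
      · subst h
        simp only [if_true, Nat.zero_add] at hi
        have h0 : v ξ 0 = u ξ 0 := hl 0 (by omega)
        simp only [h0]
        refine (hA _).pre ξ (S u) (S v) (l - 1) (hSbel' huv) (fun i hi => ?_) i ?_
        · rw [hSeq, hSeq]
          exact hl _ (by omega)
        · rw [hs]
          omega
      · simp only [h.ne', if_false] at hi
        have h0 : v γ = u γ := huv γ h
        simp only [h0]
        refine (hA _).pre ξ (S u) (S v) l (hSbel' huv) (fun i hi => ?_) i hi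
        rw [hSne u ξ h.ne', hSne v ξ h.ne']
        exact hl i hi)
    (by
      intro ξ u v l huv hl hlt'
      rcases lt_trichotomy ξ γ with h | h | h
      · simp only [h.ne, if_false, hstem _ _ ξ h, hval _ _ ξ h]
        exact (hA 0).mono ξ u v l huv hl hlt'
      · subst h
        simp only [if_true, Nat.zero_add]
        cases l with
        | zero =>
          have h1 : e (v ξ 0) (S v) ξ 0 = e (v ξ 0) (S u) ξ 0 :=
            (hA _).pre ξ (S u) (S v) 0 (hSbel' huv) (fun i hi => absurd hi (Nat.not_lt_zero i)) 0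
              (by rw [hs]; omega)
          rw [h1]
          exact strictMono_nat_of_lt_succ (f := fun j => e j (S u) ξ 0)
            (fun j => hlt j (S u)) hlt'
        | succ l =>
          have h0 : v ξ 0 = u ξ 0 := hl 0 (by omega)
          rw [h0]
          have h1 := (hA (u ξ 0)).mono ξ (S u) (S v) l (hSbel' huv) (fun i hi => by
            rw [hSeq, hSeq]
            exact hl _ (by omega)) (by
            rw [hSeq, hSeq]
            exact hlt')
          rw [hs] at h1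
          rwa [Nat.add_comm l 1]
      · simp only [h.ne', if_false]
        have h0 : v γ = u γ := huv γ h
        rw [h0]
        exact (hA _).mono ξ (S u) (S v) l (hSbel' huv) (fun i hi => by
          rw [hSne u ξ h.ne', hSne v ξ h.ne']
          exact hl i hi) (by
          rw [hSne u ξ h.ne', hSne v ξ h.ne']
          exact hlt'))
  refine ⟨fun u => e (u γ 0) (S u), ⟨_, ?_, hk⟩, ?_, ?_, ?_⟩
  · rintro ξ (h | h)
    · exact h ▸ hγ
    · obtain ⟨j, hj⟩ := mem_iUnion.1 h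
      exact hAI j hj
  · intro v ξ hξ
    simp only [hval _ _ ξ hξ]
    exact hg 0 v ξ hξ
  · intro v
    rw [hks]
    simp
  · intro u
    funext v
    change e (ins u (Finsupp.single γ 1) v γ 0) (S (ins u (Finsupp.single γ 1) v)) = _
    have h1 : ins u (Finsupp.single γ 1) v γ 0 = u γ 0 := by simp [ins]
    rw [h1, hS, strip_ins]

end Pool.LV
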