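import Pool.Agent.Lib.MP_1c8600_lv.T4

/-!
# The kernel theorem
-/

set_option autoImplicit false
set_option linter.unusedSectionVars false

open Set Cardinal

namespace Pool.LV

/-- Closure points exist. -/
def Closing (Λ : Type) [LinearOrder Λ] : Prop :=
  ∀ g : (Om Λ → Om Λ) → (Om Λ → ℕ → Bool) → Λ, ∃ δ : Λ, ∀ h c, Lav (Iio δ) h → CC (Iio δ) c →
    g h c < δ

/-- Countable sets are bounded. -/
def CBdd (Λ : Type) [LinearOrder Λ] : Prop := ∀ A : Set Λ, A.Countable → ∃ β, A ⊆ Iio β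

section

variable {Λ : Type} [LinearOrder Λ] [WellFoundedLT Λ]

/-- KERNEL THEOREM -/
theorem KT (hB : CBdd Λ) (hC : Closing Λ)
    (X : (Om Λ → Om Λ) → (Om Λ → ℕ → Bool) → Prop)
    (mono : ∀ h φ e, Lav univ h → CC univ φ → Lav univ e → X h φ → X (h ∘ e) (φ ∘ e))
    (unb : ∀ h δ, Lav univ h → ∃ e φ, Lav univ e ∧ CC univ φ ∧ X (h ∘ e) φ ∧ NC δ φ) :
    ∃ h c, Lav univ h ∧ CC univ c ∧ ∀ e ρ, Lav univ e → CC univ ρ →
      ∃ e' φ, Lav univ e' ∧ CC univ φ ∧ X (h ∘ e ∘ e') φ ∧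
        ∀ u, GR (c (e (e' u))) (φ u) (ρ (e' u)) := by
  by_contra hcon
  push Not at hcon
  -- bad pairs
  have key : ∀ (h : Om Λ → Om Λ) (c : Om Λ → ℕ → Bool), ∃ (e : Om Λ → Om Λ)
      (ρ : Om Λ → ℕ → Bool) (β : Λ), Lav univ h → CC univ c →
      (Lav (Iio β) e ∧ CC (Iio β) ρ ∧ ∀ e' φ, Lav univ e' → CC univ φ → X (h ∘ e ∘ e') φ →
        ∃ u, ¬ GR (c (e (e' u))) (φ u) (ρ (e' u))) := by
    intro h c
    by_cases hh : Lav univ h ∧ CC univ c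
    · obtain ⟨e, ρ, ⟨A, -, he⟩, ⟨B, -, hBc, hρ⟩, H⟩ := hcon h c hh.1 hh.2
      obtain ⟨β, hβ⟩ := hB (A ∪ B) (he.cnt.union hBc)
      exact ⟨e, ρ, β, fun _ _ => ⟨⟨A, subset_union_left.trans hβ, he⟩,
        ⟨B, subset_union_right.trans hβ, hBc, hρ⟩, H⟩⟩
    · obtain ⟨β, -⟩ := hB ∅ countable_empty
      exact ⟨id, fun _ _ => false, β, fun h1 h2 => absurd ⟨h1, h2⟩ hh⟩
  choose E P B hEP using key
  obtain ⟨δ, hδ⟩ := hC B
  obtain ⟨h₀, φ₀, hh₀, hφ₀, hX₀, hNC⟩ := unb id δ (Lav.id _)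
  obtain ⟨k, c, A, ω, hk, hc, hω, hG⟩ := T4 hφ₀ hNC
  set H := h₀ ∘ k with hH
  have hHl : Lav univ H := hh₀.comp hk
  set q := res δ H with hq
  have hql : Lav (Iio δ) q := by
    have := hHl.res δ
    rwa [univ_inter] at this
  have hqu : Lav univ q := hql.univ
  have hcu : CC univ c := hc.mono (subset_univ _)
  obtain ⟨hE, hP, hbad⟩ := hEP q c hqu hcu
  have hlt : B q c < δ := hδ q c hql hc
  have hE' : Lav (Iio δ) (E q c) := hE.mono (fun x hx => lt_trans (mem_Iio.1 hx) hlt)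
  have hP' : CC (Iio δ) (P q c) := hP.mono (fun x hx => lt_trans (mem_Iio.1 hx) hlt)
  set e := E q c with he
  set ρ := P q c with hρ
  have heu : Lav univ e := hE'.univ
  -- the thinning
  set e₁ : Om Λ → Om Λ := fun u γ => ω γ (ρ u) (u γ) with he₁
  obtain ⟨he₁l, -⟩ := thin_lav hω hP'
  -- the upper part
  set p' := up δ (H ∘ e) with hp'
  have hp'l : Lav univ p' := (lav_up (hHl.comp heu) δ).1
  have hfac : H ∘ e = q ∘ e ∘ p' := by
    have h1 := res_up (hHl.comp heu) δ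
    rw [res_comp hHl heu, res_eq_self hE'] at h1
    exact h1
  have hBel1 : ∀ u, Bel δ u (e₁ u) := fun u ξ hξ => hω.low ξ (Or.inl hξ) _ _
  have hBel2 : ∀ u, Bel δ u (p' u) := fun u ξ hξ => by simp [hp', up, hξ]
  have hBel3 : ∀ u, Bel δ u (p' (e₁ u)) := fun u => (hBel1 u).trans (hBel2 (e₁ u))
  have hXe : X (q ∘ e ∘ (p' ∘ e₁)) (φ₀ ∘ (k ∘ e ∘ e₁)) := by
    have h1 : q ∘ e ∘ (p' ∘ e₁) = h₀ ∘ (k ∘ e ∘ e₁) := by
      have : q ∘ e ∘ (p' ∘ e₁) = (q ∘ e ∘ p') ∘ e₁ := rfl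
      rw [this, ← hfac]
      rfl
    rw [h1]
    exact mono h₀ φ₀ _ hh₀ hφ₀ (hk.comp (heu.comp he₁l)) hX₀
  obtain ⟨u, hu⟩ := hbad (p' ∘ e₁) (φ₀ ∘ (k ∘ e ∘ e₁)) (hp'l.comp he₁l)
    (hφ₀.comp (hk.comp (heu.comp he₁l))) hXe
  apply hu
  have h1 : ρ ((p' ∘ e₁) u) = ρ u := hP'.eq_of_bel (hBel3 u)
  have h2 : c (e ((p' ∘ e₁) u)) = c (e u) := hc.eq_of_bel (heu.bel (hBel3 u))
  have h3 : e (e₁ u) = fun γ => ω γ (ρ u) (e u γ) := by
    funext γ
    by_cases hγ : γ < δ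
    · rw [hω.low γ (Or.inl hγ)]
      exact heu.bel (hBel1 u) γ hγ
    · rw [hE'.off (by simpa using hγ), hE'.off (by simpa using hγ)]
  rw [h1, h2]
  have h4 := hG (ρ u) (e u)
  rw [← h3] at h4
  exact h4

end

/-! ### Existence of the index set -/

section K1

variable {Λ : Type} [LinearOrder Λ] [WellFoundedLT Λ]

lemma mk_countable_sets_le {α : Type} (h : #α ≤ 𝔠) : #{t : Set α // t.Countable} ≤ 𝔠 := by
  have h1 : #{t : Set α // t.Countable} = #{t : Set α // #t ≤ ℵ₀} := by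
    refine Cardinal.mk_congr (Equiv.subtypeEquivRight fun t => ?_)
    exact Cardinal.le_aleph0_iff_set_countable.symm
  rw [h1]
  refine (Cardinal.mk_bounded_set_le α ℵ₀).trans ?_
  calc (max #α ℵ₀) ^ ℵ₀ ≤ 𝔠 ^ ℵ₀ :=
        Cardinal.power_le_power_right (max_le h Cardinal.aleph0_le_continuum)
    _ = 𝔠 := Cardinal.continuum_power_aleph0

/-- Codes. -/
abbrev Cd (X : Type) := List (X × ℕ × ℕ) × (X × ℕ × ℕ)

lemma mk_cd_le {X : Type} (h : #X ≤ 𝔠) : #(Cd X) ≤ 𝔠 := by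
  have h0 : #ℕ ≤ 𝔠 := by rw [Cardinal.mk_nat]; exact Cardinal.aleph0_le_continuum
  have h1 : #(X × ℕ × ℕ) ≤ 𝔠 := by
    rw [Cardinal.mk_prod, Cardinal.mk_prod]
    simp only [Cardinal.lift_id]
    calc #X * (#ℕ * #ℕ) ≤ 𝔠 * (𝔠 * 𝔠) := mul_le_mul' h (mul_le_mul' h0 h0)
      _ = 𝔠 := by rw [Cardinal.continuum_mul_self, Cardinal.continuum_mul_self]
  have h2 : #(List (X × ℕ × ℕ)) ≤ 𝔠 :=
    (Cardinal.mk_list_le_max _).trans (max_le Cardinal.aleph0_le_continuum h1)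
  rw [Cardinal.mk_prod]
  simp only [Cardinal.lift_id]
  calc #(List (X × ℕ × ℕ)) * #(X × ℕ × ℕ) ≤ 𝔠 * 𝔠 := mul_le_mul' h2 h1
    _ = 𝔠 := Cardinal.continuum_mul_self

/-- The code of a map. -/
def Tc {β : Λ} (A : Set Λ) (h : Om Λ → Om Λ) : Set (Cd (Iio β)) :=
  {p | (∀ q ∈ p.1, (q.1 : Λ) ∈ A) ∧ (p.2.1 : Λ) ∈ A ∧
    ∀ u : Om Λ, (∀ q ∈ p.1, u q.1 q.2.1 = q.2.2) → h u p.2.1 p.2.2.1 = p.2.2.2}

lemma countable_list {α : Type} {S : Set α} (hS : S.Countable) :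
    {L : List α | ∀ x ∈ L, x ∈ S}.Countable := by
  rw [← Set.range_list_map_coe]
  have := hS.to_subtype
  exact Set.countable_range _

lemma countable_Tc {β : Λ} {A : Set Λ} (hA : A.Countable) (h : Om Λ → Om Λ) :
    (Tc (β := β) A h).Countable := by
  have h1 : {q : (Iio β) × ℕ × ℕ | (q.1 : Λ) ∈ A}.Countable := by
    have h2 : {x : Iio β | (x : Λ) ∈ A}.Countable :=
      hA.preimage_of_injOn (f := fun x : Iio β => (x : Λ)) Subtype.val_injective.injOn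
    exact (h2.prod (Set.countable_univ (α := ℕ × ℕ))).mono fun q hq => Set.mem_prod.2 ⟨hq, mem_univ _⟩
  have h3 := (countable_list h1).prod h1
  refine h3.mono ?_
  intro p hp
  exact ⟨hp.1, hp.2.1⟩

lemma mem_Tc {β : Λ} {A : Set Λ} (hAβ : A ⊆ Iio β) {h : Om Λ → Om Λ} (hh : IsL A h) {γ : Λ}
    (hγ : γ ∈ A) (n : ℕ) (u : Om Λ) : ∃ L : List ((Iio β) × ℕ × ℕ),
      (∀ q ∈ L, u q.1 q.2.1 = q.2.2) ∧
      (L, (⟨γ, hAβ hγ⟩, n, h u γ n)) ∈ Tc (β := β) A h := by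
  obtain ⟨ℓ, h1, h2⟩ := hh.cts γ hγ n u
  have hlt : ∀ ξ : {x // x ∈ ℓ.support}, (ξ : Λ) ∈ A := fun ξ => (h1 ξ (Finsupp.mem_support_iff.1 ξ.2)).1
  set L : List ((Iio β) × ℕ × ℕ) := ℓ.support.attach.toList.flatMap fun ξ : {x // x ∈ ℓ.support} =>
    (List.range (ℓ ξ)).map fun i => (⟨(ξ : Λ), hAβ (hlt ξ)⟩, i, u ξ i) with hL
  have hmem : ∀ q ∈ L, (q.1 : Λ) ∈ A ∧ u q.1 q.2.1 = q.2.2 := by
    intro q hq
    rw [hL, List.mem_flatMap] at hq
    obtain ⟨ξ, -, hq⟩ := hq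
    obtain ⟨i, -, rfl⟩ := List.mem_map.1 hq
    exact ⟨hlt ξ, rfl⟩
  refine ⟨L, fun q hq => (hmem q hq).2, fun q hq => (hmem q hq).1, hγ, fun v hv => ?_⟩
  refine h2 v fun ξ i hi => ?_
  have hξ : ξ ∈ ℓ.support := Finsupp.mem_support_iff.2 (by omega)
  have h3 : ((⟨ξ, hAβ (hlt ⟨ξ, hξ⟩)⟩, i, u ξ i) : (Iio β) × ℕ × ℕ) ∈ L := by
    rw [hL, List.mem_flatMap]
    exact ⟨⟨ξ, hξ⟩, Finset.mem_toList.2 (Finset.mem_attach _ _),
      List.mem_map.2 ⟨i, List.mem_range.2 hi, rfl⟩⟩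
  exact hv _ h3

end K1

/-- Counting Laver maps with small support. -/
theorem mk_lav_le {Λ : Type} [LinearOrder Λ] [WellFoundedLT Λ] (β : Λ) (hβ : #(Iio β) ≤ 𝔠) :
    #{h : Om Λ → Om Λ // Lav (Iio β) h} ≤ 𝔠 := by
  choose A hA hL using fun h : {h : Om Λ → Om Λ // Lav (Iio β) h} => h.2
  have key : Function.Injective (fun h : {h : Om Λ → Om Λ // Lav (Iio β) h} =>
      (⟨Tc (β := β) (A h) h.1, countable_Tc (hL h).cnt _⟩ :
        {t : Set (Cd (Iio β)) // t.Countable})) := by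
    intro h h' heq
    have hT : Tc (β := β) (A h) h.1 = Tc (β := β) (A h') h'.1 := congrArg Subtype.val heq
    apply Subtype.ext
    funext u γ n
    by_cases h1 : γ ∈ A h
    · obtain ⟨L, h2, h3⟩ := mem_Tc (hA h) (hL h) h1 n u
      rw [hT] at h3
      exact (h3.2.2 u h2).symm
    · by_cases h1' : γ ∈ A h'
      · obtain ⟨L, h2, h3⟩ := mem_Tc (hA h') (hL h') h1' n u
        rw [← hT] at h3
        exact h3.2.2 u h2
      · rw [(hL h).off γ h1 u, (hL h').off γ h1' u]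
  exact (Cardinal.mk_le_of_injective key).trans (mk_countable_sets_le (mk_cd_le hβ))

private lemma mk_CC_ctbl {Λ : Type} (β : Set Λ) (hβ : #β ≤ 𝔠) :
    #{A : Set Λ // A ⊆ β ∧ #A ≤ ℵ₀} ≤ 𝔠 := by
  refine (mk_bounded_subset_le β ℵ₀).trans ?_
  calc (max #β ℵ₀) ^ ℵ₀ ≤ 𝔠 ^ ℵ₀ := by
        apply Cardinal.power_le_power_right
        exact max_le hβ aleph0_le_continuum
    _ = 𝔠 := continuum_power_aleph0

private lemma mk_CC_fiber {Λ : Type} [LinearOrder Λ] [WellFoundedLT Λ] {A : Set Λ}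
    (hA : A.Countable) :
    #{φ : Om Λ → ℕ → Bool // ∀ n, Cts A (fun u => φ u n)} ≤ 𝔠 := by
  classical
  set D : Set (Om Λ → Om Λ) := {j : Om Λ → Om Λ | ∃ (u : Om Λ) (ℓ : Λ →₀ ℕ),
    (∀ ξ, ℓ ξ ≠ 0 → ξ ∈ A) ∧ j = ins u ℓ} with hD
  have hDc : D.Countable := countable_ins hA
  have h1 : #{φ : Om Λ → ℕ → Bool // ∀ n, Cts A (fun u => φ u n)} ≤ #(D → ℕ → Bool) := by
    refine Cardinal.mk_le_of_injective
      (f := fun φ => fun j : D => φ.1 (j.1 (fun _ _ => 0))) ?_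
    intro φ ψ h
    apply Subtype.ext
    funext u n
    obtain ⟨ℓ₁, h11, h12⟩ := φ.2 n u
    obtain ⟨ℓ₂, h21, h22⟩ := ψ.2 n u
    have hj : ins u (ℓ₁ + ℓ₂) ∈ D := ⟨u, ℓ₁ + ℓ₂, by
      intro ξ hξ
      by_cases h1 : ℓ₁ ξ = 0
      · by_cases h2 : ℓ₂ ξ = 0
        · exact absurd (by simp [h1, h2]) hξ
        · exact h21 ξ h2
      · exact h11 ξ h1, rfl⟩
    have h3 := congrFun (congrFun h ⟨_, hj⟩) n
    simp only at h3
    have h4 := ag_ins u (fun _ _ => 0) (ℓ₁ + ℓ₂)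
    have h5 := h12 _ (h4.mono (m := ℓ₁) (by intro γ; simp))
    have h6 := h22 _ (h4.mono (m := ℓ₂) (by intro γ; simp))
    exact h5.symm.trans (h3.trans h6)
  refine h1.trans ?_
  have : Countable D := hDc
  calc #(D → ℕ → Bool) = (#(ℕ → Bool)) ^ #D := by simp
    _ ≤ (#(ℕ → Bool)) ^ ℵ₀ := by
        apply Cardinal.power_le_power_left
        · simp [continuum_ne_zero]
        · exact mk_le_aleph0
    _ = 𝔠 := by
        simp

theorem mk_CC_le {Λ : Type} [LinearOrder Λ] [WellFoundedLT Λ] (β : Λ) (hβ : #(Iio β) ≤ 𝔠) :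
    #{φ : Om Λ → ℕ → Bool // CC (Iio β) φ} ≤ 𝔠 := by
  classical
  have h1 : #{φ : Om Λ → ℕ → Bool // CC (Iio β) φ} ≤
      #(Σ A : {A : Set Λ // A ⊆ Iio β ∧ #A ≤ ℵ₀},
        {φ : Om Λ → ℕ → Bool // ∀ n, Cts A.1 (fun u => φ u n)}) := by
    refine Cardinal.mk_le_of_surjective
      (f := fun x => ⟨x.2.1, ⟨x.1.1, x.1.2.1, Cardinal.le_aleph0_iff_set_countable.1 x.1.2.2,
        x.2.2⟩⟩) ?_
    rintro ⟨φ, A, hA, hc, hφ⟩
    exact ⟨⟨⟨A, hA, Cardinal.le_aleph0_iff_set_countable.2 hc⟩, ⟨φ, hφ⟩⟩, rfl⟩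
  refine h1.trans ?_
  rw [Cardinal.mk_sigma]
  calc _ ≤ Cardinal.sum (fun _ : {A : Set Λ // A ⊆ Iio β ∧ #A ≤ ℵ₀} => 𝔠) := by
        apply Cardinal.sum_le_sum
        intro A
        exact mk_CC_fiber (Cardinal.le_aleph0_iff_set_countable.1 A.2.2)
    _ = #{A : Set Λ // A ⊆ Iio β ∧ #A ≤ ℵ₀} * 𝔠 := by simp
    _ ≤ 𝔠 * 𝔠 := by
        gcongr
        exact mk_CC_ctbl _ hβ
    _ = 𝔠 := continuum_mul_self

theorem closing_of {Λ : Type} [LinearOrder Λ] [WellFoundedLT Λ] (hs : ∀ β : Λ, #(Iio β) ≤ 𝔠)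
    (hb : ∀ A : Set Λ, #A ≤ 𝔠 → ∃ β, A ⊆ Iio β) : Closing Λ := by
  classical
  intro g
  -- bound for the values of g
  have hF : ∀ β : Λ, ∃ γ : Λ, ∀ h c, Lav (Iio β) h → CC (Iio β) c → g h c < γ := by
    intro β
    obtain ⟨γ, hγ⟩ := hb (Set.range (fun x : {h : Om Λ → Om Λ // Lav (Iio β) h} ×
      {φ : Om Λ → ℕ → Bool // CC (Iio β) φ} => g x.1.1 x.2.1)) (by
        refine Cardinal.mk_range_le.trans ?_
        rw [Cardinal.mk_prod, lift_id, lift_id]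
        exact (mul_le_mul' (mk_lav_le β (hs β)) (mk_CC_le β (hs β))).trans
          continuum_mul_self.le)
    exact ⟨γ, fun h c hh hc => hγ ⟨(⟨h, hh⟩, ⟨c, hc⟩), rfl⟩⟩
  choose F hF using hF
  -- the well-order of length ω₁
  obtain ⟨W, _, _, hW1, hW2, hmk⟩ : ∃ (W : Type) (_ : LinearOrder W) (_ : WellFoundedLT W),
      (∀ i : W, (Iic i).Countable) ∧ ¬ (univ : Set W).Countable ∧ #W ≤ 𝔠 := by
    refine ⟨(aleph 1).ord.ToType, inferInstance, inferInstance, ?_, ?_, ?_⟩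
    · intro i
      have h1 : #(Iio i) < aleph 1 := by
        exact Cardinal.mk_Iio_toType_ord_lt i
      have h2 : (Iio i).Countable := by
        rw [← Cardinal.le_aleph0_iff_set_countable]
        exact Order.lt_succ_iff.1 (h1.trans_eq Cardinal.succ_aleph0.symm)
      rw [← Set.Iio_insert]
      exact h2.insert i
    · rw [← Cardinal.le_aleph0_iff_set_countable, not_le, mk_univ, mk_ord_toType]
      exact Cardinal.aleph0_lt_aleph_one
    · rw [mk_ord_toType]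
      exact Cardinal.aleph_one_le_continuum
  have hW3 : ∀ S : Set W, S.Countable → ∃ i : W, ∀ s ∈ S, s < i := by
    intro S hS
    by_contra hcon
    push Not at hcon
    apply hW2
    refine (hS.biUnion (t := fun s _ => Iic s) fun s _ => hW1 s).mono ?_
    intro i _
    obtain ⟨s, hs, hi⟩ := hcon i
    exact mem_biUnion hs hi
  -- the recursion
  have hstep : ∀ (i : W) (D : (j : W) → j < i → Λ), ∃ δ : Λ, ∀ j (hj : j < i),
      D j hj < δ ∧ F (D j hj) < δ := by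
    intro i D
    obtain ⟨δ, hδ⟩ := hb ((Set.range fun j : Iio i => D j.1 j.2) ∪
      (Set.range fun j : Iio i => F (D j.1 j.2))) (by
        have hc : (Iio i).Countable := (hW1 i).mono Iio_subset_Iic_self
        have : Countable (Iio i) := hc
        have h1 : ((Set.range fun j : Iio i => D j.1 j.2) ∪
          (Set.range fun j : Iio i => F (D j.1 j.2))).Countable :=
            (Set.countable_range _).union (Set.countable_range _)
        exact (Cardinal.le_aleph0_iff_set_countable.2 h1).trans aleph0_le_continuum)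
    exact ⟨δ, fun j hj => ⟨hδ (Or.inl ⟨⟨j, hj⟩, rfl⟩), hδ (Or.inr ⟨⟨j, hj⟩, rfl⟩)⟩⟩
  choose step hstep using hstep
  let D : W → Λ := WellFounded.fix (r := ((· < ·) : W → W → Prop)) wellFounded_lt step
  have hD : ∀ i j, j < i → D j < D i ∧ F (D j) < D i := by
    intro i j hj
    have h1 : D i = step i (fun j _ => D j) := WellFounded.fix_eq _ _ _
    have h2 := hstep i (fun j _ => D j) j hj
    rw [← h1] at h2
    exact h2
  obtain ⟨δ₀, hδ₀⟩ := hb (Set.range D) (Cardinal.mk_range_le.trans hmk)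
  obtain ⟨δ, hδ, hmin⟩ := WellFounded.has_min (wellFounded_lt (α := Λ))
    {δ : Λ | Set.range D ⊆ Iio δ} ⟨δ₀, hδ₀⟩
  have hcof : ∀ γ < δ, ∃ i, γ ≤ D i := by
    intro γ hγ
    by_contra hcon
    push Not at hcon
    exact hmin γ (by rintro _ ⟨i, rfl⟩; exact hcon i) hγ
  have hcofA : ∀ A : Set Λ, A.Countable → A ⊆ Iio δ → ∃ i, A ⊆ Iio (D i) := by
    intro A hA hAδ
    have h1 : ∀ a : A, ∃ i, a.1 ≤ D i := fun a => hcof a.1 (hAδ a.2)
    choose i hi using h1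
    have : Countable A := hA
    obtain ⟨j, hj⟩ := hW3 (Set.range i) (Set.countable_range i)
    refine ⟨j, fun a ha => ?_⟩
    exact (hi ⟨a, ha⟩).trans_lt (hD j _ (hj _ ⟨⟨a, ha⟩, rfl⟩)).1
  refine ⟨δ, fun h c ⟨A, hA, hh⟩ ⟨B, hB, hBc, hc⟩ => ?_⟩
  obtain ⟨i, hi⟩ := hcofA (A ∪ B) (hh.cnt.union hBc) (union_subset hA hB)
  obtain ⟨j, hj⟩ := hW3 {i} (countable_singleton i)
  calc g h c < F (D i) := hF (D i) h c ⟨A, subset_union_left.trans hi, hh⟩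
        ⟨B, subset_union_right.trans hi, hBc, hc⟩
    _ < D j := (hD j i (hj i rfl)).2
    _ < δ := hδ ⟨j, rfl⟩

theorem exists_index : ∃ (Λ : Type) (_ : LinearOrder Λ) (_ : WellFoundedLT Λ),
    CBdd Λ ∧ Closing Λ ∧ (∀ β : Λ, ∃ γ, β < γ) := by
  classical
  have hs : ∀ β : (Order.succ 𝔠 : Cardinal.{0}).ord.ToType, #(Iio β) ≤ 𝔠 := by
    intro β
    exact Order.lt_succ_iff.1 (Cardinal.mk_Iio_toType_ord_lt β)
  have hb : ∀ A : Set (Order.succ 𝔠 : Cardinal.{0}).ord.ToType, #A ≤ 𝔠 → ∃ β, A ⊆ Iio β := by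
    intro A hA
    by_contra hcon
    push Not at hcon
    have h1 : (univ : Set (Order.succ 𝔠 : Cardinal.{0}).ord.ToType) ⊆ ⋃ a : A, Iic a.1 := by
      intro β _
      obtain ⟨a, ha, hab⟩ := Set.not_subset.1 (hcon β)
      exact mem_iUnion.2 ⟨⟨a, ha⟩, by simpa using hab⟩
    have h2 : #(Order.succ 𝔠 : Cardinal.{0}).ord.ToType ≤ 𝔠 := by
      rw [← mk_univ]
      refine (Cardinal.mk_le_mk_of_subset h1).trans ((Cardinal.mk_iUnion_le_sum_mk).trans ?_)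
      calc _ ≤ Cardinal.sum (fun _ : A => 𝔠) := by
            apply Cardinal.sum_le_sum
            intro a
            rw [← Set.Iio_insert]
            refine (Cardinal.mk_insert_le).trans ?_
            exact Cardinal.add_le_of_le aleph0_le_continuum (hs a.1)
              (one_le_aleph0.trans aleph0_le_continuum)
        _ = #A * 𝔠 := by simp
        _ ≤ 𝔠 * 𝔠 := by gcongr
        _ = 𝔠 := continuum_mul_self
    rw [mk_ord_toType] at h2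
    exact absurd h2 (not_le.2 (Order.lt_succ 𝔠))
  refine ⟨(Order.succ 𝔠 : Cardinal.{0}).ord.ToType, inferInstance, inferInstance, ?_,
    closing_of hs hb, ?_⟩
  · intro A hA
    exact hb A ((Cardinal.le_aleph0_iff_set_countable.2 hA).trans aleph0_le_continuum)
  · intro β
    obtain ⟨γ, hγ⟩ := hb {β} (by simpa using (one_le_aleph0.trans aleph0_le_continuum))
    exact ⟨γ, hγ rfl⟩

end Pool.LV
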