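import Pool.Agent.Lib.MP_1c8600_lv.Basic

/-!
# Continuity, insertion of finite information, composition of Laver maps
-/

set_option autoImplicit false
set_option linter.unusedSectionVars false

open Set

namespace Pool.LV

variable {Λ : Type} [LinearOrder Λ] [WellFoundedLT Λ]

/-! ### `Ag`, `ins`, `strip` -/

lemma Ag.refl (ℓ : Λ →₀ ℕ) (u : Om Λ) : Ag ℓ u u := fun _ _ _ => rfl

lemma Ag.symm {ℓ : Λ →₀ ℕ} {u v : Om Λ} (h : Ag ℓ u v) : Ag ℓ v u :=
  fun γ i hi => (h γ i hi).symm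

lemma Ag.trans {ℓ : Λ →₀ ℕ} {u v w : Om Λ} (h : Ag ℓ u v) (h' : Ag ℓ v w) : Ag ℓ u w :=
  fun γ i hi => (h' γ i hi).trans (h γ i hi)

lemma Ag.mono {ℓ m : Λ →₀ ℕ} {u v : Om Λ} (h : Ag ℓ u v) (hm : ∀ γ, m γ ≤ ℓ γ) : Ag m u v :=
  fun γ i hi => h γ i (hi.trans_le (hm γ))

lemma ag_ins (u v : Om Λ) (ℓ : Λ →₀ ℕ) : Ag ℓ u (ins u ℓ v) := by
  intro γ i hi
  simp [ins, hi]

lemma ins_strip {ℓ : Λ →₀ ℕ} {u v : Om Λ} (h : Ag ℓ u v) : ins u ℓ (strip ℓ v) = v := by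
  funext γ i
  by_cases hi : i < ℓ γ
  · simp [ins, hi, h γ i hi]
  · simp [ins, hi, strip, Nat.sub_add_cancel (not_lt.1 hi)]

lemma strip_ins (u v : Om Λ) (ℓ : Λ →₀ ℕ) : strip ℓ (ins u ℓ v) = v := by
  funext γ i
  simp [ins, strip]

lemma ins_congr {ℓ : Λ →₀ ℕ} {u v : Om Λ} (h : Ag ℓ u v) : ins v ℓ = ins u ℓ := by
  funext w γ i
  by_cases hi : i < ℓ γ
  · simp [ins, hi, h γ i hi]
  · simp [ins, hi]

lemma ins_ins (u v w : Om Λ) (ℓ m : Λ →₀ ℕ) :
    ins u ℓ (ins v m w) = ins (ins u ℓ v) (ℓ + m) w := by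
  funext γ i
  have e : (ℓ + m) γ = ℓ γ + m γ := rfl
  show (if i < ℓ γ then u γ i else if i - ℓ γ < m γ then v γ (i - ℓ γ)
      else w γ (i - ℓ γ - m γ)) =
    if i < (ℓ + m) γ then (if i < ℓ γ then u γ i else v γ (i - ℓ γ)) else w γ (i - (ℓ + m) γ)
  by_cases h1 : i < ℓ γ
  · rw [if_pos h1, if_pos (by omega), if_pos h1]
  · by_cases h2 : i - ℓ γ < m γ
    · rw [if_neg h1, if_pos h2, if_pos (by omega), if_neg h1]
    · rw [if_neg h1, if_neg h2, if_neg (by omega), Nat.sub_sub, e]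

/-- Longer information factors through shorter information. -/
lemma ins_factor {ℓ m : Λ →₀ ℕ} {u v : Om Λ} (h : Ag ℓ u v) (hm : ∀ γ, ℓ γ ≤ m γ) :
    ins v m = ins u ℓ ∘ ins (strip ℓ v) (m - ℓ) := by
  funext w γ i
  have h3 := hm γ
  have e : (m - ℓ) γ = m γ - ℓ γ := Finsupp.tsub_apply m ℓ γ
  show (if i < m γ then v γ i else w γ (i - m γ)) =
    if i < ℓ γ then u γ i else if i - ℓ γ < (m - ℓ) γ then v γ (i - ℓ γ + ℓ γ)
      else w γ (i - ℓ γ - (m - ℓ) γ)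
  by_cases h1 : i < ℓ γ
  · rw [if_pos h1, if_pos (by omega), h γ i h1]
  · by_cases h2 : i - ℓ γ < m γ - ℓ γ
    · rw [if_neg h1, if_pos (by omega), if_pos (by omega), Nat.sub_add_cancel (not_lt.1 h1)]
    · rw [if_neg h1, if_neg (by omega), if_neg (by omega)]
      congr 1
      omega

lemma ins_zero (u : Om Λ) : ins u 0 = id := by
  funext v γ i
  simp [ins]

/-- Finite information given by a bound: `n` entries at each coordinate of `F`. -/
noncomputable def lev (F : Finset Λ) (n : Λ → ℕ) : Λ →₀ ℕ :=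
  Finsupp.onFinset F (fun γ => if γ ∈ F then n γ else 0) (by intro _ h; by_contra hn; simp [hn] at h)

lemma lev_apply (F : Finset Λ) (n : Λ → ℕ) (γ : Λ) : lev F n γ = if γ ∈ F then n γ else 0 := rfl

/-! ### `Cts` -/

section cts

variable {α β : Type}

lemma Cts.mono {A B : Set Λ} {f : Om Λ → α} (h : Cts A f) (hAB : A ⊆ B) : Cts B f := fun u => by
  obtain ⟨ℓ, h1, h2⟩ := h u
  exact ⟨ℓ, fun γ hγ => hAB (h1 γ hγ), h2⟩

lemma Cts.const (A : Set Λ) (a : α) : Cts A (fun _ => a) :=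
  fun _ => ⟨0, fun _ h => absurd rfl h, fun _ _ => rfl⟩

lemma Cts.eq_of {A : Set Λ} {f : Om Λ → α} (h : Cts A f) {u v : Om Λ}
    (huv : ∀ γ ∈ A, v γ = u γ) : f v = f u := by
  obtain ⟨ℓ, h1, h2⟩ := h u
  refine h2 v fun γ i hi => ?_
  rw [huv γ (h1 γ (by omega))]

/-- The main closure property. -/
lemma Cts.bind {A : Set Λ} {f : Om Λ → α} {g : α → Om Λ → β} (hf : Cts A f)
    (hg : ∀ a, Cts A (g a)) : Cts A (fun u => g (f u) u) := by
  intro u
  obtain ⟨ℓ, h1, h2⟩ := hf u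
  obtain ⟨m, h3, h4⟩ := hg (f u) u
  refine ⟨ℓ + m, fun γ hγ => ?_, fun v hv => ?_⟩
  · by_cases h5 : ℓ γ = 0
    · refine h3 γ fun h6 => hγ ?_
      rw [Finsupp.add_apply, h5, h6]
    · exact h1 γ h5
  · have h5 : f v = f u := h2 v (hv.mono fun γ => by rw [Finsupp.add_apply]; omega)
    have h6 : g (f u) v = g (f u) u := h4 v (hv.mono fun γ => by rw [Finsupp.add_apply]; omega)
    show g (f v) v = g (f u) u
    rw [h5, h6]

lemma Cts.map {A : Set Λ} {f : Om Λ → α} (hf : Cts A f) (g : α → β) : Cts A (fun u => g (f u)) :=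
  hf.bind (g := fun a _ => g a) fun _ => Cts.const _ _

lemma Cts.map₂ {A : Set Λ} {γ : Type} {f : Om Λ → α} {g : Om Λ → β} (hf : Cts A f) (hg : Cts A g)
    (F : α → β → γ) : Cts A (fun u => F (f u) (g u)) :=
  hf.bind (g := fun a u => F a (g u)) fun a => hg.map (F a)

lemma Cts.coord {A : Set Λ} {γ : Λ} (h : γ ∈ A) (n : ℕ) : Cts A (fun u : Om Λ => u γ n) := by
  intro u
  refine ⟨lev {γ} (fun _ => n + 1), fun ξ hξ => ?_, fun v hv => ?_⟩
  · rw [lev_apply] at hξ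
    by_cases h1 : ξ ∈ ({γ} : Finset Λ)
    · rw [Finset.mem_singleton.1 h1]
      exact h
    · rw [if_neg h1] at hξ
      exact absurd rfl hξ
  · refine hv γ n ?_
    rw [lev_apply, if_pos (Finset.mem_singleton_self γ)]
    exact Nat.lt_succ_self n

/-- Finitely many continuous functions. -/
lemma Cts.pre {A : Set Λ} (f : Om Λ → ℕ → α) (n : ℕ) (h : ∀ i < n, Cts A (fun u => f u i)) :
    Cts A (fun u => pre (f u) n) := by
  induction n with
  | zero => exact Cts.const A []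
  | succ n ih =>
    have h1 : Cts A (fun u => Pool.LV.pre (f u) n) := ih fun i hi => h i (by omega)
    have h2 := Cts.map₂ h1 (h n (Nat.lt_succ_self n)) (fun l a => l ++ [a])
    have h3 : (fun u => Pool.LV.pre (f u) (n + 1)) = fun u => Pool.LV.pre (f u) n ++ [f u n] := by
      funext u
      exact pre_succ _ _
    rw [h3]
    exact h2

lemma ag_sup {ℓ m : Λ →₀ ℕ} {u v : Om Λ} (h : Ag (ℓ ⊔ m) u v) : Ag ℓ u v ∧ Ag m u v :=
  ⟨fun γ i hi => h γ i (lt_of_lt_of_le hi (by simp [Finsupp.sup_apply])),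
   fun γ i hi => h γ i (lt_of_lt_of_le hi (by simp [Finsupp.sup_apply]))⟩

lemma supp_sup {A : Set Λ} {ℓ m : Λ →₀ ℕ} (hℓ : ∀ γ, ℓ γ ≠ 0 → γ ∈ A) (hm : ∀ γ, m γ ≠ 0 → γ ∈ A) :
    ∀ γ, (ℓ ⊔ m) γ ≠ 0 → γ ∈ A := by
  intro γ h
  by_cases h1 : ℓ γ = 0
  · by_cases h2 : m γ = 0
    · exact absurd (by simp [Finsupp.sup_apply, h1, h2]) h
    · exact hm γ h2
  · exact hℓ γ h1

/-- Finitely many coordinatewise conditions can be decided simultaneously. -/
lemma Cts.finset {A : Set Λ} {ι : Type} (s : Finset ι) (f : ι → Om Λ → α)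
    (h : ∀ i ∈ s, Cts A (f i)) (u : Om Λ) :
    ∃ ℓ : Λ →₀ ℕ, (∀ γ, ℓ γ ≠ 0 → γ ∈ A) ∧ ∀ v, Ag ℓ u v → ∀ i ∈ s, f i v = f i u := by
  classical
  induction s using Finset.induction_on with
  | empty => exact ⟨0, fun _ h => absurd rfl h, fun _ _ i hi => absurd hi (by simp)⟩
  | insert a s _ ih =>
    obtain ⟨ℓ, h1, h2⟩ := ih fun i hi => h i (Finset.mem_insert_of_mem hi)
    obtain ⟨m, h3, h4⟩ := h a (Finset.mem_insert_self a s) u
    refine ⟨ℓ ⊔ m, supp_sup h1 h3, fun v hv i hi => ?_⟩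
    obtain ⟨ha, hb⟩ := ag_sup hv
    rcases Finset.mem_insert.1 hi with rfl | hi
    · exact h4 v hb
    · exact h2 v ha i hi

/-- Finitely many continuous functions indexed by a finset. -/
lemma Cts.forall_finset {A : Set Λ} {ι : Type} (s : Finset ι) (p : ι → Om Λ → Prop)
    (h : ∀ i ∈ s, Cts A (p i)) : Cts A (fun u => ∀ i ∈ s, p i u) := by
  intro u
  obtain ⟨ℓ, h1, h2⟩ := Cts.finset s p h u
  refine ⟨ℓ, h1, fun v hv => ?_⟩
  apply propext
  constructor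
  · intro H i hi
    rw [← h2 v hv i hi]
    exact H i hi
  · intro H i hi
    rw [h2 v hv i hi]
    exact H i hi

/-- Composition with a map whose entries are continuous. -/
lemma Cts.comp {A B : Set Λ} {f : Om Λ → α} {h : Om Λ → Om Λ} (hf : Cts B f)
    (hh : ∀ β ∈ B, ∀ n, Cts A (fun u => h u β n)) : Cts A (fun u => f (h u)) := by
  classical
  intro u
  obtain ⟨ℓ, h1, h2⟩ := hf (h u)
  obtain ⟨m, h3, h4⟩ := Cts.finset (α := ℕ) (ℓ.support.sigma (fun β => Finset.range (ℓ β)))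
    (fun x v => h v x.1 x.2) (by
      intro x hx
      have hx' := (Finset.mem_sigma.1 hx).1
      exact hh x.1 (h1 x.1 (Finsupp.mem_support_iff.1 hx')) x.2) u
  refine ⟨m, h3, fun v hv => h2 (h v) ?_⟩
  intro γ i hi
  have hγ : γ ∈ ℓ.support := Finsupp.mem_support_iff.2 (by omega)
  exact h4 v hv ⟨γ, i⟩ (Finset.mem_sigma.2 ⟨hγ, Finset.mem_range.2 hi⟩)

/-- The least number with a decidable continuous property. -/
lemma Cts.find {A : Set Λ} (p : ℕ → Om Λ → Prop) (hp : ∀ n, Cts A (p n)) (he : ∀ u, ∃ n, p n u) :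
    Cts A (fun u => sInf {n | p n u}) := by
  classical
  intro u
  obtain ⟨ℓ, h1, h2⟩ := Cts.finset (α := Prop) (Finset.range (sInf {n | p n u} + 1))
    p (fun i _ => hp i) u
  refine ⟨ℓ, h1, fun v hv => ?_⟩
  have hm : p (sInf {n | p n u}) u := Nat.sInf_mem (he u)
  have hmv : p (sInf {n | p n u}) v := by
    rw [h2 v hv _ (Finset.mem_range.2 (Nat.lt_succ_self _))]
    exact hm
  apply le_antisymm
  · exact Nat.sInf_le hmv
  · by_contra hlt
    push Not at hlt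
    have h5 : p (sInf {n | p n v}) v := Nat.sInf_mem (he v)
    rw [h2 v hv _ (Finset.mem_range.2 (by omega))] at h5
    exact absurd (Nat.sInf_le h5 : sInf {n | p n u} ≤ sInf {n | p n v}) (by omega)

end cts

/-! ### Stems and basic facts on Laver maps -/

lemma Bel.symm {γ : Λ} {u v : Om Λ} (h : Bel γ u v) : Bel γ v u := fun ξ hξ => (h ξ hξ).symm

lemma Bel.trans {γ : Λ} {u v w : Om Λ} (h : Bel γ u v) (h' : Bel γ v w) : Bel γ u w :=
  fun ξ hξ => (h' ξ hξ).trans (h ξ hξ)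

lemma Bel.mono {γ δ : Λ} {u v : Om Λ} (h : Bel γ u v) (hδ : δ ≤ γ) : Bel δ u v :=
  fun ξ hξ => h ξ (hξ.trans_le hδ)

/-- Constructor for Laver maps with an explicit stem function. -/
lemma isL_of {A : Set Λ} {h : Om Λ → Om Λ} (c : Λ → Om Λ → ℕ) (cnt : A.Countable)
    (off : ∀ γ, γ ∉ A → ∀ u, h u γ = u γ) (off' : ∀ γ, γ ∉ A → ∀ u, c γ u = 0)
    (cts : ∀ γ ∈ A, ∀ n, Cts (A ∩ Iic γ) (fun u => h u γ n))
    (ctc : ∀ γ ∈ A, Cts (A ∩ Iio γ) (c γ))
    (hpre : ∀ γ u v l, Bel γ u v → (∀ i < l, v γ i = u γ i) → ∀ i < c γ u + l, h v γ i = h u γ i)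
    (mono : ∀ γ u v l, Bel γ u v → (∀ i < l, v γ i = u γ i) → u γ l < v γ l →
      h u γ (c γ u + l) < h v γ (c γ u + l)) :
    IsL A h ∧ ∀ γ u, stem h γ u = c γ u := by
  have key : ∀ γ u, stem h γ u = c γ u := by
    intro γ u
    have hmem : c γ u ∈ {i | ∃ v, Bel γ u v ∧ h v γ i ≠ h u γ i} := by
      refine ⟨Function.update u γ (fun _ => u γ 0 + 1), ?_, ?_⟩
      · intro ξ hξ
        rw [Function.update_of_ne hξ.ne]
      · have h1 := mono γ u (Function.update u γ (fun _ => u γ 0 + 1)) 0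
          (fun ξ hξ => by rw [Function.update_of_ne hξ.ne]) (fun i hi => absurd hi (Nat.not_lt_zero i))
          (by rw [Function.update_self]; exact Nat.lt_succ_self _)
        rw [add_zero] at h1
        exact h1.ne'
    refine le_antisymm (Nat.sInf_le hmem) (le_csInf ⟨_, hmem⟩ ?_)
    rintro i ⟨v, hv, hne⟩
    by_contra hlt
    exact hne (hpre γ u v 0 hv (fun i hi => absurd hi (Nat.not_lt_zero i)) i
      (by rw [add_zero]; exact not_le.1 hlt))
  refine ⟨⟨cnt, off, cts, ?_, ?_, ?_⟩, key⟩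
  · intro γ hγ
    have h1 : stem h γ = c γ := funext (key γ)
    rw [h1]
    exact ctc γ hγ
  · intro γ u v l h1 h2 i hi
    rw [key] at hi
    exact hpre γ u v l h1 h2 i hi
  · intro γ u v l h1 h2 h3
    rw [key]
    exact mono γ u v l h1 h2 h3

namespace IsL

variable {A B : Set Λ} {f g h : Om Λ → Om Λ}

lemma stem_off (hf : IsL A f) {γ : Λ} (hγ : γ ∉ A) (u : Om Λ) : stem f γ u = 0 := by
  have hmem : 0 ∈ {i | ∃ v, Bel γ u v ∧ f v γ i ≠ f u γ i} := by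
    refine ⟨Function.update u γ (fun _ => u γ 0 + 1), ?_, ?_⟩
    · intro ξ hξ
      rw [Function.update_of_ne hξ.ne]
    · rw [hf.off γ hγ, hf.off γ hγ, Function.update_self]
      exact (Nat.lt_succ_self _).ne'
  exact Nat.le_zero.1 (Nat.sInf_le hmem)

lemma mono_supp (hf : IsL A f) (hAB : A ⊆ B) (hB : B.Countable) : IsL B f := by
  refine ⟨hB, fun γ hγ u => hf.off γ (fun h => hγ (hAB h)) u, ?_, ?_, hf.pre, hf.mono⟩
  · intro γ hγ n
    by_cases hA : γ ∈ A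
    · exact (hf.cts γ hA n).mono (inter_subset_inter_left _ hAB)
    · have h1 : (fun u => f u γ n) = fun u : Om Λ => u γ n := by
        funext u
        rw [hf.off γ hA]
      rw [h1]
      exact Cts.coord (show γ ∈ B ∩ Iic γ from ⟨hγ, mem_Iic.2 le_rfl⟩) n
  · intro γ hγ
    by_cases hA : γ ∈ A
    · exact (hf.ctc γ hA).mono (inter_subset_inter_left _ hAB)
    · have h1 : stem f γ = fun _ => 0 := by
        funext u
        rw [hf.stem_off hA]
      rw [h1]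
      exact Cts.const _ _

/-- Continuity of all entries. -/
lemma cts' (hf : IsL A f) (γ : Λ) (n : ℕ) : Cts (insert γ A ∩ Iic γ) (fun u => f u γ n) := by
  by_cases hA : γ ∈ A
  · exact (hf.cts γ hA n).mono (inter_subset_inter_left _ (subset_insert _ _))
  · have h1 : (fun u => f u γ n) = fun u : Om Λ => u γ n := by
      funext u
      rw [hf.off γ hA]
    rw [h1]
    exact Cts.coord (show γ ∈ insert γ A ∩ Iic γ from ⟨mem_insert _ _, mem_Iic.2 le_rfl⟩) n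

lemma ctc' (hf : IsL A f) (γ : Λ) : Cts (A ∩ Iio γ) (stem f γ) := by
  by_cases hA : γ ∈ A
  · exact hf.ctc γ hA
  · have h1 : stem f γ = fun _ => 0 := by
      funext u
      rw [hf.stem_off hA]
    rw [h1]
    exact Cts.const _ _

lemma stem_congr (hf : IsL A f) {γ : Λ} {u v : Om Λ} (h : Bel γ u v) : stem f γ v = stem f γ u :=
  (hf.ctc' γ).eq_of fun ξ hξ => h ξ hξ.2

/-- The value below `γ` depends only on the coordinates below `γ`. -/
lemma bel (hf : IsL A f) {γ : Λ} {u v : Om Λ} (h : Bel γ u v) : Bel γ (f u) (f v) := by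
  intro ξ hξ
  funext n
  exact (hf.cts' ξ n).eq_of (u := u) (v := v) fun δ hδ => h δ ((mem_Iic.1 hδ.2).trans_lt hξ)

/-- The entries grow. -/
lemma le_entry (hf : IsL A f) (γ : Λ) (u : Om Λ) (i : ℕ) : u γ i ≤ f u γ (stem f γ u + i) := by
  let w : ℕ → Om Λ := fun k => Function.update u γ (Function.update (u γ) i k)
  have hw : ∀ k, Bel γ u (w k) := fun k ξ hξ => Function.update_of_ne hξ.ne _ _
  have hwγ : ∀ k, w k γ = Function.update (u γ) i k := fun k => Function.update_self _ _ _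
  have hst : ∀ k, stem f γ (w k) = stem f γ u := fun k => hf.stem_congr (hw k)
  have hmono : StrictMono fun k => f (w k) γ (stem f γ u + i) := by
    intro k k' hk
    have h1 := hf.mono γ (w k) (w k') i ((hw k).symm.trans (hw k')) (by
      intro j hj
      rw [hwγ, hwγ, Function.update_of_ne hj.ne, Function.update_of_ne hj.ne]) (by
      rw [hwγ, hwγ, Function.update_self, Function.update_self]
      exact hk)
    rw [hst] at h1
    exact h1
  have h2 := hmono.le_apply (x := u γ i)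
  have h3 : w (u γ i) = u := by
    show Function.update u γ (Function.update (u γ) i (u γ i)) = u
    rw [Function.update_eq_self, Function.update_eq_self]
  rw [h3] at h2
  exact h2

lemma L1d_ne (hf : IsL A f) {γ : Λ} {u v : Om Λ} (h : Bel γ u v) {i : ℕ}
    (hi : ∀ j < i, v γ j = u γ j) (hne : v γ i ≠ u γ i) :
    f v γ (stem f γ u + i) ≠ f u γ (stem f γ u + i) := by
  rcases lt_or_gt_of_ne hne with hlt | hlt
  · have h1 := hf.mono γ v u i h.symm (fun j hj => (hi j hj).symm) hlt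
    rw [hf.stem_congr h] at h1
    exact h1.ne
  · exact (hf.mono γ u v i h hi hlt).ne'

lemma L1d_aux (hf : IsL A f) {u v : Om Λ} (S : Λ → Prop) (hS : ∀ ξ ξ', ξ' < ξ → S ξ → S ξ')
    (h : ∀ ξ, S ξ → f v ξ = f u ξ) : ∀ ξ, S ξ → v ξ = u ξ := by
  intro ξ
  induction ξ using WellFoundedLT.induction with
  | ind ξ ih =>
    intro hξ
    have hB : Bel ξ u v := fun ξ' h' => ih ξ' h' (hS ξ ξ' h' hξ)
    funext i
    induction i using Nat.strong_induction_on with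
    | h i ih2 =>
      by_contra hne
      exact hf.L1d_ne hB ih2 hne (congrFun (h ξ hξ) _)

/-- Values below `γ` determine the point below `γ`. -/
lemma bel_of_bel (hf : IsL A f) {γ : Λ} {u v : Om Λ} (h : Bel γ (f u) (f v)) : Bel γ u v :=
  hf.L1d_aux (fun ξ => ξ < γ) (fun _ _ h1 h2 => h1.trans h2) h

lemma injective (hf : IsL A f) : Function.Injective f := by
  intro u v huv
  funext ξ
  exact hf.L1d_aux (u := v) (v := u) (fun _ => True) (fun _ _ _ _ => trivial)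
    (fun ξ _ => congrFun huv ξ) ξ trivial

/-- Agreement of the values at `γ` up to `stem + l` gives agreement of the points up to `l`. -/
lemma eq_of_eq (hf : IsL A f) {γ : Λ} {u v : Om Λ} (h : Bel γ u v) (l : ℕ)
    (hl : ∀ i < stem f γ u + l, f v γ i = f u γ i) : ∀ i < l, v γ i = u γ i := by
  intro i
  induction i using Nat.strong_induction_on with
  | h i ih =>
    intro hi
    by_contra hne
    exact hf.L1d_ne h (fun j hj => ih j hj (hj.trans hi)) hne (hl _ (Nat.add_lt_add_left hi _))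

/-- Composition. -/
lemma comp_aux (hf : IsL A f) (hg : IsL B g) :
    IsL (A ∪ B) (f ∘ g) ∧ ∀ γ u, stem (f ∘ g) γ u = stem f γ (g u) + stem g γ u := by
  refine isL_of (fun γ u => stem f γ (g u) + stem g γ u) (hf.cnt.union hg.cnt) ?_ ?_ ?_ ?_ ?_ ?_
  · intro γ hγ u
    rw [mem_union, not_or] at hγ
    rw [Function.comp_apply, hf.off γ hγ.1, hg.off γ hγ.2]
  · intro γ hγ u
    rw [mem_union, not_or] at hγ
    show stem f γ (g u) + stem g γ u = 0
    rw [hf.stem_off hγ.1, hg.stem_off hγ.2]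
  · intro γ hγ n
    refine (hf.cts' γ n).comp fun β hβ m => (hg.cts' β m).mono ?_
    rintro ξ ⟨hξ1, hξ2⟩
    refine ⟨?_, le_trans (mem_Iic.1 hξ2) (mem_Iic.1 hβ.2)⟩
    rcases hξ1 with rfl | hξ1
    · rcases hβ.1 with h | h
      · rw [h]
        exact hγ
      · exact Or.inl h
    · exact Or.inr hξ1
  · intro γ hγ
    refine Cts.map₂ ((hf.ctc' γ).comp fun β hβ m => (hg.cts' β m).mono ?_)
      ((hg.ctc' γ).mono ?_) (fun a b => a + b)
    · rintro ξ ⟨hξ1, hξ2⟩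
      refine ⟨?_, lt_of_le_of_lt (mem_Iic.1 hξ2) (mem_Iio.1 hβ.2)⟩
      rcases hξ1 with rfl | hξ1
      · exact Or.inl hβ.1
      · exact Or.inr hξ1
    · rintro ξ ⟨hξ1, hξ2⟩
      exact ⟨Or.inr hξ1, hξ2⟩
  · intro γ u v l hb hl i hi
    have h1 := hg.pre γ u v l hb hl
    exact hf.pre γ (g u) (g v) (stem g γ u + l) (hg.bel hb) h1 i (by omega)
  · intro γ u v l hb hl hlt
    have h1 := hg.pre γ u v l hb hl
    have h2 := hg.mono γ u v l hb hl hlt
    have h3 := hf.mono γ (g u) (g v) (stem g γ u + l) (hg.bel hb) h1 h2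
    show f (g u) γ (stem f γ (g u) + stem g γ u + l) < f (g v) γ (stem f γ (g u) + stem g γ u + l)
    rw [add_assoc]
    exact h3

lemma comp (hf : IsL A f) (hg : IsL B g) : IsL (A ∪ B) (f ∘ g) := (comp_aux hf hg).1

lemma stem_comp (hf : IsL A f) (hg : IsL B g) (γ : Λ) (u : Om Λ) :
    stem (f ∘ g) γ u = stem f γ (g u) + stem g γ u := (comp_aux hf hg).2 γ u

end IsL

lemma isL_id_aux : IsL (∅ : Set Λ) id ∧ ∀ γ (u : Om Λ), stem id γ u = 0 := by
  refine isL_of (fun _ _ => 0) countable_empty (fun _ _ _ => rfl) (fun _ _ _ => rfl)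
    (fun _ h => absurd h (notMem_empty _)) (fun _ h => absurd h (notMem_empty _)) ?_ ?_
  · intro γ u v l _ h i hi
    exact h i (by simpa using hi)
  · intro γ u v l _ _ h
    simpa using h

lemma isL_ins_aux (u : Om Λ) (ℓ : Λ →₀ ℕ) :
    IsL {γ | ℓ γ ≠ 0} (ins u ℓ) ∧ ∀ γ v, stem (ins u ℓ) γ v = ℓ γ := by
  have h0 : ∀ γ, γ ∉ {γ : Λ | ℓ γ ≠ 0} → ℓ γ = 0 := by
    intro γ h
    by_contra hn
    exact h hn
  refine isL_of (fun γ _ => ℓ γ) ?_ ?_ ?_ ?_ ?_ ?_ ?_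
  · refine (ℓ.support.finite_toSet.subset ?_).countable
    intro γ hγ
    exact Finset.mem_coe.2 (Finsupp.mem_support_iff.2 hγ)
  · intro γ hγ v
    funext i
    simp [ins, h0 γ hγ]
  · intro γ hγ _
    exact h0 γ hγ
  · intro γ hγ n
    by_cases hn : n < ℓ γ
    · have e : (fun v : Om Λ => ins u ℓ v γ n) = fun _ => u γ n := by
        funext v
        simp [ins, hn]
      rw [e]
      exact Cts.const _ _
    · have e : (fun v : Om Λ => ins u ℓ v γ n) = fun v => v γ (n - ℓ γ) := by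
        funext v
        simp [ins, hn]
      rw [e]
      exact Cts.coord (A := {γ | ℓ γ ≠ 0} ∩ Iic γ) (γ := γ) ⟨hγ, self_mem_Iic⟩ _
  · intro γ _
    exact Cts.const _ _
  · intro γ w v l _ h i hi
    have hi' : i < ℓ γ + l := hi
    by_cases hn : i < ℓ γ
    · simp [ins, hn]
    · simp only [ins, hn, if_false]
      exact h _ (by omega)
  · intro γ w v l _ _ h
    simpa [ins] using h

lemma stem_id (γ : Λ) (u : Om Λ) : stem id γ u = 0 := isL_id_aux.2 γ u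

lemma stem_ins (u : Om Λ) (ℓ : Λ →₀ ℕ) (γ : Λ) (v : Om Λ) : stem (ins u ℓ) γ v = ℓ γ :=
  (isL_ins_aux u ℓ).2 γ v

/-- (E5) -/
lemma isL_strip {A : Set Λ} {h : Om Λ → Om Λ} (hh : IsL A h) {u : Om Λ} {ℓ : Λ →₀ ℕ}
    (hℓ : ∀ γ, ℓ γ ≠ 0 → γ ∈ A) (hu : ∀ v, Ag ℓ u (h v)) :
    IsL A (strip ℓ ∘ h) ∧ h = ins u ℓ ∘ (strip ℓ ∘ h) ∧
      ∀ γ v, stem h γ v = stem (strip ℓ ∘ h) γ v + ℓ γ := by
  classical
  have h0 : ∀ γ, γ ∉ A → ℓ γ = 0 := by
    intro γ hγ
    by_contra hn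
    exact hγ (hℓ γ hn)
  have hle : ∀ γ v, ℓ γ ≤ stem h γ v := by
    intro γ v
    by_contra hn
    have hn' : stem h γ v < ℓ γ := not_le.1 hn
    have h1 : Bel γ v (Function.update v γ (fun i => v γ i + 1)) := by
      intro ξ hξ
      rw [Function.update_of_ne hξ.ne]
    have h2 := hh.mono γ v (Function.update v γ (fun i => v γ i + 1)) 0 h1
      (fun i hi => absurd hi (Nat.not_lt_zero i)) (by simp)
    rw [Nat.add_zero, hu v γ _ hn', hu _ γ _ hn'] at h2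
    exact lt_irrefl _ h2
  have key : IsL A (strip ℓ ∘ h) ∧ ∀ γ v, stem (strip ℓ ∘ h) γ v = stem h γ v - ℓ γ := by
    refine isL_of (fun γ v => stem h γ v - ℓ γ) hh.cnt ?_ ?_ ?_ ?_ ?_ ?_
    · intro γ hγ v
      funext i
      show h v γ (i + ℓ γ) = v γ i
      rw [h0 γ hγ, hh.off γ hγ v, Nat.add_zero]
    · intro γ hγ v
      show stem h γ v - ℓ γ = 0
      rw [hh.stem_off hγ, Nat.zero_sub]
    · intro γ hγ n
      exact hh.cts γ hγ (n + ℓ γ)
    · intro γ hγ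
      exact (hh.ctc γ hγ).map (fun n => n - ℓ γ)
    · intro γ w v l hb hv i hi
      have hi' : i < stem h γ w - ℓ γ + l := hi
      have := hle γ w
      exact hh.pre γ w v l hb hv (i + ℓ γ) (by omega)
    · intro γ w v l hb hv hlt
      have h3 := hh.mono γ w v l hb hv hlt
      have h4 : stem h γ w - ℓ γ + l + ℓ γ = stem h γ w + l := by
        have := hle γ w
        omega
      show h w γ (stem h γ w - ℓ γ + l + ℓ γ) < h v γ (stem h γ w - ℓ γ + l + ℓ γ)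
      rw [h4]
      exact h3
  refine ⟨key.1, ?_, ?_⟩
  · funext v
    exact (ins_strip (hu v)).symm
  · intro γ v
    rw [key.2]
    have := hle γ v
    omega

/-- The restriction to the coordinates below `β`. -/
lemma isL_res {A : Set Λ} {h : Om Λ → Om Λ} (hh : IsL A h) (β : Λ) :
    IsL (A ∩ Iio β) (res β h) ∧
      ∀ γ v, stem (res β h) γ v = if γ < β then stem h γ v else 0 := by
  refine isL_of (fun γ v => if γ < β then stem h γ v else 0) (hh.cnt.mono inter_subset_left)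
    ?_ ?_ ?_ ?_ ?_ ?_
  · intro γ hγ v
    by_cases hb : γ < β
    · simp only [res, hb, if_true]
      exact hh.off γ (fun h => hγ ⟨h, hb⟩) v
    · simp only [res, hb, if_false]
  · intro γ hγ v
    by_cases hb : γ < β
    · simp only [hb, if_true]
      exact hh.stem_off (fun h => hγ ⟨h, hb⟩) v
    · simp only [hb, if_false]
  · intro γ hγ n
    have hb : γ < β := hγ.2
    have e : (fun v : Om Λ => res β h v γ n) = fun v => h v γ n := by
      funext v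
      simp only [res, hb, if_true]
    rw [e]
    exact (hh.cts γ hγ.1 n).mono fun ξ hξ => ⟨⟨hξ.1, lt_of_le_of_lt hξ.2 hb⟩, hξ.2⟩
  · intro γ hγ
    have hb : γ < β := hγ.2
    simp only [hb, if_true]
    exact (hh.ctc γ hγ.1).mono fun ξ hξ => ⟨⟨hξ.1, lt_trans hξ.2 hb⟩, hξ.2⟩
  · intro γ u v l hbel hv i hi
    by_cases hb : γ < β
    · simp only [hb, if_true] at hi
      simp only [res, hb, if_true]
      exact hh.pre γ u v l hbel hv i hi
    · simp only [hb, if_false, Nat.zero_add] at hi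
      simp only [res, hb, if_false]
      exact hv i hi
  · intro γ u v l hbel hv hlt
    by_cases hb : γ < β
    · simp only [res, hb, if_true]
      exact hh.mono γ u v l hbel hv hlt
    · simp only [res, hb, if_false, Nat.zero_add]
      exact hlt

/-! ### The same for `Lav` -/

namespace Lav

variable {I J : Set Λ} {f g h : Om Λ → Om Λ}

lemma mono (hf : Lav I f) (hIJ : I ⊆ J) : Lav J f := by
  obtain ⟨A, hA, h⟩ := hf
  exact ⟨A, hA.trans hIJ, h⟩

lemma univ (hf : Lav I f) : Lav univ f := hf.mono (subset_univ _)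

lemma id (I : Set Λ) : Lav I id := ⟨∅, empty_subset _, isL_id_aux.1⟩

lemma comp (hf : Lav I f) (hg : Lav I g) : Lav I (f ∘ g) := by
  obtain ⟨A, hA, hf⟩ := hf
  obtain ⟨B, hB, hg⟩ := hg
  exact ⟨A ∪ B, union_subset hA hB, hf.comp hg⟩

lemma ins (u : Om Λ) {ℓ : Λ →₀ ℕ} (h : ∀ γ, ℓ γ ≠ 0 → γ ∈ I) : Lav I (ins u ℓ) :=
  ⟨_, fun γ hγ => h γ hγ, (isL_ins_aux u ℓ).1⟩

lemma stem_comp (hf : Lav I f) (hg : Lav J g) (γ : Λ) (u : Om Λ) :
    stem (f ∘ g) γ u = stem f γ (g u) + stem g γ u := by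
  obtain ⟨A, hA, hf⟩ := hf
  obtain ⟨B, hB, hg⟩ := hg
  exact hf.stem_comp hg γ u

lemma off (hf : Lav I f) {γ : Λ} (hγ : γ ∉ I) (u : Om Λ) : f u γ = u γ := by
  obtain ⟨A, hA, hf⟩ := hf
  exact hf.off γ (fun h => hγ (hA h)) u

lemma stem_off (hf : Lav I f) {γ : Λ} (hγ : γ ∉ I) (u : Om Λ) : stem f γ u = 0 := by
  obtain ⟨A, hA, hf⟩ := hf
  exact hf.stem_off (fun h => hγ (hA h)) u

lemma bel (hf : Lav I f) {γ : Λ} {u v : Om Λ} (h : Bel γ u v) : Bel γ (f u) (f v) := by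
  obtain ⟨A, hA, hf⟩ := hf
  exact hf.bel h

lemma bel_of_bel (hf : Lav I f) {γ : Λ} {u v : Om Λ} (h : Bel γ (f u) (f v)) : Bel γ u v := by
  obtain ⟨A, hA, hf⟩ := hf
  exact hf.bel_of_bel h

lemma le_entry (hf : Lav I f) (γ : Λ) (u : Om Λ) (i : ℕ) : u γ i ≤ f u γ (stem f γ u + i) := by
  obtain ⟨A, hA, hf⟩ := hf
  exact hf.le_entry γ u i

lemma stem_congr (hf : Lav I f) {γ : Λ} {u v : Om Λ} (h : Bel γ u v) :
    stem f γ v = stem f γ u := by
  obtain ⟨A, hA, hf⟩ := hf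
  exact hf.stem_congr h

lemma injective (hf : Lav I f) : Function.Injective f := by
  obtain ⟨A, hA, hf⟩ := hf
  exact hf.injective

lemma res (hf : Lav I f) (β : Λ) : Lav (I ∩ Iio β) (res β f) := by
  obtain ⟨A, hA, hf⟩ := hf
  exact ⟨A ∩ Iio β, inter_subset_inter_left _ hA, (isL_res hf β).1⟩

lemma stem_res (hf : Lav I f) (β γ : Λ) (v : Om Λ) :
    stem (Pool.LV.res β f) γ v = if γ < β then stem f γ v else 0 := by
  obtain ⟨A, hA, hf⟩ := hf
  exact (isL_res hf β).2 γ v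

/-- (E5) -/
lemma E5 (hf : Lav I f) {u : Om Λ} {ℓ : Λ →₀ ℕ} (hℓ : ∀ γ, ℓ γ ≠ 0 → γ ∈ I)
    (hu : ∀ v, Ag ℓ u (f v)) :
    ∃ q, Lav I q ∧ f = Pool.LV.ins u ℓ ∘ q ∧ ∀ γ v, stem f γ v = stem q γ v + ℓ γ := by
  obtain ⟨A, hA, hf⟩ := hf
  have hcnt : (A ∪ {γ | ℓ γ ≠ 0}).Countable := by
    refine hf.cnt.union ?_
    have : {γ | ℓ γ ≠ 0} = (↑ℓ.support : Set Λ) := by
      ext γ; simp
    rw [this]
    exact ℓ.support.countable_toSet
  have hf' : IsL (A ∪ {γ | ℓ γ ≠ 0}) f := hf.mono_supp subset_union_left hcnt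
  obtain ⟨h1, h2, h3⟩ := isL_strip hf' (u := u) (ℓ := ℓ) (fun γ hγ => Or.inr hγ) hu
  exact ⟨strip ℓ ∘ f, ⟨_, union_subset hA fun γ hγ => hℓ γ hγ, h1⟩, h2, h3⟩

/-- (E6): if `f u` extends the finite information `(w, ℓ)` then some finite information about `u`,
with support in the countable set `B ⊇ A ∪ supp ℓ`, longer than any given one, guarantees it. -/
lemma E6 {A B : Set Λ} (hf : IsL A f) (hAB : A ⊆ B) (hB : B.Countable) {u w : Om Λ}
    {ℓ m : Λ →₀ ℕ} (hℓ : ∀ γ, ℓ γ ≠ 0 → γ ∈ B) (hm : ∀ γ, m γ ≠ 0 → γ ∈ B) (hu : Ag ℓ w (f u)) :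
    ∃ ℓ' : Λ →₀ ℕ, (∀ γ, ℓ' γ ≠ 0 → γ ∈ B) ∧ (∀ γ, m γ ≤ ℓ' γ) ∧
      ∃ q, IsL B q ∧ f ∘ Pool.LV.ins u ℓ' = Pool.LV.ins w ℓ ∘ q := by
  classical
  obtain ⟨k, h3, h4⟩ := Cts.finset (α := ℕ) (A := B)
    (ℓ.support.sigma (fun β => Finset.range (ℓ β)))
    (fun x v => f v x.1 x.2) (by
      intro x hx
      have hx' := (Finset.mem_sigma.1 hx).1
      have hxB : x.1 ∈ B := hℓ x.1 (Finsupp.mem_support_iff.1 hx')
      refine (hf.cts' x.1 x.2).mono ?_
      rintro ξ ⟨hξ | hξ, -⟩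
      · rw [hξ]; exact hxB
      · exact hAB hξ) u
  have hsup : ∀ γ, (k ⊔ m) γ ≠ 0 → γ ∈ B := by
    intro γ h
    by_cases h1 : k γ = 0
    · by_cases h2 : m γ = 0
      · exact absurd (by simp [Finsupp.sup_apply, h1, h2]) h
      · exact hm γ h2
    · exact h3 γ h1
  have hins : IsL B (f ∘ Pool.LV.ins u (k ⊔ m)) := by
    refine (hf.comp (isL_ins_aux u (k ⊔ m)).1).mono_supp (union_subset hAB ?_) hB
    exact fun γ hγ => hsup γ hγ
  have hag : ∀ v, Ag ℓ w ((f ∘ Pool.LV.ins u (k ⊔ m)) v) := by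
    intro v γ i hi
    have hγ : γ ∈ ℓ.support := Finsupp.mem_support_iff.2 (by omega)
    have h5 : Ag k u (Pool.LV.ins u (k ⊔ m) v) :=
      (ag_ins u v (k ⊔ m)).mono fun γ => by simp [Finsupp.sup_apply]
    have h6 := h4 _ h5 ⟨γ, i⟩ (Finset.mem_sigma.2 ⟨hγ, Finset.mem_range.2 hi⟩)
    change f (Pool.LV.ins u (k ⊔ m) v) γ i = w γ i
    rw [← hu γ i hi]
    exact h6
  obtain ⟨h7, h8, -⟩ := isL_strip hins hℓ hag
  exact ⟨k ⊔ m, hsup, fun γ => by simp [Finsupp.sup_apply], strip ℓ ∘ (f ∘ Pool.LV.ins u (k ⊔ m)),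
    h7, h8⟩

/-- Each entry is continuous with a countable support. -/
lemma cts (hf : Lav I f) : ∃ A ⊆ I, A.Countable ∧
    ∀ γ n, Cts (insert γ A ∩ Iic γ) (fun u => f u γ n) := by
  obtain ⟨A, hA, hf⟩ := hf
  exact ⟨A, hA, hf.cnt, hf.cts'⟩

end Lav

lemma Pure.comp {F : Set Λ} {I J : Set Λ} {f g : Om Λ → Om Λ} (hf : Lav I f) (hg : Lav J g)
    (hf' : Pure F f) (hg' : Pure F g) : Pure F (f ∘ g) := fun γ hγ u => by
  rw [hf.stem_comp hg, hf' γ hγ, hg' γ hγ]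

lemma Pure.id (F : Set Λ) : Pure F (id : Om Λ → Om Λ) := fun γ _ u => stem_id γ u

lemma Pure.mono {F F' : Set Λ} {f : Om Λ → Om Λ} (h : Pure F f) (hF : F' ⊆ F) : Pure F' f :=
  fun γ hγ u => h γ (hF hγ) u

/-- Local names are closed under composition with Laver maps. -/
lemma CC.comp {φ : Om Λ → ℕ → Bool} (hφ : CC univ φ) {e : Om Λ → Om Λ} {I : Set Λ}
    (he : Lav I e) : CC univ (φ ∘ e) := by
  obtain ⟨A, -, hA, h⟩ := hφ
  obtain ⟨E, -, hE⟩ := he
  refine ⟨A ∪ E, subset_univ _, hA.union hE.cnt, fun n => ?_⟩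
  refine Cts.comp (h n) fun β hβ i => (hE.cts' β i).mono ?_
  rintro ξ ⟨hξ | hξ, -⟩
  · rw [hξ]; exact Or.inl hβ
  · exact Or.inr hξ

/-- The same below `δ`. -/
lemma CC.comp_lt {φ : Om Λ → ℕ → Bool} {δ : Λ} (hφ : CC (Iio δ) φ) {e : Om Λ → Om Λ}
    {I : Set Λ} (he : Lav I e) : CC (Iio δ) (φ ∘ e) := by
  obtain ⟨A, hAδ, hA, h⟩ := hφ
  obtain ⟨E, -, hE⟩ := he
  refine ⟨(A ∪ E) ∩ Iio δ, inter_subset_right, (hA.union hE.cnt).mono inter_subset_left,
    fun n => ?_⟩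
  refine Cts.comp (h n) fun β hβ i => (hE.cts' β i).mono ?_
  rintro ξ ⟨hξ | hξ, hξ2⟩
  · rw [hξ]; exact ⟨Or.inl hβ, hAδ hβ⟩
  · exact ⟨Or.inr hξ, lt_of_le_of_lt hξ2 (hAδ hβ)⟩

lemma CC.mono {I J : Set Λ} {φ : Om Λ → ℕ → Bool} (h : CC I φ) (hIJ : I ⊆ J) : CC J φ := by
  obtain ⟨A, hA, h⟩ := h
  exact ⟨A, hA.trans hIJ, h⟩

lemma CC.eq_of_bel {δ : Λ} {φ : Om Λ → ℕ → Bool} (h : CC (Iio δ) φ) {u v : Om Λ}
    (huv : Bel δ u v) : φ v = φ u := by
  obtain ⟨A, hA, -, h⟩ := h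
  funext n
  exact (h n).eq_of fun ξ hξ => huv ξ (hA hξ)

lemma NC.comp {δ : Λ} {φ : Om Λ → ℕ → Bool} (h : NC δ φ) {e : Om Λ → Om Λ} (he : Lav univ e) :
    NC δ (φ ∘ e) := by
  rintro ⟨q, hq, hc⟩
  exact h ⟨e ∘ q, he.comp hq, hc⟩

end Pool.LV
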