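import Pool.Agent.Lib.MP_1c8600_lv.KT
import Pool.Agent.Lib.MP_1c8600_lc.HS
import Pool.Agent.Lib.MP_ad72f3_pc.ZFg
import Pool.Agent.Lib.MP_ad72f3_pc.Nm

/-!
# N-side: the forcing notion, codes of small objects, genericity
-/

set_option autoImplicit false
set_option linter.unusedSectionVars false

open Set

namespace Pool.LV

open Pool.MP_3ade05_lc Pool.PC

section general

variable {P : Type 1} [Preorder P]

/-- The name coding an element of a small type. -/
noncomputable def tN {T : Type} (t : T) : Name P :=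
  ordN P (Ordinal.typein (α := T) WellOrderingRel t)

lemma tN_injective {T : Type} : Function.Injective (tN (P := P) (T := T)) := by
  intro a b h
  exact (Ordinal.typein (α := T) WellOrderingRel).injective (ordN_injective h)

/-- Genericity with a small parameter, `n` names as parameters and a small answer. -/
lemma Ev.genT {T T' : Type} (n : ℕ) (R : T → (Fin n → Name P) → P → T' → Prop) :
    Ev (P := P) (fun U H => ∀ t, tN t ∈ U → ∀ v : Fin n → Name P, (∀ i, v i ∈ U) →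
      (∃ q ∈ H, ∃ t' : T', tN t' ∈ U ∧ R t v q t') ∨
        (∃ p ∈ H, ∀ q ≤ p, ∀ t', ¬ R t v q t')) := by
  refine (Ev.gen (n := n + 1) (fun v q ρ => ∃ (t : T) (t' : T'), v 0 = tN t ∧ ρ = tN t' ∧
    R t (fun i => v i.succ) q t')).mono fun U H h t ht v hv => ?_
  have hw : ∀ i, (Fin.cons (tN t) v : Fin (n + 1) → Name P) i ∈ U := by
    intro i
    refine Fin.cases ?_ (fun j => ?_) i
    · rw [Fin.cons_zero]
      exact ht
    · rw [Fin.cons_succ]
      exact hv j
  rcases h (Fin.cons (tN t) v : Fin (n + 1) → Name P) hw with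
    ⟨q, hq, ρ, hρ, t₀, t', e1, rfl, hR⟩ | ⟨p, hp, hn⟩
  · rw [Fin.cons_zero] at e1
    obtain rfl := tN_injective e1
    simp only [Fin.cons_succ] at hR
    exact Or.inl ⟨q, hq, t', hρ, hR⟩
  · refine Or.inr ⟨p, hp, fun q hq t' hR => hn q hq (tN t') ⟨t, t', ?_, rfl, ?_⟩⟩
    · rw [Fin.cons_zero]
    · simp only [Fin.cons_succ]
      exact hR

/-- Genericity with a small parameter, `n` names as parameters, a small answer and a name. -/
lemma Ev.genTN {T T' : Type} (n : ℕ) (R : T → (Fin n → Name P) → P → T' → Name P → Prop) :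
    Ev (P := P) (fun U H => ∀ t, tN t ∈ U → ∀ v : Fin n → Name P, (∀ i, v i ∈ U) →
      (∃ q ∈ H, ∃ t' : T', tN t' ∈ U ∧ ∃ ρ ∈ U, R t v q t' ρ) ∨
        (∃ p ∈ H, ∀ q ≤ p, ∀ t' ρ, ¬ R t v q t' ρ)) := by
  refine ((Ev.gen (n := n + 1) (fun v q σ => ∃ (t : T) (t' : T') (ρ : Name P), v 0 = tN t ∧
    σ = oN (tN t') ρ ∧ R t (fun i => v i.succ) q t' ρ)).and Ev.parts).mono
      fun U H hh t ht v hv => ?_
  obtain ⟨h, hparts⟩ := hh
  have hw : ∀ i, (Fin.cons (tN t) v : Fin (n + 1) → Name P) i ∈ U := by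
    intro i
    refine Fin.cases ?_ (fun j => ?_) i
    · rw [Fin.cons_zero]
      exact ht
    · rw [Fin.cons_succ]
      exact hv j
  rcases h (Fin.cons (tN t) v : Fin (n + 1) → Name P) hw with
    ⟨q, hq, σ, hσ, t₀, t', ρ, e1, rfl, hR⟩ | ⟨p, hp, hn⟩
  · rw [Fin.cons_zero] at e1
    obtain rfl := tN_injective e1
    simp only [Fin.cons_succ] at hR
    obtain ⟨h1, h2⟩ := hparts _ _ hσ
    exact Or.inl ⟨q, hq, t', h1, ρ, h2, hR⟩
  · refine Or.inr ⟨p, hp, fun q hq t' ρ hR => hn q hq (oN (tN t') ρ) ⟨t, t', ρ, ?_, rfl, ?_⟩⟩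
    · rw [Fin.cons_zero]
    · simp only [Fin.cons_succ]
      exact hR

/-- Closure under operations between small types. -/
lemma Ev.opT {T T' : Type} (F : T → T') :
    Ev (P := P) (fun U _ => ∀ t, tN t ∈ U → tN (F t) ∈ U) := by
  classical
  refine (Ev.op (n := 1) (fun v => if h : ∃ t : T, v 0 = tN t then tN (F h.choose)
    else v 0)).mono fun U H hU t ht => ?_
  have h1 := hU ![tN t] (by intro i; fin_cases i; exact ht)
  have h2 : ∃ t' : T, (![tN t] : Fin 1 → Name P) 0 = tN t' := ⟨t, rfl⟩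
  simp only [dif_pos h2] at h1
  have h3 : t = h2.choose := tN_injective h2.choose_spec
  rwa [← h3] at h1

/-- Pairs of small objects. -/
lemma Ev.pairT (T T' : Type) :
    Ev (P := P) (fun U _ => ∀ (t : T) (t' : T'), tN t ∈ U → tN t' ∈ U → tN (t, t') ∈ U) := by
  classical
  refine (Ev.op (n := 2) (fun v => if h : ∃ z : T × T', v 0 = tN z.1 ∧ v 1 = tN z.2 then
    tN h.choose else v 0)).mono fun U H hU t t' ht ht' => ?_
  have h1 := hU ![tN t, tN t'] (by intro i; fin_cases i; exacts [ht, ht'])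
  have h2 : ∃ z : T × T', (![tN t, tN t'] : Fin 2 → Name P) 0 = tN z.1 ∧
      (![tN t, tN t'] : Fin 2 → Name P) 1 = tN z.2 := ⟨(t, t'), rfl, rfl⟩
  simp only [dif_pos h2] at h1
  have h3 : (t, t') = h2.choose :=
    Prod.ext (tN_injective h2.choose_spec.1) (tN_injective h2.choose_spec.2)
  rwa [← h3] at h1

/-- Closure under name valued operations. -/
lemma Ev.opN {T : Type} (F : T → Name P) :
    Ev (P := P) (fun U _ => ∀ t, tN t ∈ U → F t ∈ U) := by
  classical
  refine (Ev.op (n := 1) (fun v => if h : ∃ t : T, v 0 = tN t then F h.choose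
    else v 0)).mono fun U H hU t ht => ?_
  have h1 := hU ![tN t] (by intro i; fin_cases i; exact ht)
  have h2 : ∃ t' : T, (![tN t] : Fin 1 → Name P) 0 = tN t' := ⟨t, rfl⟩
  simp only [dif_pos h2] at h1
  have h3 : t = h2.choose := tN_injective h2.choose_spec
  rwa [← h3] at h1

/-- A fixed small object. -/
lemma Ev.seed {T : Type} (t : T) : Ev (P := P) (fun U _ => tN t ∈ U) :=
  (Ev.op (n := 0) (fun _ => tN t)).mono fun _ _ h => h Fin.elim0 (fun i => i.elim0)

/-- The name of a relation on the natural numbers. -/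
noncomputable def relNm (r : ℕ → ℕ → Prop) : Name P :=
  Name.mk {p : ℕ × ℕ // r p.1 p.2}
    (fun p => PC.oN (ordN P ((p.1.1 : ℕ) : Ordinal.{0})) (ordN P ((p.1.2 : ℕ) : Ordinal.{0})))
    (fun _ => ⊤)

lemma val_relNm {U : Set (Name P)} {H : Set P} (hB : Base U H) (r : ℕ → ℕ → Prop) :
    Name.val U H (relNm r) = Pool.MP_1c8600_lc.relZ r := by
  obtain ⟨q, hq⟩ := hB.filt.ne
  have hval : ∀ m n : ℕ, Name.val U H (PC.oN (ordN P (m : Ordinal.{0})) (ordN P (n : Ordinal.{0}))) =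
      ZFSet.pair (num m) (num n) := by
    intro m n
    rw [val_oN hB (hB.nat m) (hB.nat n), val_ordN_nat hB, val_ordN_nat hB]
  ext x
  unfold Pool.MP_1c8600_lc.relZ
  rw [Name.mem_val, ZFSet.mem_range]
  constructor
  · rintro ⟨k, _, _, rfl⟩
    exact ⟨k, (hval k.1.1 k.1.2).symm⟩
  · rintro ⟨k, rfl⟩
    exact ⟨k, oN_mem hB (hB.nat k.1.1) (hB.nat k.1.2), ⟨q, hq, trivial⟩, (hval k.1.1 k.1.2).symm⟩

/-- The relations of the ground model on the natural numbers. -/
theorem Ev.rels (R : Set (ℕ → ℕ → Prop)) (hR : R.Countable) :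
    Ev (P := P) (fun U H => ∀ r ∈ R, Pool.MP_1c8600_lc.relZ r ∈ MM U H) := by
  have : Countable R := hR.to_subtype
  have h1 : Ev (P := P) (fun U _ => ∀ r : R, ∀ v : Fin 0 → Name P, (∀ i, v i ∈ U) →
      relNm (P := P) r.1 ∈ U) := Ev.all fun r => Ev.op (n := 0) (fun _ => relNm (P := P) r.1)
  refine (Ev.base.and h1).mono fun U H h r hr => ?_
  have h2 : relNm (P := P) r ∈ U := h.2 ⟨r, hr⟩ Fin.elim0 (fun i => i.elim0)
  exact ⟨relNm r, mem_univ _, h2, (val_relNm h.1 r).symm⟩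

end general

variable (Λ : Type) [LinearOrder Λ] [WellFoundedLT Λ]

/-- Conditions. -/
structure P0 where
  f : Om Λ → Om Λ
  lav : Lav univ f

instance : Preorder (P0 Λ) where
  le p q := ∃ e, Lav univ e ∧ p.f = q.f ∘ e
  le_refl p := ⟨id, Lav.id _, rfl⟩
  le_trans p q r := by
    rintro ⟨e, he, h⟩ ⟨e', he', h'⟩
    exact ⟨e' ∘ e, he'.comp he, by rw [h, h']; rfl⟩

/-- The forcing notion. -/
abbrev PL : Type 1 := ULift.{1} (P0 Λ)

variable {Λ}

open Classical in
/-- The condition given by a map. -/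
noncomputable def mkp (h : Om Λ → Om Λ) : PL Λ :=
  if hh : Lav univ h then ⟨⟨h, hh⟩⟩ else ⟨⟨id, Lav.id _⟩⟩

/-- The map of a condition. -/
def fn (p : PL Λ) : Om Λ → Om Λ := p.down.f

lemma lav_fn (p : PL Λ) : Lav univ (fn p) := p.down.lav

lemma fn_mkp {h : Om Λ → Om Λ} (hh : Lav univ h) : fn (mkp h) = h := by
  unfold mkp fn
  rw [dif_pos hh]

lemma mkp_fn (p : PL Λ) : mkp (fn p) = p := by
  unfold mkp
  rw [dif_pos (lav_fn p)]
  rfl

lemma le_iff {p q : PL Λ} : p ≤ q ↔ ∃ e, Lav univ e ∧ fn p = fn q ∘ e := Iff.rfl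

lemma mkp_le {h e : Om Λ → Om Λ} (hh : Lav univ h) (he : Lav univ e) : mkp (h ∘ e) ≤ mkp h :=
  ⟨e, he, by
    change fn (mkp (h ∘ e)) = fn (mkp h) ∘ e
    rw [fn_mkp (hh.comp he), fn_mkp hh]⟩

instance : Nonempty (PL Λ) := ⟨mkp id⟩

instance : Small.{0} (PL Λ) := inferInstance

end Pool.LV
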