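import Pool.Agent.Lib.MP_1c8600_lv.N1

/-!
# N-side: local names and their values
-/

set_option autoImplicit false
set_option linter.unusedSectionVars false

open Set

namespace Pool.LV

open Pool.MP_3ade05_lc Pool.PC Pool.MP_1c8600_lc

variable {Λ : Type} [LinearOrder Λ] [WellFoundedLT Λ]

/-- `φ` decides the statements `S n` below `h`. -/
def Loc (S : ℕ → PL Λ → Prop) (h : Om Λ → Om Λ) (φ : Om Λ → ℕ → Bool) : Prop :=
  CC univ φ ∧ ∀ e, Lav univ e → ∀ n, ((∀ u, φ (e u) n = true) → S n (mkp (h ∘ e))) ∧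
    ((∀ u, φ (e u) n = false) → ∀ q ≤ mkp (h ∘ e), ¬ S n q)

lemma Loc.comp {S : ℕ → PL Λ → Prop} {h e : Om Λ → Om Λ} {φ : Om Λ → ℕ → Bool}
    (hl : Loc S h φ) (he : Lav univ e) : Loc S (h ∘ e) (φ ∘ e) := by
  refine ⟨CC.comp hl.1 he, fun e' he' n => ?_⟩
  exact hl.2 (e ∘ e') (he.comp he') n

/-- an element below `mkp g` -/
lemma N2a_below {g : Om Λ → Om Λ} (hg : Lav univ g) {q : PL Λ} (hq : q ≤ mkp g) :
    ∃ f, Lav univ f ∧ q = mkp (g ∘ f) := by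
  obtain ⟨f, hf, h⟩ := le_iff.1 hq
  rw [fn_mkp hg] at h
  exact ⟨f, hf, by rw [← h, mkp_fn]⟩

/-- some restriction of `e` extends finite information about a value -/
lemma N2a_ext {e : Om Λ → Om Λ} (he : Lav univ e) (u : Om Λ) (ℓ : Λ →₀ ℕ) :
    ∃ (ℓ' : Λ →₀ ℕ) (q : Om Λ → Om Λ), Lav univ q ∧ e ∘ ins u ℓ' = ins (e u) ℓ ∘ q := by
  obtain ⟨A, -, hA⟩ := he
  obtain ⟨ℓ', -, -, q, hq, h⟩ := Lav.E6 (B := A ∪ {γ | ℓ γ ≠ 0}) hA subset_union_left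
    (hA.cnt.union (by
      have : {γ | ℓ γ ≠ 0} = (↑ℓ.support : Set Λ) := by
        ext γ
        simp
      rw [this]
      exact ℓ.support.countable_toSet)) (u := u) (w := e u) (ℓ := ℓ) (m := 0)
    (fun γ hγ => Or.inr hγ) (fun γ hγ => absurd rfl hγ) (Ag.refl _ _)
  exact ⟨ℓ', q, ⟨_, subset_univ _, hq⟩, h⟩

/-- LOCAL NAMES EXIST. -/
theorem exists_loc (S : ℕ → PL Λ → Prop) (hm : ∀ n p q, S n p → q ≤ p → S n q)
    (hr : ∀ n p, (∀ q ≤ p, ∃ r ≤ q, S n r) → S n p) (h : Om Λ → Om Λ) (hh : Lav univ h) :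
    ∃ k φ, Lav univ k ∧ Loc S (h ∘ k) φ := by
  classical
  have hins : ∀ (u : Om Λ) (ℓ : Λ →₀ ℕ), Lav univ (ins u ℓ) :=
    fun u ℓ => Lav.ins u (fun γ _ => mem_univ γ)
  set D : ℕ → Set (Om Λ → Om Λ) := fun n =>
    {e | Lav univ e ∧ (S n (mkp (h ∘ e)) ∨ ∀ q ≤ mkp (h ∘ e), ¬ S n q)} with hD
  have hdense : ∀ n, Dense' univ (D n) := by
    intro n
    refine ⟨fun g hg e he => ⟨hg.1.comp he, ?_⟩, fun f hf => ?_⟩
    · have hle : mkp ((h ∘ g) ∘ e) ≤ mkp (h ∘ g) := mkp_le (hh.comp hg.1) he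
      rcases hg.2 with h1 | h1
      · exact Or.inl (hm n _ _ h1 hle)
      · exact Or.inr fun q hq => h1 q (le_trans hq hle)
    · by_cases h1 : ∃ q ≤ mkp (h ∘ f), S n q
      · obtain ⟨q, hq, hS⟩ := h1
        obtain ⟨e, he, rfl⟩ := N2a_below (hh.comp hf) hq
        exact ⟨e, he, hf.comp he, Or.inl hS⟩
      · push Not at h1
        exact ⟨id, Lav.id _, hf, Or.inr h1⟩
  obtain ⟨k, hk, -, hbar⟩ := tt (Λ := Λ) univ ∅ (by simp) D hdense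
  choose A hA1 hA2 hA3 using hbar
  set φ : Om Λ → ℕ → Bool := fun u n => decide (∃ ℓ, S n (mkp (h ∘ k ∘ ins u ℓ))) with hφ
  have hφt : ∀ u n, φ u n = true ↔ ∃ ℓ, S n (mkp (h ∘ k ∘ ins u ℓ)) := by
    intro u n
    simp [hφ]
  have hφf : ∀ u n, φ u n = false ↔ ¬ ∃ ℓ, S n (mkp (h ∘ k ∘ ins u ℓ)) := by
    intro u n
    rw [← hφt, Bool.not_eq_true]
  have hhk : Lav univ (h ∘ k) := hh.comp hk
  refine ⟨k, φ, hk, ⟨⋃ n, A n, subset_univ _, countable_iUnion hA2, fun n u => ?_⟩,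
    fun e he n => ⟨fun hall => ?_, fun hall => ?_⟩⟩
  · obtain ⟨ℓ, hℓ, hD'⟩ := hA3 n u
    refine ⟨ℓ, fun γ hγ => mem_iUnion.2 ⟨n, hℓ γ hγ⟩, fun v hv => ?_⟩
    have hmain : (∀ q ≤ mkp (h ∘ k ∘ ins u ℓ), ¬ S n q) → ∀ w, Ag ℓ u w → φ w n = false := by
      intro h1 w hw
      rw [hφf]
      rintro ⟨ℓ', hS⟩
      have e1 : ins w (ℓ + ℓ') = ins w ℓ' ∘ ins (strip ℓ' w) (ℓ + ℓ' - ℓ') :=
        ins_factor (Ag.refl _ _) (fun γ => by simp)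
      have e2 : ins w (ℓ + ℓ') = ins u ℓ ∘ ins (strip ℓ w) (ℓ + ℓ' - ℓ) :=
        ins_factor hw (fun γ => by simp)
      have l1 : mkp (h ∘ k ∘ ins w (ℓ + ℓ')) ≤ mkp (h ∘ k ∘ ins w ℓ') := by
        rw [e1]
        exact mkp_le (hhk.comp (hins _ _)) (hins _ _)
      have l2 : mkp (h ∘ k ∘ ins w (ℓ + ℓ')) ≤ mkp (h ∘ k ∘ ins u ℓ) := by
        rw [e2]
        exact mkp_le (hhk.comp (hins _ _)) (hins _ _)
      exact h1 _ l2 (hm n _ _ hS l1)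
    rcases hD'.2 with h1 | h1
    · have h2 : φ u n = true := (hφt u n).2 ⟨ℓ, h1⟩
      have h3 : φ v n = true := (hφt v n).2 ⟨ℓ, by
        rw [ins_congr hv]
        exact h1⟩
      show φ v n = φ u n
      rw [h2, h3]
    · show φ v n = φ u n
      rw [hmain h1 v hv, hmain h1 u (Ag.refl _ _)]
  · refine hr n _ fun q hq => ?_
    obtain ⟨f, hf, rfl⟩ := N2a_below (hhk.comp he) hq
    obtain ⟨ℓ, hS⟩ := (hφt _ _).1 (hall (f (fun _ _ => 0)))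
    obtain ⟨ℓ', q', hq', heq⟩ := N2a_ext (he.comp hf) (fun _ _ => 0) ℓ
    refine ⟨mkp (((h ∘ k) ∘ e ∘ f) ∘ ins (fun _ _ => 0) ℓ'), mkp_le (hhk.comp (he.comp hf))
      (hins _ _), ?_⟩
    have e1 : ((h ∘ k) ∘ e ∘ f) ∘ ins (fun _ _ => 0) ℓ' =
        ((h ∘ k) ∘ ins (e (f (fun _ _ => 0))) ℓ) ∘ q' := by
      have : ((h ∘ k) ∘ e ∘ f) ∘ ins (fun _ _ => 0) ℓ' =
        (h ∘ k) ∘ ((e ∘ f) ∘ ins (fun _ _ => 0) ℓ') := rfl
      rw [this, heq]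
      rfl
    rw [e1]
    exact hm n _ _ hS (mkp_le (hhk.comp (hins _ _)) hq')
  · intro q hq hS
    obtain ⟨f, hf, rfl⟩ := N2a_below (hhk.comp he) hq
    obtain ⟨ℓ, hℓ, hD'⟩ := hA3 n (e (f (fun _ _ => 0)))
    have hno := (hφf _ _).1 (hall (f (fun _ _ => 0)))
    have h1 : ∀ q ≤ mkp (h ∘ k ∘ ins (e (f (fun _ _ => 0))) ℓ), ¬ S n q := by
      rcases hD'.2 with h1 | h1
      · exact absurd ⟨ℓ, h1⟩ hno
      · exact h1
    obtain ⟨ℓ', q', hq', heq⟩ := N2a_ext (he.comp hf) (fun _ _ => 0) ℓ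
    have e1 : ((h ∘ k) ∘ e ∘ f) ∘ ins (fun _ _ => 0) ℓ' =
        ((h ∘ k) ∘ ins (e (f (fun _ _ => 0))) ℓ) ∘ q' := by
      have : ((h ∘ k) ∘ e ∘ f) ∘ ins (fun _ _ => 0) ℓ' =
        (h ∘ k) ∘ ((e ∘ f) ∘ ins (fun _ _ => 0) ℓ') := rfl
      rw [this, heq]
      rfl
    have l1 : mkp (((h ∘ k) ∘ e ∘ f) ∘ ins (fun _ _ => 0) ℓ') ≤ mkp (((h ∘ k) ∘ e) ∘ f) :=
      mkp_le (hhk.comp (he.comp hf)) (hins _ _)
    have hS' := hm n _ _ hS l1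
    rw [e1] at hS'
    exact h1 _ (mkp_le (hhk.comp (hins _ _)) hq') hS'

/-- `C` is decided by `H` relative to `h`. -/
def Dcd {α : Type} (H : Set (PL Λ)) (h : Om Λ → Om Λ) (C : Om Λ → α) : Prop :=
  ∃ a e, Lav univ e ∧ mkp (h ∘ e) ∈ H ∧ ∀ u, C (e u) = a

open Classical in
/-- The value of `C` at the generic point, relative to `h`. -/
noncomputable def vl {α : Type} [Inhabited α] (H : Set (PL Λ)) (h : Om Λ → Om Λ)
    (C : Om Λ → α) : α :=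
  if hx : Dcd H h C then hx.choose else default

/-- The real given by a local name. -/
noncomputable def rv (H : Set (PL Λ)) (h : Om Λ → Om Λ) (φ : Om Λ → ℕ → Bool) : ℕ → Bool :=
  fun n => vl H h (fun u => φ u n)

/-- All digits are decided. -/
def RD (H : Set (PL Λ)) (h : Om Λ → Om Λ) (φ : Om Λ → ℕ → Bool) : Prop :=
  ∀ n, Dcd H h (fun u => φ u n)

section
variable {H : Set (PL Λ)} (hH : IsFilt H)
include hH

/-- Two conditions of the filter `h ∘ e`, `h ∘ e'` have a common extension `h ∘ e ∘ f` with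
`e ∘ f = e' ∘ f'`. -/
lemma common {h e e' : Om Λ → Om Λ} (hh : Lav univ h) (he : Lav univ e) (he' : Lav univ e')
    (h1 : mkp (h ∘ e) ∈ H) (h2 : mkp (h ∘ e') ∈ H) :
    ∃ f f', Lav univ f ∧ Lav univ f' ∧ mkp (h ∘ e ∘ f) ∈ H ∧ e ∘ f = e' ∘ f' := by
  obtain ⟨r, hr, hr1, hr2⟩ := hH.dir _ h1 _ h2
  obtain ⟨f, hf, hf1⟩ := le_iff.1 hr1
  obtain ⟨f', hf', hf1'⟩ := le_iff.1 hr2
  rw [fn_mkp (hh.comp he)] at hf1
  rw [fn_mkp (hh.comp he')] at hf1'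
  refine ⟨f, f', hf, hf', ?_, ?_⟩
  · have h3 : h ∘ e ∘ f = fn r := hf1.symm
    rw [h3, mkp_fn]
    exact hr
  · funext u
    apply hh.injective
    have h3 := congrFun hf1 u
    have h4 := congrFun hf1' u
    exact h3.symm.trans h4

lemma vl_eq {α : Type} [Inhabited α] {h e : Om Λ → Om Λ} (hh : Lav univ h) (he : Lav univ e)
    {C : Om Λ → α} {a : α} (h1 : mkp (h ∘ e) ∈ H) (hC : ∀ u, C (e u) = a) : vl H h C = a := by
  classical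
  have hx : Dcd H h C := ⟨a, e, he, h1, hC⟩
  have h2 : vl H h C = hx.choose := by
    unfold vl
    rw [dif_pos hx]
  rw [h2]
  obtain ⟨e', he', h3, h4⟩ := hx.choose_spec
  obtain ⟨f, f', _, _, _, h5⟩ := common hH hh he he' h1 h3
  have u : Om Λ := fun _ _ => 0
  have h6 := congrFun h5 u
  rw [← h4 (f' u), ← hC (f u)]
  exact congrArg C h6.symm

lemma Dcd.vl_spec {α : Type} [Inhabited α] {h : Om Λ → Om Λ} (hh : Lav univ h)
    {C : Om Λ → α} (hd : Dcd H h C) :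
    ∃ e, Lav univ e ∧ mkp (h ∘ e) ∈ H ∧ ∀ u, C (e u) = vl H h C := by
  obtain ⟨a, e, he, h1, h2⟩ := hd
  exact ⟨e, he, h1, fun u => by rw [vl_eq hH hh he h1 h2]; exact h2 u⟩

lemma Dcd.map {α β : Type} {h : Om Λ → Om Λ} {C : Om Λ → α} (hd : Dcd H h C) (F : α → β) :
    Dcd H h (fun u => F (C u)) := by
  obtain ⟨a, e, he, h1, h2⟩ := hd
  exact ⟨F a, e, he, h1, fun u => congrArg F (h2 u)⟩

lemma Dcd.map₂ {α β γ : Type} {h : Om Λ → Om Λ} (hh : Lav univ h) {C : Om Λ → α}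
    {D : Om Λ → β} (hd : Dcd H h C) (hd' : Dcd H h D) (F : α → β → γ) :
    Dcd H h (fun u => F (C u) (D u)) := by
  obtain ⟨a, e, he, h1, h2⟩ := hd
  obtain ⟨b, e', he', h1', h2'⟩ := hd'
  obtain ⟨f, f', hf, _, h3, h5⟩ := common hH hh he he' h1 h1'
  refine ⟨F a b, e ∘ f, he.comp hf, h3, fun u => ?_⟩
  have h6 : D ((e ∘ f) u) = b := by rw [h5]; exact h2' (f' u)
  have h7 : C ((e ∘ f) u) = a := h2 (f u)
  show F (C ((e ∘ f) u)) (D ((e ∘ f) u)) = F a b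
  rw [h6, h7]

lemma Dcd.comp {α : Type} {h e : Om Λ → Om Λ} (hh : Lav univ h) (he : Lav univ e)
    {C : Om Λ → α} (hd : Dcd H h C) (h1 : mkp (h ∘ e) ∈ H) : Dcd H (h ∘ e) (C ∘ e) := by
  obtain ⟨a, e', he', h2, h3⟩ := hd
  obtain ⟨f, f', hf, _, h4, h5⟩ := common hH hh he he' h1 h2
  refine ⟨a, f, hf, h4, fun u => ?_⟩
  have h6 : C ((e ∘ f) u) = a := by rw [h5]; exact h3 (f' u)
  exact h6

lemma vl_comp {α : Type} [Inhabited α] {h e : Om Λ → Om Λ} (hh : Lav univ h) (he : Lav univ e)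
    {C : Om Λ → α} (hd : Dcd H h C) (h1 : mkp (h ∘ e) ∈ H) : vl H (h ∘ e) (C ∘ e) = vl H h C := by
  obtain ⟨a, e', he', h2, h3⟩ := hd
  obtain ⟨f, f', hf, _, h4, h5⟩ := common hH hh he he' h1 h2
  rw [vl_eq hH hh he' h2 h3]
  refine vl_eq hH (hh.comp he) hf h4 fun u => ?_
  have h6 : C ((e ∘ f) u) = a := by rw [h5]; exact h3 (f' u)
  exact h6

lemma rv_comp {h e : Om Λ → Om Λ} (hh : Lav univ h) (he : Lav univ e)
    {φ : Om Λ → ℕ → Bool} (hd : RD H h φ) (h1 : mkp (h ∘ e) ∈ H) :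
    rv H (h ∘ e) (φ ∘ e) = rv H h φ := by
  funext n
  exact vl_comp hH hh he (hd n) h1

lemma vl_map₂ {α β γ : Type} [Inhabited α] [Inhabited β] [Inhabited γ] {h : Om Λ → Om Λ}
    (hh : Lav univ h) {C : Om Λ → α}
    {D : Om Λ → β} (hd : Dcd H h C) (hd' : Dcd H h D) (F : α → β → γ) :
    vl H h (fun u => F (C u) (D u)) = F (vl H h C) (vl H h D) := by
  obtain ⟨a, e, he, h1, h2⟩ := hd
  obtain ⟨b, e', he', h1', h2'⟩ := hd'
  obtain ⟨f, f', hf, _, h3, h5⟩ := common hH hh he he' h1 h1'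
  rw [vl_eq hH hh he h1 h2, vl_eq hH hh he' h1' h2']
  refine vl_eq hH hh (he.comp hf) h3 fun u => ?_
  have h6 : D ((e ∘ f) u) = b := by rw [h5]; exact h2' (f' u)
  have h7 : C ((e ∘ f) u) = a := h2 (f u)
  show F (C ((e ∘ f) u)) (D ((e ∘ f) u)) = F a b
  rw [h6, h7]

/-- Simultaneous decision of finitely many digits of a real, of another decided function, below a
given condition of the filter. -/
lemma RD.pre {h : Om Λ → Om Λ} (hh : Lav univ h) {φ : Om Λ → ℕ → Bool} (hd : RD H h φ) (n : ℕ) :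
    Dcd H h (fun u => Pool.LV.pre (φ u) n) ∧
      vl H h (fun u => Pool.LV.pre (φ u) n) = Pool.LV.pre (rv H h φ) n := by
  induction n with
  | zero =>
    have h0 := hd 0
    have h1 : Dcd H h (fun u => Pool.LV.pre (φ u) 0) :=
      Dcd.map hH (C := fun u => φ u 0) h0 (fun _ => ([] : List Bool))
    refine ⟨h1, ?_⟩
    obtain ⟨a, e, he, h2, h3⟩ := h1
    have h4 : a = [] := (h3 (fun _ _ => 0)).symm
    rw [vl_eq hH hh he h2 h3, h4]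
    rfl
  | succ n ih =>
    have e1 : (fun u => Pool.LV.pre (φ u) (n + 1)) =
        (fun u => (fun (s : List Bool) (b : Bool) => s ++ [b]) (Pool.LV.pre (φ u) n) (φ u n)) := by
      funext u
      exact pre_succ _ _
    rw [e1]
    refine ⟨Dcd.map₂ hH hh ih.1 (hd n) (fun (s : List Bool) (b : Bool) => s ++ [b]), ?_⟩
    rw [vl_map₂ hH hh ih.1 (hd n) (fun (s : List Bool) (b : Bool) => s ++ [b]), ih.2, pre_succ]
    rfl

/-- Three finite decisions at once. -/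
lemma decide3 {α β γ : Type} [Inhabited α] [Inhabited β] [Inhabited γ] {h : Om Λ → Om Λ}
    (hh : Lav univ h) {C : Om Λ → α} {D : Om Λ → β} {E : Om Λ → γ} (h1 : Dcd H h C)
    (h2 : Dcd H h D) (h3 : Dcd H h E) :
    ∃ e, Lav univ e ∧ mkp (h ∘ e) ∈ H ∧ ∀ u, C (e u) = vl H h C ∧ D (e u) = vl H h D ∧
      E (e u) = vl H h E := by
  have h4 := Dcd.map₂ hH hh h1 (Dcd.map₂ hH hh h2 h3 (fun b c => (b, c))) (fun a z => (a, z))
  obtain ⟨e, he, h5, h6⟩ := Dcd.vl_spec hH hh h4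
  rw [vl_map₂ hH hh h1 (Dcd.map₂ hH hh h2 h3 (fun b c => (b, c))) (fun a z => (a, z)),
    vl_map₂ hH hh h2 h3 (fun b c => (b, c))] at h6
  refine ⟨e, he, h5, fun u => ?_⟩
  have h7 := h6 u
  simp only [Prod.mk.injEq] at h7
  exact h7

end

/-- Everything in the hull is decided. -/
theorem Ev.rd : Ev (P := PL Λ) (fun U H => ∀ (h : Om Λ → Om Λ) (φ : Om Λ → ℕ → Bool),
    tN (P := PL Λ) (h, φ) ∈ U → Lav univ h → mkp h ∈ H → CC univ φ → RD H h φ) := by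
  refine (Ev.filt.and (Ev.all fun n : ℕ => Ev.genT (P := PL Λ)
    (T := (Om Λ → Om Λ) × (Om Λ → ℕ → Bool)) (T' := Bool) 0
    (fun t _ q a => ∃ e, Lav univ e ∧ q = mkp (t.1 ∘ e) ∧ ∀ u, t.2 (e u) n = a))).mono ?_
  rintro U H ⟨⟨-, hF⟩, htask⟩ h φ ht hh hm hφ n
  rcases htask n (h, φ) ht Fin.elim0 (fun i => i.elim0) with
    ⟨q, hq, a, -, e, he, hqe, hea⟩ | ⟨p, hp, hn⟩
  · refine ⟨a, e, he, ?_, hea⟩
    rw [← hqe]
    exact hq
  · exfalso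
    obtain ⟨r, -, hrp, hrm⟩ := hF.dir p hp _ hm
    obtain ⟨f, hf, hrf⟩ := le_iff.1 hrm
    rw [fn_mkp hh] at hrf
    obtain ⟨A, -, -, hA⟩ := hφ.comp hf
    obtain ⟨ℓ, -, hℓ⟩ := hA n (fun _ _ => 0)
    have hins : Lav univ (ins (fun (_ : Λ) (_ : ℕ) => 0) ℓ) := Lav.ins _ (fun _ _ => mem_univ _)
    have hle : mkp (h ∘ (f ∘ ins (fun (_ : Λ) (_ : ℕ) => 0) ℓ)) ≤ r := by
      refine le_iff.2 ⟨_, hins, ?_⟩
      rw [fn_mkp (hh.comp (hf.comp hins)), hrf]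
      rfl
    exact hn _ (hle.trans hrp) (φ (f (fun _ _ => 0)) n)
      ⟨f ∘ ins (fun (_ : Λ) (_ : ℕ) => 0) ℓ, hf.comp hins, rfl, fun u => hℓ _ (ag_ins _ u ℓ)⟩

/-- The generic real at `δ` is decided. -/
theorem Ev.gr : Ev (P := PL Λ) (fun U H => ∀ δ : Λ, tN (P := PL Λ) δ ∈ U → ∀ n,
    Dcd H id (fun u : Om Λ => u δ n)) := by
  refine (Ev.all fun n : ℕ => Ev.genT (P := PL Λ) (T := Λ) (T' := ℕ) 0
    (fun δ _ q a => ∃ e, Lav univ e ∧ q = mkp e ∧ ∀ u, e u δ n = a)).mono ?_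
  intro U H htask δ ht n
  rcases htask n δ ht Fin.elim0 (fun i => i.elim0) with
    ⟨q, hq, a, -, e, he, hqe, hea⟩ | ⟨p, hp, hn⟩
  · refine ⟨a, e, he, ?_, hea⟩
    have h1 : mkp e ∈ H := by
      rw [← hqe]
      exact hq
    exact h1
  · exfalso
    obtain ⟨A, -, -, hA⟩ := (lav_fn p).cts
    obtain ⟨ℓ, -, hℓ⟩ := hA δ n (fun _ _ => 0)
    have hins : Lav univ (ins (fun (_ : Λ) (_ : ℕ) => 0) ℓ) := Lav.ins _ (fun _ _ => mem_univ _)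
    have hle : mkp (fn p ∘ ins (fun (_ : Λ) (_ : ℕ) => 0) ℓ) ≤ p := by
      refine le_iff.2 ⟨_, hins, ?_⟩
      rw [fn_mkp ((lav_fn p).comp hins)]
    exact hn _ hle (fn p (fun _ _ => 0) δ n)
      ⟨fn p ∘ ins (fun (_ : Λ) (_ : ℕ) => 0) ℓ, (lav_fn p).comp hins, rfl,
        fun u => hℓ _ (ag_ins _ u ℓ)⟩

/-- The name of the real with local name `(h, φ)`. -/
noncomputable def rN (h : Om Λ → Om Λ) (φ : Om Λ → ℕ → Bool) : Name (PL Λ) :=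
  Name.mk ℕ (fun n => ordN (PL Λ) n) (fun n =>
    ⟨{p | ∃ e, Lav univ e ∧ fn p = h ∘ e ∧ ∀ u, φ (e u) n = true}, by
      rintro p q ⟨e', he', hq⟩ ⟨e, he, hp, hφ⟩
      refine ⟨e ∘ e', he.comp he', ?_, fun u => hφ (e' u)⟩
      change fn q = fn p ∘ e' at hq
      rw [hq, hp]
      rfl⟩)

/-- Local names in the hull give reals of the model. -/
theorem Ev.real : Ev (P := PL Λ) (fun U H => ∀ (h : Om Λ → Om Λ) (φ : Om Λ → ℕ → Bool),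
    tN (P := PL Λ) (h, φ) ∈ U → Lav univ h → mkp h ∈ H → CC univ φ →
      RealV (MM U H) (rv H h φ)) := by
  have hop := Ev.opN (P := PL Λ) (T := (Om Λ → Om Λ) × (Om Λ → ℕ → Bool))
    (fun t => rN t.1 t.2)
  refine ((Ev.base (P := PL Λ)).and (hop.and (Ev.rd (Λ := Λ)))).mono ?_
  rintro U H ⟨hB, ho, hrd⟩ h φ hU hh hhH hφ
  have hN : rN h φ ∈ U := ho (h, φ) hU
  have hr : RD H h φ := hrd h φ hU hh hhH hφ
  refine ⟨rN h φ, mem_univ _, hN, ?_⟩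
  ext x
  rw [nset_eq hB, Name.mem_val]
  constructor
  · rintro ⟨n, hn, rfl⟩
    have hn' : rv H h φ n = true := hn
    obtain ⟨e, he, heH, hv⟩ := Dcd.vl_spec hB.filt hh (hr n)
    refine ⟨(n : ℕ), hB.nat n, ⟨mkp (h ∘ e), heH, e, he, fn_mkp (hh.comp he), fun u => ?_⟩,
      (val_ordN_nat hB n).symm⟩
    exact (hv u).trans hn'
  · rintro ⟨n, _, ⟨q, hq, e, he, hfq, hv⟩, rfl⟩
    refine ⟨n, ?_, val_ordN_nat hB n⟩
    have h5 : mkp (h ∘ e) = q := by rw [← hfq, mkp_fn]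
    show rv H h φ n = true
    exact vl_eq hB.filt hh he (C := fun u => φ u n) (h5 ▸ hq) hv

/-- The statement `n ∈ σ`. -/
def Sn (σ : Name (PL Λ)) (n : ℕ) (p : PL Λ) : Prop := Name.fmem (ordN (PL Λ) n) σ p

/-- The statement `(n, ξ) ∈ β`. -/
noncomputable def Sb (β ξ : Name (PL Λ)) (n : ℕ) (p : PL Λ) : Prop :=
  Name.fmem (oN (ordN (PL Λ) n) ξ) β p

lemma Ne_bool_eq {a b : Bool} (h : a = true ↔ b = true) : a = b := by
  cases a <;> cases b <;> simp_all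

/-- Truth of decided statements. -/
lemma Ne_dec {H : Set (PL Λ)} (hH : IsFilt H) {S : ℕ → PL Λ → Prop}
    (hm : ∀ n p q, S n p → q ≤ p → S n q)
    {h : Om Λ → Om Λ} (hh : Lav univ h) {φ : Om Λ → ℕ → Bool} (hl : Loc S h φ)
    (hr : RD H h φ) (n : ℕ) : (∃ p ∈ H, S n p) ↔ rv H h φ n = true := by
  obtain ⟨e, he, heH, hv⟩ := Dcd.vl_spec hH hh (hr n)
  have hv' : ∀ u, φ (e u) n = rv H h φ n := hv
  constructor
  · rintro ⟨p, hp, hS⟩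
    by_contra hne
    have hf : rv H h φ n = false := by simpa using hne
    obtain ⟨r, _, h1, h2⟩ := hH.dir p hp _ heH
    exact (hl.2 e he n).2 (fun u => (hv' u).trans hf) r h2 (hm n p r hS h1)
  · intro ht
    exact ⟨_, heH, (hl.2 e he n).1 (fun u => (hv' u).trans ht)⟩

/-- All reals of the model have local names below every condition of the filter. -/
theorem Ev.real_loc : Ev (P := PL Λ) (fun U H => ∀ z : ℕ → Bool, RealV (MM U H) z →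
    ∀ h₀ : Om Λ → Om Λ, tN (P := PL Λ) h₀ ∈ U → Lav univ h₀ → mkp h₀ ∈ H →
      ∃ e φ, Lav univ e ∧ CC univ φ ∧ mkp (h₀ ∘ e) ∈ H ∧ tN (P := PL Λ) (h₀, e, φ) ∈ U ∧
        tN (P := PL Λ) (h₀ ∘ e, φ) ∈ U ∧ z = rv H (h₀ ∘ e) φ) := by
  have hgen := Ev.genT (P := PL Λ) (T := Om Λ → Om Λ)
    (T' := (Om Λ → Om Λ) × (Om Λ → ℕ → Bool)) 1
    (fun h₀ v q t => Lav univ t.1 ∧ q = mkp (h₀ ∘ t.1) ∧ Loc (Sn (v 0)) (h₀ ∘ t.1) t.2)
  have hpair := Ev.pairT (P := PL Λ) (Om Λ → Om Λ) ((Om Λ → Om Λ) × (Om Λ → ℕ → Bool))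
  have hop := Ev.opT (P := PL Λ)
    (T := (Om Λ → Om Λ) × (Om Λ → Om Λ) × (Om Λ → ℕ → Bool))
    (T' := (Om Λ → Om Λ) × (Om Λ → ℕ → Bool)) (fun t => (t.1 ∘ t.2.1, t.2.2))
  refine ((Ev.base (P := PL Λ)).and ((hgen.and (hpair.and hop)).and (Ev.rd (Λ := Λ)))).mono ?_
  rintro U H ⟨hB, ⟨hg, hp, ho⟩, hrd⟩ z hz h₀ hh₀U hh₀ hh₀H
  obtain ⟨σ, -, hσ, hval⟩ := hz
  have hm : ∀ n (p q : PL Λ), Sn σ n p → q ≤ p → Sn σ n q :=
    fun n p q h hq => Name.fmem_mono h hq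
  rcases hg h₀ hh₀U ![σ] (by intro i; fin_cases i; exact hσ) with
    ⟨q, hq, ⟨e, φ⟩, hU, he, hqe, hloc⟩ | ⟨p, hpH, hn⟩
  · simp only [Matrix.cons_val_fin_one] at he hqe hloc
    have h3 : tN (P := PL Λ) (h₀, e, φ) ∈ U := hp h₀ (e, φ) hh₀U hU
    have h4 : tN (P := PL Λ) (h₀ ∘ e, φ) ∈ U := ho (h₀, e, φ) h3
    have h5 : mkp (h₀ ∘ e) ∈ H := hqe ▸ hq
    have hle : Lav univ (h₀ ∘ e) := hh₀.comp he
    refine ⟨e, φ, he, hloc.1, h5, h3, h4, ?_⟩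
    funext n
    apply Ne_bool_eq
    rw [← Ne_dec hB.filt hm hle hloc (hrd _ _ h4 hle h5 hloc.1) n]
    have h6 := Name.val_mem_iff hB.full.at' (hB.nat n) hσ
    rw [val_ordN_nat hB] at h6
    have h7 : (∃ p ∈ H, Sn σ n p) ↔ num n ∈ Name.val U H σ := h6.symm
    rw [h7, ← hval, nset_eq hB]
    constructor
    · intro h
      exact ⟨n, h, rfl⟩
    · rintro ⟨m, hm', e'⟩
      rw [num_injective hB e']
      exact hm'
  · exfalso
    obtain ⟨r, _, h1, h2⟩ := hB.filt.dir p hpH _ hh₀H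
    obtain ⟨e, he, hfr⟩ := le_iff.1 h2
    rw [fn_mkp hh₀] at hfr
    obtain ⟨k, φ, hk, hl⟩ := exists_loc (Sn σ) hm
      (fun n p h => Name.fmem_reg fun q hq => h q hq) (h₀ ∘ e) (hh₀.comp he)
    have h3 : mkp (h₀ ∘ (e ∘ k)) ≤ p := by
      have h4 : mkp ((h₀ ∘ e) ∘ k) ≤ mkp (h₀ ∘ e) := mkp_le (hh₀.comp he) hk
      have h5 : mkp (h₀ ∘ e) = r := by rw [← hfr, mkp_fn]
      rw [h5] at h4
      exact h4.trans h1
    refine hn _ h3 (e ∘ k, φ) ⟨he.comp hk, rfl, ?_⟩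
    simp only [Matrix.cons_val_fin_one]
    exact hl

/-- The value of a local name for a point of `b`. -/
theorem Ev.hx : Ev (P := PL Λ) (fun U H => ∀ β ∈ U, ∀ ξ ∈ U, ∀ (h : Om Λ → Om Λ)
    (φ : Om Λ → ℕ → Bool), tN (P := PL Λ) (h, φ) ∈ U → Lav univ h → mkp h ∈ H →
      Loc (Sb β ξ) h φ → hxZ (Name.val U H β) (Name.val U H ξ) = rv H h φ) := by
  refine ((Ev.base (P := PL Λ)).and (Ev.rd (Λ := Λ))).mono ?_
  rintro U H ⟨hB, hrd⟩ β hβ ξ hξ h φ hU hh hhH hl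
  funext n
  apply Ne_bool_eq
  have hm : ∀ n (p q : PL Λ), Sb β ξ n p → q ≤ p → Sb β ξ n q :=
    fun n p q h hq => Name.fmem_mono h hq
  rw [← Ne_dec hB.filt hm hh hl (hrd h φ hU hh hhH hl.1) n]
  have h6 := Name.val_mem_iff hB.full.at' (oN_mem hB (hB.nat n) hξ) hβ
  rw [val_oN hB (hB.nat n) hξ, val_ordN_nat hB] at h6
  have h7 : (∃ p ∈ H, Sb β ξ n p) ↔
      ZFSet.pair (num n) (Name.val U H ξ) ∈ Name.val U H β := h6.symm
  rw [h7]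
  unfold hxZ
  classical
  simp

end Pool.LV
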