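import Pool.Agent.Lib.MP_1c8600_lv.N2

/-!
# N-side: the dichotomy
-/

set_option autoImplicit false
set_option linter.unusedSectionVars false

open Set

namespace Pool.LV

open Pool.MP_3ade05_lc Pool.PC Pool.MP_1c8600_lc

variable {Λ : Type} [LinearOrder Λ] [WellFoundedLT Λ]

/-! ### Transfer of relations between reals -/

/-- The task for the second half. -/
def RR (L : ℕ) (t : (Om Λ → Om Λ) × (Om Λ → ℕ → Bool) × (Om Λ → ℕ → Bool) × (Om Λ → ℕ → Bool))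
    (_ : Fin 0 → Name (PL Λ)) (q : PL Λ) (a : ℕ × List (List Bool) × List Bool) : Prop :=
  ∃ e, Lav univ e ∧ q = mkp (t.1 ∘ e) ∧ L ≤ a.2.2.length ∧
    ∀ u, t.2.1 (e u) (Encodable.encode (a.1, a.2.1, a.2.2)) = true ∧
      pre (t.2.2.1 (e u)) a.1 ∉ a.2.1

lemma cts_of_cc {φ : Om Λ → ℕ → Bool} (h : CC univ φ) : ∀ n, Cts univ (fun u => φ u n) := by
  obtain ⟨A, hA, -, h⟩ := h
  exact fun n => (h n).mono hA

/-- The density for the second half. -/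
lemma dens {h : Om Λ → Om Λ} {c φ ρ : Om Λ → ℕ → Bool} (hh : Lav univ h) (hc : CC univ c)
    (hφ : CC univ φ) (hGR : ∀ u, GR (c u) (φ u) (ρ u)) (L : ℕ) (r : PL Λ) (hr : r ≤ mkp h) :
    ∃ q ≤ r, ∃ a, RR L (h, c, φ, ρ) Fin.elim0 q a := by
  obtain ⟨f, hf, hrf⟩ := le_iff.1 hr
  rw [fn_mkp hh] at hrf
  have hr' : r = mkp (h ∘ f) := by rw [← mkp_fn r, hrf]
  let u₀ : Om Λ := fun _ _ => 0
  obtain ⟨m, S, w, h1, h2, h3⟩ := (hGR (f u₀)).2 L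
  have hc' := cts_of_cc (hc.comp hf)
  have hφ' := cts_of_cc (hφ.comp hf)
  have hp : Cts univ (fun u : Om Λ => pre ((φ ∘ f) u) m) := Cts.pre _ m fun i _ => hφ' i
  obtain ⟨ℓ, -, hℓ⟩ := (hc' (Encodable.encode (m, S, w))).map₂ hp
    (fun b s => (b, s)) u₀
  refine ⟨mkp ((h ∘ f) ∘ ins u₀ ℓ), ?_, (m, S, w), f ∘ ins u₀ ℓ,
    hf.comp (Lav.ins u₀ fun _ _ => mem_univ _), rfl, h3, ?_⟩
  · rw [hr']
    exact mkp_le (hh.comp hf) (Lav.ins u₀ fun _ _ => mem_univ _)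
  · intro u
    have h4 := hℓ (ins u₀ ℓ u) (ag_ins u₀ u ℓ)
    simp only [Prod.mk.injEq] at h4
    obtain ⟨h5, h6⟩ := h4
    refine ⟨?_, ?_⟩
    · change (c ∘ f) (ins u₀ ℓ u) (Encodable.encode (m, S, w)) = true
      rw [h5]
      exact h1
    · change pre ((φ ∘ f) (ins u₀ ℓ u)) m ∉ S
      rw [h6]
      exact h2

/-- `GR` is transferred to the values. -/
theorem Ev.gr_transfer : Ev (P := PL Λ) (fun U H => ∀ (h : Om Λ → Om Λ)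
    (c φ ρ : Om Λ → ℕ → Bool), tN (P := PL Λ) (h, c, φ, ρ) ∈ U → Lav univ h → mkp h ∈ H →
      CC univ c → CC univ φ → CC univ ρ → (∀ u, GR (c u) (φ u) (ρ u)) →
        GR (rv H h c) (rv H h φ) (rv H h ρ)) := by
  have k1 : Ev (P := PL Λ) (fun U H => ∀ L : ℕ, ∀ t, tN t ∈ U → ∀ v : Fin 0 → Name (PL Λ),
      (∀ i, v i ∈ U) → (∃ q ∈ H, ∃ a, tN a ∈ U ∧ RR L t v q a) ∨
        (∃ p ∈ H, ∀ q ≤ p, ∀ a, ¬ RR L t v q a)) := Ev.all fun L => Ev.genT 0 (RR L)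
  have k2 := Ev.opT (P := PL Λ) (fun t : (Om Λ → Om Λ) × (Om Λ → ℕ → Bool) ×
    (Om Λ → ℕ → Bool) × (Om Λ → ℕ → Bool) => (t.1, t.2.1))
  have k3 := Ev.opT (P := PL Λ) (fun t : (Om Λ → Om Λ) × (Om Λ → ℕ → Bool) ×
    (Om Λ → ℕ → Bool) × (Om Λ → ℕ → Bool) => (t.1, t.2.2.1))
  have k4 := Ev.opT (P := PL Λ) (fun t : (Om Λ → Om Λ) × (Om Λ → ℕ → Bool) ×
    (Om Λ → ℕ → Bool) × (Om Λ → ℕ → Bool) => (t.1, t.2.2.2))
  refine ((Ev.filt.and k1).and (Ev.rd.and (k2.and (k3.and k4)))).mono ?_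
  rintro U H ⟨⟨⟨-, hH⟩, g1⟩, g0, g2, g3, g4⟩ h c φ ρ hU hh hhH hc hφ hρ hGR
  have d1 : RD H h c := g0 h c (g2 _ hU) hh hhH hc
  have d2 : RD H h φ := g0 h φ (g3 _ hU) hh hhH hφ
  have d3 : RD H h ρ := g0 h ρ (g4 _ hU) hh hhH hρ
  refine ⟨?_, ?_⟩
  · intro m S w h1 h2
    obtain ⟨e, he, heH, h3⟩ := decide3 hH hh (d1 (Encodable.encode (m, S, w)))
      (RD.pre hH hh d2 m).1 (RD.pre hH hh d3 w.length).1
    obtain ⟨h4, h5, h6⟩ := h3 (fun _ _ => 0)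
    rw [(RD.pre hH hh d2 m).2] at h5
    rw [(RD.pre hH hh d3 w.length).2] at h6
    rw [← h6]
    refine (hGR (e fun _ _ => 0)).1 m S w ?_ ?_
    · rw [h4]
      exact h1
    · rw [h5]
      exact h2
  · intro L
    rcases g1 L (h, c, φ, ρ) hU Fin.elim0 (fun i => i.elim0) with
      ⟨q, hq, ⟨m, S, w⟩, -, e, he, rfl, h1, h2⟩ | ⟨p, hp, hn⟩
    · refine ⟨m, S, w, vl_eq hH hh he hq fun u => (h2 u).1, ?_, h1⟩
      obtain ⟨e', he', heH', h3⟩ := Dcd.vl_spec hH hh (RD.pre hH hh d2 m).1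
      obtain ⟨f, f', -, -, -, h4⟩ := common hH hh he he' hq heH'
      have h5 := (h2 (f fun _ _ => 0)).2
      have h6 := h3 (f' fun _ _ => 0)
      rw [(RD.pre hH hh d2 m).2] at h6
      rw [← h6]
      have h7 : e (f fun _ _ => 0) = e' (f' fun _ _ => 0) := congrFun h4 _
      rw [← h7]
      exact h5
    · exfalso
      obtain ⟨r, hr, hr1, hr2⟩ := hH.dir p hp (mkp h) hhH
      obtain ⟨q, hq, a, ha⟩ := dens hh hc hφ hGR L r hr2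
      exact hn q (hq.trans hr1) a ha

/-- Bounded evidence for `Gd`. -/
def EvB (c : ℕ → Bool) (l : ℕ → ℕ) (v : ℕ → Bool) : Prop :=
  ∃ m : ℕ, ∀ n : ℕ, ∃ i ≤ max (l n) (max m n), c (Encodable.encode (n, pre v i)) = true

lemma EvB.gd {c : ℕ → Bool} {l : ℕ → ℕ} {v : ℕ → Bool} (h : EvB c l v) : Gd c v := by
  obtain ⟨m, hm⟩ := h
  intro n
  obtain ⟨i, -, hi⟩ := hm n
  exact ⟨pre v i, hi, by rw [length_pre]⟩

open Classical in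
/-- The code of the complement of the `F_σ` set `{v | EvB c l v}` as a `G_δ` set. -/
noncomputable def Dop (c : ℕ → Bool) (l : ℕ → ℕ) (j : ℕ) : Bool :=
  decide (∃ (m : ℕ) (s : List Bool), j = Encodable.encode (m, s) ∧ ∃ n ≤ s.length,
    s.length = max (l n) (max m n) ∧ ∀ i ≤ s.length, c (Encodable.encode (n, s.take i)) = false)

lemma N3b_Dop_iff (c : ℕ → Bool) (l : ℕ → ℕ) (m : ℕ) (s : List Bool) :
    Dop c l (Encodable.encode (m, s)) = true ↔ ∃ n ≤ s.length,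
      s.length = max (l n) (max m n) ∧ ∀ i ≤ s.length,
        c (Encodable.encode (n, s.take i)) = false := by
  classical
  unfold Dop
  rw [decide_eq_true_iff]
  constructor
  · rintro ⟨m', s', h, h'⟩
    have h1 := Encodable.encode_injective h
    rw [Prod.mk.injEq] at h1
    obtain ⟨rfl, rfl⟩ := h1
    exact h'
  · intro h
    exact ⟨m, s, rfl, h⟩

lemma gd_Dop (c : ℕ → Bool) (l : ℕ → ℕ) (v : ℕ → Bool) : Gd (Dop c l) v ↔ ¬ EvB c l v := by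
  constructor
  · rintro h ⟨m, hm⟩
    obtain ⟨s, hs, hs'⟩ := h m
    obtain ⟨n, hn, h1, h2⟩ := (N3b_Dop_iff c l m s).1 hs
    obtain ⟨i, hi, h3⟩ := hm n
    have h4 : i ≤ s.length := by
      rw [h1]
      exact hi
    have h5 := h2 i h4
    have h6 : s.take i = pre v i := by
      rw [hs']
      exact take_pre v h4
    rw [h6, h3] at h5
    exact Bool.noConfusion h5
  · intro h m
    unfold EvB at h
    push Not at h
    obtain ⟨n, hn⟩ := h m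
    refine ⟨pre v (max (l n) (max m n)), ?_, by rw [length_pre]⟩
    rw [N3b_Dop_iff]
    refine ⟨n, ?_, by rw [length_pre], ?_⟩
    · rw [length_pre]
      exact le_trans (le_max_right m n) (le_max_right _ _)
    · intro i hi
      rw [length_pre] at hi
      rw [take_pre v hi]
      exact Bool.eq_false_iff.2 (hn i hi)

/-- `Dop` is continuous: each digit depends on finitely many digits. -/
lemma Dop_cont (c : ℕ → Bool) (l : ℕ → ℕ) (j : ℕ) : ∃ N, ∀ c' l', (∀ i < N, c' i = c i) →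
    (∀ i < N, l' i = l i) → Dop c' l' j = Dop c l j := by
  by_cases hj : ∃ (m : ℕ) (s : List Bool), j = Encodable.encode (m, s)
  · obtain ⟨m, s, rfl⟩ := hj
    refine ⟨(∑ n ∈ Finset.range (s.length + 1), ∑ i ∈ Finset.range (s.length + 1),
      (Encodable.encode (n, s.take i) + 1)) + (s.length + 1), fun c' l' hc hl => ?_⟩
    have hc1 : ∀ n ≤ s.length, ∀ i ≤ s.length,
        c' (Encodable.encode (n, s.take i)) = c (Encodable.encode (n, s.take i)) := by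
      intro n hn i hi
      apply hc
      have h1 : Encodable.encode (n, s.take i) + 1 ≤
          ∑ i ∈ Finset.range (s.length + 1), (Encodable.encode (n, s.take i) + 1) :=
        Finset.single_le_sum (f := fun i => Encodable.encode (n, s.take i) + 1)
          (fun _ _ => Nat.zero_le _) (Finset.mem_range.2 (Nat.lt_succ_of_le hi))
      have h2 : (∑ i ∈ Finset.range (s.length + 1), (Encodable.encode (n, s.take i) + 1)) ≤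
          ∑ n ∈ Finset.range (s.length + 1), ∑ i ∈ Finset.range (s.length + 1),
            (Encodable.encode (n, s.take i) + 1) :=
        Finset.single_le_sum (f := fun n => ∑ i ∈ Finset.range (s.length + 1),
            (Encodable.encode (n, s.take i) + 1))
          (fun _ _ => Nat.zero_le _) (Finset.mem_range.2 (Nat.lt_succ_of_le hn))
      omega
    have hl1 : ∀ n ≤ s.length, l' n = l n := by
      intro n hn
      apply hl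
      omega
    rw [Bool.eq_iff_iff, N3b_Dop_iff, N3b_Dop_iff]
    constructor
    · rintro ⟨n, hn, h1, h2⟩
      refine ⟨n, hn, by rw [← hl1 n hn]; exact h1, fun i hi => ?_⟩
      rw [← hc1 n hn i hi]
      exact h2 i hi
    · rintro ⟨n, hn, h1, h2⟩
      refine ⟨n, hn, by rw [hl1 n hn]; exact h1, fun i hi => ?_⟩
      rw [hc1 n hn i hi]
      exact h2 i hi
  · refine ⟨0, fun c' l' _ _ => ?_⟩
    have h0 : ∀ c l, Dop c l j = false := by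
      intro c l
      classical
      unfold Dop
      rw [decide_eq_false_iff_not]
      rintro ⟨m, s, h, -⟩
      exact hj ⟨m, s, h⟩
    rw [h0, h0]

lemma cts_enc {δ : Λ} {ψ φ : Om Λ → ℕ → Bool} (hψ : CC (Iio δ) ψ) (hφ : CC (Iio δ) φ) :
    ∃ B ⊆ Iio δ, B.Countable ∧
      ∀ n i : ℕ, Cts B (fun v => ψ v (Encodable.encode (n, pre (φ v) i))) := by
  obtain ⟨A, hA, hAc, hψ⟩ := hψ
  obtain ⟨A', hA', hAc', hφ⟩ := hφ
  refine ⟨A ∪ A', union_subset hA hA', hAc.union hAc', fun n i => ?_⟩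
  have h1 : Cts (A ∪ A') (fun v => pre (φ v) i) :=
    Cts.pre φ i fun j _ => (hφ j).mono subset_union_right
  exact h1.bind (g := fun (s : List Bool) v => ψ v (Encodable.encode (n, s)))
    fun s => (hψ _).mono subset_union_left

/-- The V-side of the bounded case. -/
theorem sigma_dense {δ : Λ} {p : Om Λ → Om Λ} (hp : Lav univ p) {ψ φ : Om Λ → ℕ → Bool}
    (hψ : CC (Iio δ) ψ) (hφ : CC (Iio δ) φ) :
    ∃ e, Lav univ e ∧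
      ((∃ n : ℕ, ∀ u i, ψ (e u) (Encodable.encode (n, pre (φ (e u)) i)) = false) ∨
        ∃ m : ℕ, ∀ (n : ℕ) u, ∃ i ≤ max (p (e u) δ n) (max m n),
          ψ (e u) (Encodable.encode (n, pre (φ (e u)) i)) = true) := by
  classical
  by_cases hcase : ∃ e, Lav (Iio δ) e ∧
      ∃ n : ℕ, ∀ u i, ψ (e u) (Encodable.encode (n, pre (φ (e u)) i)) = false
  · obtain ⟨e, he, h⟩ := hcase
    exact ⟨e, he.univ, Or.inl h⟩
  push Not at hcase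
  set D : ℕ → Set (Om Λ → Om Λ) := fun n =>
    {e | Lav (Iio δ) e ∧ ∃ i : ℕ, ∀ u, ψ (e u) (Encodable.encode (n, pre (φ (e u)) i)) = true}
    with hD
  have hdense : ∀ n, Dense' (Iio δ) (D n) := by
    intro n
    refine ⟨?_, ?_⟩
    · rintro g ⟨hg, i, hi⟩ e he
      exact ⟨hg.comp he, i, fun u => hi (e u)⟩
    · intro h hh
      obtain ⟨u, i, hi⟩ := hcase h hh n
      obtain ⟨B, hB, _, hc⟩ := cts_enc (hψ.comp_lt hh) (hφ.comp_lt hh)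
      obtain ⟨ℓ, h1, h2⟩ := hc n i u
      have h1' : ∀ γ, ℓ γ ≠ 0 → γ ∈ Iio δ := fun γ hγ => hB (h1 γ hγ)
      refine ⟨ins u ℓ, Lav.ins u h1', hh.comp (Lav.ins u h1'), i, fun v => ?_⟩
      have h3 := h2 (ins u ℓ v) (ag_ins u v ℓ)
      have h4 : ψ (h u) (Encodable.encode (n, pre (φ (h u)) i)) = true := by
        simpa using hi
      exact h3.trans h4
  obtain ⟨k, hk, -, hbar⟩ := tt (Iio δ) ∅ (by simp) D hdense
  have hex : ∀ u (n : ℕ), ∃ i : ℕ, ψ (k u) (Encodable.encode (n, pre (φ (k u)) i)) = true := by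
    intro u n
    obtain ⟨A, -, -, hu⟩ := hbar n
    obtain ⟨ℓ, -, h2⟩ := hu u
    obtain ⟨-, i, hi⟩ := h2
    refine ⟨i, ?_⟩
    have h3 := hi (strip ℓ u)
    simp only [Function.comp_apply, ins_strip (Ag.refl ℓ u)] at h3
    exact h3
  obtain ⟨B, hB, hBc, hc⟩ := cts_enc (hψ.comp_lt hk) (hφ.comp_lt hk)
  set θ : Om Λ → ℕ → ℕ := fun u (n : ℕ) =>
    sInf {i | ψ (k u) (Encodable.encode (n, pre (φ (k u)) i)) = true} with hθ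
  have hθs : ∀ u (n : ℕ), ψ (k u) (Encodable.encode (n, pre (φ (k u)) (θ u n))) = true :=
    fun u n => Nat.sInf_mem (hex u n)
  have hθc : ∀ n, Cts B (fun u => θ u n) := by
    intro n
    exact Cts.find (fun i u => ψ (k u) (Encodable.encode (n, pre (φ (k u)) i)) = true)
      (fun i => (hc n i).map (fun b => b = true)) (fun u => hex u n)
  obtain ⟨e', he', hbel, hdom⟩ := domination (hp.comp hk.univ) δ θ ⟨B, hB, hBc, hθc⟩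
  have hL : Lav univ ((p ∘ k) ∘ e') := (hp.comp hk.univ).comp he'
  obtain ⟨A, -, hA⟩ := hL
  set u₀ : Om Λ := fun _ _ => 0 with hu₀
  set M : ℕ := stem ((p ∘ k) ∘ e') δ u₀ with hM
  obtain ⟨ℓ₁, h1, h2⟩ := (hA.ctc' δ) u₀
  obtain ⟨ℓ₂, h3, h4⟩ := Cts.finset (α := ℕ) (A := B) (Finset.range M) (fun n u => θ u n)
    (fun n _ => hθc n) u₀
  have hag : ∀ w, Ag (ℓ₁ ⊔ ℓ₂) u₀ w → Ag ℓ₁ u₀ w ∧ Ag ℓ₂ u₀ w := fun w hw =>
    ⟨hw.mono fun γ => by simp [Finsupp.sup_apply], hw.mono fun γ => by simp [Finsupp.sup_apply]⟩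
  have hins : Lav univ (ins u₀ (ℓ₁ ⊔ ℓ₂)) := Lav.ins u₀ fun _ _ => mem_univ _
  refine ⟨k ∘ e' ∘ ins u₀ (ℓ₁ ⊔ ℓ₂), hk.univ.comp (he'.comp hins), Or.inr
    ⟨(Finset.range M).sup (θ u₀), fun n u => ?_⟩⟩
  set w := ins u₀ (ℓ₁ ⊔ ℓ₂) u with hw
  obtain ⟨hag1, hag2⟩ := hag w (ag_ins u₀ u (ℓ₁ ⊔ ℓ₂))
  refine ⟨θ (e' w) n, ?_, hθs (e' w) n⟩
  have h5 : θ (e' w) n = θ w n := (hθc n).eq_of fun γ hγ => hbel w γ (hB hγ)
  rw [h5]
  by_cases hn : n < M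
  · have h6 : θ w n = θ u₀ n := h4 w hag2 n (Finset.mem_range.2 hn)
    rw [h6]
    exact le_max_of_le_right (le_max_of_le_left
      (Finset.le_sup (f := θ u₀) (Finset.mem_range.2 hn)))
  · have h7 : stem ((p ∘ k) ∘ e') δ w = M := h2 w hag1
    exact le_max_of_le_left (hdom w n (by rw [h7]; exact not_lt.1 hn))

/-! ### The relation `X` -/

/-- `φ` is, below `h`, a local name for the real `hxZ b x` of some element `x` of `E`. -/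
def XR (ε β : Name (PL Λ)) (h : Om Λ → Om Λ) (φ : Om Λ → ℕ → Bool) : Prop :=
  ∃ ξ : Name (PL Λ), Name.fmem ξ ε (mkp h) ∧ Loc (Sb β ξ) h φ

lemma XR.comp {ε β : Name (PL Λ)} {h e : Om Λ → Om Λ} {φ : Om Λ → ℕ → Bool}
    (hx : XR ε β h φ) (hh : Lav univ h) (he : Lav univ e) : XR ε β (h ∘ e) (φ ∘ e) := by
  obtain ⟨ξ, h1, h2⟩ := hx
  exact ⟨ξ, Name.fmem_mono h1 (mkp_le hh he), h2.comp he⟩

/-- The bounded alternative. -/
def Bd (ε β : Name (PL Λ)) (h : Om Λ → Om Λ) (δ : Λ) : Prop :=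
  ∀ e φ, Lav univ e → CC univ φ → XR ε β (h ∘ e) φ → ¬ NC δ φ

/-- The unbounded alternative. -/
def Kn (ε β : Name (PL Λ)) (h : Om Λ → Om Λ) (c : Om Λ → ℕ → Bool) : Prop :=
  CC univ c ∧ ∀ e ρ, Lav univ e → CC univ ρ → ∃ e' φ, Lav univ e' ∧ CC univ φ ∧
    XR ε β (h ∘ e ∘ e') φ ∧ ∀ u, GR (c (e (e' u))) (φ u) (ρ (e' u))

/-- The dichotomy is dense. -/
theorem dicho (hB : CBdd Λ) (hC : Closing Λ) (ε β : Name (PL Λ)) (h : Om Λ → Om Λ)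
    (hh : Lav univ h) : ∃ e, Lav univ e ∧ ((∃ δ, Bd ε β (h ∘ e) δ) ∨ ∃ c, Kn ε β (h ∘ e) c) := by
  by_cases hcase : ∃ e, Lav univ e ∧ ∃ δ, Bd ε β (h ∘ e) δ
  · obtain ⟨e, he, h1⟩ := hcase
    exact ⟨e, he, Or.inl h1⟩
  · push Not at hcase
    obtain ⟨k, c, hk, hc, hKn⟩ := KT hB hC (fun g φ => XR ε β (h ∘ g) φ)
      (fun g φ e hg _ he hX => XR.comp hX (hh.comp hg) he) (fun g δ hg => by
        have h1 := hcase g hg δ
        unfold Bd at h1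
        push Not at h1
        obtain ⟨e, φ, he, hφ, hX, hN⟩ := h1
        exact ⟨e, φ, he, hφ, hX, hN⟩)
    exact ⟨k, hk, Or.inr ⟨c, hc, fun e ρ he hρ => hKn e ρ he hρ⟩⟩

/-- The dichotomy in the hull. -/
theorem Ev.dicho (hB : CBdd Λ) (hC : Closing Λ) : Ev (P := PL Λ) (fun U H =>
    ∀ ε ∈ U, ∀ β ∈ U,
      (∃ (h : Om Λ → Om Λ) (δ : Λ), Lav univ h ∧ mkp h ∈ H ∧ tN (P := PL Λ) (h, δ) ∈ U ∧
        Bd ε β h δ) ∨
      ∃ (h : Om Λ → Om Λ) (c : Om Λ → ℕ → Bool), Lav univ h ∧ mkp h ∈ H ∧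
        tN (P := PL Λ) (h, c) ∈ U ∧ Kn ε β h c) := by
  have t1 := Pool.LV.Ev.genT (P := PL Λ) (T := Unit) (T' := (Om Λ → Om Λ) × Λ) 2
    (fun _ v q t' => Lav univ t'.1 ∧ q = mkp t'.1 ∧ Bd (v 0) (v 1) t'.1 t'.2)
  have t2 := Pool.LV.Ev.genT (P := PL Λ) (T := Unit)
    (T' := (Om Λ → Om Λ) × (Om Λ → ℕ → Bool)) 2
    (fun _ v q t' => Lav univ t'.1 ∧ q = mkp t'.1 ∧ Kn (v 0) (v 1) t'.1 t'.2)
  have t3 := Pool.LV.Ev.seed (P := PL Λ) (T := Unit) ()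
  refine ((Pool.PC.Ev.filt.and t3).and (t1.and t2)).mono ?_
  rintro U H ⟨⟨⟨-, hH⟩, h0⟩, h1, h2⟩ ε hε β hβ
  have hv : ∀ i, (![ε, β] : Fin 2 → Name (PL Λ)) i ∈ U := by
    intro i
    fin_cases i
    · exact hε
    · exact hβ
  rcases h1 () h0 ![ε, β] hv with ⟨q, hq, ⟨h, δ⟩, hU, hh, rfl, hBd⟩ | ⟨p, hp, hn⟩
  · exact Or.inl ⟨h, δ, hh, hq, hU, hBd⟩
  rcases h2 () h0 ![ε, β] hv with ⟨q, hq, ⟨h, c⟩, hU, hh, rfl, hKn⟩ | ⟨p', hp', hn'⟩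
  · exact Or.inr ⟨h, c, hh, hq, hU, hKn⟩
  exfalso
  obtain ⟨r, hr, hrp, hrp'⟩ := hH.dir p hp p' hp'
  obtain ⟨e, he, hd⟩ := Pool.LV.dicho hB hC ε β (fn r) (lav_fn r)
  have hle : mkp (fn r ∘ e) ≤ r := by
    have := mkp_le (lav_fn r) he
    rwa [mkp_fn] at this
  rcases hd with ⟨δ, hδ⟩ | ⟨c, hc⟩
  · exact hn _ (le_trans hle hrp) (fn r ∘ e, δ) ⟨(lav_fn r).comp he, rfl, hδ⟩
  · exact hn' _ (le_trans hle hrp') (fn r ∘ e, c) ⟨(lav_fn r).comp he, rfl, hc⟩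

/-- small objects -/
abbrev HC (Λ : Type) := (Om Λ → Om Λ) × (Om Λ → ℕ → Bool)

/-- small objects -/
abbrev HER (Λ : Type) := (Om Λ → Om Λ) × (Om Λ → Om Λ) × (Om Λ → ℕ → Bool)

/-- the relation of the task -/
def N3e_R (t : HC Λ × HER Λ) (v : Fin 2 → Name (PL Λ)) (q : PL Λ) (t' : HC Λ)
    (ξ : Name (PL Λ)) : Prop :=
  Lav univ t'.1 ∧ CC univ t'.2 ∧ q = mkp (t.1.1 ∘ t.2.2.1 ∘ t'.1) ∧ Name.fmem ξ (v 0) q ∧
    Loc (Sb (v 1) ξ) (t.1.1 ∘ t.2.2.1 ∘ t'.1) t'.2 ∧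
    ∀ u, GR (t.1.2 (t.2.2.1 (t'.1 u))) (t'.2 u) (t.2.2.2 (t'.1 u))

/-- The unbounded alternative gives the second alternative of H*. -/
theorem Ev.onto : Ev (P := PL Λ) (fun U H => ∀ ε ∈ U, ∀ β ∈ U,
    ∀ (h : Om Λ → Om Λ) (c : Om Λ → ℕ → Bool), Lav univ h → mkp h ∈ H →
      tN (P := PL Λ) (h, c) ∈ U → Kn ε β h c →
        RealV (MM U H) (rv H h c) ∧ ∀ z, RealV (MM U H) z → ∃ x ∈ Name.val U H ε,
          GR (rv H h c) (hxZ (Name.val U H β) x) z) := by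
  refine (((Ev.base.and Ev.real).and (Ev.real_loc.and Ev.rd)).and
    ((Ev.hx.and Ev.gr_transfer).and ((Ev.genTN (P := PL Λ) 2 (N3e_R (Λ := Λ))).and
      ((Ev.pairT (P := PL Λ) (HC Λ) (HER Λ)).and ((Ev.pairT (P := PL Λ) (HC Λ × HER Λ) (HC Λ)).and
        ((Ev.opT (P := PL Λ) (fun t : HC Λ => t.1)).and
          ((Ev.opT (P := PL Λ) (fun t : (HC Λ × HER Λ) × HC Λ =>
            ((t.1.1.1 ∘ t.1.2.2.1 ∘ t.2.1, t.2.2) : HC Λ))).and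
          (Ev.opT (P := PL Λ) (fun t : (HC Λ × HER Λ) × HC Λ =>
            (t.1.1.1 ∘ t.1.2.2.1 ∘ t.2.1, t.1.1.2 ∘ t.1.2.2.1 ∘ t.2.1, t.2.2,
              t.1.2.2.2 ∘ t.2.1)))))))))).mono ?_
  rintro U H ⟨⟨⟨hb, hreal⟩, hloc, hrd⟩, ⟨hhx, htr⟩, hgen, hp1, hp2, ho1, ho2, ho3⟩ ε hε β hβ h c hh hH
    hU hKn
  refine ⟨hreal h c hU hh hH hKn.1, fun z hz => ?_⟩
  have hhU : tN (P := PL Λ) h ∈ U := ho1 (h, c) hU
  obtain ⟨e, ρ, he, hρ, hH', hU1, hU2, rfl⟩ := hloc z hz h hhU hh hH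
  have hU3 : tN (P := PL Λ) (((h, c), (h, e, ρ)) : HC Λ × HER Λ) ∈ U := hp1 _ _ hU hU1
  rcases hgen _ hU3 ![ε, β] (Name.forall2 hε hβ) with
    ⟨q, hq, ⟨e₁, φ⟩, hU4, ξ, hξ, he₁, hφ, hqe, hf, hl, hG⟩ | ⟨p, hp, hn⟩
  · have hU5 := hp2 _ _ hU3 hU4
    have hq' : mkp (h ∘ e ∘ e₁) ∈ H := hqe ▸ hq
    have hhe : Lav univ (h ∘ e ∘ e₁) := hh.comp (he.comp he₁)
    refine ⟨Name.val U H ξ, (Name.val_mem_iff hb.full.at' hξ hε).2 ⟨q, hq, hf⟩, ?_⟩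
    rw [hhx β hβ ξ hξ (h ∘ e ∘ e₁) φ (ho2 _ hU5) hhe hq' hl]
    have h1 := htr (h ∘ e ∘ e₁) (c ∘ e ∘ e₁) φ (ρ ∘ e₁) (ho3 _ hU5) hhe hq'
      (hKn.1.comp (he.comp he₁)) hφ (hρ.comp he₁) hG
    have h2 : rv H (h ∘ e ∘ e₁) (c ∘ e ∘ e₁) = rv H h c :=
      rv_comp hb.filt hh (he.comp he₁) (hrd h c hU hh hH hKn.1) hq'
    have h3 : rv H (h ∘ e ∘ e₁) (ρ ∘ e₁) = rv H (h ∘ e) ρ :=
      rv_comp hb.filt (hh.comp he) he₁ (hrd (h ∘ e) ρ hU2 (hh.comp he) hH' hρ) hq'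
    rw [h2, h3] at h1
    exact h1
  · exfalso
    obtain ⟨r, hr, hrp, g, hg, hrg⟩ := hb.filt.dir p hp _ hH'
    change fn r = fn (mkp (h ∘ e)) ∘ g at hrg
    rw [fn_mkp (hh.comp he)] at hrg
    obtain ⟨e', φ, he', hφ, ⟨ξ, hf, hl⟩, hG⟩ := hKn.2 (e ∘ g) (ρ ∘ g) (he.comp hg) (hρ.comp hg)
    refine hn (mkp (h ∘ e ∘ (g ∘ e'))) ?_ (g ∘ e', φ) ξ ⟨hg.comp he', hφ, rfl, hf, hl, hG⟩
    refine le_trans ?_ hrp
    rw [← mkp_fn r]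
    have h1 : h ∘ e ∘ (g ∘ e') = fn r ∘ e' := by
      rw [hrg]
      rfl
    rw [h1]
    exact mkp_le (lav_fn r) he'

/-- Finitely many decided functions are decided simultaneously. -/
lemma n3f_fin {H : Set (PL Λ)} (hH : IsFilt H) {α : Type} [Inhabited α] {h : Om Λ → Om Λ}
    (hh : Lav univ h) (h0 : mkp h ∈ H) (C : ℕ → Om Λ → α) (hd : ∀ n, Dcd H h (C n)) (N : ℕ) :
    ∃ e, Lav univ e ∧ mkp (h ∘ e) ∈ H ∧ ∀ i < N, ∀ u, C i (e u) = vl H h (C i) := by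
  induction N with
  | zero => exact ⟨id, Lav.id _, h0, fun i hi => absurd hi (Nat.not_lt_zero i)⟩
  | succ N ih =>
    obtain ⟨e, he, heH, h1⟩ := ih
    obtain ⟨e', he', heH', h2⟩ := Dcd.vl_spec hH hh (hd N)
    obtain ⟨f, f', hf, hf', h3, h4⟩ := common hH hh he he' heH heH'
    refine ⟨e ∘ f, he.comp hf, h3, fun i hi u => ?_⟩
    rcases Nat.lt_succ_iff_lt_or_eq.1 hi with hlt | rfl
    · exact h1 i hlt (f u)
    · rw [h4]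
      exact h2 (f' u)

/-- The local name of the complementary code. -/
noncomputable def n3f_psd (t : (Om Λ → Om Λ) × (Om Λ → ℕ → Bool) × Λ) : Om Λ → ℕ → Bool :=
  fun u => Dop (t.2.1 u) (t.1 u t.2.2)

lemma n3f_cc {h : Om Λ → Om Λ} (hh : Lav univ h) {ψ : Om Λ → ℕ → Bool} (hψ : CC univ ψ) (δ : Λ) :
    CC univ (n3f_psd (h, ψ, δ)) := by
  obtain ⟨A, -, hA, h1⟩ := hψ
  obtain ⟨B, -, hB, h2⟩ := hh.cts
  refine ⟨A ∪ (insert δ B), subset_univ _, hA.union (hB.insert _), fun j u => ?_⟩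
  obtain ⟨N, hN⟩ := Dop_cont (ψ u) (h u δ) j
  obtain ⟨ℓ, hℓ, hℓ'⟩ := Cts.finset (A := A ∪ insert δ B) (Finset.range N) (fun i u => ψ u i)
    (fun i _ => (h1 i).mono subset_union_left) u
  obtain ⟨m, hm, hm'⟩ := Cts.finset (A := A ∪ insert δ B) (Finset.range N) (fun i u => h u δ i)
    (fun i _ => (h2 δ i).mono (inter_subset_left.trans subset_union_right)) u
  refine ⟨ℓ ⊔ m, fun γ hγ => ?_, fun v hv => ?_⟩
  · by_cases hz : ℓ γ = 0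
    · refine hm γ fun hz' => hγ ?_
      simp [hz, hz']
    · exact hℓ γ hz
  · have h3 := hℓ' v (hv.mono fun γ => by simp)
    have h4 := hm' v (hv.mono fun γ => by simp)
    exact hN (ψ v) (h v δ) (fun i hi => h3 i (Finset.mem_range.2 hi))
      (fun i hi => h4 i (Finset.mem_range.2 hi))

/-- The relation of the task. -/
def n3f_R (t : (Om Λ → Om Λ) × (Om Λ → ℕ → Bool) × Λ) (v : Fin 3 → Name (PL Λ)) (q : PL Λ)
    (t' : (Om Λ → Om Λ) × (Om Λ → ℕ → Bool)) : Prop :=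
  Lav univ t'.1 ∧ q = mkp (t.1 ∘ t'.1) ∧ Loc (Sb (v 1) (v 2)) (t.1 ∘ t'.1) t'.2 ∧
    ((∃ n : ℕ, ∀ u i, t.2.1 (t'.1 u) (Encodable.encode (n, pre (t'.2 u) i)) = false) ∨
      ∃ m : ℕ, ∀ (n : ℕ) u, ∃ i ≤ max (t.1 (t'.1 u) t.2.2 n) (max m n),
        t.2.1 (t'.1 u) (Encodable.encode (n, pre (t'.2 u) i)) = true)

/-- The relation is dense. -/
lemma n3f_dense {ε β ξ : Name (PL Λ)} {h e : Om Λ → Om Λ} {δ δ' : Λ} (hh : Lav univ h)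
    (he : Lav univ e) (hBd : Bd ε β h δ) (hδ : δ < δ') {ψ : Om Λ → ℕ → Bool}
    (hψ : CC (Iio δ') ψ) {r : PL Λ} (hr : r ≤ mkp (h ∘ e)) (hm : Name.fmem ξ ε r) :
    ∃ q ≤ r, ∃ t', n3f_R (h ∘ e, ψ, δ') ![ε, β, ξ] q t' := by
  have hhe : Lav univ (h ∘ e) := hh.comp he
  obtain ⟨f, hf, h1⟩ := le_iff.1 hr
  rw [fn_mkp hhe] at h1
  have hr' : r = mkp (h ∘ e ∘ f) := by
    rw [← mkp_fn r, h1]
    rfl
  subst hr'
  have hhf : Lav univ (h ∘ e ∘ f) := hh.comp (he.comp hf)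
  obtain ⟨k, φ, hk, hloc⟩ := exists_loc (Sb β ξ) (fun n p q hp hq => Name.fmem_mono hp hq)
    (fun n p hp => Name.fmem_reg hp) (h ∘ e ∘ f) hhf
  have hX : XR ε β (h ∘ (e ∘ f ∘ k)) φ := ⟨ξ, Name.fmem_mono hm (mkp_le hhf hk), hloc⟩
  have hN := hBd (e ∘ f ∘ k) φ (he.comp (hf.comp hk)) hloc.1 hX
  unfold NC at hN
  rw [not_not] at hN
  obtain ⟨q, hq, hcq⟩ := hN
  have hloc' := hloc.comp hq
  have hfk : Lav univ (f ∘ k ∘ q) := hf.comp (hk.comp hq)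
  obtain ⟨e₃, he₃, h2⟩ := sigma_dense (p := h ∘ e ∘ (f ∘ k ∘ q)) (hh.comp (he.comp hfk))
    (δ := δ') (ψ := ψ ∘ (f ∘ k ∘ q)) (φ := φ ∘ q) (hψ.comp_lt hfk)
    (hcq.mono (Iio_subset_Iio hδ.le))
  refine ⟨mkp (h ∘ e ∘ (f ∘ k ∘ q ∘ e₃)), ?_, (f ∘ k ∘ q ∘ e₃, φ ∘ q ∘ e₃), ?_, rfl, ?_, h2⟩
  · exact mkp_le hhf (hk.comp (hq.comp he₃))
  · exact hf.comp (hk.comp (hq.comp he₃))
  · exact hloc'.comp he₃

/-- The bounded alternative gives the first alternative of H*. -/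
theorem Ev.sigma (hB : CBdd Λ) : Ev (P := PL Λ) (fun U H => ∀ ε ∈ U, ∀ β ∈ U,
    ∀ (h : Om Λ → Om Λ) (δ : Λ), Lav univ h → mkp h ∈ H →
      tN (P := PL Λ) (h, δ) ∈ U → Bd ε β h δ →
        ∀ c, RealV (MM U H) c → ∃ d, RealV (MM U H) d ∧ ∀ x ∈ Name.val U H ε,
          (Gd c (hxZ (Name.val U H β) x) ↔ ¬ Gd d (hxZ (Name.val U H β) x))) := by
  classical
  -- the bound
  have hF : ∀ t : ((Om Λ → Om Λ) × (Om Λ → ℕ → Bool)) × Λ, ∃ δ' : Λ, CC univ t.1.2 →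
      t.2 < δ' ∧ CC (Iio δ') t.1.2 := by
    rintro ⟨⟨h, ψ⟩, δ⟩
    by_cases hψ : CC univ ψ
    · obtain ⟨A, -, hA, h1⟩ := hψ
      obtain ⟨δ', h2⟩ := hB (insert δ A) (hA.insert _)
      exact ⟨δ', fun _ => ⟨h2 (mem_insert _ _), A, (subset_insert _ _).trans h2, hA, h1⟩⟩
    · exact ⟨δ, fun h => absurd h hψ⟩
  choose F hF using hF
  have hEv := ((Ev.base (P := PL Λ)).and ((Ev.real_loc (Λ := Λ)).and ((Ev.rd (Λ := Λ)).and
    ((Ev.gr (Λ := Λ)).and ((Ev.real (Λ := Λ)).and (Ev.hx (Λ := Λ))))))).and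
    ((Ev.genT (P := PL Λ) 3 n3f_R).and
    ((Ev.opT (P := PL Λ) (Prod.fst : (Om Λ → Om Λ) × Λ → (Om Λ → Om Λ))).and
    ((Ev.opT (P := PL Λ) (Prod.snd : (Om Λ → Om Λ) × Λ → Λ)).and
    ((Ev.pairT (P := PL Λ) ((Om Λ → Om Λ) × (Om Λ → ℕ → Bool)) Λ).and
    ((Ev.opT (P := PL Λ) (fun t : ((Om Λ → Om Λ) × (Om Λ → ℕ → Bool)) × Λ =>
      (t.1.1, t.1.2, F t))).and
    ((Ev.opT (P := PL Λ) (fun t : (Om Λ → Om Λ) × (Om Λ → ℕ → Bool) × Λ => t.2.2)).and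
    ((Ev.opT (P := PL Λ) (fun t : (Om Λ → Om Λ) × (Om Λ → ℕ → Bool) × Λ =>
      (t.1, n3f_psd t))).and
    ((Ev.pairT (P := PL Λ) ((Om Λ → Om Λ) × (Om Λ → ℕ → Bool) × Λ)
      ((Om Λ → Om Λ) × (Om Λ → ℕ → Bool))).and
    (Ev.opT (P := PL Λ) (fun t : ((Om Λ → Om Λ) × (Om Λ → ℕ → Bool) × Λ) ×
      ((Om Λ → Om Λ) × (Om Λ → ℕ → Bool)) => (t.1.1 ∘ t.2.1, t.2.2)))))))))))
  refine hEv.mono ?_
  rintro U H ⟨⟨hBase, hreal, hrd, hgr, hrV, hhx⟩, hgen, ho1, ho2, hp1, ho3, ho4, ho5, hp2, ho6⟩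
    ε hε β hβ h δ hh hH hU hBd c hc
  have hFilt := hBase.filt
  obtain ⟨e, ψ, he, hψ, heH, -, heU, rfl⟩ := hreal c hc h (ho1 _ hU) hh hH
  have hδU : tN (P := PL Λ) δ ∈ U := ho2 _ hU
  have ht0 := hp1 _ _ heU hδU
  obtain ⟨hδ, hψ'⟩ := hF ((h ∘ e, ψ), δ) hψ
  have ht := ho3 _ ht0
  have hδ'U := ho4 _ ht
  have hdU := ho5 _ ht
  dsimp only at hδ hψ' ht hδ'U hdU
  set δ' : Λ := F ((h ∘ e, ψ), δ) with hδ'
  clear_value δ'
  set h₁ : Om Λ → Om Λ := h ∘ e with hh₁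
  have hh₁l : Lav univ h₁ := hh.comp he
  have hRD : RD H h₁ ψ := hrd h₁ ψ heU hh₁l heH hψ
  -- the generic real at `δ'`
  have hLd : ∀ n, Dcd H h₁ (fun u => h₁ u δ' n) := fun n =>
    Dcd.comp hFilt (h := id) (e := h₁) (Lav.id _) hh₁l (hgr δ' hδ'U n) heH
  set l : ℕ → ℕ := fun n => vl H h₁ (fun u => h₁ u δ' n) with hl
  have hψd : CC univ (n3f_psd (h₁, ψ, δ')) := n3f_cc hh₁l hψ δ'
  have hd : rv H h₁ (n3f_psd (h₁, ψ, δ')) = Dop (rv H h₁ ψ) l := by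
    funext j
    obtain ⟨N, hN⟩ := Dop_cont (rv H h₁ ψ) l j
    obtain ⟨e₁, he₁, he₁H, h1⟩ := n3f_fin hFilt hh₁l heH (fun n u => ψ u n) hRD N
    obtain ⟨e₂, he₂, he₂H, h2⟩ := n3f_fin hFilt hh₁l heH (fun n u => h₁ u δ' n) hLd N
    obtain ⟨f, f', hf, hf', h3, h4⟩ := common hFilt hh₁l he₁ he₂ he₁H he₂H
    refine vl_eq hFilt hh₁l (he₁.comp hf) h3 fun u => ?_
    refine hN (ψ ((e₁ ∘ f) u)) (h₁ ((e₁ ∘ f) u) δ') (fun i hi => h1 i hi (f u)) fun i hi => ?_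
    rw [h4]
    exact h2 i hi (f' u)
  refine ⟨rv H h₁ (n3f_psd (h₁, ψ, δ')), hrV h₁ _ hdU hh₁l heH hψd, fun x hx => ?_⟩
  rw [hd, gd_Dop, not_not]
  refine ⟨fun hG => ?_, EvB.gd⟩
  obtain ⟨k, hkU, -, rfl⟩ := Name.mem_val.1 hx
  set ξ : Name (PL Λ) := ε.A k with hξ
  clear_value ξ
  have hv : ∀ i, (![ε, β, ξ] : Fin 3 → Name (PL Λ)) i ∈ U := by
    intro i
    fin_cases i
    exacts [hε, hβ, hkU]
  rcases hgen _ ht ![ε, β, ξ] hv with ⟨q, hq, ⟨e₁, φ₁⟩, hqU, hR⟩ | ⟨p, hp, hno⟩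
  swap
  · exfalso
    obtain ⟨p₂, hp₂, hfm⟩ := (Name.val_mem_iff hBase.full.at' hkU hε).1 hx
    obtain ⟨r, hr, hr1, hr2, hr3⟩ := hFilt.dir3 hp hp₂ heH
    obtain ⟨q, hq, t', hR⟩ := n3f_dense hh he hBd hδ hψ' hr3 (Name.fmem_mono hfm hr2)
    exact hno q (hq.trans hr1) t' hR
  obtain ⟨he₁, rfl, hloc, hA⟩ := hR
  dsimp only at he₁ hloc hA hq
  change Loc (Sb β ξ) (h₁ ∘ e₁) φ₁ at hloc
  have hqU' := ho6 _ (hp2 _ _ ht hqU)
  dsimp only at hqU'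
  have hh₂ : Lav univ (h₁ ∘ e₁) := hh₁l.comp he₁
  have hval : hxZ (Name.val U H β) (Name.val U H ξ) = rv H (h₁ ∘ e₁) φ₁ :=
    hhx β hβ ξ hkU (h₁ ∘ e₁) φ₁ hqU' hh₂ hq hloc
  rw [hval] at hG ⊢
  have hRφ : RD H (h₁ ∘ e₁) φ₁ := hrd _ _ hqU' hh₂ hq hloc.1
  have hRψ : RD H (h₁ ∘ e₁) (ψ ∘ e₁) := fun n =>
    Dcd.comp hFilt hh₁l he₁ (hRD n) hq
  have hcv : rv H (h₁ ∘ e₁) (ψ ∘ e₁) = rv H h₁ ψ := rv_comp hFilt hh₁l he₁ hRD hq
  rcases hA with ⟨n, hn⟩ | ⟨m, hm⟩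
  · exfalso
    obtain ⟨s, hs, hs'⟩ := hG n
    obtain ⟨hp1', hp2'⟩ := RD.pre hFilt hh₂ hRφ s.length
    obtain ⟨e₂, he₂, he₂H, h1⟩ := decide3 hFilt hh₂ hp1' (hRψ (Encodable.encode (n, s)))
      (hRψ (Encodable.encode (n, s)))
    obtain ⟨h2, h3, -⟩ := h1 (fun _ _ => 0)
    rw [hp2', ← hs'] at h2
    have h4 : vl H (h₁ ∘ e₁) (fun u => (ψ ∘ e₁) u (Encodable.encode (n, s))) =
        rv H h₁ ψ (Encodable.encode (n, s)) := by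
      rw [← hcv]
      rfl
    rw [h4, hs] at h3
    have h5 := hn (e₂ fun _ _ => 0) s.length
    rw [h2] at h5
    rw [show (ψ ∘ e₁) (e₂ fun _ _ => 0) (Encodable.encode (n, s)) =
      ψ (e₁ (e₂ fun _ _ => 0)) (Encodable.encode (n, s)) from rfl] at h3
    rw [h5] at h3
    exact absurd h3 (by decide)
  · refine ⟨m, fun n => ?_⟩
    set M := max (l n) (max m n) with hM
    obtain ⟨hp1', hp2'⟩ := RD.pre hFilt hh₂ hRφ M
    have hLn : Dcd H (h₁ ∘ e₁) ((fun u => h₁ u δ' n) ∘ e₁) :=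
      Dcd.comp hFilt hh₁l he₁ (hLd n) hq
    have hLv : vl H (h₁ ∘ e₁) ((fun u => h₁ u δ' n) ∘ e₁) = l n :=
      vl_comp hFilt hh₁l he₁ (hLd n) hq
    obtain ⟨e₂, he₂, he₂H, h1⟩ := decide3 hFilt hh₂ hp1' hLn hLn
    obtain ⟨e₃, he₃, he₃H, h2⟩ := n3f_fin hFilt hh₂ hq (fun i u => (ψ ∘ e₁) u
      (Encodable.encode (n, pre (rv H (h₁ ∘ e₁) φ₁) i))) (fun i => hRψ _) (M + 1)
    obtain ⟨f, f', hf, hf', h3, h4⟩ := common hFilt hh₂ he₂ he₃ he₂H he₃H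
    obtain ⟨h5, h6, -⟩ := h1 (f fun _ _ => 0)
    rw [hp2'] at h5
    rw [hLv] at h6
    obtain ⟨i, hi, h7⟩ := hm n (e₂ (f fun _ _ => 0))
    have h6' : h₁ (e₁ (e₂ (f fun _ _ => 0))) δ' n = l n := h6
    rw [h6', ← hM] at hi
    refine ⟨i, hi, ?_⟩
    have h8 : pre (φ₁ (e₂ (f fun _ _ => 0))) i = pre (rv H (h₁ ∘ e₁) φ₁) i := by
      rw [← take_pre _ hi, h5, take_pre _ hi]
    rw [h8] at h7
    have h9 := h2 i (Nat.lt_succ_of_le hi) (f' fun _ _ => 0)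
    have h10 : e₂ (f fun _ _ => 0) = e₃ (f' fun _ _ => 0) := congrFun h4 _
    rw [h10] at h7
    have h11 : vl H (h₁ ∘ e₁) (fun u => (ψ ∘ e₁) u
        (Encodable.encode (n, pre (rv H (h₁ ∘ e₁) φ₁) i))) =
        rv H h₁ ψ (Encodable.encode (n, pre (rv H (h₁ ∘ e₁) φ₁) i)) := by
      rw [← hcv]
      rfl
    rw [← h11, ← h9]
    exact h7

/-- H* holds in the extension. -/
theorem Ev.hstar (hB : CBdd Λ) (hC : Closing Λ) :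
    Ev (P := PL Λ) (fun U H => HStar (MM U H)) := by
  refine ((Ev.dicho hB hC).and (Ev.onto.and (Ev.sigma hB))).mono ?_
  rintro U H ⟨h1, h2, h3⟩ E hE b hb
  obtain ⟨ε, -, hε, rfl⟩ := hE
  obtain ⟨β, -, hβ, rfl⟩ := hb
  rcases h1 ε hε β hβ with ⟨h, δ, hh, hH, hU, hBd⟩ | ⟨h, c, hh, hH, hU, hKn⟩
  · exact Or.inl (h3 ε hε β hβ h δ hh hH hU hBd)
  · right
    obtain ⟨h4, h5⟩ := h2 ε hε β hβ h c hh hH hU hKn
    exact ⟨_, h4, h5⟩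

/-- THE MODEL -/
theorem exists_model (R : Set (ℕ → ℕ → Prop)) (hR : R.Countable) :
    ∃ V : Set ZFSet.{0}, V.Countable ∧ (∀ x ∈ V, ∀ y ∈ x, y ∈ V) ∧ ZFCModel V ∧ HStar V ∧
      ∀ r ∈ R, relZ r ∈ V := by
  obtain ⟨Λ, iL, iW, hB, hC, -⟩ := exists_index
  obtain ⟨U, H, hU, hH, -, ⟨⟨⟨q1, q2⟩, q3⟩, q4⟩⟩ :=
    (((Ev.zf (P := PL Λ)).and Ev.choice |>.and (Ev.hstar hB hC)).and
      (Ev.rels R hR)).exists_hull (mkp id)
  exact ⟨MM U H, MM_countable hU, fun x hx y hy => MM_trans hx hy, ⟨q1, q2⟩, q3, q4⟩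

end Pool.LV
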