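import Pool.Agent.Lib.MP_1c8600_lv.Fus

/-!
# Pure decision
-/

set_option autoImplicit false
set_option linter.unusedSectionVars false

open Set

namespace Pool.LV

variable {Λ : Type} [LinearOrder Λ] [WellFoundedLT Λ]

/-- The state of the fusion. -/
structure PSt (I : Set Λ) where
  π : Prot Λ
  f : Om Λ → Om Λ
  n : ℕ
  hπ : (↑π.F : Set Λ) ⊆ I
  hf : Lav I f

lemma barred_trans_left {I : Set Λ} {D : Set (Om Λ → Om Λ)} {g k : Om Λ → Om Λ}
    (h : Barred I {e | g ∘ e ∈ D} k) : Barred I D (g ∘ k) := by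
  obtain ⟨A, hA, hc, hu⟩ := h
  exact ⟨A, hA, hc, fun u => by obtain ⟨ℓ, h1, h2⟩ := hu u; exact ⟨ℓ, h1, h2⟩⟩

/-- One stage: all cells are treated. -/
lemma tt_stage {I : Set Λ} (h : PB I) {D : Set (Om Λ → Om Λ)} (hD : Dense' I D) {π : Prot Λ}
    (hπ : (↑π.F : Set Λ) ⊆ I) {f : Om Λ → Om Λ} (hf : Lav I f) :
    ∃ b, Lav I b ∧ π.Pres b ∧ Barred I D (f ∘ b) := by
  have H : ∀ b, Lav I b → π.Pres b → ∀ u₀ ∈ (univ : Set (Om Λ)),
      ∃ e, Lav I e ∧ Pure (↑π.F : Set Λ) e ∧ Barred I D (f ∘ b ∘ π.J u₀ ∘ e) := by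
    intro b hb hp u₀ _
    have hg : Lav I (f ∘ b ∘ π.J u₀) := hf.comp (hb.comp (π.lav_J hπ u₀))
    have hG : RI I {e | (f ∘ b ∘ π.J u₀) ∘ e ∈ D} := by
      intro g hg e he
      exact hD.1 _ hg e he
    rcases h π.F hπ _ hG with ⟨k, hk, hpk, hbk⟩ | ⟨k, hk, hpk, hno⟩
    · exact ⟨k, hk, hpk, barred_trans_left hbk⟩
    · exfalso
      obtain ⟨e, he, hmem⟩ := hD.2 _ (hg.comp hk)
      exact hno e he hmem
  obtain ⟨b, hb, hp, hQ, -⟩ := Prot.allcells (π := π) hπ f univ (fun _ g => Barred I D g)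
    (fun _ _ _ _ => mem_univ _) (fun _ _ _ _ hg => hg)
    (fun _ g e hg he _ => hg.comp hD.1 he) H
  exact ⟨b, hb, hp, Prot.barred_of_cells hπ hD.1 fun u₀ => hQ u₀ (mem_univ _)⟩

/-- (5.1) -/
theorem TT_of_PB {I : Set Λ} (h : PB I) : TT I := by
  intro F hF D hD
  obtain ⟨σ, b, k, h0, hS, hk, -⟩ := fusion (I := I) (St := PSt I) (fun σ => σ.π)
    (fun σ b σ' => Lav I b ∧ σ.π.Pres b ∧ Prot.LE σ.π σ'.π ∧ Barred I (D σ.n) (σ.f ∘ b) ∧
      σ'.f = σ.f ∘ b ∧ σ'.n = σ.n + 1)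
    (fun σ => σ.hπ) (fun σ b σ' hs => ⟨hs.1, hs.2.1, hs.2.2.1⟩)
    (fun σ γ hγ t => by
      obtain ⟨b, hb, hp, hB⟩ := tt_stage h (hD σ.n) σ.hπ σ.hf
      have hF' : (↑(σ.π.add γ t).F : Set Λ) ⊆ I := by
        by_cases hγ' : γ ∈ σ.π.F
        · rw [Prot.add_F_old hγ']
          exact σ.hπ
        · rw [Prot.add_F_new hγ', Finset.coe_insert]
          exact insert_subset hγ σ.hπ
      exact ⟨b, ⟨σ.π.add γ t, σ.f ∘ b, σ.n + 1, hF', σ.hf.comp hb⟩,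
        ⟨hb, hp, Prot.le_add _ _ _, hB, rfl, rfl⟩, Prot.served_add _ _ _⟩)
    (fun σ => by
      obtain ⟨b, hb, hp, hB⟩ := tt_stage h (hD σ.n) σ.hπ σ.hf
      exact ⟨b, ⟨σ.π, σ.f ∘ b, σ.n + 1, σ.hπ, σ.hf.comp hb⟩,
        ⟨hb, hp, Prot.LE.refl _, hB, rfl, rfl⟩⟩)
    (⟨Prot.bare F, id, 0, hF, Lav.id I⟩ : PSt I)
  have hn : ∀ n, (σ n).n = n := by
    intro n
    induction n with
    | zero => rw [h0]
    | succ n ih => rw [(hS n).2.2.2.2.2, ih]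
  have hf : ∀ n, (σ n).f = comps b 0 n := by
    intro n
    induction n with
    | zero => rw [h0]; rfl
    | succ n ih =>
      rw [(hS n).2.2.2.2.1, ih]
      show _ = comps b 0 n ∘ b (0 + n)
      rw [Nat.zero_add]
  refine ⟨k 0, (hk 0).1, ?_, fun n => ?_⟩
  · have := (hk 0).2.1
    rw [h0] at this
    exact Prot.pres_bare.1 this
  · have h1 : k 0 = ((σ n).f ∘ b n) ∘ k (n + 1) := by
      rw [comps_zero_comp (fun m => (hk m).2.2) n, ← hf n, (hk n).2.2]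
      rfl
    rw [h1]
    have h2 := (hS n).2.2.2.1
    rw [hn n] at h2
    exact h2.comp (hD n).1 (hk (n + 1)).1

section step

variable {I : Set Λ} {γ : Λ} {G : Set (Om Λ → Om Λ)}

/-- strongly bad -/
def SB (I : Set Λ) (γ : Λ) (G : Set (Om Λ → Om Λ)) (f : Om Λ → Om Λ) : Prop :=
  ∀ e, Lav I e → (∀ u, stem e γ u = 0) → ¬ Barred I G (f ∘ e)

/-- Step 0. -/
theorem step0 (hγ : γ ∈ I) (hG : RI I G) (hPB : PB (I ∩ Iio γ)) (F : Finset Λ)
    (hF : (↑F : Set Λ) ⊆ I ∩ Iio γ) :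
    (∃ k, Lav I k ∧ Pure (insert γ ↑F) k ∧ Barred I G k) ∨
      ∃ k₀, Lav (I ∩ Iio γ) k₀ ∧ Pure (insert γ ↑F) k₀ ∧ SB I γ G k₀ := by
  have hnot : γ ∉ I ∩ Iio γ := fun h => lt_irrefl γ h.2
  set G0 : Set (Om Λ → Om Λ) := {h | ∃ e, Lav I e ∧ (∀ v, Bel γ (h v) (e v)) ∧
    (∀ v, stem e γ v = 0) ∧ Barred I G e} with hG0
  have hRI : RI (I ∩ Iio γ) G0 := by
    rintro g ⟨e, he, hbel, hst, hbar⟩ q hq
    have hqI : Lav I q := hq.mono inter_subset_left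
    refine ⟨e ∘ q, he.comp hqI, fun v => hbel (q v), fun v => ?_, hbar.comp hG hqI⟩
    rw [he.stem_comp hq, hst, hq.stem_off hnot]
  rcases hPB F hF G0 hRI with ⟨k₀, hk₀, hp₀, A, hA, hc, hbar⟩ | ⟨k₀, hk₀, hp₀, hno⟩
  · left
    have hℓγ : ∀ ℓ : Λ →₀ ℕ, (∀ ξ, ℓ ξ ≠ 0 → ξ ∈ A) → ℓ γ = 0 := fun ℓ hℓ => by
      by_contra h
      exact hnot (hA (hℓ γ h))
    have hins : ∀ (u : Om Λ) (ℓ : Λ →₀ ℕ), (∀ ξ, ℓ ξ ≠ 0 → ξ ∈ A) → Lav I (ins u ℓ) :=
      fun u ℓ hℓ => Lav.ins u fun ξ hξ => (hA (hℓ ξ hξ)).1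
    obtain ⟨k, hk, hkb, hkQ⟩ := glue1 hA hc hk₀
      (fun _ e => (∀ v, stem e γ v = 0) ∧ Barred I G e)
      (fun j e he hQ u ℓ hℓ => ⟨fun v => by
        rw [he.stem_comp (hins u ℓ hℓ), hQ.1, stem_ins, hℓγ ℓ hℓ], hQ.2.comp hG (hins u ℓ hℓ)⟩)
      (fun u => by
        obtain ⟨ℓ, hℓ, e, he, hbel, hst, hb⟩ := hbar u
        exact ⟨ℓ, hℓ, e, he, hbel, hst, hb⟩)
    refine ⟨k, hk, ?_, ?_⟩
    · intro ξ hξ u
      rcases hξ with rfl | hξ
      · obtain ⟨ℓ, hℓ, hQ⟩ := hkQ u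
        exact stem_of_local hk (hℓγ ℓ hℓ) hQ.1
      · have hξγ : ξ < γ := (hF hξ).2
        have h1 : stem k ξ u = stem k₀ ξ u := by
          unfold stem
          congr 1
          ext i
          constructor
          · rintro ⟨v, hv, hne⟩
            refine ⟨v, hv, ?_⟩
            rw [← hkb v ξ hξγ, ← hkb u ξ hξγ]
            exact hne
          · rintro ⟨v, hv, hne⟩
            refine ⟨v, hv, ?_⟩
            rw [hkb v ξ hξγ, hkb u ξ hξγ]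
            exact hne
        rw [h1]
        exact hp₀ ξ hξ u
    · refine Barred.trans (hA.trans inter_subset_left) hc hG (fun u => ?_)
      obtain ⟨ℓ, hℓ, hQ⟩ := hkQ u
      exact ⟨ℓ, hℓ, hQ.2⟩
  · right
    refine ⟨k₀, hk₀, ?_, ?_⟩
    · intro ξ hξ u
      rcases hξ with rfl | hξ
      · exact hk₀.stem_off hnot u
      · exact hp₀ ξ hξ u
    · intro e he hst hbar
      refine hno (res γ e) (he.res γ) ⟨k₀ ∘ e, (hk₀.mono inter_subset_left).comp he,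
        fun v => ?_, fun v => ?_, hbar⟩
      · refine hk₀.bel (fun ξ hξ => ?_)
        simp [res, hξ]
      · rw [hk₀.stem_comp he, hk₀.stem_off hnot, hst]

/-- The right ideals used in step 1. -/
def Gm (I : Set Λ) (γ : Λ) (G : Set (Om Λ → Om Λ)) (f : Om Λ → Om Λ) (m : ℕ) :
    Set (Om Λ → Om Λ) :=
  {h | ∃ e, Lav I e ∧ (∀ v, Bel γ (h v) (e v)) ∧ (∀ v, stem e γ v = 1) ∧ (∀ v, e v γ 0 = m) ∧
    Barred I G (f ∘ e)}

lemma ri_Gm (hG : RI I G) (f : Om Λ → Om Λ) (m : ℕ) : RI (I ∩ Iio γ) (Gm I γ G f m) := by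
  rintro g ⟨e₀, he₀, hb, hs, h0, hbar⟩ e he
  have he' : Lav I e := he.mono inter_subset_left
  refine ⟨e₀ ∘ e, he₀.comp he', fun v => hb (e v), fun v => ?_, fun v => h0 (e v), ?_⟩
  · rw [he₀.stem_comp he', hs, he.stem_off (fun h => lt_irrefl γ h.2)]
  · exact hbar.comp hG he'

/-- The decision of `Gm`: there is `h` for which membership is decided continuously. -/
theorem step1_decide (hG : RI I G) (f : Om Λ → Om Λ) (hT : TT (I ∩ Iio γ)) (F : Finset Λ)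
    (hF : (↑F : Set Λ) ⊆ I ∩ Iio γ) :
    ∃ (h : Om Λ → Om Λ) (Z : ℕ → Om Λ → Prop) (A : Set Λ), Lav (I ∩ Iio γ) h ∧ Pure ↑F h ∧
      A ⊆ I ∩ Iio γ ∧ A.Countable ∧ (∀ m, Cts A (Z m)) ∧
      (∀ m u, Z m u → ∃ ℓ : Λ →₀ ℕ, (∀ ξ, ℓ ξ ≠ 0 → ξ ∈ A) ∧ h ∘ ins u ℓ ∈ Gm I γ G f m) ∧
      (∀ m u, ¬ Z m u → ∃ ℓ : Λ →₀ ℕ, (∀ ξ, ℓ ξ ≠ 0 → ξ ∈ A) ∧
        ∀ e, Lav (I ∩ Iio γ) e → h ∘ ins u ℓ ∘ e ∉ Gm I γ G f m) := by
  have hri : ∀ m, RI (I ∩ Iio γ) (Gm I γ G f m) := fun m => ri_Gm hG f m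
  have hD : ∀ m, Dense' (I ∩ Iio γ)
      (Gm I γ G f m ∪ {h | ∀ e, Lav (I ∩ Iio γ) e → h ∘ e ∉ Gm I γ G f m}) := by
    intro m
    constructor
    · rintro g (hg | hg) e he
      · exact Or.inl (hri m g hg e he)
      · exact Or.inr fun e' he' => hg (e ∘ e') (he.comp he')
    · intro h hh
      by_cases hex : ∃ e, Lav (I ∩ Iio γ) e ∧ h ∘ e ∈ Gm I γ G f m
      · obtain ⟨e, he, hm⟩ := hex
        exact ⟨e, he, Or.inl hm⟩
      · exact ⟨id, Lav.id _, Or.inr fun e he hm => hex ⟨e, he, hm⟩⟩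
  obtain ⟨k, hk, hp, hbar⟩ := hT F hF _ hD
  choose B hB hBc hBu using hbar
  have hBA : ∀ m, B m ⊆ ⋃ m, B m := fun m => subset_iUnion B m
  have hA : (⋃ m, B m) ⊆ I ∩ Iio γ := iUnion_subset hB
  have key : ∀ (m : ℕ) (u v : Om Λ) (ℓ : Λ →₀ ℕ), (∀ ξ, ℓ ξ ≠ 0 → ξ ∈ ⋃ m, B m) →
      (∀ e, Lav (I ∩ Iio γ) e → (k ∘ ins u ℓ) ∘ e ∉ Gm I γ G f m) → Ag ℓ u v →
      ¬ ∃ ℓ' : Λ →₀ ℕ, (∀ ξ, ℓ' ξ ≠ 0 → ξ ∈ ⋃ m, B m) ∧ k ∘ ins v ℓ' ∈ Gm I γ G f m := by
    rintro m u v ℓ hℓ hno huv ⟨ℓ', hℓ', hmem⟩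
    have hsum : ∀ ξ, (ℓ + ℓ') ξ ≠ 0 → ξ ∈ I ∩ Iio γ := by
      intro ξ hξ
      rw [Finsupp.add_apply] at hξ
      by_cases h0 : ℓ ξ = 0
      · exact hA (hℓ' ξ (by omega))
      · exact hA (hℓ ξ h0)
    have e1 : ins v (ℓ + ℓ') = ins u ℓ ∘ ins (strip ℓ v) (ℓ + ℓ' - ℓ) :=
      ins_factor huv (fun ξ => by rw [Finsupp.add_apply]; omega)
    have e2 : ins v (ℓ + ℓ') = ins v ℓ' ∘ ins (strip ℓ' v) (ℓ + ℓ' - ℓ') :=
      ins_factor (Ag.refl ℓ' v) (fun ξ => by rw [Finsupp.add_apply]; omega)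
    have l1 : Lav (I ∩ Iio γ) (ins (strip ℓ v) (ℓ + ℓ' - ℓ)) := Lav.ins _ fun ξ hξ => by
      apply hsum
      rw [Finsupp.coe_tsub, Pi.sub_apply] at hξ
      omega
    have l2 : Lav (I ∩ Iio γ) (ins (strip ℓ' v) (ℓ + ℓ' - ℓ')) := Lav.ins _ fun ξ hξ => by
      apply hsum
      rw [Finsupp.coe_tsub, Pi.sub_apply] at hξ
      omega
    have m1 : k ∘ ins v (ℓ + ℓ') ∈ Gm I γ G f m := by
      rw [e2]
      exact hri m _ hmem _ l2
    have m2 : k ∘ ins v (ℓ + ℓ') ∉ Gm I γ G f m := by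
      rw [e1]
      exact hno _ l1
    exact m2 m1
  refine ⟨k, fun m u => ∃ ℓ : Λ →₀ ℕ, (∀ ξ, ℓ ξ ≠ 0 → ξ ∈ ⋃ m, B m) ∧
    k ∘ ins u ℓ ∈ Gm I γ G f m, ⋃ m, B m, hk, hp, hA, countable_iUnion hBc, ?_, ?_, ?_⟩
  · intro m u
    obtain ⟨ℓ, hℓ, hm⟩ := hBu m u
    have hℓ' : ∀ ξ, ℓ ξ ≠ 0 → ξ ∈ ⋃ m, B m := fun ξ hξ => hBA m (hℓ ξ hξ)
    refine ⟨ℓ, hℓ', fun v hv => ?_⟩
    rcases hm with hm | hm
    · refine propext ⟨fun _ => ⟨ℓ, hℓ', hm⟩, fun _ => ⟨ℓ, hℓ', ?_⟩⟩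
      rw [ins_congr hv]
      exact hm
    · refine propext ⟨fun h => (key m u v ℓ hℓ' hm hv h).elim,
        fun h => (key m u u ℓ hℓ' hm (Ag.refl ℓ u) h).elim⟩
  · intro m u h
    exact h
  · intro m u h
    obtain ⟨ℓ, hℓ, hm⟩ := hBu m u
    have hℓ' : ∀ ξ, ℓ ξ ≠ 0 → ξ ∈ ⋃ m, B m := fun ξ hξ => hBA m (hℓ ξ hξ)
    refine ⟨ℓ, hℓ', ?_⟩
    rcases hm with hm | hm
    · exact (h ⟨ℓ, hℓ', hm⟩).elim
    · exact hm

open Classical in
lemma nth_agree {P P' : ℕ → Prop} {j : ℕ} (hP : P (Nat.nth P j)) (hj : Nat.count P (Nat.nth P j) = j)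
    (h : ∀ i < Nat.nth P j + 1, P' i = P i) : Nat.nth P' j = Nat.nth P j := by
  classical
  have h1 : Nat.count P' (Nat.nth P j) = Nat.count P (Nat.nth P j) := by
    have key : ∀ n ≤ Nat.nth P j, Nat.count P' n = Nat.count P n := by
      intro n
      induction n with
      | zero => intro _; simp
      | succ n ih =>
        intro hn
        rw [Nat.count_succ, Nat.count_succ, ih (by omega)]
        have := h n (by omega)
        simp only [this]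
    exact key _ le_rfl
  have h2 : P' (Nat.nth P j) := by
    rw [h _ (by omega)]
    exact hP
  have h3 := Nat.nth_count h2
  rw [h1, hj] at h3
  exact h3

/-- (i) infinitely many good successors everywhere give a good condition. -/
theorem step1_infinite (hγ : γ ∈ I) (hG : RI I G) {f : Om Λ → Om Λ} (hf : SB I γ G f)
    {h : Om Λ → Om Λ} {Z : ℕ → Om Λ → Prop} {A : Set Λ} (hh : Lav (I ∩ Iio γ) h)
    (hA : A ⊆ I ∩ Iio γ) (hc : A.Countable) (hZ : ∀ m, Cts A (Z m))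
    (hZ1 : ∀ m u, Z m u → ∃ ℓ : Λ →₀ ℕ, (∀ ξ, ℓ ξ ≠ 0 → ξ ∈ A) ∧
      h ∘ ins u ℓ ∈ Gm I γ G f m)
    {q : Om Λ → Om Λ} (hq : Lav (I ∩ Iio γ) q) (hinf : ∀ u N, ∃ m ≥ N, Z m (q u)) : False := by
  classical
  obtain ⟨Aq, hAq, hqL⟩ := id hq
  have hB : A ∪ Aq ⊆ I ∩ Iio γ := union_subset hA hAq
  have hBc : (A ∪ Aq).Countable := hc.union hqL.cnt
  have hinf' : ∀ u, ({m | Z m (q u)} : Set ℕ).Infinite := by
    intro u
    rw [Set.infinite_iff_exists_gt]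
    intro N
    obtain ⟨m, hm, hZm⟩ := hinf u (N + 1)
    exact ⟨m, hZm, by omega⟩
  -- continuity of the z_j
  have hZq : ∀ m, Cts (A ∪ Aq) (fun u => Z m (q u)) := by
    intro m
    refine (hZ m).comp fun β hβ n => (hqL.cts' β n).mono ?_
    rintro ξ ⟨hξ, -⟩
    rcases hξ with rfl | hξ
    · exact Or.inl hβ
    · exact Or.inr hξ
  have hzc : ∀ (j : ℕ) (u : Om Λ), ∃ ℓ : Λ →₀ ℕ, (∀ ξ, ℓ ξ ≠ 0 → ξ ∈ A ∪ Aq) ∧
      ∀ v, Ag ℓ u v → Nat.nth (fun m => Z m (q v)) j = Nat.nth (fun m => Z m (q u)) j := by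
    intro j u
    obtain ⟨ℓ, h1, h2⟩ := Cts.finset (Finset.range (Nat.nth (fun m => Z m (q u)) j + 1))
      (fun m u => Z m (q u)) (fun m _ => hZq m) u
    refine ⟨ℓ, h1, fun v hv => nth_agree ?_ ?_ ?_⟩
    · exact Nat.nth_mem_of_infinite (hinf' u) j
    · exact Nat.count_nth_of_infinite (hinf' u) j
    · intro i hi
      exact h2 v hv i (Finset.mem_range.2 hi)
  have hnot : ∀ ℓ : Λ →₀ ℕ, (∀ ξ, ℓ ξ ≠ 0 → ξ ∈ A ∪ Aq) → ℓ γ = 0 := by
    intro ℓ hℓ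
    by_contra hne
    exact lt_irrefl γ (hB (hℓ γ hne)).2
  have hcomp : Lav (I ∩ Iio γ) (h ∘ q) := hh.comp hq
  set Q : ℕ → (Om Λ → Om Λ) → (Om Λ → Om Λ) → Prop := fun j i e => (∀ v, stem e γ v = 1) ∧
          (∀ v, e v γ 0 = Nat.nth (fun m => Z m (q (i v))) j) ∧ Barred I G (f ∘ e) with hQdef
  have hE : ∀ j : ℕ, ∃ k, Lav I k ∧ (∀ v, Bel γ ((h ∘ q) v) (k v)) ∧
      ∀ u, ∃ ℓ : Λ →₀ ℕ, (∀ ξ, ℓ ξ ≠ 0 → ξ ∈ A ∪ Aq) ∧ Q j (ins u ℓ) (k ∘ ins u ℓ) := by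
    intro j
    refine glue1 hB hBc hcomp (Q j) ?_ ?_
    · rintro i e he ⟨h1, h2, h3⟩ u ℓ hℓ
      have hins : Lav I (ins u ℓ) := Lav.ins u fun ξ hξ => (hB (hℓ ξ hξ)).1
      refine ⟨fun v => ?_, fun v => ?_, ?_⟩
      · rw [he.stem_comp hins, h1, stem_ins, hnot ℓ hℓ]
      · exact h2 (ins u ℓ v)
      · have h4 := Barred.comp hG h3 hins
        rwa [Function.comp_assoc] at h4
    · intro u
      obtain ⟨ℓ₂, h21, h22⟩ := hzc j u
      have hZm : Z (Nat.nth (fun m => Z m (q u)) j) (q u) :=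
        Nat.nth_mem_of_infinite (hinf' u) j
      obtain ⟨ℓ₁, h11, h12⟩ := hZ1 _ _ hZm
      obtain ⟨ℓ', h1, h2, q', hq', hqe⟩ := Lav.E6 hqL (subset_union_right (s := A)) hBc
        (u := u) (w := q u) (ℓ := ℓ₁) (m := ℓ₂) (fun ξ hξ => Or.inl (h11 ξ hξ)) h21 (Ag.refl _ _)
      have hmem := ri_Gm hG f _ _ h12 q' ⟨_, hB, hq'⟩
      obtain ⟨e, he, hbel, hs, h0, hb⟩ := hmem
      refine ⟨ℓ', h1, e, he, fun v => ?_, hs, fun v => ?_, hb⟩
      · have h3 := hbel v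
        have h4 : (h ∘ q) (ins u ℓ' v) = ((h ∘ ins (q u) ℓ₁) ∘ q') v := by
          have h5 : q (ins u ℓ' v) = ins (q u) ℓ₁ (q' v) := congrFun hqe v
          simp only [Function.comp_apply, h5]
        rw [h4]
        exact h3
      · rw [h0 v]
        exact (h22 _ ((ag_ins u v ℓ').mono h2)).symm
  choose k hk hkb hkQ using hE
  have hks : ∀ j v, stem (k j) γ v = 1 := by
    intro j v
    obtain ⟨ℓ, hℓ, h1, -, -⟩ := hkQ j v
    exact stem_of_local (hk j) (hnot ℓ hℓ) h1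
  have hk0 : ∀ j v, k j v γ 0 = Nat.nth (fun m => Z m (q v)) j := by
    intro j v
    obtain ⟨ℓ, hℓ, -, h2, -⟩ := hkQ j v
    have := h2 (strip ℓ v)
    simpa only [Function.comp_apply, ins_strip (Ag.refl ℓ v)] using this
  have hkB : ∀ j, Barred I G (f ∘ k j) := by
    intro j
    refine Barred.trans (hB.trans inter_subset_left) hBc hG fun u => ?_
    obtain ⟨ℓ, hℓ, -, -, h3⟩ := hkQ j u
    exact ⟨ℓ, hℓ, h3⟩
  obtain ⟨K, hK, -, hKs, hKi⟩ := glue2 hγ k hk hkb hks (fun j v => by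
    rw [hk0, hk0]
    exact Nat.nth_strictMono (hinf' v) (Nat.lt_succ_self j))
  refine hf K hK hKs ?_
  refine Barred.trans (A := {γ}) (by simpa using hγ) (countable_singleton _) hG fun u => ?_
  refine ⟨Finsupp.single γ 1, fun ξ hξ => ?_, ?_⟩
  · by_contra hne
    exact hξ (Finsupp.single_eq_of_ne (fun h => hne (by simpa using h)))
  · have : (f ∘ K) ∘ ins u (Finsupp.single γ 1) = f ∘ k (u γ 0) := by
      rw [Function.comp_assoc, hKi]
    rw [this]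
    exact hkB _

/-- (ii) -/
theorem step1_finite (hγ : γ ∈ I) (hG : RI I G) {f : Om Λ → Om Λ} (hf : SB I γ G f)
    (hT : TT (I ∩ Iio γ)) (F : Finset Λ) (hF : (↑F : Set Λ) ⊆ I ∩ Iio γ)
    {h : Om Λ → Om Λ} {Z : ℕ → Om Λ → Prop} {A : Set Λ} (hh : Lav (I ∩ Iio γ) h)
    (hA : A ⊆ I ∩ Iio γ) (hc : A.Countable) (hZ : ∀ m, Cts A (Z m))
    (hZ1 : ∀ m u, Z m u → ∃ ℓ : Λ →₀ ℕ, (∀ ξ, ℓ ξ ≠ 0 → ξ ∈ A) ∧
      h ∘ ins u ℓ ∈ Gm I γ G f m) :
    ∃ q N, Lav (I ∩ Iio γ) q ∧ Pure ↑F q ∧ (∃ B ⊆ I ∩ Iio γ, B.Countable ∧ Cts B N) ∧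
      ∀ u m, Z m (q u) → m < N u := by
  set K : Set (Om Λ → Om Λ) := {q | ∃ n : ℕ, ∀ u m, Z m (q u) → m < n} with hK
  have hKri : RI (I ∩ Iio γ) K := by
    rintro g ⟨n, hn⟩ e he
    exact ⟨n, fun u m hm => hn (e u) m hm⟩
  have hKd : Dense' (I ∩ Iio γ) K := by
    refine ⟨hKri, fun q₀ hq₀ => ?_⟩
    by_contra hcon
    push Not at hcon
    have hD : ∀ N : ℕ, Dense' (I ∩ Iio γ)
        {e : Om Λ → Om Λ | ∃ m ≥ N, ∀ u, Z m (q₀ (e u))} := by
      intro N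
      refine ⟨?_, fun e he => ?_⟩
      · rintro g ⟨m, hm, hg⟩ e he
        exact ⟨m, hm, fun u => hg (e u)⟩
      · have h1 := hcon e he
        have h2 : ∃ u m, Z m (q₀ (e u)) ∧ N ≤ m := by
          by_contra h3
          push Not at h3
          exact h1 ⟨N, h3⟩
        obtain ⟨u, m, hm, hNm⟩ := h2
        obtain ⟨A₁, hA₁, hc₁, hcts⟩ := (hq₀.comp he).cts
        have h4 : Cts (A ∪ A₁) (fun v => Z m ((q₀ ∘ e) v)) :=
          (hZ m).comp fun β hβ n => (hcts β n).mono (by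
            rintro ξ ⟨hξ, -⟩
            rcases hξ with rfl | hξ
            · exact Or.inl hβ
            · exact Or.inr hξ)
        obtain ⟨ℓ, hℓ, hv⟩ := h4 u
        refine ⟨ins u ℓ, Lav.ins u fun ξ hξ => ?_, m, hNm, fun v => ?_⟩
        · rcases hℓ ξ hξ with h | h
          · exact hA h
          · exact hA₁ h
        · have h5 := hv (ins u ℓ v) (ag_ins u v ℓ)
          exact (iff_of_eq h5).2 hm
    obtain ⟨k, hk, -, hbar⟩ := hT ∅ (by simp) _ hD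
    refine step1_infinite hγ hG hf hh hA hc hZ hZ1 (hq₀.comp hk) (fun u N => ?_)
    obtain ⟨B, -, -, hB⟩ := hbar N
    obtain ⟨ℓ, -, m, hm, hmu⟩ := hB u
    refine ⟨m, hm, ?_⟩
    have h1 := hmu (strip ℓ u)
    rwa [Function.comp_apply, ins_strip (Ag.refl ℓ u)] at h1
  obtain ⟨q, hq, hqp, hbar⟩ := hT F hF (fun _ => K) (fun _ => hKd)
  obtain ⟨B, hB, hBc, hbB⟩ := hbar 0
  -- enumerate the finite informations which bound `Z`
  set S : Set (Om Λ → Om Λ) := {j | (∃ (u : Om Λ) (ℓ : Λ →₀ ℕ), (∀ ξ, ℓ ξ ≠ 0 → ξ ∈ B) ∧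
    j = ins u ℓ) ∧ q ∘ j ∈ K} with hS
  have hSc : S.Countable := (countable_ins hBc).mono fun j hj => hj.1
  have hSne : S.Nonempty := by
    obtain ⟨ℓ, hℓ, h⟩ := hbB (fun _ _ => 0)
    exact ⟨_, ⟨_, ℓ, hℓ, rfl⟩, h⟩
  obtain ⟨j, hj⟩ := hSc.exists_eq_range hSne
  have hjS : ∀ i, j i ∈ S := fun i => by
    rw [hj]
    exact mem_range_self i
  choose w ℓ hℓ hjw using fun i => (hjS i).1
  choose n hn using fun i => (hjS i).2
  have hex : ∀ u, ∃ i, Ag (ℓ i) (w i) u := by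
    intro u
    obtain ⟨ℓ', hℓ', h⟩ := hbB u
    have h1 : ins u ℓ' ∈ S := ⟨⟨u, ℓ', hℓ', rfl⟩, h⟩
    rw [hj] at h1
    obtain ⟨i, hi⟩ := h1
    refine ⟨i, ?_⟩
    have h2 : u = ins (w i) (ℓ i) (strip ℓ' u) := by
      rw [← hjw i, hi, ins_strip (Ag.refl ℓ' u)]
    rw [h2]
    exact ag_ins _ _ _
  have hp : ∀ i, Cts B (fun u => Ag (ℓ i) (w i) u) := by
    intro i u
    refine ⟨ℓ i, hℓ i, fun v hv => ?_⟩
    apply propext
    exact ⟨fun h => h.trans hv.symm, fun h => h.trans hv⟩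
  refine ⟨q, fun u => n (sInf {i | Ag (ℓ i) (w i) u}), hq, hqp, ⟨B, hB, hBc, ?_⟩, ?_⟩
  · exact (Cts.find (fun i u => Ag (ℓ i) (w i) u) hp hex).map n
  · intro u m hm
    have h1 : Ag (ℓ (sInf {i | Ag (ℓ i) (w i) u})) (w (sInf {i | Ag (ℓ i) (w i) u})) u :=
      Nat.sInf_mem (s := {i | Ag (ℓ i) (w i) u}) (hex u)
    set i₀ := sInf {i | Ag (ℓ i) (w i) u} with hi₀
    have h2 := hn i₀ (strip (ℓ i₀) u) m
    rw [Function.comp_apply, hjw i₀, ins_strip h1] at h2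
    exact h2 hm

/-- The first entry at `γ` is locally constant below `γ` if the stem is `1`. -/
lemma first_entry {e : Om Λ → Om Λ} (he : Lav I e) (hs : ∀ u, stem e γ u = 1) (u : Om Λ) :
    ∃ ℓ : Λ →₀ ℕ, (∀ ξ, ℓ ξ ≠ 0 → ξ ∈ I ∩ Iio γ) ∧ ∀ v, e (ins u ℓ v) γ 0 = e u γ 0 := by
  classical
  obtain ⟨Ae, hAe, heL⟩ := he
  obtain ⟨ℓ, h1, h2⟩ := heL.cts' γ 0 u
  refine ⟨ℓ.erase γ, fun ξ hξ => ?_, fun v => ?_⟩
  · have hne : ξ ≠ γ := by
      rintro rfl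
      exact hξ (Finsupp.erase_same)
    rw [Finsupp.erase_ne hne] at hξ
    obtain ⟨h3, h4⟩ := h1 ξ hξ
    rcases h3 with h3 | h3
    · exact absurd h3 hne
    · exact ⟨hAe h3, lt_of_le_of_ne h4 hne⟩
  · set w : Om Λ := ins u (ℓ.erase γ) v with hw
    have h3 : Bel γ w (Function.update w γ (u γ)) := by
      intro ξ hξ
      rw [Function.update_of_ne hξ.ne]
    have h4 : Ag ℓ u (Function.update w γ (u γ)) := by
      intro ξ i hi
      by_cases hξ : ξ = γ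
      · subst hξ
        rw [Function.update_self]
      · rw [Function.update_of_ne hξ, hw]
        simp [ins, Finsupp.erase_ne hξ, hi]
    have h5 : e (Function.update w γ (u γ)) γ 0 = e w γ 0 :=
      heL.pre γ w _ 0 h3 (fun i hi => absurd hi (Nat.not_lt_zero i)) 0 (by rw [hs]; omega)
    rw [← h5]
    exact h2 _ h4

lemma bel_res {e : Om Λ → Om Λ} (u : Om Λ) : Bel γ (e u) (res γ e u) := by
  intro ξ hξ
  simp [res, hξ]

/-- The map of step 1. -/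
lemma step1_map (hγ : γ ∈ I) {p : Om Λ → Om Λ} (hp : Lav (I ∩ Iio γ) p) {N : Om Λ → ℕ}
    {B : Set Λ} (hB : B ⊆ I ∩ Iio γ) (hc : B.Countable) (hN : Cts B N) :
    ∃ a, Lav (I ∩ Iic γ) a ∧ (∀ ξ u, stem a ξ u = stem p ξ u) ∧ (∀ u, Bel γ (p u) (a u)) ∧
      ∀ u, a u γ 0 = u γ 0 + N u := by
  classical
  obtain ⟨P, hP, hpL⟩ := hp
  have hNγ : ∀ {u v : Om Λ}, Bel γ u v → N v = N u := fun {u v} h =>
    hN.eq_of fun ξ hξ => h ξ (hB hξ).2
  have hγP : γ ∉ P := fun h => lt_irrefl γ (hP h).2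
  set a : Om Λ → Om Λ := fun u ξ i => if ξ = γ then (if i = 0 then u γ 0 + N u else u γ i)
    else p u ξ i with ha
  set S : Set Λ := insert γ (P ∪ B) with hS
  have hSI : S ⊆ I ∩ Iic γ := by
    rintro ξ (rfl | hξ | hξ)
    · exact ⟨hγ, le_rfl⟩
    · exact ⟨(hP hξ).1, (hP hξ).2.le⟩
    · exact ⟨(hB hξ).1, (hB hξ).2.le⟩
  have key : IsL S a ∧ ∀ ξ u, stem a ξ u = stem p ξ u := by
    refine isL_of (fun ξ u => stem p ξ u) ((hpL.cnt.union hc).insert γ) ?_ ?_ ?_ ?_ ?_ ?_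
    · intro ξ hξ u
      have h1 : ξ ≠ γ := fun h => hξ (Or.inl h)
      have h2 : ξ ∉ P := fun h => hξ (Or.inr (Or.inl h))
      funext i
      simp only [ha, if_neg h1]
      rw [hpL.off ξ h2]
    · intro ξ hξ u
      exact hpL.stem_off (fun h => hξ (Or.inr (Or.inl h))) u
    · intro ξ hξ n
      by_cases h1 : ξ = γ
      · subst h1
        simp only [ha, if_true]
        have hcoord : ∀ m : ℕ, Cts (S ∩ Iic ξ) (fun u : Om Λ => u ξ m) := fun m =>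
          Cts.coord (A := S ∩ Iic ξ) (γ := ξ) (Set.mem_inter (Or.inl rfl) (Set.mem_Iic.2 le_rfl)) m
        by_cases hn : n = 0
        · subst hn
          simp only [if_true]
          refine Cts.map₂ (hcoord 0) (hN.mono ?_) (fun x y => x + y)
          intro η hη
          exact ⟨Or.inr (Or.inr hη), (hB hη).2.le⟩
        · simp only [hn, if_false]
          exact hcoord n
      · simp only [ha, if_neg h1]
        refine (hpL.cts' ξ n).mono ?_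
        rintro η ⟨h2, h3⟩
        refine ⟨?_, h3⟩
        rcases h2 with rfl | h2
        · exact hξ
        · exact Or.inr (Or.inl h2)
    · intro ξ _
      refine (hpL.ctc' ξ).mono ?_
      rintro η ⟨h2, h3⟩
      exact ⟨Or.inr (Or.inl h2), h3⟩
    · intro ξ u v l hb hl i hi
      by_cases h1 : ξ = γ
      · subst h1
        rw [hpL.stem_off hγP] at hi
        simp only [ha, if_true]
        by_cases h0 : i = 0
        · subst h0
          simp only [if_true]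
          rw [hl 0 (by omega), hNγ hb]
        · simp only [h0, if_false]
          exact hl i (by omega)
      · simp only [ha, if_neg h1]
        exact hpL.pre ξ u v l hb hl i hi
    · intro ξ u v l hb hl hlt
      by_cases h1 : ξ = γ
      · subst h1
        simp only [hpL.stem_off hγP, ha, if_true, zero_add]
        by_cases h0 : l = 0
        · subst h0
          simp only [if_true]
          rw [hNγ hb]
          omega
        · simp only [h0, if_false]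
          exact hlt
      · simp only [ha, if_neg h1]
        exact hpL.mono ξ u v l hb hl hlt
  refine ⟨a, ⟨S, hSI, key.1⟩, key.2, fun u ξ hξ => ?_, fun u => ?_⟩
  · funext i
    simp only [ha, if_neg hξ.ne]
  · simp only [ha, if_true]

/-- Step 1. -/
theorem step1 (hγ : γ ∈ I) (hG : RI I G) {f : Om Λ → Om Λ} (hf : SB I γ G f)
    (hT : TT (I ∩ Iio γ)) (F : Finset Λ) (hF : (↑F : Set Λ) ⊆ I ∩ Iio γ) :
    ∃ a, Lav (I ∩ Iic γ) a ∧ Pure (insert γ ↑F) a ∧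
      ∀ e, Lav I e → (∀ u, stem e γ u = 1) → ¬ Barred I G (f ∘ a ∘ e) := by
  classical
  obtain ⟨h, Z, A, hh, hhF, hA, hc, hZ, hZ1, hZ2⟩ := step1_decide hG f hT F hF
  obtain ⟨q, N, hq, hqF, ⟨B, hB, hBc, hN⟩, hqN⟩ :=
    step1_finite hγ hG hf hT F hF hh hA hc hZ hZ1
  obtain ⟨a, ha, has, hab, ha0⟩ := step1_map hγ (hh.comp hq) hB hBc hN
  have haI : Lav I a := ha.mono inter_subset_left
  have hNγ : ∀ {u v : Om Λ}, Bel γ u v → N v = N u := fun {u v} h =>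
    hN.eq_of fun ξ hξ => h ξ (hB hξ).2
  refine ⟨a, ha, ?_, ?_⟩
  · intro ξ hξ u
    rw [has]
    rcases hξ with rfl | hξ
    · exact (hh.comp hq).stem_off (fun h => lt_irrefl _ h.2) u
    · exact Pure.comp hh hq hhF hqF ξ hξ u
  · intro e he hes hb
    set u₀ : Om Λ := fun _ _ => 0 with hu₀
    have hae : Lav I (a ∘ e) := haI.comp he
    have haγ : ∀ v, stem a γ v = 0 := by
      intro v
      rw [has]
      exact (hh.comp hq).stem_off (fun h => lt_irrefl _ h.2) v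
    have haes : ∀ u, stem (a ∘ e) γ u = 1 := by
      intro u
      rw [haI.stem_comp he, haγ, hes]
    obtain ⟨ℓ, hℓ, hc0⟩ := first_entry hae haes u₀
    set m := (a ∘ e) u₀ γ 0 with hm
    have hins : Lav I (ins u₀ ℓ) := Lav.ins u₀ fun ξ hξ => (hℓ ξ hξ).1
    have hℓγ : ℓ γ = 0 := by
      by_contra hne
      exact lt_irrefl γ (hℓ γ hne).2
    set e₁ := e ∘ ins u₀ ℓ with he₁
    have he₁L : Lav I e₁ := he.comp hins
    have hae₁ : Lav I (a ∘ e₁) := haI.comp he₁L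
    have hs₁ : ∀ v, stem (a ∘ e₁) γ v = 1 := by
      intro v
      have h1 : a ∘ e₁ = (a ∘ e) ∘ ins u₀ ℓ := rfl
      rw [h1, hae.stem_comp hins, haes, stem_ins, hℓγ]
    have hb₁ : Barred I G (f ∘ a ∘ e₁) := by
      have h1 := Barred.comp hG hb hins
      exact h1
    have hr : Lav (I ∩ Iio γ) (res γ e₁) := he₁L.res γ
    have hq' : Lav (I ∩ Iio γ) (q ∘ res γ e₁) := hq.comp hr
    have hmem : h ∘ (q ∘ res γ e₁) ∈ Gm I γ G f m := by
      refine ⟨a ∘ e₁, hae₁, fun v => ?_, hs₁, fun v => hc0 v, hb₁⟩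
      have h1 : Bel γ ((h ∘ q) (res γ e₁ v)) ((h ∘ q) (e₁ v)) :=
        (hh.comp hq).bel (bel_res v).symm
      exact h1.trans (hab (e₁ v))
    have hZm : ∀ u, Z m ((q ∘ res γ e₁) u) := by
      intro u
      by_contra hne
      obtain ⟨ℓ₂, hℓ₂, h2⟩ := hZ2 m _ hne
      obtain ⟨C, hC, hCL⟩ := id hq'
      obtain ⟨ℓ₃, h31, -, q'', hq'', h32⟩ := Lav.E6 hCL (subset_union_right (s := A))
        (hc.union hCL.cnt) (u := u) (w := (q ∘ res γ e₁) u) (ℓ := ℓ₂) (m := 0)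
        (fun ξ hξ => Or.inl (hℓ₂ ξ hξ)) (fun ξ hξ => absurd rfl hξ) (Ag.refl _ _)
      have hAC : A ∪ C ⊆ I ∩ Iio γ := union_subset hA hC
      have h4 := ri_Gm hG f m _ hmem (ins u ℓ₃) (Lav.ins u fun ξ hξ => hAC (h31 ξ hξ))
      refine h2 q'' ⟨_, hAC, hq''⟩ ?_
      have h5 : h ∘ ins ((q ∘ res γ e₁) u) ℓ₂ ∘ q'' = (h ∘ (q ∘ res γ e₁)) ∘ ins u ℓ₃ := by
        rw [← h32]
        rfl
      rw [h5]
      exact h4
    have h6 := hqN _ _ (hZm u₀)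
    have h7 : N (res γ e₁ u₀) = N (e₁ u₀) := hNγ (bel_res u₀)
    have h8 : m = e₁ u₀ γ 0 + N (e₁ u₀) := by
      rw [← ha0]
      exact (hc0 u₀).symm
    omega

/-- Invariant of step 2. -/
def Qt (I : Set Λ) (γ : Λ) (G : Set (Om Λ → Om Λ)) (f : Om Λ → Om Λ) (t : List ℕ) : Prop :=
  ∀ e, Lav I e → (∀ u, stem e γ u = t.length) → (∀ u, pre (e u γ) t.length = t) →
    ¬ Barred I G (f ∘ e)

lemma Qt_nil {f : Om Λ → Om Λ} (h : SB I γ G f) : Qt I γ G f [] := fun e he hs _ => h e he hs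

/-- Inheritance of `Qt`. -/
lemma Qt.comp {f b : Om Λ → Om Λ} {π : Prot Λ} (hγ : γ ∈ π.F) {t : List ℕ}
    (ht : Nd (π.r γ) t) (h : Qt I γ G f t) (hb : Lav I b) (hp : π.Pres b) :
    Qt I γ G (f ∘ b) t := by
  intro e he hs hpre hbar
  refine h (b ∘ e) (hb.comp he) (fun u => ?_) (fun u => ?_) hbar
  · rw [hb.stem_comp he, (hp γ hγ).1, hs, Nat.zero_add]
  · have h1 : t.length ≤ π.len γ (e u) := by
      have h2 : Nd (π.r γ) (pre (e u γ) t.length) := by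
        rw [hpre u]
        exact ht
      exact nd_pre_iff.1 h2
    have h3 : pre ((b ∘ e) u γ) t.length = pre (e u γ) t.length :=
      pre_eq_iff.2 fun i hi => (hp γ hγ).2 (e u) i (hi.trans_le h1)
    rw [h3, hpre]

/-- The nodes after adding a child. -/
lemma nd_add {π : Prot Λ} (hγ : γ ∈ π.F) {t s : List ℕ} (ht : Nd (π.r γ) t)
    (hs : Nd ((π.add γ t).r γ) s) : Nd (π.r γ) s ∨ s = t ++ [π.r γ t] := by
  classical
  rw [Prot.add_r_node hγ ht] at hs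
  by_cases h : Nd (π.r γ) s
  · exact Or.inl h
  · right
    unfold Nd at h
    push Not at h
    obtain ⟨i, hi, hle⟩ := h
    have h1 := hs i hi
    rw [Finsupp.add_apply, Finsupp.single_apply] at h1
    by_cases h2 : t = s.take i
    · rw [if_pos h2] at h1
      rw [← h2] at h1 hle
      have h3 : s[i] = π.r γ t := by omega
      have h4 : s.take (i + 1) = t ++ [π.r γ t] := by
        rw [List.take_succ_eq_append_getElem hi, ← h2, h3]
      rcases Nat.lt_or_ge (i + 1) s.length with h5 | h5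
      · exfalso
        have h6 := hs (i + 1) h5
        rw [Finsupp.add_apply, Finsupp.single_apply, h4] at h6
        have h7 : t ≠ t ++ [π.r γ t] := by
          intro h8
          have := congrArg List.length h8
          simp at this
        rw [if_neg h7] at h6
        have h8 : π.r γ (t ++ [π.r γ t]) ≠ 0 := by omega
        have h9 := π.hr γ _ h8 t.length (by simp)
        simp at h9
      · rw [← h4, List.take_of_length_le h5]
    · rw [if_neg h2] at h1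
      omega

/-- The position of a point passing through the new node. -/
lemma pos_new {π : Prot Λ} {t : List ℕ} (ht : Nd (π.r γ) t) {u : Om Λ}
    (h : pre (u γ) (t ++ [π.r γ t]).length = t ++ [π.r γ t]) : π.pos γ u = t := by
  rw [List.length_append, List.length_singleton, pre_succ] at h
  obtain ⟨h1, h2⟩ := List.append_inj h (by simp)
  have h3 : u γ t.length = π.r γ t := by simpa using h2
  have h4 : t.length ≤ plen (π.r γ) (u γ) := by
    have h5 : Nd (π.r γ) (pre (u γ) t.length) := by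
      rw [h1]
      exact ht
    exact nd_pre_iff.1 h5
  have h6 : plen (π.r γ) (u γ) ≤ t.length := by
    by_contra hlt
    have h7 := lt_of_lt_plen (not_le.1 hlt)
    rw [h1, h3] at h7
    exact lt_irrefl _ h7
  unfold Prot.pos
  rw [le_antisymm h6 h4]
  exact h1

/-- Restriction to one cell. -/
lemma one_cell {π : Prot Λ} (hπ : (↑π.F : Set Λ) ⊆ I ∩ Iic γ) {e : Om Λ → Om Λ} (he : Lav I e)
    {t : List ℕ} (hpos : ∀ v, π.pos γ (e v) = t) (u : Om Λ) :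
    ∃ ℓ : Λ →₀ ℕ, (∀ ξ, ℓ ξ ≠ 0 → ξ ∈ I ∩ Iio γ) ∧ ∀ v, π.Cell (e (ins u ℓ v)) (e u) := by
  classical
  obtain ⟨Ae, hAe, heL⟩ := id he
  obtain ⟨ℓ, h1, h2⟩ := Cts.finset (A := I ∩ Iio γ) (π.F.erase γ)
    (fun ξ v => π.pos ξ (e v)) (fun ξ hξ => by
      rw [Finset.mem_erase] at hξ
      have h3 : ξ ∈ I ∩ Iio γ := ⟨(hπ hξ.2).1, lt_of_le_of_ne (hπ hξ.2).2 hξ.1⟩
      refine (Prot.cts_pos π (A := {ξ}) (γ := ξ) rfl).comp fun β hβ n => ?_
      have h4 : β = ξ := hβ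
      subst h4
      refine (heL.cts' β n).mono ?_
      rintro η ⟨h5, h6⟩
      refine ⟨?_, lt_of_le_of_lt h6 h3.2⟩
      rcases h5 with rfl | h5
      · exact h3.1
      · exact hAe h5) u
  refine ⟨ℓ, h1, fun v ξ hξ => ?_⟩
  by_cases h3 : ξ = γ
  · subst h3
    rw [hpos, hpos]
  · exact h2 _ (ag_ins u v ℓ) ξ (Finset.mem_erase.2 ⟨h3, hξ⟩)

/-- One stage of step 2: adding the next child of `t`. -/
theorem step2_stage (hγ : γ ∈ I) (hG : RI I G) (hT : TT (I ∩ Iio γ)) {f : Om Λ → Om Λ}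
    {π : Prot Λ} (hπ : (↑π.F : Set Λ) ⊆ I ∩ Iic γ) (hγπ : γ ∈ π.F) {t : List ℕ}
    (ht : Nd (π.r γ) t) (hQ : ∀ s, Nd (π.r γ) s → Qt I γ G f s) :
    ∃ b, Lav (I ∩ Iic γ) b ∧ π.Pres b ∧
      ∀ s, Nd ((π.add γ t).r γ) s → Qt I γ G (f ∘ b) s := by
  classical
  have hF : (↑(π.F.erase γ) : Set Λ) ⊆ I ∩ Iio γ := by
    intro ξ hξ
    have h1 : ξ ∈ π.F.erase γ := hξ
    rw [Finset.mem_erase] at h1
    exact ⟨(hπ h1.2).1, lt_of_le_of_ne (hπ h1.2).2 h1.1⟩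
  have hFI : (↑π.F : Set Λ) ⊆ I := hπ.trans inter_subset_left
  have hFe : (insert γ (↑(π.F.erase γ) : Set Λ)) = (↑π.F : Set Λ) := by
    rw [← Finset.coe_insert, Finset.insert_erase hγπ]
  have hlen : ∀ u₀, π.pos γ u₀ = t → π.len γ u₀ = t.length := by
    intro u₀ h
    rw [← π.length_pos, h]
  obtain ⟨b, hb, hbp, hbW, -⟩ := Prot.allcells (I := I ∩ Iic γ) hπ f {u₀ | π.pos γ u₀ = t}
    (fun _ g => ∀ e, Lav I e → (∀ u, stem e γ u = 1) → ¬ Barred I G (g ∘ e))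
    (fun u u₀ hc h => by
      have h1 : π.pos γ u₀ = t := h
      show π.pos γ u = t
      rw [hc γ hγπ, h1])
    (fun _ _ _ _ h => h)
    (fun u₀ g e h he hp e' he' hs hbar => by
      have heI : Lav I e := he.mono inter_subset_left
      refine h (e ∘ e') (heI.comp he') (fun u => ?_) hbar
      rw [heI.stem_comp he', hp γ hγπ, hs])
    (fun b' hb' hp' u₀ hu₀ => by
      have hu : π.pos γ u₀ = t := hu₀
      have hb'I : Lav I b' := hb'.mono inter_subset_left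
      have hJ : Lav I (π.J u₀) := π.lav_J hFI u₀
      have hsb : SB I γ G (f ∘ b' ∘ π.J u₀) := by
        intro e he hs hbar
        refine Qt.comp hγπ ht (hQ t ht) hb'I hp' (π.J u₀ ∘ e) (hJ.comp he) (fun u => ?_)
          (fun u => ?_) hbar
        · rw [hJ.stem_comp he, hs, π.stem_J, if_pos hγπ, hlen u₀ hu, Nat.add_zero]
        · have h1 := π.J_cell u₀ (e u) γ hγπ
          rw [hu] at h1
          have h2 : π.len γ (π.J u₀ (e u)) = t.length := hlen _ h1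
          have h3 : pre (π.J u₀ (e u) γ) (π.len γ (π.J u₀ (e u))) = t := h1
          rw [h2] at h3
          exact h3
      obtain ⟨a, ha, hap, haQ⟩ := step1 hγ hG hsb hT (π.F.erase γ) hF
      rw [hFe] at hap
      exact ⟨a, ha, hap, haQ⟩)
  refine ⟨b, hb, hbp, fun s hs => ?_⟩
  have hbI : Lav I b := hb.mono inter_subset_left
  rcases nd_add hγπ ht hs with h | rfl
  · exact Qt.comp hγπ h (hQ s h) hbI hbp
  · intro e he hes hepre hbar
    set u : Om Λ := fun _ _ => 0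
    have hpos : ∀ v, π.pos γ (e v) = t := fun v => pos_new ht (hepre v)
    obtain ⟨ℓ, hℓ, hcell⟩ := one_cell hπ he hpos u
    have hins : Lav I (ins u ℓ) := Lav.ins u fun ξ hξ => (hℓ ξ hξ).1
    have hℓγ : ℓ γ = 0 := by
      by_contra hne
      exact lt_irrefl γ (hℓ γ hne).2
    obtain ⟨e', he', hee, hse⟩ := π.E5J (he.comp hins) hFI (u₀ := e u) hcell
    refine hbW (e u) (hpos u) e' he' (fun v => ?_) ?_
    · have h1 := hse γ v
      rw [he.stem_comp hins, hes, stem_ins, hℓγ, if_pos hγπ, hlen _ (hpos u),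
        List.length_append, List.length_singleton] at h1
      omega
    · have h1 := Barred.comp hG hbar hins
      have h2 : (f ∘ b ∘ π.J (e u)) ∘ e' = ((f ∘ b) ∘ e) ∘ ins u ℓ := by
        have h3 : ((f ∘ b) ∘ e) ∘ ins u ℓ = (f ∘ b) ∘ (e ∘ ins u ℓ) := rfl
        rw [h3, hee]
        rfl
      rw [h2]
      exact h1

/-- The states of the fusion of step 2. -/
private structure P8St (I : Set Λ) (γ : Λ) (G : Set (Om Λ → Om Λ)) (f : Om Λ → Om Λ) where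
  π : Prot Λ
  g : Om Λ → Om Λ
  hF : (↑π.F : Set Λ) ⊆ I ∩ Iic γ
  hγ : γ ∈ π.F
  hg : Lav (I ∩ Iic γ) g
  hQ : ∀ s, Nd (π.r γ) s → Qt I γ G (f ∘ g) s

/-- Step 2. -/
theorem step2 (hγ : γ ∈ I) (hG : RI I G) (hT : TT (I ∩ Iio γ)) {f : Om Λ → Om Λ}
    (hf : SB I γ G f) (F : Finset Λ) (hF : (↑F : Set Λ) ⊆ I ∩ Iio γ) :
    ∃ k, Lav (I ∩ Iic γ) k ∧ Pure (insert γ ↑F) k ∧ ∀ t, Qt I γ G (f ∘ k) t := by
  classical
  let σ₀ : P8St I γ G f :=
    { π := Prot.bare (insert γ F)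
      g := id
      hF := by
        intro ξ hξ
        have h1 : ξ ∈ insert γ F := hξ
        rcases Finset.mem_insert.1 h1 with rfl | h2
        · exact ⟨hγ, le_rfl⟩
        · exact ⟨(hF h2).1, le_of_lt (hF h2).2⟩
      hγ := Finset.mem_insert_self γ F
      hg := Lav.id _
      hQ := by
        intro s hs
        have h1 : s = [] := by
          by_contra hne
          have h2 : 0 < s.length := List.length_pos_iff.2 hne
          have h3 := hs 0 h2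
          exact absurd h3 (Nat.not_lt_zero _)
        subst h1
        exact Qt_nil hf }
  obtain ⟨σ, b, k, h0, hS, hk, hex⟩ := fusion (I := I ∩ Iic γ) (St := P8St I γ G f)
    (fun σ => σ.π)
    (fun σ b σ' => Lav (I ∩ Iic γ) b ∧ σ.π.Pres b ∧ Prot.LE σ.π σ'.π ∧ σ'.g = σ.g ∘ b)
    (fun σ => σ.hF) (fun σ b σ' h => ⟨h.1, h.2.1, h.2.2.1⟩)
    (by
      intro σ ξ hξ t
      by_cases h : ξ = γ
      · subst h
        by_cases ht : Nd (σ.π.r ξ) t
        · obtain ⟨b, hb, hp, hQ⟩ := step2_stage (f := f ∘ σ.g) hγ hG hT σ.hF σ.hγ ht σ.hQ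
          refine ⟨b, ⟨σ.π.add ξ t, σ.g ∘ b, ?_, (Prot.le_add _ _ _).1 σ.hγ, σ.hg.comp hb, hQ⟩,
            ⟨hb, hp, Prot.le_add _ _ _, rfl⟩, Prot.served_add _ _ _⟩
          rw [Prot.add_F_old σ.hγ]
          exact σ.hF
        · refine ⟨id, σ, ⟨Lav.id _, Prot.Pres.id, Prot.LE.refl _, rfl⟩, ?_⟩
          have h1 := Prot.served_add σ.π ξ t
          rwa [Prot.add_r_bad σ.hγ ht] at h1
      · refine ⟨id, ⟨σ.π.add ξ t, σ.g, ?_, (Prot.le_add _ _ _).1 σ.hγ, σ.hg, ?_⟩,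
          ⟨Lav.id _, Prot.Pres.id, Prot.le_add _ _ _, rfl⟩, Prot.served_add _ _ _⟩
        · by_cases hξF : ξ ∈ σ.π.F
          · rw [Prot.add_F_old hξF]
            exact σ.hF
          · rw [Prot.add_F_new hξF]
            intro η hη
            have h1 : η ∈ insert ξ σ.π.F := hη
            rcases Finset.mem_insert.1 h1 with rfl | h2
            · exact hξ
            · exact σ.hF h2
        · intro s hs
          rw [Prot.add_r_ne (fun h' => h h'.symm)] at hs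
          exact σ.hQ s hs)
    (fun σ => ⟨id, σ, Lav.id _, Prot.Pres.id, Prot.LE.refl _, rfl⟩) σ₀
  have hcomp : ∀ n, k 0 = (σ n).g ∘ k n := by
    intro n
    induction n with
    | zero =>
      rw [h0]
      rfl
    | succ n ih =>
      rw [(hS n).2.2.2, Function.comp_assoc, ← (hk n).2.2]
      exact ih
  refine ⟨k 0, (hk 0).1, ?_, ?_⟩
  · have h1 := (hk 0).2.1
    rw [h0] at h1
    have h2 : Pure (↑(insert γ F) : Set Λ) (k 0) := Prot.pres_bare.1 h1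
    rwa [Finset.coe_insert] at h2
  · intro t
    obtain ⟨n, h1, h2⟩ := hex γ ⟨0, (σ 0).hγ⟩ t
    have h3 := Qt.comp h1 h2 ((σ n).hQ t h2) ((hk n).1.mono inter_subset_left) (hk n).2.1
    rw [Function.comp_assoc, ← hcomp n] at h3
    exact h3

/-- The end of the proof of `PB`. -/
lemma not_barred_of_Qt (hG : RI I G) {k : Om Λ → Om Λ} (h : ∀ t, Qt I γ G k t)
    {e : Om Λ → Om Λ} (he : Lav I e) : ¬ Barred I G (k ∘ e) := by
  classical
  intro hb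
  obtain ⟨A, hA, hL⟩ := id he
  let u : Om Λ := fun _ _ => 0
  set n := stem e γ u with hn
  let t : List ℕ := pre (e u γ) n
  have ht : t.length = n := length_pre _ _
  -- finite information below `γ` deciding the stem
  obtain ⟨ℓ₁, hℓ₁, h₁⟩ := hL.ctc' γ u
  -- finite information below `γ` deciding the entries of the stem
  let rp : Om Λ → Om Λ := fun v ξ => if ξ < γ then v ξ else u ξ
  have hrpu : rp u = u := by
    funext ξ
    simp only [rp]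
    split_ifs <;> rfl
  have hrp : ∀ v, Bel γ v (rp v) := fun v ξ hξ => by
    simp only [rp, if_pos hξ]
  have hcts : ∀ i ∈ Finset.range n, Cts (A ∩ Iio γ) (fun v => e (rp v) γ i) := by
    intro i _
    refine Cts.comp (f := fun v => e v γ i) (h := rp) (hL.cts' γ i) ?_
    rintro β ⟨hβ1, hβ2⟩ m
    by_cases hβ : β < γ
    · have hβA : β ∈ A := by
        rcases hβ1 with rfl | h
        · exact absurd hβ (lt_irrefl _)
        · exact h
      have e1 : (fun v : Om Λ => rp v β m) = fun v => v β m := by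
        funext v
        simp only [rp, if_pos hβ]
      rw [e1]
      exact Cts.coord (show β ∈ A ∩ Iio γ from ⟨hβA, hβ⟩) m
    · have e1 : (fun v : Om Λ => rp v β m) = fun _ => u β m := by
        funext v
        simp only [rp, if_neg hβ]
      rw [e1]
      exact Cts.const _ _
  obtain ⟨ℓ₂, hℓ₂, h₂⟩ := Cts.finset (Finset.range n) (fun i v => e (rp v) γ i) hcts u
  have hsub : ∀ ξ, (ℓ₁ + ℓ₂) ξ ≠ 0 → ξ ∈ A ∩ Iio γ := by
    intro ξ hξ
    by_cases h1 : ℓ₁ ξ = 0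
    · apply hℓ₂
      intro h2
      apply hξ
      rw [Finsupp.add_apply, h1, h2]
    · exact hℓ₁ ξ h1
  have hlγ : (ℓ₁ + ℓ₂) γ = 0 := by
    by_contra hne
    exact lt_irrefl γ (hsub γ hne).2
  have hins : Lav I (ins u (ℓ₁ + ℓ₂)) := Lav.ins u fun ξ hξ => hA (hsub ξ hξ).1
  have hag : ∀ v, Ag (ℓ₁ + ℓ₂) u (ins u (ℓ₁ + ℓ₂) v) := fun v => ag_ins u v _
  have hst : ∀ v, stem e γ (ins u (ℓ₁ + ℓ₂) v) = n := fun v =>
    h₁ _ ((hag v).mono fun ξ => by rw [Finsupp.add_apply]; exact Nat.le_add_right _ _)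
  refine h t (e ∘ ins u (ℓ₁ + ℓ₂)) (he.comp hins) ?_ ?_ ?_
  · intro v
    rw [he.stem_comp hins, hst, stem_ins, hlγ, ht, Nat.add_zero]
  · intro v
    rw [ht]
    refine pre_eq_iff.2 fun i hi => ?_
    show e (ins u (ℓ₁ + ℓ₂) v) γ i = e u γ i
    have h3 := h₂ (ins u (ℓ₁ + ℓ₂) v)
      ((hag v).mono fun ξ => by rw [Finsupp.add_apply]; exact Nat.le_add_left _ _) i
      (Finset.mem_range.2 hi)
    simp only [hrpu] at h3
    rw [← h3]
    refine (hL.pre γ (ins u (ℓ₁ + ℓ₂) v) (rp (ins u (ℓ₁ + ℓ₂) v)) 0 (hrp _)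
      (fun i hi => absurd hi (Nat.not_lt_zero _)) i ?_).symm
    rw [hst, Nat.add_zero]
    exact hi
  · have h4 := hb.comp hG hins
    rwa [Function.comp_assoc] at h4

end step

theorem PB_step {I : Set Λ} (h : ∀ γ ∈ I, PB (I ∩ Iio γ)) : PB I := by
  intro F hF G hG
  rcases F.eq_empty_or_nonempty with rfl | hne
  · by_cases hG' : ∃ k, Lav I k ∧ k ∈ G
    · obtain ⟨k, hk, hkG⟩ := hG'
      exact Or.inl ⟨k, hk, fun γ hγ => by simp at hγ, Barred.of_mem hkG⟩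
    · refine Or.inr ⟨id, Lav.id I, fun γ hγ => by simp at hγ, fun e he h' => hG' ⟨e, he, h'⟩⟩
  · set γ := F.max' hne with hγdef
    have hγF : γ ∈ F := F.max'_mem hne
    have hγ : γ ∈ I := hF hγF
    set F' := F.erase γ with hF'
    have hF'sub : (↑F' : Set Λ) ⊆ I ∩ Iio γ := by
      intro ξ hξ
      have h1 : ξ ∈ F' := hξ
      rw [hF', Finset.mem_erase] at h1
      exact ⟨hF h1.2, lt_of_le_of_ne (F.le_max' ξ h1.2) h1.1⟩
    have hins : (insert γ (↑F' : Set Λ)) = (↑F : Set Λ) := by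
      rw [hF', ← Finset.coe_insert, Finset.insert_erase hγF]
    rcases step0 hγ hG (h γ hγ) F' hF'sub with ⟨k, hk, hp, hb⟩ | ⟨k₀, hk₀, hp₀, hsb⟩
    · exact Or.inl ⟨k, hk, hins ▸ hp, hb⟩
    · obtain ⟨k, hk, hp, hQ⟩ := step2 hγ hG (TT_of_PB (h γ hγ)) hsb F' hF'sub
      have hk₀' : Lav I k₀ := hk₀.mono inter_subset_left
      have hk' : Lav I k := hk.mono inter_subset_left
      refine Or.inr ⟨k₀ ∘ k, hk₀'.comp hk', hins ▸ hp₀.comp hk₀' hk' hp, fun e he hmem => ?_⟩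
      exact not_barred_of_Qt hG hQ he (Barred.of_mem hmem)

/-- Pure decision holds for every set of coordinates. -/
theorem pb (I : Set Λ) : PB I := by
  have key : ∀ γ : Λ, ∀ I : Set Λ, PB (I ∩ Iio γ) := by
    intro γ
    induction γ using WellFoundedLT.induction with
    | ind γ ih =>
      intro I
      apply PB_step
      rintro ξ ⟨hξ, hξγ⟩
      exact ih ξ hξγ (I ∩ Iio γ)
  exact PB_step fun γ _ => key γ I

theorem tt (I : Set Λ) : TT I := TT_of_PB (pb I)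

end Pool.LV
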