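import Pool.Agent.Lib.MP_1c8600_lv.CD

/-!
# The decoding fusion
-/

set_option autoImplicit false
set_option linter.unusedSectionVars false

open Set

namespace Pool.LV

variable {Λ : Type} [LinearOrder Λ] [WellFoundedLT Λ]

/-- Same upper position. -/
def UC (π : Prot Λ) (δ : Λ) (u v : Om Λ) : Prop := ∀ γ ∈ π.F, δ ≤ γ → π.pos γ u = π.pos γ v

/-- References with convergence and deviation. -/
structure TPre (δ : Λ) (φ : Om Λ → ℕ → Bool) (π : Prot Λ) (f : Om Λ → Om Λ)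
    (R : Om Λ → Om Λ → ℕ → Bool) : Prop where
  hδ : δ ∈ π.F
  hf : Lav univ f
  hR : ∀ u₀, CC (Iio δ) (R u₀)
  hRc : ∀ u₀ u₁, UC π δ u₀ u₁ → R u₀ = R u₁
  conv : ∀ u N, (∀ γ ∈ π.F, δ ≤ γ → π.r γ (π.pos γ u) + N ≤ u γ (π.len γ u)) →
    ∀ i < N, φ (f u) i = R u u i
  dev : ∀ u, φ (f u) ≠ R u u

lemma uc_of_pres {δ : Λ} {π : Prot Λ} {b : Om Λ → Om Λ} (hb : Lav univ b) (hp : π.Pres b)
    (u : Om Λ) : UC π δ (b u) u := fun _ hγ _ => hp.pos hb hγ u

lemma len_of_pres {π : Prot Λ} {b : Om Λ → Om Λ} (hb : Lav univ b) (hp : π.Pres b)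
    {γ : Λ} (hγ : γ ∈ π.F) (u : Om Λ) : π.len γ (b u) = π.len γ u := by
  rw [← π.length_pos, ← π.length_pos, hp.pos hb hγ u]

/-- Inheritance by preserving maps. -/
theorem TPre.comp {δ : Λ} {φ : Om Λ → ℕ → Bool} {π : Prot Λ} {f : Om Λ → Om Λ}
    {R : Om Λ → Om Λ → ℕ → Bool} (h : TPre δ φ π f R) {b : Om Λ → Om Λ} (hb : Lav univ b)
    (hp : π.Pres b) : TPre δ φ π (f ∘ b) (fun u₀ u => R u₀ (b u)) where
  hδ := h.hδ
  hf := h.hf.comp hb
  hR := fun u₀ => CC.comp_lt (h.hR u₀) hb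
  hRc := fun u₀ u₁ hu => by
    funext u
    rw [h.hRc u₀ u₁ hu]
  conv := by
    intro u N hN i hi
    have h1 := h.conv (b u) N (fun γ hγ hδγ => by
      rw [hp.pos hb hγ u, len_of_pres hb hp hγ u]
      have h2 := hb.le_entry γ u (π.len γ u)
      rw [(hp γ hγ).1 u, Nat.zero_add] at h2
      exact (hN γ hγ hδγ).trans h2) i hi
    rw [h.hRc _ _ (uc_of_pres hb hp u)] at h1
    exact h1
  dev := by
    intro u
    have h1 := h.dev (b u)
    rw [h.hRc _ _ (uc_of_pres hb hp u)] at h1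
    exact h1

lemma cts_unJ (π : Prot Λ) {B : Set Λ} {β : Λ} (hβ : β ∈ B) (n : ℕ) :
    Cts B (fun u => π.unJ u β n) := by
  by_cases h : β ∈ π.F
  · have h1 : Cts B (fun u => (fun (s : List ℕ) (u : Om Λ) =>
        if n = 0 then u β s.length - π.r β s else u β (s.length + n)) (π.pos β u) u) := by
      refine Cts.bind (g := fun (s : List ℕ) (u : Om Λ) =>
        if n = 0 then u β s.length - π.r β s else u β (s.length + n)) (π.cts_pos hβ) fun s => ?_
      by_cases hn : n = 0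
      · simp only [hn, if_true]
        exact (Cts.coord hβ s.length).map fun x => x - π.r β s
      · simp only [hn, if_false]
        exact Cts.coord hβ (s.length + n)
    have h2 : (fun u => π.unJ u β n) = (fun u => (fun (s : List ℕ) (u : Om Λ) =>
        if n = 0 then u β s.length - π.r β s else u β (s.length + n)) (π.pos β u) u) := by
      funext u
      simp only [Prot.unJ, h, if_true, π.length_pos]
    rw [h2]
    exact h1
  · have h2 : (fun u => π.unJ u β n) = fun u => u β n := by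
      funext u
      simp only [Prot.unJ, h, if_false]
    rw [h2]
    exact Cts.coord hβ n

/-- `u` below `δ`, `u₀` above. -/
def mix (δ : Λ) (u u₀ : Om Λ) : Om Λ := fun ξ => if ξ < δ then u ξ else u₀ ξ

lemma pos_congr (π : Prot Λ) {ξ : Λ} {u v : Om Λ} (h : u ξ = v ξ) : π.pos ξ u = π.pos ξ v := by
  unfold Prot.pos
  rw [h]

lemma mix_self (δ : Λ) (u : Om Λ) : mix δ u u = u := by
  funext ξ
  simp [mix]

lemma cts_J_mix (π : Prot Λ) (δ : Λ) (u₀ : Om Λ) {A : Set Λ} (hA : (↑π.F ∩ Iio δ : Set Λ) ⊆ A) :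
    Cts A (fun u => π.J (mix δ u u₀)) := by
  classical
  intro u
  obtain ⟨ℓ, h1, h2⟩ := Cts.finset (A := A) (π.F.filter (· < δ)) (fun ξ u => π.pos ξ u)
    (fun ξ hξ => π.cts_pos (hA ⟨(Finset.mem_filter.1 hξ).1, (Finset.mem_filter.1 hξ).2⟩)) u
  refine ⟨ℓ, h1, fun v hv => π.J_congr fun ξ hξ => ?_⟩
  by_cases hlt : ξ < δ
  · rw [pos_congr π (show mix δ v u₀ ξ = v ξ by simp [mix, hlt]),
      pos_congr π (show mix δ u u₀ ξ = u ξ by simp [mix, hlt])]
    exact h2 v hv ξ (Finset.mem_filter.2 ⟨hξ, hlt⟩)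
  · exact pos_congr π (by simp [mix, hlt])

/-- The easy case: nothing changes above `δ`. -/
lemma add_easy {δ : Λ} {φ : Om Λ → ℕ → Bool} {π π' : Prot Λ}
    {f : Om Λ → Om Λ} {R : Om Λ → Om Λ → ℕ → Bool} (h : TPre δ φ π f R)
    (hF : π.F ⊆ π'.F) (hr : ∀ ξ ∈ π.F, δ ≤ ξ → π'.r ξ = π.r ξ) :
    ∃ b R', Lav univ b ∧ π'.Pres b ∧ TPre δ φ π' (f ∘ b) R' ∧
      ∀ u₀, (∀ ξ ∈ π.F, δ ≤ ξ → π'.pos ξ u₀ = π.pos ξ u₀) →
        ∀ u, R' u₀ u = R u₀ (b u) := by
  have hpos : ∀ ξ ∈ π.F, δ ≤ ξ → ∀ u, π'.pos ξ u = π.pos ξ u := by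
    intro ξ hξ hδξ u
    unfold Prot.pos
    rw [hr ξ hξ hδξ]
  refine ⟨id, R, Lav.id _, Prot.Pres.id, ⟨hF h.hδ, h.hf, h.hR, fun u₀ u₁ hu => ?_, ?_, h.dev⟩,
    fun _ _ _ => rfl⟩
  · refine h.hRc _ _ fun ξ hξ hδξ => ?_
    have := hu ξ (hF hξ) hδξ
    rwa [hpos ξ hξ hδξ, hpos ξ hξ hδξ] at this
  · intro u N hN i hi
    refine h.conv u N (fun ξ hξ hδξ => ?_) i hi
    have h1 := hN ξ (hF hξ) hδξ
    rw [hpos ξ hξ hδξ, hr ξ hξ hδξ] at h1
    have h2 : π'.len ξ u = π.len ξ u := by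
      unfold Prot.len
      rw [hr ξ hξ hδξ]
    rwa [h2] at h1

lemma uc_of_pres' {δ : Λ} {π : Prot Λ} {b : Om Λ → Om Λ} (hb : Lav univ b) (hp : π.Pres b)
    (u : Om Λ) : UC π δ (b u) u := fun _ hγ _ => hp.pos hb hγ u

lemma pos_ne_child {π : Prot Λ} {γ : Λ} {t : List ℕ} (u : Om Λ) :
    π.pos γ u ≠ t ++ [π.r γ t] := by
  intro h
  have h1 := π.nd_pos γ u
  rw [h] at h1
  have h2 := h1 t.length (by simp)
  simp at h2

/-- (S1) adding a node or a coordinate. -/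
theorem TPre.add {δ : Λ} {φ : Om Λ → ℕ → Bool} (hφ : CC univ φ) (hNC : NC δ φ) {π : Prot Λ}
    {f : Om Λ → Om Λ} {R : Om Λ → Om Λ → ℕ → Bool} (h : TPre δ φ π f R) (γ : Λ) (t : List ℕ) :
    ∃ b R', Lav univ b ∧ (π.add γ t).Pres b ∧ TPre δ φ (π.add γ t) (f ∘ b) R' ∧
      ∀ u₀, (∀ ξ ∈ π.F, δ ≤ ξ → (π.add γ t).pos ξ u₀ = π.pos ξ u₀) →
        ∀ u, R' u₀ u = R u₀ (b u) := by
  classical
  have hle := Prot.le_add π γ t
  by_cases hγ : γ ∈ π.F
  swap
  · refine add_easy h hle.1 fun ξ hξ _ => Prot.add_r_ne (fun heq => ?_) t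
    rw [heq] at hξ
    exact hγ hξ
  by_cases ht : Nd (π.r γ) t
  swap
  · rw [Prot.add_r_bad hγ ht]
    exact add_easy h (Finset.Subset.refl _) fun _ _ _ => rfl
  by_cases hδγ : δ ≤ γ
  swap
  · refine add_easy h hle.1 fun ξ hξ hδξ => Prot.add_r_ne (fun heq => ?_) t
    exact hδγ (heq ▸ hδξ)
  -- the main case
  set π' := π.add γ t with hπ'
  have hF' : π'.F = π.F := Prot.add_F_old hγ t
  have hδ' : δ ∈ π'.F := hle.1 h.hδ
  have hγ' : γ ∈ π'.F := hle.1 hγ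
  set W : Set (Om Λ) := {u | π'.pos γ u = t ++ [π.r γ t]} with hW
  have hW2 : ∀ u, u ∉ W → π'.pos γ u = π.pos γ u := by
    intro u hu
    have h1 := Prot.pos_add_node hγ ht u
    by_cases hc : π.pos γ u = t ∧ u γ t.length = π.r γ t
    · rw [if_pos hc] at h1
      exact absurd h1 hu
    · rwa [if_neg hc] at h1
  obtain ⟨b, hb, hp, hQ, -⟩ := Prot.allcells (π := π') (I := univ) (subset_univ _) f W
    (fun _ g => ∃ Y, CC (Iio δ) Y ∧ (∀ v N, (∀ ξ ∈ π'.F, δ ≤ ξ → N ≤ v ξ 0) →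
      ∀ i < N, φ (g v) i = Y v i) ∧ ∀ v, φ (g v) ≠ Y v)
    (fun u u₀ hc hu => by
      show π'.pos γ u = _
      rw [hc γ hγ']
      exact hu)
    (fun _ _ _ _ h => h)
    (fun _ g e ⟨Y, hY, hconv, hdev⟩ he hpe => by
      refine ⟨Y ∘ e, CC.comp_lt hY he, fun v N hN i hi => ?_, fun v => hdev (e v)⟩
      refine hconv (e v) N (fun ξ hξ hδξ => ?_) i hi
      have h1 := he.le_entry ξ v 0
      rw [hpe ξ hξ v] at h1
      exact (hN ξ hξ hδξ).trans h1)
    (fun b hb hp u₀ _ => by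
      have hg : Lav univ (f ∘ b ∘ π'.J u₀) :=
        h.hf.comp (hb.comp (π'.lav_J (subset_univ _) u₀))
      obtain ⟨e, Y, he, hpe, hY, hconv, hdev⟩ := CD (hφ.comp hg) (hNC.comp hg) hδ'
      exact ⟨e, he, hpe, Y, hY, hconv, hdev⟩)
  have hp0 : π.Pres b := hp.anti hle
  have hcomp := TPre.comp h hb hp0
  -- the new references
  set P : (Om Λ → Om Λ) → (Om Λ → ℕ → Bool) → Prop := fun j Y => CC (Iio δ) Y ∧
    (∀ v N, (∀ ξ ∈ π'.F, δ ≤ ξ → N ≤ v ξ 0) → ∀ i < N, φ (f (b (j v))) i = Y v i) ∧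
      ∀ v, φ (f (b (j v))) ≠ Y v with hP
  have hYex : ∀ j : Om Λ → Om Λ, ∃ Y, CC (Iio δ) Y ∧ ((∃ Y', P j Y') → P j Y) := by
    intro j
    by_cases hj : ∃ Y', P j Y'
    · obtain ⟨Y, hY⟩ := hj
      exact ⟨Y, hY.1, fun _ => hY⟩
    · exact ⟨fun _ _ => false, ⟨∅, empty_subset _, countable_empty, fun n => Cts.const _ _⟩,
        fun h' => absurd h' hj⟩
  choose Yof hYcc hYof using hYex
  have hYW : ∀ u ∈ W, P (π'.J u) (Yof (π'.J u)) := by
    intro u hu
    obtain ⟨Y, h1, h2, h3⟩ := hQ u hu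
    exact hYof _ ⟨Y, h1, h2, h3⟩
  set R' : Om Λ → Om Λ → ℕ → Bool := fun u₀ u =>
    if u₀ ∈ W then Yof (π'.J (mix δ u u₀)) (π'.unJ u) else R u₀ (b u) with hR'
  have hR'W : ∀ u₀ ∈ W, ∀ u, R' u₀ u = Yof (π'.J (mix δ u u₀)) (π'.unJ u) := by
    intro u₀ hu₀ u
    simp only [hR', hu₀, if_true]
  have hR'N : ∀ u₀, u₀ ∉ W → ∀ u, R' u₀ u = R u₀ (b u) := by
    intro u₀ hu₀ u
    simp only [hR', hu₀, if_false]
  have hlen : ∀ u, u ∉ W → ∀ ξ ∈ π.F, π'.pos ξ u = π.pos ξ u ∧ π'.len ξ u = π.len ξ u := by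
    intro u hu ξ hξ
    have h1 : π'.pos ξ u = π.pos ξ u := by
      by_cases hξγ : ξ = γ
      · subst hξγ
        exact hW2 u hu
      · exact Prot.pos_add_ne hξγ t u
    refine ⟨h1, ?_⟩
    rw [← Prot.length_pos, ← Prot.length_pos, h1]
  refine ⟨b, R', hb, hp, ⟨hδ', h.hf.comp hb, ?_, ?_, ?_, ?_⟩, ?_⟩
  · -- support
    intro u₀
    by_cases hu₀ : u₀ ∈ W
    · choose B hBδ hBc hBY using hYcc
      obtain ⟨s, hs⟩ := π'.finite_cells
      refine ⟨(↑π'.F ∩ Iio δ) ∪ ⋃ w ∈ s, B (π'.J w), union_subset inter_subset_right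
        (iUnion₂_subset fun w _ => hBδ _), (π'.F.countable_toSet.mono inter_subset_left).union
        (s.countable_toSet.biUnion fun w _ => hBc _), fun n => ?_⟩
      set A : Set Λ := (↑π'.F ∩ Iio δ) ∪ ⋃ w ∈ s, B (π'.J w) with hA
      have h1 : (fun u => R' u₀ u n) = fun u => (fun (j : Om Λ → Om Λ) (u : Om Λ) =>
          if ∃ w ∈ s, j = π'.J w then Yof j (π'.unJ u) n else false)
            (π'.J (mix δ u u₀)) u := by
        funext u
        obtain ⟨w, hw, hc⟩ := hs (mix δ u u₀)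
        have h2 : ∃ w ∈ s, π'.J (mix δ u u₀) = π'.J w := ⟨w, hw, π'.J_congr hc⟩
        rw [hR'W u₀ hu₀ u]
        simp only [h2, if_true]
      rw [h1]
      refine Cts.bind (g := fun (j : Om Λ → Om Λ) (u : Om Λ) =>
          if ∃ w ∈ s, j = π'.J w then Yof j (π'.unJ u) n else false)
        (cts_J_mix π' δ u₀ subset_union_left) fun j => ?_
      by_cases hj : ∃ w ∈ s, j = π'.J w
      · simp only [hj, if_true]
        obtain ⟨w, hw, rfl⟩ := hj
        refine Cts.comp (B := B (π'.J w)) (f := fun v => Yof (π'.J w) v n) (hBY _ n)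
          fun β hβ m => cts_unJ π' (Or.inr (mem_biUnion (show w ∈ s from hw) hβ)) m
      · simp only [hj, if_false]
        exact Cts.const _ _
    · have h1 : R' u₀ = R u₀ ∘ b := by
        funext u
        exact hR'N u₀ hu₀ u
      rw [h1]
      exact CC.comp_lt (h.hR u₀) hb
  · -- congruence
    intro u₀ u₁ hu
    have hγeq := hu γ hγ' hδγ
    by_cases hu₀ : u₀ ∈ W
    · have hu₁ : u₁ ∈ W := by
        show π'.pos γ u₁ = _
        rw [← hγeq]
        exact hu₀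
      funext u
      rw [hR'W u₀ hu₀, hR'W u₁ hu₁]
      have h1 : π'.J (mix δ u u₀) = π'.J (mix δ u u₁) := by
        refine π'.J_congr fun ξ hξ => ?_
        by_cases hlt : ξ < δ
        · exact pos_congr π' (by simp [mix, hlt])
        · rw [pos_congr π' (show mix δ u u₀ ξ = u₀ ξ by simp [mix, hlt]),
            pos_congr π' (show mix δ u u₁ ξ = u₁ ξ by simp [mix, hlt])]
          exact hu ξ hξ (not_lt.1 hlt)
      rw [h1]
    · have hu₁ : u₁ ∉ W := by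
        intro h1
        apply hu₀
        show π'.pos γ u₀ = _
        rw [hγeq]
        exact h1
      funext u
      rw [hR'N u₀ hu₀, hR'N u₁ hu₁]
      have h1 : R u₀ = R u₁ := by
        refine h.hRc _ _ fun ξ hξ hδξ => ?_
        rw [← (hlen u₀ hu₀ ξ hξ).1, ← (hlen u₁ hu₁ ξ hξ).1]
        exact hu ξ (hle.1 hξ) hδξ
      rw [h1]
  · -- convergence
    intro u N hN i hi
    by_cases hu : u ∈ W
    · rw [hR'W u hu, mix_self]
      obtain ⟨-, h2, -⟩ := hYW u hu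
      have h3 := h2 (π'.unJ u) N (fun ξ hξ hδξ => by
        have h4 := hN ξ hξ hδξ
        simp only [Prot.unJ, hξ, if_true]
        omega) i hi
      rw [π'.J_unJ (Prot.Cell.refl π' u)] at h3
      exact h3
    · rw [hR'N u hu]
      refine hcomp.conv u N (fun ξ hξ hδξ => ?_) i hi
      have h4 := hN ξ (hle.1 hξ) hδξ
      rw [(hlen u hu ξ hξ).1, (hlen u hu ξ hξ).2] at h4
      have h5 := hle.2 ξ hξ (π.pos ξ u)
      omega
  · -- deviation
    intro u
    by_cases hu : u ∈ W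
    · rw [hR'W u hu, mix_self]
      obtain ⟨-, -, h3⟩ := hYW u hu
      have h4 := h3 (π'.unJ u)
      rw [π'.J_unJ (Prot.Cell.refl π' u)] at h4
      exact h4
    · rw [hR'N u hu]
      exact hcomp.dev u
  · intro u₀ hu₀ u
    refine hR'N u₀ (fun hW' => ?_) u
    have h1 := hu₀ γ hγ hδγ
    have h2 : π'.pos γ u₀ = t ++ [π.r γ t] := hW'
    rw [h2] at h1
    exact pos_ne_child u₀ h1.symm

/-- A barred map has a continuous choice of witnesses (row T3). -/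
private theorem T3_bound {I : Set Λ} {P : ℕ → (Om Λ → Om Λ) → Prop} {b : Om Λ → Om Λ}
    (hb : Barred I {q | ∃ n, P n q} b) :
    ∃ N : Om Λ → ℕ, (∃ A ⊆ I, A.Countable ∧ Cts A N) ∧
      ∀ u, ∃ (w : Om Λ) (ℓ : Λ →₀ ℕ), Ag ℓ w u ∧ P (N u) (b ∘ ins w ℓ) := by
  obtain ⟨B, hB, hBc, hbB⟩ := hb
  set S : Set (Om Λ → Om Λ) := {j | (∃ (u : Om Λ) (ℓ : Λ →₀ ℕ), (∀ ξ, ℓ ξ ≠ 0 → ξ ∈ B) ∧
    j = ins u ℓ) ∧ ∃ n, P n (b ∘ j)} with hS
  have hSc : S.Countable := (countable_ins hBc).mono fun j hj => hj.1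
  have hSne : S.Nonempty := by
    obtain ⟨ℓ, hℓ, h⟩ := hbB (fun _ _ => 0)
    exact ⟨_, ⟨_, ℓ, hℓ, rfl⟩, h⟩
  obtain ⟨j, hj⟩ := hSc.exists_eq_range hSne
  have hjS : ∀ i, j i ∈ S := fun i => by
    rw [hj]
    exact mem_range_self i
  choose w ℓ hℓ hjw using fun i => (hjS i).1
  choose n hn using fun i => (hjS i).2
  have hex : ∀ u, ∃ i, Ag (ℓ i) (w i) u := by
    intro u
    obtain ⟨ℓ', hℓ', h⟩ := hbB u
    have h1 : ins u ℓ' ∈ S := ⟨⟨u, ℓ', hℓ', rfl⟩, h⟩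
    rw [hj] at h1
    obtain ⟨i, hi⟩ := h1
    refine ⟨i, ?_⟩
    have h2 : u = ins (w i) (ℓ i) (strip ℓ' u) := by
      rw [← hjw i, hi, ins_strip (Ag.refl ℓ' u)]
    rw [h2]
    exact ag_ins _ _ _
  have hp : ∀ i, Cts B (fun u => Ag (ℓ i) (w i) u) := by
    intro i u
    refine ⟨ℓ i, hℓ i, fun v hv => ?_⟩
    apply propext
    exact ⟨fun h => h.trans hv.symm, fun h => h.trans hv⟩
  refine ⟨fun u => n (sInf {i | Ag (ℓ i) (w i) u}), ⟨B, hB, hBc, ?_⟩, ?_⟩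
  · exact (Cts.find (fun i u => Ag (ℓ i) (w i) u) hp hex).map n
  · intro u
    have h1 : Ag (ℓ (sInf {i | Ag (ℓ i) (w i) u})) (w (sInf {i | Ag (ℓ i) (w i) u})) u :=
      Nat.sInf_mem (s := {i | Ag (ℓ i) (w i) u}) (hex u)
    refine ⟨_, _, h1, ?_⟩
    rw [← hjw]
    exact hn _

/-- The part of a protection below `δ` (row T3). -/
private noncomputable def T3_low (π : Prot Λ) (δ : Λ) : Prot Λ :=
  ⟨π.F.filter (· < δ), π.r, π.hr⟩

/-- (S2) deciding the equalities of the references. -/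
theorem TPre.decide {δ : Λ} {φ : Om Λ → ℕ → Bool} {π : Prot Λ}
    {f : Om Λ → Om Λ} {R : Om Λ → Om Λ → ℕ → Bool} (h : TPre δ φ π f R) :
    ∃ b M, Lav (Iio δ) b ∧ π.Pres b ∧ (∃ A ⊆ Iio δ, A.Countable ∧ Cts A M) ∧
      ∀ u₀ u₁ u, (∀ i < M u, R u₀ (b u) i = R u₁ (b u) i) → R u₀ (b u) = R u₁ (b u) := by
  obtain ⟨s, hs⟩ := π.finite_cells
  have hne : Nonempty (↥s × ↥s) := by
    obtain ⟨a, ha, -⟩ := hs (fun _ _ => 0)
    exact ⟨⟨⟨a, ha⟩, ⟨a, ha⟩⟩⟩
  obtain ⟨g, hg⟩ := exists_surjective_nat (↥s × ↥s)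
  set P : ↥s × ↥s → ℕ → (Om Λ → Om Λ) → Prop := fun x n q =>
    (∀ u, R x.1 (q u) = R x.2 (q u)) ∨ ∀ u, ∃ i < n, R x.1 (q u) i ≠ R x.2 (q u) i with hP
  set D : ℕ → Set (Om Λ → Om Λ) := fun n => {q | ∃ m, P (g n) m q} with hD
  have hDri : ∀ n, RI (Iio δ) (D n) := by
    rintro n q ⟨m, hm⟩ e he
    rcases hm with hm | hm
    · exact ⟨m, Or.inl fun u => hm (e u)⟩
    · exact ⟨m, Or.inr fun u => hm (e u)⟩
  have hDd : ∀ n q, Lav (Iio δ) q → ∃ e, Lav (Iio δ) e ∧ q ∘ e ∈ D n := by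
    intro n q hq
    by_cases hc : ∀ u, R (g n).1 (q u) = R (g n).2 (q u)
    · exact ⟨id, Lav.id _, 0, Or.inl hc⟩
    · push Not at hc
      obtain ⟨u, hu⟩ := hc
      obtain ⟨i, hi⟩ := Function.ne_iff.1 hu
      obtain ⟨A₁, hA₁, hc₁, h₁⟩ := CC.comp_lt (h.hR (g n).1) hq
      obtain ⟨A₂, hA₂, hc₂, h₂⟩ := CC.comp_lt (h.hR (g n).2) hq
      have h3 : Cts (A₁ ∪ A₂) (fun u => ((R (g n).1 ∘ q) u i, (R (g n).2 ∘ q) u i)) :=
        ((h₁ i).mono subset_union_left).map₂ ((h₂ i).mono subset_union_right) Prod.mk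
      obtain ⟨ℓ, hℓ, hv⟩ := h3 u
      refine ⟨ins u ℓ, Lav.ins u fun ξ hξ => ?_, i + 1, Or.inr fun v => ⟨i, Nat.lt_succ_self i, ?_⟩⟩
      · rcases hℓ ξ hξ with h' | h'
        · exact hA₁ h'
        · exact hA₂ h'
      · have h5 := hv (ins u ℓ v) (ag_ins u v ℓ)
        rw [Prod.mk.injEq] at h5
        have h6 : R (g n).1 (q (ins u ℓ v)) i = R (g n).1 (q u) i := h5.1
        have h7 : R (g n).2 (q (ins u ℓ v)) i = R (g n).2 (q u) i := h5.2
        change R (g n).1 (q (ins u ℓ v)) i ≠ R (g n).2 (q (ins u ℓ v)) i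
        rw [h6, h7]
        exact hi
  have hlow : (↑(T3_low π δ).F : Set Λ) ⊆ Iio δ := by
    intro ξ hξ
    exact (Finset.mem_filter.1 (Finset.mem_coe.1 hξ)).2
  obtain ⟨b, hb, hbp, hbQ, -⟩ := Prot.allcells (π := T3_low π δ) hlow id univ
    (fun _ q => ∀ n, Barred (Iio δ) (D n) q) (fun _ _ _ _ => mem_univ _) (fun _ _ _ _ h' => h')
    (fun _ q e hq he _ n => (hq n).comp (hDri n) he)
    (fun b hb hbp u₀ _ => by
      have hbJ : Lav (Iio δ) (b ∘ (T3_low π δ).J u₀) := hb.comp (Prot.lav_J _ hlow u₀)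
      obtain ⟨e, he, hep, hbar⟩ := tt (Iio δ) (T3_low π δ).F hlow
        (fun n => {e | b ∘ (T3_low π δ).J u₀ ∘ e ∈ D n}) (fun n => ⟨fun q hq e he =>
          hDri n _ hq e he, fun q hq => by
            obtain ⟨e, he, hm⟩ := hDd n _ (hbJ.comp hq)
            exact ⟨e, he, hm⟩⟩)
      refine ⟨e, he, hep, fun n => ?_⟩
      obtain ⟨A, hA, hc, hu⟩ := hbar n
      exact ⟨A, hA, hc, hu⟩)
  have hbar : ∀ n, Barred (Iio δ) (D n) b := fun n =>
    Prot.barred_of_cells hlow (hDri n) fun u₀ => hbQ u₀ (mem_univ _) n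
  have hbound : ∀ x : ↥s × ↥s, ∃ N : Om Λ → ℕ, (∃ A ⊆ Iio δ, A.Countable ∧ Cts A N) ∧
      ∀ u, ∃ (w : Om Λ) (ℓ : Λ →₀ ℕ), Ag ℓ w u ∧ P x (N u) (b ∘ ins w ℓ) := by
    intro x
    obtain ⟨n, rfl⟩ := hg x
    exact T3_bound (hbar n)
  choose N hN hNP using hbound
  choose A hA hAc hAN using hN
  refine ⟨b, fun u => Finset.univ.sup fun x : ↥s × ↥s => N x u, hb, ?_,
    ⟨⋃ x, A x, iUnion_subset hA, countable_iUnion hAc, ?_⟩, ?_⟩
  · intro ξ hξ
    by_cases hξδ : ξ < δ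
    · exact hbp ξ (Finset.mem_filter.2 ⟨hξ, hξδ⟩)
    · exact ⟨fun u => hb.stem_off hξδ u, fun u i _ => by rw [hb.off hξδ u]⟩
  · intro u
    obtain ⟨ℓ, hℓ, hv⟩ := Cts.finset (A := ⋃ x, A x) (Finset.univ : Finset (↥s × ↥s))
      (fun x u => N x u) (fun x _ => (hAN x).mono (subset_iUnion A x)) u
    exact ⟨ℓ, hℓ, fun v hav => Finset.sup_congr rfl fun x hx => hv v hav x hx⟩
  · intro u₀ u₁ u hM
    obtain ⟨a, ha, hca⟩ := hs u₀
    obtain ⟨c, hc, hcc⟩ := hs u₁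
    have e0 : R u₀ = R a := h.hRc u₀ a fun γ hγ _ => hca γ hγ
    have e1 : R u₁ = R c := h.hRc u₁ c fun γ hγ _ => hcc γ hγ
    rw [e0, e1] at hM ⊢
    obtain ⟨w, ℓ, hag, hPx⟩ := hNP (⟨a, ha⟩, ⟨c, hc⟩) u
    have hu : ins w ℓ (strip ℓ u) = u := ins_strip hag
    rcases hPx with hPx | hPx
    · have := hPx (strip ℓ u)
      rwa [Function.comp_apply, hu] at this
    · obtain ⟨i, hi, hne'⟩ := hPx (strip ℓ u)
      rw [Function.comp_apply, hu] at hne'
      have hle : N (⟨a, ha⟩, ⟨c, hc⟩) u ≤ Finset.univ.sup fun x : ↥s × ↥s => N x u :=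
        Finset.le_sup (f := fun x : ↥s × ↥s => N x u) (Finset.mem_univ _)
      exact absurd (hM i (hi.trans_le hle)) hne'

open Classical in
/-- The shift. -/
noncomputable def shf (δ : Λ) (π : Prot Λ) (M : Om Λ → ℕ) (u : Om Λ) : Om Λ := fun γ i =>
  if γ ∈ π.F ∧ δ ≤ γ then (if i = π.len γ u then u γ i + M u else u γ i) else u γ i

lemma shf_pos {δ : Λ} {π : Prot Λ} {M : Om Λ → ℕ} {u : Om Λ} {γ : Λ} (h : γ ∈ π.F ∧ δ ≤ γ)
    (i : ℕ) : shf δ π M u γ i = if i = π.len γ u then u γ i + M u else u γ i := by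
  simp only [shf, h, and_self, if_true]

lemma shf_neg {δ : Λ} {π : Prot Λ} {M : Om Λ → ℕ} {u : Om Λ} {γ : Λ} (h : ¬ (γ ∈ π.F ∧ δ ≤ γ)) :
    shf δ π M u γ = u γ := by
  funext i
  simp only [shf, h, if_false]

lemma plen_eq_iff {r : List ℕ →₀ ℕ} {y z : ℕ → ℕ} {l i : ℕ} (h : ∀ j < l, z j = y j)
    (hi : i < l) : i = plen r z ↔ i = plen r y := by
  constructor
  · intro hz
    have h1 : plen r y = plen r z := by
      apply plen_eq
      · intro j hj
        exact (h j (by omega)).symm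
      · rw [← hz, ← h i hi, hz]
        exact plen_spec r z
    omega
  · intro hy
    have h1 : plen r z = plen r y := by
      apply plen_eq
      · intro j hj
        exact h j (by omega)
      · rw [← hy, h i hi, hy]
        exact plen_spec r y
    omega

lemma lav_shf {δ : Λ} {π : Prot Λ} {M : Om Λ → ℕ} {A : Set Λ} (hA : A ⊆ Iio δ)
    (hc : A.Countable) (hM : Cts A M) :
    IsL (↑π.F ∪ A) (shf δ π M) ∧ ∀ γ u, stem (shf δ π M) γ u = 0 := by
  have hMe : ∀ γ u v, δ ≤ γ → Bel γ u v → M v = M u := fun γ u v hγ h =>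
    hM.eq_of fun ξ hξ => h ξ (lt_of_lt_of_le (hA hξ) hγ)
  refine isL_of (fun _ _ => 0) (π.F.countable_toSet.union hc) (fun γ hγ u => shf_neg fun h =>
    hγ (Or.inl h.1)) (fun _ _ _ => rfl) ?_ (fun γ _ => Cts.const _ _) ?_ ?_
  · intro γ hγ n
    have hγ' : γ ∈ ((↑π.F ∪ A) ∩ Iic γ : Set Λ) := ⟨hγ, le_refl γ⟩
    by_cases h : γ ∈ π.F ∧ δ ≤ γ
    · have h1 : Cts ((↑π.F ∪ A) ∩ Iic γ) (fun u => π.len γ u) := by
        have := (π.cts_pos (A := (↑π.F ∪ A) ∩ Iic γ) (γ := γ) hγ').map List.length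
        simpa only [π.length_pos] using this
      have h2 : Cts ((↑π.F ∪ A) ∩ Iic γ) M :=
        hM.mono fun ξ hξ => ⟨Or.inr hξ, ((hA hξ).trans_le h.2).le⟩
      have h3 : Cts ((↑π.F ∪ A) ∩ Iic γ) (fun u : Om Λ => u γ n) := Cts.coord hγ' n
      have h4 := h1.map₂ (h3.map₂ h2 fun a b => (a, b))
        (fun p q => if n = p then q.1 + q.2 else q.1)
      have h5 : (fun u => shf δ π M u γ n) =
          fun u => if n = π.len γ u then u γ n + M u else u γ n := by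
        funext u
        exact shf_pos h n
      rw [h5]
      exact h4
    · have h5 : (fun u => shf δ π M u γ n) = fun u => u γ n := by
        funext u
        rw [shf_neg h]
      rw [h5]
      exact Cts.coord hγ' n
  · intro γ u v l hB hl i hi
    rw [Nat.zero_add] at hi
    by_cases h : γ ∈ π.F ∧ δ ≤ γ
    · rw [shf_pos h, shf_pos h, hMe γ u v h.2 hB, hl i hi]
      have h1 : (i = π.len γ v) ↔ (i = π.len γ u) := plen_eq_iff hl hi
      simp only [h1]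
    · rw [shf_neg h, shf_neg h]
      exact hl i hi
  · intro γ u v l hB hl hlt
    simp only [Nat.zero_add]
    by_cases h : γ ∈ π.F ∧ δ ≤ γ
    · rw [shf_pos h, shf_pos h, hMe γ u v h.2 hB]
      have hpre : LV.pre (v γ) l = LV.pre (u γ) l := pre_eq_iff.2 hl
      by_cases h1 : l = π.len γ u
      · have h2 : l = π.len γ v := by
          have h3 : plen (π.r γ) (v γ) = plen (π.r γ) (u γ) := by
            have h1' : l = plen (π.r γ) (u γ) := h1
            apply plen_eq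
            · intro j hj
              exact hl j (by omega)
            · have h4 := plen_spec (π.r γ) (u γ)
              rw [← h1'] at h4 ⊢
              omega
          exact h1.trans h3.symm
        rw [if_pos h1, if_pos h2]
        omega
      · rw [if_neg h1]
        split_ifs <;> omega
    · rw [shf_neg h, shf_neg h]
      exact hlt

/-- (S3) the global shift. -/
theorem TPre.shift {δ : Λ} {φ : Om Λ → ℕ → Bool} {π : Prot Λ}
    {f : Om Λ → Om Λ} {R : Om Λ → Om Λ → ℕ → Bool} (h : TPre δ φ π f R) {M : Om Λ → ℕ}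
    (hM : ∃ A ⊆ Iio δ, A.Countable ∧ Cts A M) :
    ∃ s, Lav univ s ∧ π.Pres s ∧ (∀ u, Bel δ u (s u)) ∧
      ∀ u, ∀ i < M u, φ (f (s u)) i = R u u i := by
  obtain ⟨A, hA, hc, hM⟩ := hM
  obtain ⟨hs, hst⟩ := lav_shf (π := π) hA hc hM
  have hsl : Lav univ (shf δ π M) := ⟨_, subset_univ _, hs⟩
  have hp : π.Pres (shf δ π M) := by
    intro γ hγ
    refine ⟨hst γ, fun u i hi => ?_⟩
    by_cases h : γ ∈ π.F ∧ δ ≤ γ
    · rw [shf_pos h, if_neg hi.ne]
    · rw [shf_neg h]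
  have hBel : ∀ u, Bel δ u (shf δ π M u) := fun u ξ hξ => shf_neg fun h => absurd h.2 (not_le.2 hξ)
  refine ⟨shf δ π M, hsl, hp, hBel, fun u i hi => ?_⟩
  have h1 := h.conv (shf δ π M u) (M u) (fun γ hγ hδγ => by
    rw [hp.pos hsl hγ u, len_of_pres hsl hp hγ u, shf_pos ⟨hγ, hδγ⟩, if_pos rfl]
    have h2 := plen_spec (π.r γ) (u γ)
    have h3 : π.r γ (π.pos γ u) ≤ u γ (π.len γ u) := h2
    omega) i hi
  rw [h1, h.hRc _ _ (uc_of_pres hsl hp u), (h.hR u).eq_of_bel (hBel u)]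

/-- The state. -/
structure TS (Λ : Type) where
  π : Prot Λ
  f : Om Λ → Om Λ
  R : Om Λ → Om Λ → ℕ → Bool
  M : Om Λ → ℕ
  n : ℕ

/-- The invariant. -/
structure TInv (δ : Λ) (φ : Om Λ → ℕ → Bool) (σ : TS Λ) : Prop
    extends TPre δ φ σ.π σ.f σ.R where
  hM : ∃ A ⊆ Iio δ, A.Countable ∧ Cts A σ.M
  I2 : ∀ u₀ u₁ u, (∀ i < σ.M u, σ.R u₀ u i = σ.R u₁ u i) → σ.R u₀ u = σ.R u₁ u
  I3 : ∀ u, ∀ i < σ.M u, φ (σ.f u) i = σ.R u u i
  hn : ∀ u, σ.n ≤ σ.M u

/-- A step. -/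
structure TStep (δ : Λ) (σ : TS Λ) (b : Om Λ → Om Λ) (σ' : TS Λ) : Prop where
  hb : Lav univ b
  hp : σ.π.Pres b
  hπ : ∃ γ t, σ'.π = σ.π.add γ t
  hf : σ'.f = σ.f ∘ b
  hR : ∀ u₀, (∀ ξ ∈ σ.π.F, δ ≤ ξ → σ'.π.pos ξ u₀ = σ.π.pos ξ u₀) →
    ∀ u, σ'.R u₀ u = σ.R u₀ (b u)
  hM : ∀ u, σ.M (b u) ≤ σ'.M u
  hn : σ'.n = σ.n + 1

lemma plen_zero (y : ℕ → ℕ) : plen 0 y = 0 := by
  unfold plen
  exact Nat.sInf_eq_zero.2 (Or.inl (Nat.zero_le _))

theorem T4_init {δ : Λ} {φ : Om Λ → ℕ → Bool} (hφ : CC univ φ) (hNC : NC δ φ) :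
    ∃ σ : TS Λ, TInv δ φ σ ∧ σ.n = 0 ∧ σ.π = Prot.bare {δ} := by
  obtain ⟨e, Y, he, hp, hY, hconv, hdev⟩ := CD hφ hNC (F := {δ}) (Finset.mem_singleton_self δ)
  refine ⟨⟨Prot.bare {δ}, e, fun _ => Y, fun _ => 0, 0⟩, ?_, rfl, rfl⟩
  refine ⟨⟨Finset.mem_singleton_self δ, he, fun _ => hY, fun _ _ _ => rfl, ?_, hdev⟩, ?_, ?_, ?_, ?_⟩
  · intro u N hN i hi
    refine hconv u N (fun γ hγ hδγ => ?_) i hi
    have h1 := hN γ hγ hδγ
    have h2 : (Prot.bare ({δ} : Finset Λ)).len γ u = 0 := plen_zero _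
    rw [h2] at h1
    exact (Nat.le_add_left _ _).trans h1
  · exact ⟨∅, empty_subset _, countable_empty, Cts.const _ _⟩
  · intro u₀ u₁ u _
    rfl
  · intro u i hi
    exact absurd hi (Nat.not_lt_zero _)
  · intro u
    exact le_rfl

/-- Continuous functions with support below `δ` are closed under composition with Laver maps. -/
private lemma T4_stage_comp {δ : Λ} {M : Om Λ → ℕ}
    (hM : ∃ A ⊆ Iio δ, A.Countable ∧ Cts A M) {g : Om Λ → Om Λ} (hg : Lav univ g) :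
    ∃ A ⊆ Iio δ, A.Countable ∧ Cts A (fun u => M (g u)) := by
  obtain ⟨A, hA, hAc, hM⟩ := hM
  obtain ⟨B, -, hBc, hB⟩ := hg.cts
  refine ⟨(A ∪ B) ∩ Iio δ, inter_subset_right, (hAc.union hBc).mono inter_subset_left, ?_⟩
  refine Cts.comp (f := M) (h := g) hM fun β hβ n => (hB β n).mono ?_
  rintro ξ ⟨h1, h2⟩
  refine ⟨?_, lt_of_le_of_lt (mem_Iic.1 h2) (hA hβ)⟩
  rcases h1 with rfl | h1
  · exact Or.inl hβ
  · exact Or.inr h1

private lemma T4_stage_max {δ : Λ} {M M' : Om Λ → ℕ}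
    (hM : ∃ A ⊆ Iio δ, A.Countable ∧ Cts A M) (hM' : ∃ A ⊆ Iio δ, A.Countable ∧ Cts A M') :
    ∃ A ⊆ Iio δ, A.Countable ∧ Cts A (fun u => max (M u) (M' u)) := by
  obtain ⟨A, hA, hAc, hM⟩ := hM
  obtain ⟨B, hB, hBc, hM'⟩ := hM'
  exact ⟨A ∪ B, union_subset hA hB, hAc.union hBc,
    (hM.mono subset_union_left).map₂ (hM'.mono subset_union_right) fun a b => max a b⟩

theorem T4_stage {δ : Λ} {φ : Om Λ → ℕ → Bool} (hφ : CC univ φ) (hNC : NC δ φ) {σ : TS Λ}
    (h : TInv δ φ σ) (γ : Λ) (t : List ℕ) :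
    ∃ b σ', TInv δ φ σ' ∧ TStep δ σ b σ' ∧ σ'.π = σ.π.add γ t := by
  obtain ⟨b₁, R₁, hb₁, hp₁, hT₁, hR₁⟩ := TPre.add hφ hNC h.toTPre γ t
  obtain ⟨b₂, M₂, hb₂, hp₂, hM₂, hE₂⟩ := TPre.decide hT₁
  have hb₂' : Lav univ b₂ := hb₂.univ
  have hT₂ := hT₁.comp hb₂' hp₂
  have hb₁₂ : Lav univ (b₁ ∘ b₂) := hb₁.comp hb₂'
  have hMM : ∃ A ⊆ Iio δ, A.Countable ∧
      Cts A (fun u => max (max (σ.M ((b₁ ∘ b₂) u)) (M₂ u)) (σ.n + 1)) :=
    T4_stage_max (T4_stage_max (T4_stage_comp h.hM hb₁₂) hM₂)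
      ⟨∅, empty_subset _, countable_empty, Cts.const _ _⟩
  obtain ⟨s, hs, hps, hbel, hI3⟩ := hT₂.shift hMM
  have hT₃ := hT₂.comp hs hps
  -- the references do not see the shift
  have hRs : ∀ u₀ u, R₁ u₀ (b₂ (s u)) = R₁ u₀ (b₂ u) := fun u₀ u =>
    (hT₂.hR u₀).eq_of_bel (hbel u)
  have hbb : Lav univ (b₁ ∘ b₂ ∘ s) := hb₁.comp (hb₂'.comp hs)
  refine ⟨b₁ ∘ b₂ ∘ s,
    { π := σ.π.add γ t
      f := σ.f ∘ (b₁ ∘ b₂ ∘ s)
      R := fun u₀ u => R₁ u₀ (b₂ (s u))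
      M := fun u => max (max (σ.M ((b₁ ∘ b₂) u)) (M₂ u)) (σ.n + 1)
      n := σ.n + 1 }, ?_, ?_, rfl⟩
  · refine { toTPre := hT₃, hM := hMM, I2 := ?_, I3 := ?_, hn := fun u => le_max_right _ _ }
    · intro u₀ u₁ u hu
      show R₁ u₀ (b₂ (s u)) = R₁ u₁ (b₂ (s u))
      rw [hRs, hRs]
      refine hE₂ u₀ u₁ u fun i hi => ?_
      have h1 : R₁ u₀ (b₂ (s u)) i = R₁ u₁ (b₂ (s u)) i :=
        hu i (hi.trans_le ((le_max_right _ _).trans (le_max_left _ _)))
      rwa [hRs, hRs] at h1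
    · intro u i hi
      show φ (σ.f (b₁ (b₂ (s u)))) i = R₁ u (b₂ (s u)) i
      rw [hRs]
      exact hI3 u i hi
  · have hp : (σ.π.add γ t).Pres (b₁ ∘ b₂ ∘ s) :=
      Prot.Pres.comp hb₁ (hb₂'.comp hs) hp₁ (Prot.Pres.comp hb₂' hs hp₂ hps)
    refine { hb := hbb, hp := hp.anti (Prot.le_add _ _ _), hπ := ⟨γ, t, rfl⟩, hf := rfl,
             hR := ?_, hM := ?_, hn := rfl }
    · intro u₀ hu₀ u
      exact hR₁ u₀ hu₀ (b₂ (s u))
    · intro u
      show σ.M (b₁ (b₂ (s u))) ≤ max (max (σ.M (b₁ (b₂ u))) (M₂ u)) (σ.n + 1)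
      obtain ⟨A, hA, -, hM⟩ := h.hM
      have h1 : Bel δ (b₁ (b₂ u)) (b₁ (b₂ (s u))) := hb₁.bel (hb₂'.bel (hbel u))
      rw [hM.eq_of (u := b₁ (b₂ u)) (v := b₁ (b₂ (s u))) fun ξ hξ => h1 ξ (hA hξ)]
      exact (le_max_left _ _).trans (le_max_left _ _)

/-- The result of the fusion. -/
structure TRun (δ : Λ) (φ : Om Λ → ℕ → Bool) (k : Om Λ → Om Λ) (π : ℕ → Prot Λ)
    (R : ℕ → Om Λ → Om Λ → ℕ → Bool) (M : ℕ → Om Λ → ℕ) : Prop where
  hk : Lav univ k
  hadd : ∀ n, ∃ γ t, π (n + 1) = (π n).add γ t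
  exh : ∀ γ, (∃ n, γ ∈ (π n).F) → ∀ t, ∃ n, γ ∈ (π n).F ∧ Nd ((π n).r γ) t
  hR : ∀ n u₀, CC (Iio δ) (R n u₀)
  hRc : ∀ n u₀ u₁, UC (π n) δ u₀ u₁ → R n u₀ = R n u₁
  hRs : ∀ n u₀, (∀ γ ∈ (π n).F, δ ≤ γ → (π (n + 1)).pos γ u₀ = (π n).pos γ u₀) →
    R (n + 1) u₀ = R n u₀
  hM : ∀ n, ∃ A ⊆ Iio δ, A.Countable ∧ Cts A (M n)
  hMn : ∀ n u, n ≤ M n u
  hMs : ∀ n u, M n u ≤ M (n + 1) u
  I2 : ∀ n u₀ u₁ u, (∀ i < M n u, R n u₀ u i = R n u₁ u i) → R n u₀ u = R n u₁ u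
  I3 : ∀ n u, ∀ i < M n u, φ (k u) i = R n u u i
  dev : ∀ n u, φ (k u) ≠ R n u u

theorem T4_run {δ : Λ} {φ : Om Λ → ℕ → Bool} (hφ : CC univ φ) (hNC : NC δ φ) :
    ∃ k π R M, TRun δ φ k π R M := by
  obtain ⟨σ₀, hσ₀, hn₀, -⟩ := T4_init hφ hNC
  obtain ⟨σ, b, k, h0, hstep, hk, hexh⟩ := fusion (I := univ) (St := {σ : TS Λ // TInv δ φ σ})
    (fun σ => σ.1.π) (fun σ b σ' => TStep δ σ.1 b σ'.1) (fun _ => subset_univ _)
    (fun σ b σ' h => ⟨h.hb, h.hp, by
      obtain ⟨γ, t, hπ⟩ := h.hπ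
      simp only [hπ]
      exact Prot.le_add _ _ _⟩)
    (fun σ γ _ t => by
      obtain ⟨b, σ', h1, h2, h3⟩ := T4_stage hφ hNC σ.2 γ t
      refine ⟨b, ⟨σ', h1⟩, h2, ?_⟩
      simp only [h3]
      exact Prot.served_add _ _ _)
    (fun σ => by
      obtain ⟨b, σ', h1, h2, -⟩ := T4_stage hφ hNC σ.2 δ []
      exact ⟨b, ⟨σ', h1⟩, h2⟩)
    ⟨σ₀, hσ₀⟩
  have hkL : ∀ n, Lav univ (k n) := fun n => (hk n).1
  have hkP : ∀ n, (σ n).1.π.Pres (k n) := fun n => (hk n).2.1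
  have hkb : ∀ n u, k n u = b n (k (n + 1) u) := fun n u => congrFun (hk n).2.2 u
  have hn : ∀ n, (σ n).1.n = n := by
    intro n
    induction n with
    | zero => rw [h0]; exact hn₀
    | succ n ih => rw [(hstep n).hn, ih]
  have hf : ∀ n u, (σ n).1.f (k n u) = (σ 0).1.f (k 0 u) := by
    intro n
    induction n with
    | zero => exact fun u => rfl
    | succ n ih =>
      intro u
      rw [(hstep n).hf, Function.comp_apply, ← hkb n u, ih u]
  have hUC : ∀ n u, (σ n).1.R (k n u) = (σ n).1.R u := fun n u =>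
    (σ n).2.hRc _ _ fun γ hγ _ => (hkP n).pos (hkL n) hγ u
  refine ⟨fun u => (σ 0).1.f (k 0 u), fun n => (σ n).1.π, fun n u₀ u => (σ n).1.R u₀ (k n u),
    fun n u => (σ n).1.M (k n u), ?_⟩
  refine
    { hk := (σ 0).2.hf.comp (hkL 0)
      hadd := fun n => (hstep n).hπ
      exh := hexh
      hR := fun n u₀ => CC.comp_lt ((σ n).2.hR u₀) (hkL n)
      hRc := fun n u₀ u₁ h => by
        funext u
        rw [(σ n).2.hRc u₀ u₁ h]
      hRs := fun n u₀ h => by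
        funext u
        rw [(hstep n).hR u₀ h, ← hkb n u]
      hM := fun n => by
        obtain ⟨A, hA, hc, hcts⟩ := (σ n).2.hM
        obtain ⟨A₁, -, hc₁, h₁⟩ := (hkL n).cts
        refine ⟨A ∪ (A₁ ∩ Iio δ), union_subset hA inter_subset_right,
          hc.union (hc₁.mono inter_subset_left), hcts.comp fun β hβ m => (h₁ β m).mono ?_⟩
        rintro ξ ⟨hξ, hξβ⟩
        rcases hξ with rfl | hξ
        · exact Or.inl hβ
        · exact Or.inr ⟨hξ, lt_of_le_of_lt hξβ (hA hβ)⟩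
      hMn := fun n u => by
        have h1 := (σ n).2.hn (k n u)
        rwa [hn n] at h1
      hMs := fun n u => by
        have h1 := (hstep n).hM (k (n + 1) u)
        rwa [← hkb n u] at h1
      I2 := fun n u₀ u₁ u h => (σ n).2.I2 u₀ u₁ (k n u) h
      I3 := fun n u i hi => by
        have h1 := (σ n).2.I3 (k n u) i hi
        rw [hf n u, hUC n u] at h1
        exact h1
      dev := fun n u => by
        have h1 := (σ n).2.dev (k n u)
        rw [hf n u, hUC n u] at h1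
        exact h1 }

/-- The references change infinitely often. -/
theorem TRun.changes {δ : Λ} {φ : Om Λ → ℕ → Bool} {k : Om Λ → Om Λ} {π : ℕ → Prot Λ}
    {R : ℕ → Om Λ → Om Λ → ℕ → Bool} {M : ℕ → Om Λ → ℕ} (h : TRun δ φ k π R M) (u : Om Λ)
    (N : ℕ) : ∃ n ≥ N, R (n + 1) u u ≠ R n u u := by
  by_contra hcon
  push Not at hcon
  have h1 : ∀ j, R (N + j) u u = R N u u := by
    intro j
    induction j with
    | zero => rfl
    | succ j ih => rw [← ih]; exact hcon (N + j) (by omega)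
  apply h.dev N u
  funext i
  have h2 := h.I3 (N + (i + 1)) u i (by have := h.hMn (N + (i + 1)) u; omega)
  rw [h2, h1]

/-- A point in the same cell which does not move. -/
lemma exists_still {δ : Λ} {φ : Om Λ → ℕ → Bool} {k : Om Λ → Om Λ} {π : ℕ → Prot Λ}
    {R : ℕ → Om Λ → Om Λ → ℕ → Bool} {M : ℕ → Om Λ → ℕ} (h : TRun δ φ k π R M) (u : Om Λ)
    (n : ℕ) : ∃ u₁, R (n + 1) u₁ = R n u := by
  classical
  obtain ⟨γ, t, hadd⟩ := h.hadd n
  by_cases hγ : γ ∈ (π n).F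
  · by_cases ht : Nd ((π n).r γ) t
    · set u₁ : Om Λ := Function.update u γ (fun i => if i = (π n).len γ u then
        (π n).r γ ((π n).pos γ u) + 1 else u γ i) with hu₁
      have hval : ∀ i, u₁ γ i = if i = (π n).len γ u then
        (π n).r γ ((π n).pos γ u) + 1 else u γ i := by
        intro i; simp [hu₁]
      have hlt : ∀ i < plen ((π n).r γ) (u γ), u₁ γ i = u γ i := by
        intro i hi
        rw [hval, if_neg]
        exact Nat.ne_of_lt hi
      have hlen : plen ((π n).r γ) (u₁ γ) = plen ((π n).r γ) (u γ) := by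
        apply plen_eq hlt
        have : u₁ γ (plen ((π n).r γ) (u γ)) = (π n).r γ ((π n).pos γ u) + 1 := by
          rw [hval]
          exact if_pos rfl
        rw [this]
        exact Nat.le_succ _
      have hpos : (π n).pos γ u₁ = (π n).pos γ u := by
        unfold Prot.pos
        rw [hlen]
        exact pre_eq_iff.2 hlt
      have huc : UC (π n) δ u₁ u := by
        intro ξ hξ _
        by_cases hξγ : ξ = γ
        · subst hξγ; exact hpos
        · have : u₁ ξ = u ξ := by simp [hu₁, Function.update_of_ne hξγ]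
          unfold Prot.pos
          rw [this]
      have hstill : ∀ ξ ∈ (π n).F, δ ≤ ξ → (π (n + 1)).pos ξ u₁ = (π n).pos ξ u₁ := by
        intro ξ hξ _
        rw [hadd]
        by_cases hξγ : ξ = γ
        · subst hξγ
          rw [Prot.pos_add_node hγ ht, if_neg]
          rintro ⟨h1, h2⟩
          have h3 : t.length = (π n).len ξ u := by
            rw [← h1, Prot.length_pos]
            exact hlen
          rw [h3, hval, if_pos rfl, ← hpos, h1] at h2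
          omega
        · exact Prot.pos_add_ne hξγ t u₁
      exact ⟨u₁, by rw [h.hRs n u₁ hstill, h.hRc n u₁ u huc]⟩
    · refine ⟨u, h.hRs n u fun ξ _ _ => ?_⟩
      rw [hadd, Prot.add_r_bad hγ ht]
  · refine ⟨u, h.hRs n u fun ξ hξ _ => ?_⟩
    rw [hadd]
    exact Prot.pos_add_ne (fun he => hγ (by rw [← he]; exact hξ)) t u

/-- A change of the reference is a record. -/
theorem TRun.record {δ : Λ} {φ : Om Λ → ℕ → Bool} {k : Om Λ → Om Λ} {π : ℕ → Prot Λ}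
    {R : ℕ → Om Λ → Om Λ → ℕ → Bool} {M : ℕ → Om Λ → ℕ} (h : TRun δ φ k π R M) {u : Om Λ}
    {n : ℕ} (hc : R (n + 1) u u ≠ R n u u) (u₀ : Om Λ) :
    pre (φ (k u)) (M (n + 1) u) ≠ pre (R n u₀ u) (M (n + 1) u) := by
  intro heq
  rw [pre_eq_iff] at heq
  have h1 : R n u u = R n u₀ u := by
    apply h.I2 n u u₀ u
    intro i hi
    rw [← h.I3 n u i hi]
    exact heq i (hi.trans_le (h.hMs n u))
  obtain ⟨u₁, hu₁⟩ := exists_still h u n
  apply hc
  rw [← hu₁]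
  apply h.I2 (n + 1) u u₁ u
  intro i hi
  rw [hu₁, h1, ← heq i hi, h.I3 (n + 1) u i hi]

/-- Without a move there is no record. -/
theorem TRun.norecord {δ : Λ} {φ : Om Λ → ℕ → Bool} {k : Om Λ → Om Λ} {π : ℕ → Prot Λ}
    {R : ℕ → Om Λ → Om Λ → ℕ → Bool} {M : ℕ → Om Λ → ℕ} (h : TRun δ φ k π R M) {u : Om Λ}
    {n : ℕ} (hc : ∀ γ ∈ (π n).F, δ ≤ γ → (π (n + 1)).pos γ u = (π n).pos γ u) :
    pre (φ (k u)) (M (n + 1) u) = pre (R n u u) (M (n + 1) u) := by
  rw [pre_eq_iff]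
  intro i hi
  rw [h.I3 (n + 1) u i hi, h.hRs n u hc]

/-! ### Codes and thinning -/

/-- The stage at which the node `t` at the coordinate `γ` is protected for the first time. -/
noncomputable def birth (π : ℕ → Prot Λ) (γ : Λ) (t : List ℕ) : ℕ :=
  sInf {n | γ ∈ (π n).F ∧ Nd ((π n).r γ) t}

/-- The last `L` binary digits of `r`. -/
def wd (L r : ℕ) : List Bool := pre (fun i => Nat.testBit r i) L

/-- The number with binary digits `z 0, …, z (L-1)`. -/
def nb (z : ℕ → Bool) : ℕ → ℕ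
  | 0 => 0
  | L + 1 => nb z L + if z L then 2 ^ L else 0

@[simp] lemma length_wd (L r : ℕ) : (wd L r).length = L := by simp [wd]

lemma nb_lt (z : ℕ → Bool) (L : ℕ) : nb z L < 2 ^ L := by
  induction L with
  | zero => simp [nb]
  | succ L ih =>
    rw [nb, pow_succ]
    split_ifs <;> omega

lemma testBit_nb (z : ℕ → Bool) (L i : ℕ) (hi : i < L) : Nat.testBit (nb z L) i = z i := by
  induction L with
  | zero => omega
  | succ L ih =>
    have h1 : nb z (L + 1) = 2 ^ L * (if z L then 1 else 0) + nb z L := by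
      rw [nb]
      split_ifs <;> omega
    rw [h1, Nat.testBit_two_pow_mul_add _ (nb_lt z L)]
    split_ifs with h2 h3
    · exact ih h2
    · have : i = L := by omega
      subst this
      simp [h3]
    · have : i = L := by omega
      subst this
      simp [h3]

lemma wd_nb (z : ℕ → Bool) (L y : ℕ) : wd L (2 ^ L * y + nb z L) = pre z L := by
  unfold wd
  rw [pre_eq_iff]
  intro i hi
  rw [Nat.testBit_two_pow_mul_add _ (nb_lt z L), if_pos hi]
  exact testBit_nb z L i hi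

/-- The thinned branch: the list of the first `n` entries. -/
def thl (L : List ℕ → ℕ) (z : ℕ → Bool) (y : ℕ → ℕ) : ℕ → List ℕ
  | 0 => []
  | n + 1 => thl L z y n ++ [2 ^ (L (thl L z y n)) * y n + nb z (L (thl L z y n))]

/-- The thinned branch. -/
def thb (L : List ℕ → ℕ) (z : ℕ → Bool) (y : ℕ → ℕ) (j : ℕ) : ℕ :=
  2 ^ (L (thl L z y j)) * y j + nb z (L (thl L z y j))

lemma pre_thb (L : List ℕ → ℕ) (z : ℕ → Bool) (y : ℕ → ℕ) (j : ℕ) :
    pre (thb L z y) j = thl L z y j := by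
  induction j with
  | zero => rfl
  | succ j ih =>
    rw [pre_succ, ih]
    rfl

open Classical in
/-- The thinning. -/
noncomputable def omg (δ : Λ) (π : ℕ → Prot Λ) (γ : Λ) (z : ℕ → Bool) (y : ℕ → ℕ) : ℕ → ℕ :=
  if δ ≤ γ ∧ ∃ n, γ ∈ (π n).F then thb (birth π γ) z y else y

lemma thl_congr (L : List ℕ → ℕ) (z : ℕ → Bool) {y y' : ℕ → ℕ} {l : ℕ}
    (h : ∀ i < l, y' i = y i) : ∀ j ≤ l, thl L z y' j = thl L z y j := by
  intro j
  induction j with
  | zero => intro _; rfl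
  | succ j ih =>
    intro hj
    rw [thl, thl, ih (by omega), h j (by omega)]

lemma nb_congr {z z' : ℕ → Bool} {L : ℕ} (h : ∀ i < L, z' i = z i) : nb z' L = nb z L := by
  induction L with
  | zero => rfl
  | succ L ih => rw [nb, nb, ih fun i hi => h i (by omega), h L (by omega)]

lemma thl_cont (L : List ℕ → ℕ) (z : ℕ → Bool) (y : ℕ → ℕ) (j : ℕ) :
    ∃ N, ∀ z' : ℕ → Bool, (∀ i < N, z' i = z i) → thl L z' y j = thl L z y j := by
  induction j with
  | zero => exact ⟨0, fun _ _ => rfl⟩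
  | succ j ih =>
    obtain ⟨N, hN⟩ := ih
    refine ⟨max N (L (thl L z y j)), fun z' hz' => ?_⟩
    rw [thl, thl, hN z' fun i hi => hz' i (lt_of_lt_of_le hi (le_max_left _ _)),
      nb_congr fun i hi => hz' i (lt_of_lt_of_le hi (le_max_right _ _))]

lemma thin_omg (δ : Λ) (π : ℕ → Prot Λ) : Thin δ (⋃ n, (↑(π n).F : Set Λ)) (omg δ π) := by
  classical
  refine ⟨countable_iUnion fun n => ((π n).F.finite_toSet).countable, ?_, ?_, ?_, ?_⟩
  · intro γ hγ z y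
    unfold omg
    rw [if_neg]
    rintro ⟨h1, n, h2⟩
    rcases hγ with hγ | hγ
    · exact absurd h1 (not_le.2 hγ)
    · exact hγ (mem_iUnion.2 ⟨n, h2⟩)
  · intro γ z y y' l h i hi
    unfold omg
    split_ifs
    · unfold thb
      rw [thl_congr (birth π γ) z h i hi.le, h i hi]
    · exact h i hi
  · intro γ z y y' l h hl
    unfold omg
    split_ifs
    · unfold thb
      rw [thl_congr (birth π γ) z h l le_rfl]
      have : 2 ^ (birth π γ (thl (birth π γ) z y l)) * y l <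
          2 ^ (birth π γ (thl (birth π γ) z y l)) * y' l :=
        Nat.mul_lt_mul_of_pos_left hl (by positivity)
      omega
    · exact hl
  · intro γ z y l
    unfold omg
    split_ifs
    · obtain ⟨N, hN⟩ := thl_cont (birth π γ) z y l
      refine ⟨max N (birth π γ (thl (birth π γ) z y l)), fun z' hz' => ?_⟩
      unfold thb
      rw [hN z' fun i hi => hz' i (lt_of_lt_of_le hi (le_max_left _ _)),
        nb_congr fun i hi => hz' i (lt_of_lt_of_le hi (le_max_right _ _))]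
    · exact ⟨0, fun _ _ => rfl⟩

/-- The entries of a thinned point carry the right codes. -/
lemma wd_omg {δ : Λ} {π : ℕ → Prot Λ} {γ : Λ} (hγ : δ ≤ γ) (hF : ∃ n, γ ∈ (π n).F)
    (z : ℕ → Bool) (y : ℕ → ℕ) (j : ℕ) :
    wd (birth π γ (pre (omg δ π γ z y) j)) (omg δ π γ z y j) =
      pre z (birth π γ (pre (omg δ π γ z y) j)) := by
  classical
  have h1 : omg δ π γ z y = thb (birth π γ) z y := by
    unfold omg
    rw [if_pos ⟨hγ, hF⟩]
  rw [h1, pre_thb]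
  exact wd_nb z _ (y j)

/-- If some upper position changes then the point goes through the new node. -/
theorem moved {δ : Λ} {π : Prot Λ} {γ : Λ} {t : List ℕ} {u : Om Λ}
    (h : ¬ ∀ ξ ∈ π.F, δ ≤ ξ → (π.add γ t).pos ξ u = π.pos ξ u) :
    δ ≤ γ ∧ γ ∈ π.F ∧ Nd (π.r γ) t ∧ π.pos γ u = t ∧ u γ t.length = π.r γ t := by
  classical
  push Not at h
  obtain ⟨ξ, hξ, hδ, hne⟩ := h
  by_cases hξγ : ξ = γ
  · subst hξγ
    by_cases ht : Nd (π.r ξ) t
    · rw [Prot.pos_add_node hξ ht] at hne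
      by_cases hc : π.pos ξ u = t ∧ u ξ t.length = π.r ξ t
      · exact ⟨hδ, hξ, ht, hc.1, hc.2⟩
      · exact absurd (if_neg hc) hne
    · exact absurd (by rw [Prot.add_r_bad hξ ht]) hne
  · exact absurd (Prot.pos_add_ne hξγ t u) hne

lemma finite_nd (r : List ℕ →₀ ℕ) : {t : List ℕ | Nd r t}.Finite := by
  classical
  have hsub : {t : List ℕ | Nd r t} ⊆
      ↑(insert ([] : List ℕ) (r.support.biUnion fun s =>
        (Finset.range (r s)).image fun a => s ++ [a])) := by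
    intro t ht
    rcases List.eq_nil_or_concat t with rfl | ⟨s, a, hsa⟩
    · simp
    · rw [List.concat_eq_append] at hsa
      subst hsa
      have h1 := ht s.length (by simp)
      have h2 : (s ++ [a]).take s.length = s := by simp
      rw [h2] at h1
      have h3 : (s ++ [a])[s.length]'(by simp) = a := by simp
      rw [h3] at h1
      rw [Finset.mem_coe, Finset.mem_insert]
      right
      rw [Finset.mem_biUnion]
      exact ⟨s, Finsupp.mem_support_iff.2 (by omega),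
        Finset.mem_image.2 ⟨a, Finset.mem_range.2 h1, rfl⟩⟩
  exact (Finset.finite_toSet _).subset hsub

/-- A point leaves only finitely many nodes born before `L`. -/
theorem finite_moves {π : ℕ → Prot Λ} {g : ℕ → Λ} {t : ℕ → List ℕ}
    (hadd : ∀ n, π (n + 1) = (π n).add (g n) (t n)) (u : Om Λ) (L : ℕ) :
    {n | g n ∈ (π n).F ∧ Nd ((π n).r (g n)) (t n) ∧ (π n).pos (g n) u = t n ∧
      u (g n) (t n).length = (π n).r (g n) (t n) ∧ birth π (g n) (t n) < L}.Finite := by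
  classical
  have hle : ∀ n j, Prot.LE (π n) (π (n + j)) := by
    intro n j
    induction j with
    | zero => exact Prot.LE.refl _
    | succ j ih =>
      refine ih.trans ?_
      have := hadd (n + j)
      rw [show n + (j + 1) = n + j + 1 from rfl, this]
      exact Prot.le_add _ _ _
  have hfin : (⋃ m ∈ Finset.range L, ⋃ γ ∈ (π m).F,
      (fun s => (γ, s)) '' {s : List ℕ | Nd ((π m).r γ) s}).Finite := by
    refine Set.Finite.biUnion (Finset.finite_toSet _) fun m _ => ?_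
    refine Set.Finite.biUnion (Finset.finite_toSet _) fun γ _ => ?_
    exact (finite_nd _).image _
  refine Set.Finite.of_finite_image (f := fun n => (g n, t n)) (hfin.subset ?_) ?_
  · rintro _ ⟨n, ⟨h1, h2, h3, h4, h5⟩, rfl⟩
    have hmem : birth π (g n) (t n) ∈ {m | g n ∈ (π m).F ∧ Nd ((π m).r (g n)) (t n)} :=
      Nat.sInf_mem ⟨n, h1, h2⟩
    refine mem_iUnion₂.2 ⟨birth π (g n) (t n), Finset.mem_range.2 h5, ?_⟩
    exact mem_iUnion₂.2 ⟨g n, hmem.1, ⟨t n, hmem.2, rfl⟩⟩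
  · have key : ∀ n n', n < n' → g n ∈ (π n).F ∧ Nd ((π n).r (g n)) (t n) ∧
        (π n).pos (g n) u = t n ∧ u (g n) (t n).length = (π n).r (g n) (t n) →
        g n' = g n → t n' = t n → (π n').pos (g n') u ≠ t n' := by
      rintro n n' hlt ⟨h1, h2, h3, h4⟩ hg ht hpos
      obtain ⟨j, rfl⟩ := Nat.exists_eq_add_of_lt hlt
      have h5 : (π (n + 1)).pos (g n) u = t n ++ [(π n).r (g n) (t n)] := by
        rw [hadd n, Prot.pos_add_node h1 h2, if_pos ⟨h3, h4⟩]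
      have h6 : (π (n + 1)).len (g n) u = (t n).length + 1 := by
        rw [← Prot.length_pos, h5]
        simp
      have h7 : (π (n + j + 1)).len (g n) u = (t n).length := by
        rw [← Prot.length_pos, ← hg, hpos, ht]
      have h8 := hle (n + 1) j
      have hmem : g n ∈ (π (n + 1)).F := by
        have := (hle n 1).1 h1
        exact this
      have h9 : (π (n + 1)).len (g n) u ≤ (π (n + j + 1)).len (g n) u := by
        have h10 : n + 1 + j = n + j + 1 := by omega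
        rw [← h10]
        exact plen_mono (h8.2 (g n) hmem) (u (g n))
      omega
    intro n hn n' hn' heq
    obtain ⟨h1, h2, h3, h4, -⟩ := hn
    obtain ⟨h1', h2', h3', h4', -⟩ := hn'
    have hg : g n = g n' := (Prod.mk.inj heq).1
    have ht : t n = t n' := (Prod.mk.inj heq).2
    by_contra hne
    rcases lt_or_gt_of_ne hne with hlt | hlt
    · exact key n n' hlt ⟨h1, h2, h3, h4⟩ hg.symm ht.symm h3'
    · exact key n' n hlt ⟨h1', h2', h3', h4'⟩ hg ht h3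

open Classical in
/-- The code real. -/
noncomputable def codeR (R : ℕ → Om Λ → Om Λ → ℕ → Bool) (M : ℕ → Om Λ → ℕ)
    (reps : ℕ → List (Om Λ)) (code : ℕ → List Bool) (u : Om Λ) (j : ℕ) : Bool :=
  decide (∃ n, j = Encodable.encode (M (n + 1) u,
    (reps n).map (fun u₀ => pre (R n u₀ u) (M (n + 1) u)), code n))

lemma codeR_iff (R : ℕ → Om Λ → Om Λ → ℕ → Bool) (M : ℕ → Om Λ → ℕ)
    (reps : ℕ → List (Om Λ)) (code : ℕ → List Bool) (u : Om Λ) (j : ℕ) :
    codeR R M reps code u j = true ↔ ∃ n, j = Encodable.encode (M (n + 1) u,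
      (reps n).map (fun u₀ => pre (R n u₀ u) (M (n + 1) u)), code n) := by
  unfold codeR
  exact @decide_eq_true_iff _ (Classical.propDecidable _)

lemma cts_mapList {A : Set Λ} {α : Type} (l : List (Om Λ)) (f : Om Λ → Om Λ → α)
    (h : ∀ u₀ ∈ l, Cts A (f u₀)) : Cts A (fun u => l.map (fun u₀ => f u₀ u)) := by
  induction l with
  | nil => exact Cts.const _ _
  | cons a l ih =>
    have h1 := h a (by simp)
    have h2 := ih fun u₀ hu₀ => h u₀ (List.mem_cons_of_mem _ hu₀)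
    exact h1.map₂ h2 (fun x y => x :: y)

theorem cc_codeR {δ : Λ} {R : ℕ → Om Λ → Om Λ → ℕ → Bool} {M : ℕ → Om Λ → ℕ}
    (hR : ∀ n u₀, CC (Iio δ) (R n u₀)) (hM : ∀ n, ∃ A ⊆ Iio δ, A.Countable ∧ Cts A (M n))
    (hMn : ∀ n u, n ≤ M n u) (reps : ℕ → List (Om Λ)) (code : ℕ → List Bool) :
    CC (Iio δ) (codeR R M reps code) := by
  classical
  choose A hAδ hAc hA using hM
  choose B hBδ hBc hB using hR
  set C : Set Λ := (⋃ n, A n) ∪ ⋃ n, ⋃ u₀ ∈ {v | v ∈ reps n}, B n u₀ with hC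
  have hCδ : C ⊆ Iio δ := by
    apply union_subset
    · exact iUnion_subset fun n => hAδ n
    · exact iUnion_subset fun n => iUnion₂_subset fun u₀ _ => hBδ n u₀
  have hCc : C.Countable := by
    apply Set.Countable.union
    · exact countable_iUnion fun n => hAc n
    · refine countable_iUnion fun n => Set.Countable.biUnion ?_ fun u₀ _ => hBc n u₀
      exact (List.finite_toSet (reps n)).countable
  refine ⟨C, hCδ, hCc, fun j => ?_⟩
  have hstep : ∀ n, Cts C (fun u => j = Encodable.encode (M (n + 1) u,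
      (reps n).map (fun u₀ => pre (R n u₀ u) (M (n + 1) u)), code n)) := by
    intro n
    have h1 : Cts C (M (n + 1)) := (hA (n + 1)).mono
      ((subset_iUnion A (n + 1)).trans subset_union_left)
    have h2 : ∀ m, Cts C (fun u => (reps n).map (fun u₀ => pre (R n u₀ u) m)) := by
      intro m
      refine cts_mapList (reps n) (fun u₀ u => pre (R n u₀ u) m) fun u₀ hu₀ => ?_
      refine Cts.pre _ m fun i _ => (hB n u₀ i).mono ?_
      intro ξ hξ
      exact Or.inr (mem_iUnion.2 ⟨n, mem_iUnion₂.2 ⟨u₀, hu₀, hξ⟩⟩)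
    exact h1.bind (g := fun m u => j = Encodable.encode (m,
      (reps n).map (fun u₀ => pre (R n u₀ u) m), code n)) fun m =>
        (h2 m).map (fun l => j = Encodable.encode (m, l, code n))
  intro u
  obtain ⟨ℓ, h1, h2⟩ := Cts.finset (Finset.range (j + 1)) _ (fun n _ => hstep n) u
  refine ⟨ℓ, h1, fun v hv => ?_⟩
  rw [Bool.eq_iff_iff, codeR_iff, codeR_iff]
  have hbd : ∀ w n, j = Encodable.encode (M (n + 1) w,
      (reps n).map (fun u₀ => pre (R n u₀ w) (M (n + 1) w)), code n) → n ∈ Finset.range (j + 1) := by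
    intro w n hn
    have h3 := hMn (n + 1) w
    have h4 : M (n + 1) w ≤ j := by
      rw [hn, Encodable.encode_prod_val]
      exact Nat.left_le_pair _ _
    exact Finset.mem_range.2 (by omega)
  constructor
  · rintro ⟨n, hn⟩
    refine ⟨n, ?_⟩
    have h3 := h2 v hv n (hbd v n hn)
    exact h3 ▸ hn
  · rintro ⟨n, hn⟩
    refine ⟨n, ?_⟩
    have h3 := h2 v hv n (hbd u n hn)
    exact h3 ▸ hn

/-- THEOREM T4 -/
theorem T4 {δ : Λ} {φ : Om Λ → ℕ → Bool} (hφ : CC univ φ) (hNC : NC δ φ) :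
    ∃ (k : Om Λ → Om Λ) (c : Om Λ → ℕ → Bool) (A : Set Λ)
      (ω : Λ → (ℕ → Bool) → (ℕ → ℕ) → ℕ → ℕ), Lav univ k ∧ CC (Iio δ) c ∧ Thin δ A ω ∧
      ∀ z u, GR (c u) (φ (k (fun γ => ω γ z (u γ)))) z := by
  obtain ⟨k, π, R, M, h⟩ := T4_run hφ hNC
  have hsm : ∀ n, ∃ l : List (Om Λ), ∀ u, ∃ u₀ ∈ l, (π n).Cell u u₀ := fun n => by
    obtain ⟨s, hs⟩ := (π n).finite_cells
    exact ⟨s.toList, fun u => by simpa using hs u⟩
  choose reps hreps using hsm
  choose g t hadd using h.hadd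
  set code : ℕ → List Bool := fun n => wd (birth π (g n) (t n)) ((π n).r (g n) (t n)) with hcode
  refine ⟨k, codeR R M reps code, _, omg δ π, h.hk,
    cc_codeR h.hR h.hM h.hMn reps code, thin_omg δ π, ?_⟩
  intro z u
  set u' : Om Λ := fun γ => omg δ π γ z (u γ) with hu'
  -- `c u = c u'`
  have hbel : Bel δ u u' := fun γ hγ => (thin_omg δ π).low γ (Or.inl hγ) z (u γ)
  have hcu : codeR R M reps code u = codeR R M reps code u' :=
    ((cc_codeR h.hR h.hM h.hMn reps code).eq_of_bel hbel).symm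
  rw [hcu]
  -- moved stages
  have key : ∀ n, pre (φ (k u')) (M (n + 1) u') ∉
      (reps n).map (fun u₀ => pre (R n u₀ u') (M (n + 1) u')) →
      (δ ≤ g n ∧ g n ∈ (π n).F ∧ Nd ((π n).r (g n)) (t n) ∧ (π n).pos (g n) u' = t n ∧
        u' (g n) (t n).length = (π n).r (g n) (t n)) ∧
        code n = pre z (birth π (g n) (t n)) := by
    intro n hn
    have hmv : ¬ ∀ ξ ∈ (π n).F, δ ≤ ξ → ((π n).add (g n) (t n)).pos ξ u' = (π n).pos ξ u' := by
      intro hall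
      rw [← hadd n] at hall
      have h1 := h.norecord hall
      obtain ⟨u₀, hu₀, hcell⟩ := hreps n u'
      apply hn
      rw [h1]
      refine List.mem_map.2 ⟨u₀, hu₀, ?_⟩
      rw [h.hRc n u₀ u' (fun γ hγ _ => (hcell γ hγ).symm)]
    obtain ⟨h1, h2, h3, h4, h5⟩ := moved hmv
    refine ⟨⟨h1, h2, h3, h4, h5⟩, ?_⟩
    have h6 : pre (u' (g n)) (t n).length = t n := by
      have h7 : pre (u' (g n)) ((π n).pos (g n) u').length = (π n).pos (g n) u' := by
        rw [Prot.length_pos]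
        rfl
      rwa [h4] at h7
    have h7 := wd_omg (δ := δ) (π := π) h1 ⟨n, h2⟩ z (u (g n)) (t n).length
    change wd (birth π (g n) (pre (u' (g n)) (t n).length)) (u' (g n) (t n).length) =
      pre z (birth π (g n) (pre (u' (g n)) (t n).length)) at h7
    rw [h6, h5] at h7
    exact h7
  refine ⟨fun m S w hc hS => ?_, fun L => ?_⟩
  · obtain ⟨n, hn⟩ := (codeR_iff _ _ _ _ _ _).1 hc
    have h1 := Encodable.encode_injective hn
    rw [Prod.mk.injEq, Prod.mk.injEq] at h1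
    obtain ⟨rfl, rfl, rfl⟩ := h1
    have h2 := (key n hS).2
    rw [h2, length_pre]
  · by_contra hcon
    have hfin := finite_moves hadd u' L
    have hsub : {n | R (n + 1) u' u' ≠ R n u' u'} ⊆
        {n | g n ∈ (π n).F ∧ Nd ((π n).r (g n)) (t n) ∧ (π n).pos (g n) u' = t n ∧
          u' (g n) (t n).length = (π n).r (g n) (t n) ∧ birth π (g n) (t n) < L} := by
      intro n hn
      have hrec : pre (φ (k u')) (M (n + 1) u') ∉
          (reps n).map (fun u₀ => pre (R n u₀ u') (M (n + 1) u')) := by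
        intro hmem
        obtain ⟨u₀, -, h1⟩ := List.mem_map.1 hmem
        exact h.record hn u₀ h1.symm
      obtain ⟨⟨h1, h2, h3, h4, h5⟩, h6⟩ := key n hrec
      refine ⟨h2, h3, h4, h5, ?_⟩
      by_contra hlt
      apply hcon
      refine ⟨M (n + 1) u', (reps n).map (fun u₀ => pre (R n u₀ u') (M (n + 1) u')), code n,
        ?_, hrec, ?_⟩
      · exact (codeR_iff _ _ _ _ _ _).2 ⟨n, rfl⟩
      · rw [h6, length_pre]
        exact not_lt.1 hlt
    have hfin2 := hfin.subset hsub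
    obtain ⟨N, hN⟩ := hfin2.bddAbove
    obtain ⟨n, hn1, hn2⟩ := h.changes u' (N + 1)
    have := hN hn2
    omega

end Pool.LV
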